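import Mathlib

/-!
# MP_4cd976_an, block D: density of tied path maps (spiral version).  Definitions.

The three interfaces of the blocks:
* `TiedBound`  (output of block K): the bound `|A_2| ≤ 3` for the slices of tied rational functions.
* `SliceBound` (output of block D): the bound `|h''(0) + u g''(0)| ≤ 6 |h'(0) + u g'(0)|` for all
  injective sense preserving harmonic maps `h + conj g` of the unit disk.
-/

open Complex Filter Topology

namespace Pool.Agent.Lib.MP4cd976.D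

/-- The cross product of two plane vectors (complex numbers). -/
def cr (u v : ℂ) : ℝ := u.re * v.im - u.im * v.re

/-- The rational function of a path map with nested ties: `a i` is tied with `b i`. -/
noncomputable def HC (K : ℕ) (κ : ℂ) (a b : ℕ → ℝ) (r : ℕ → ℂ) (X : ℂ) : ℂ :=
  κ * (X + I) ^ 2 + ∑ i ∈ Finset.range K, r i * (1 / (X - a i) - 1 / (X - b i))

/-- The slice of `HC` in the direction with `u = e^{2 i θ}` (times `e^{iθ}`). -/
noncomputable def HU (K : ℕ) (κ : ℂ) (a b : ℕ → ℝ) (r : ℕ → ℂ) (u X : ℂ) : ℂ :=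
  κ * (X + I) ^ 2 + u * (starRingEnd ℂ κ * (X - I) ^ 2) +
    ∑ i ∈ Finset.range K, (r i + u * starRingEnd ℂ (r i)) * (1 / (X - a i) - 1 / (X - b i))

/-- The derivative of `HU` with respect to `X`. -/
noncomputable def HU' (K : ℕ) (κ : ℂ) (a b : ℕ → ℝ) (r : ℕ → ℂ) (u X : ℂ) : ℂ :=
  2 * κ * (X + I) + u * (2 * starRingEnd ℂ κ * (X - I)) -
    ∑ i ∈ Finset.range K, (r i + u * starRingEnd ℂ (r i)) *
      (1 / (X - a i) ^ 2 - 1 / (X - b i) ^ 2)

/-- Data of a tied path map: nested nodes `a (K-1) < ... < a 0 < b 0 < ... < b (K-1)`,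
nonzero residues, and no zero of `HC` in the closed upper half plane. -/
structure Tied (K : ℕ) (κ : ℂ) (a b : ℕ → ℝ) (r : ℕ → ℂ) : Prop where
  κ0 : κ ≠ 0
  anti : ∀ i j, i < j → j < K → a j < a i
  mono : ∀ i j, i < j → j < K → b i < b j
  ab : ∀ i j, i < K → j < K → a i < b j
  r0 : ∀ i, i < K → r i ≠ 0
  nz : ∀ X : ℂ, 0 ≤ X.im → (∀ i, i < K → X ≠ (a i : ℂ) ∧ X ≠ (b i : ℂ)) → HC K κ a b r X ≠ 0

/-- Output of block K: `|A_2| ≤ 3` for every slice of every tied function, at every point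
of the upper half plane (`A_2 = 1 + i y H'/H`). -/
def TiedBound : Prop :=
  ∀ (K : ℕ) (κ : ℂ) (a b : ℕ → ℝ) (r : ℕ → ℂ), Tied K κ a b r →
    ∀ u : ℂ, ‖u‖ = 1 → ∀ z : ℂ, 0 < z.im →
      ‖HU K κ a b r u z + I * z.im * HU' K κ a b r u z‖ ≤ 3 * ‖HU K κ a b r u z‖

/-- Output of block D. -/
def SliceBound : Prop :=
  ∀ h g : ℂ → ℂ, DifferentiableOn ℂ h (Metric.ball (0 : ℂ) 1) →
    DifferentiableOn ℂ g (Metric.ball (0 : ℂ) 1) →
    (∀ z ∈ Metric.ball (0 : ℂ) 1, ‖deriv g z‖ < ‖deriv h z‖) →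
    Set.InjOn (fun z => h z + starRingEnd ℂ (g z)) (Metric.ball (0 : ℂ) 1) →
    ∀ u : ℂ, ‖u‖ = 1 →
      ‖deriv (deriv h) 0 + u * deriv (deriv g) 0‖ ≤ 6 * ‖deriv h 0 + u * deriv g 0‖

/-- The function of a spiral word `W K, ..., W p | W q, ..., W K` (gate `W p | W q` at `τ`):
jump `W (i+1) → W i` at `a i` (`p ≤ i < K`), jump `W p → W q` at `τ`,
jump `W i → W (i+1)` at `b i` (`q ≤ i < K`). -/
noncomputable def HG (K p q : ℕ) (W : ℕ → ℂ) (κ : ℂ) (a b : ℕ → ℝ) (τ : ℝ) (X : ℂ) : ℂ :=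
  κ * (X + I) ^ 2 + ∑ i ∈ Finset.Ico p K, (W i - W (i + 1)) / (X - a i) +
    ∑ i ∈ Finset.Ico q K, (W (i + 1) - W i) / (X - b i) + (W q - W p) / (X - τ)

/-- `Gate K p q W`: the word `W K, ..., W p | W q, ..., W K` is realised by a function without
zeros in the closed upper half plane. -/
def Gate (K p q : ℕ) (W : ℕ → ℂ) : Prop :=
  ∃ (κ : ℂ) (a b : ℕ → ℝ) (τ : ℝ), κ ≠ 0 ∧
    (∀ i j, p ≤ i → i < j → j < K → a j < a i) ∧
    (∀ i j, q ≤ i → i < j → j < K → b i < b j) ∧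
    (∀ i, p ≤ i → i < K → a i < τ) ∧ (∀ i, q ≤ i → i < K → τ < b i) ∧
    ∀ X : ℂ, 0 ≤ X.im → (∀ i, p ≤ i → i < K → X ≠ (a i : ℂ)) → X ≠ (τ : ℂ) →
      (∀ i, q ≤ i → i < K → X ≠ (b i : ℂ)) → HG K p q W κ a b τ X ≠ 0

/-- The harmonic map. -/
noncomputable def Fm (h g : ℂ → ℂ) (z : ℂ) : ℂ := h z + starRingEnd ℂ (g z)

/-- A harmonic map as used inside block D: injective and sense preserving on a disk of radius
`ρ > 1`, normalised by `h 0 = g 0 = 0`, `h' 0 = 1`, `g' 0 = 0`. -/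
structure Nice (ρ : ℝ) (h g : ℂ → ℂ) : Prop where
  ρ1 : 1 < ρ
  dh : DifferentiableOn ℂ h (Metric.ball (0 : ℂ) ρ)
  dg : DifferentiableOn ℂ g (Metric.ball (0 : ℂ) ρ)
  h0 : h 0 = 0
  g0 : g 0 = 0
  h1 : deriv h 0 = 1
  g1 : deriv g 0 = 0
  sp : ∀ z ∈ Metric.ball (0 : ℂ) ρ, ‖deriv g z‖ < ‖deriv h z‖
  inj : Set.InjOn (Fm h g) (Metric.ball (0 : ℂ) ρ)

/-- `e(x) = exp(i x)`. -/
noncomputable def ex (x : ℝ) : ℂ := Complex.exp (x * I)

/-- The spiral of vertices for the mesh size `N` (block D, module VTX). -/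
structure Spiral (N : ℕ) (F : ℂ → ℂ) (L : ℝ) (W : ℕ → ℂ) : Prop where
  L0 : 0 < L
  inner : ∀ n, n < N → W n = F (ex (-(2 * Real.pi * n / N)))
  outer : ∀ n, n < N → W (N * N + n) = L * ex (-(2 * Real.pi * n / N))
  tri1 : ∀ n, 1 ≤ n → n ≤ N * N →
    0 < cr (W (n - 1) - W (n + N - 1)) (W n - W (n + N - 1))
  tri2 : ∀ n, 1 ≤ n → n ≤ N * N →
    0 < cr (W (n + N - 2) - W (n + N - 1)) (W (n - 1) - W (n + N - 1))

end Pool.Agent.Lib.MP4cd976.D
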