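import Pool.Agent.Lib.MP_4cd976_an.DN.GLU

section
/-!
# The exterior piece (MP_4cd976_an, block D)

`κ (X + i)² + η ∑ c_j / (X - t_j)` has no zero in the closed upper half plane for small `η > 0`
as soon as `0 < Im (c_j / (κ (t_j + i)²))` for all `j`; in particular the jumps of a clockwise
regular polygon form a good exterior word.
-/
set_option autoImplicit false

open Complex Filter Topology

namespace Pool.Agent.Lib.MP4cd976.Glu

theorem D_eq_zero {L : List (ℝ × ℂ)} {X : ℂ} (h : D L X = 0) : ∃ p ∈ L, X = p.1 := by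
  by_contra hcon
  push Not at hcon
  exact D_ne_zero hcon h

theorem small_nz {L : List (ℝ × ℂ)} (hL : SL L) {κ : ℂ} (hκ : κ ≠ 0)
    (h : ∀ p ∈ L, 0 < (p.2 / (κ * (p.1 + I) ^ 2)).im) :
    ∀ᶠ η : ℝ in 𝓝[>] 0, ∀ X : ℂ, 0 ≤ X.im → κ * (X + I) ^ 2 * D L X + η * N L X ≠ 0 := by
  by_contra hcon
  set T : Set (ℝ × ℂ) :=
    {p | 0 ≤ p.2.im ∧ κ * (p.2 + I) ^ 2 * D L p.2 + p.1 * N L p.2 = 0} with hT
  have hfr : ∃ᶠ p in comap (Prod.fst : ℝ × ℂ → ℝ) (𝓝[>] 0), p ∈ T := by
    intro hno
    rw [Filter.eventually_comap] at hno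
    apply hcon
    filter_upwards [hno] with ε hε X hX h0
    exact hε (ε, X) rfl ⟨hX, h0⟩
  have := Filter.frequently_mem_iff_neBot.1 hfr
  set u : Ultrafilter (ℝ × ℂ) := Ultrafilter.of (comap (Prod.fst : ℝ × ℂ → ℝ) (𝓝[>] 0) ⊓ 𝓟 T)
    with hu
  have hul : (u : Filter (ℝ × ℂ)) ≤ comap (Prod.fst : ℝ × ℂ → ℝ) (𝓝[>] 0) ⊓ 𝓟 T :=
    Ultrafilter.of_le _
  have hT' : ∀ᶠ p in (u : Filter (ℝ × ℂ)), p ∈ T := hul.trans inf_le_right (mem_principal_self T)
  have hε : Tendsto (Prod.fst : ℝ × ℂ → ℝ) u (𝓝[>] 0) :=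
    tendsto_comap.mono_left (hul.trans inf_le_left)
  have hε0 : Tendsto (Prod.fst : ℝ × ℂ → ℝ) u (𝓝 0) := hε.mono_right nhdsWithin_le_nhds
  have hεpos : ∀ᶠ p in (u : Filter (ℝ × ℂ)), 0 < p.1 := hε self_mem_nhdsWithin
  have hεc : Tendsto (fun p : ℝ × ℂ => (p.1 : ℂ)) u (𝓝 0) := by
    have h := (Complex.continuous_ofReal.tendsto 0).comp hε0
    rw [Complex.ofReal_zero] at h
    exact h
  rcases ultra_cases (u.map Prod.snd) with ⟨b, hb⟩ | hXinf
  · have hXb : Tendsto (Prod.snd : ℝ × ℂ → ℂ) u (𝓝 b) := hb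
    have him : 0 ≤ b.im := by
      refine ge_of_tendsto ((Complex.continuous_im.tendsto b).comp hXb) ?_
      filter_upwards [hT'] with p hp
      exact hp.1
    have hc1 : Continuous fun X : ℂ => κ * (X + I) ^ 2 * D L X := by
      have := continuous_D L
      fun_prop
    have h0 : κ * (b + I) ^ 2 * D L b + 0 * N L b = 0 := by
      refine tendsto_nhds_unique (((hc1.tendsto b).comp hXb).add
        (hεc.mul (((continuous_N L).tendsto b).comp hXb))) ?_
      refine (tendsto_const_nhds (x := (0 : ℂ))).congr' ?_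
      filter_upwards [hT'] with p hp
      exact hp.2.symm
    have hbI : b + I ≠ 0 := by
      intro h5
      have := congrArg Complex.im h5
      simp at this
      linarith
    have hD0 : D L b = 0 := by
      rw [zero_mul, add_zero] at h0
      rcases mul_eq_zero.1 h0 with h5 | h5
      · exact absurd h5 (mul_ne_zero hκ (pow_ne_zero 2 hbI))
      · exact h5
    obtain ⟨p, hp, rfl⟩ := D_eq_zero hD0
    obtain ⟨A, B, rfl⟩ := List.append_of_mem hp
    -- isolate the pole
    have hsl := hL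
    unfold SL at hsl
    rw [List.pairwise_append, List.pairwise_cons] at hsl
    have hne : ∀ q ∈ A ++ B, (p.1 : ℂ) ≠ q.1 := by
      intro q hq h6
      have h7 : p.1 = q.1 := by exact_mod_cast h6
      rw [List.mem_append] at hq
      rcases hq with hq | hq
      · exact (hsl.2.2 q hq p (by simp)).ne' h7
      · exact (hsl.2.1.1 q hq).ne h7
    have hDE : D (A ++ B) (p.1 : ℂ) ≠ 0 := D_ne_zero hne
    have eD : ∀ X, D (A ++ p :: B) X = (X - p.1) * D (A ++ B) X := by
      intro X; simp only [D_append, D]; ring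
    have eN : ∀ X, N (A ++ p :: B) X = p.2 * D (A ++ B) X + (X - p.1) * N (A ++ B) X := by
      intro X; simp only [D_append, N_append, D, N]; ring
    set G : ℝ × ℂ → ℂ := fun q => κ * (q.2 + I) ^ 2 * D (A ++ B) q.2 + q.1 * N (A ++ B) q.2
      with hG
    have hGlim : Tendsto G u (𝓝 (κ * ((p.1 : ℂ) + I) ^ 2 * D (A ++ B) (p.1 : ℂ))) := by
      have hc2 : Continuous fun X : ℂ => κ * (X + I) ^ 2 * D (A ++ B) X := by
        have := continuous_D (A ++ B)
        fun_prop
      have h := (((hc2.tendsto (p.1 : ℂ)).comp hXb).add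
        (hεc.mul (((continuous_N (A ++ B)).tendsto (p.1 : ℂ)).comp hXb)))
      rw [zero_mul, add_zero] at h
      exact h
    have hG0 : κ * ((p.1 : ℂ) + I) ^ 2 * D (A ++ B) (p.1 : ℂ) ≠ 0 :=
      mul_ne_zero (mul_ne_zero hκ (pow_ne_zero 2 hbI)) hDE
    have hGne : ∀ᶠ q in (u : Filter (ℝ × ℂ)), G q ≠ 0 := hGlim.eventually_ne hG0
    have hrel : ∀ᶠ q in (u : Filter (ℝ × ℂ)),
        (q.2 - p.1) / q.1 = -(p.2 * D (A ++ B) q.2) / G q := by
      filter_upwards [hT', hεpos, hGne] with q hq hq1 hq2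
      have h8 := hq.2
      rw [eD, eN] at h8
      have hne1 : (q.1 : ℂ) ≠ 0 := by exact_mod_cast hq1.ne'
      rw [div_eq_div_iff hne1 hq2]
      simp only [hG]
      linear_combination h8
    have hlim2 : Tendsto (fun q : ℝ × ℂ => (q.2 - p.1) / (q.1 : ℂ)) u
        (𝓝 (-(p.2 * D (A ++ B) (p.1 : ℂ)) / (κ * ((p.1 : ℂ) + I) ^ 2 * D (A ++ B) (p.1 : ℂ)))) := by
      have h9 := (((((continuous_D (A ++ B)).tendsto (p.1 : ℂ)).comp hXb).const_mul p.2).neg).div
        hGlim hG0
      refine h9.congr' ?_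
      filter_upwards [hrel] with q hq
      exact hq.symm
    have e10 : -(p.2 * D (A ++ B) (p.1 : ℂ)) / (κ * ((p.1 : ℂ) + I) ^ 2 * D (A ++ B) (p.1 : ℂ))
        = -(p.2 / (κ * ((p.1 : ℂ) + I) ^ 2)) := by
      have := pow_ne_zero 2 hbI
      field_simp
    rw [e10] at hlim2
    have h11 : 0 ≤ (-(p.2 / (κ * ((p.1 : ℂ) + I) ^ 2))).im := by
      refine ge_of_tendsto ((Complex.continuous_im.tendsto _).comp hlim2) ?_
      filter_upwards [hT', hεpos] with q hq hq1
      simp only [Function.comp]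
      rw [Complex.div_ofReal_im]
      simp only [Complex.sub_im, Complex.ofReal_im, sub_zero]
      exact div_nonneg hq.1 hq1.le
    have h12 := h p hp
    rw [Complex.neg_im] at h11
    linarith
  · have hXi : Tendsto (Prod.snd : ℝ × ℂ → ℂ) u (Bornology.cobounded ℂ) := hXinf
    have hinv : Tendsto (fun X : ℂ => X⁻¹) (Bornology.cobounded ℂ) (𝓝 0) :=
      Filter.tendsto_inv₀_cobounded
    have hX0 : ∀ᶠ p in (u : Filter (ℝ × ℂ)), p.2 ≠ 0 :=
      hXi.eventually eventually_ne_zero_cobounded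
    have hlim := (((quad_inf κ I).comp hXi).mul ((D_inf L).comp hXi)).add
      ((hεc.mul ((N_inf L).comp hXi)).mul (((hinv.mul hinv).mul hinv).comp hXi))
    have h0 : κ * 1 + 0 * S L * (0 * 0 * 0) = 0 := by
      refine tendsto_nhds_unique hlim ?_
      refine (tendsto_const_nhds (x := (0 : ℂ))).congr' ?_
      filter_upwards [hT', hX0] with p hp hp0
      have h1 := hp.2
      simp only [Function.comp]
      have e : κ * (p.2 + I) ^ 2 / p.2 ^ 2 * (D L p.2 / p.2 ^ L.length)
          + (p.1 : ℂ) * (p.2 * N L p.2 / p.2 ^ L.length) * (p.2⁻¹ * p.2⁻¹ * p.2⁻¹)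
          = (κ * (p.2 + I) ^ 2 * D L p.2 + p.1 * N L p.2) / p.2 ^ (L.length + 2) := by
        field_simp
        ring
      rw [e, h1, zero_div]
    exact hκ (by simpa using h0)

theorem GE_of_small {L : List (ℝ × ℂ)} (hL : SL L) {κ : ℂ} (hκ : κ ≠ 0)
    (h : ∀ p ∈ L, 0 < (p.2 / (κ * (p.1 + I) ^ 2)).im) : GE (L.map Prod.snd) := by
  have hpos : ∀ᶠ ε : ℝ in 𝓝[>] 0, 0 < ε := self_mem_nhdsWithin
  obtain ⟨η, hη, h1⟩ := (hpos.and (small_nz hL hκ h)).exists
  have hne : (η : ℂ) ≠ 0 := by exact_mod_cast hη.ne'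
  refine ⟨κ / η, div_ne_zero hκ hne, L, rfl, hL, ?_⟩
  intro X hX h0
  apply h1 X hX
  simp only [F, Pe] at h0
  field_simp at h0
  linear_combination h0

/-- the jumps of a clockwise regular polygon -/
theorem GE_polygon {n : ℕ} (hn : 0 < n) {ω : ℂ} (hω : ω ≠ 0) :
    GE ((List.range n).map fun j : ℕ => ω * Complex.exp (-(2 * Real.pi * j / n) * I)) := by
  have hn' : (0 : ℝ) < n := by exact_mod_cast hn
  set θ : ℕ → ℝ := fun j => Real.pi - (2 * j + 1) * Real.pi / (2 * n) with hθ
  have hθ0 : ∀ j < n, 0 < θ j := by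
    intro j hj
    have hj' : (j : ℝ) + 1 ≤ n := by exact_mod_cast hj
    have : (2 * (j : ℝ) + 1) * Real.pi / (2 * n) < Real.pi := by
      rw [div_lt_iff₀ (by positivity)]
      nlinarith [Real.pi_pos]
    simp only [hθ]; linarith
  have hθ1 : ∀ j : ℕ, θ j < Real.pi := by
    intro j
    have : 0 < (2 * (j : ℝ) + 1) * Real.pi / (2 * n) := by positivity
    simp only [hθ]; linarith
  have hsin : ∀ j < n, 0 < Real.sin (θ j) := fun j hj =>
    Real.sin_pos_of_pos_of_lt_pi (hθ0 j hj) (hθ1 j)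
  set t : ℕ → ℝ := fun j => Real.cos (θ j) / Real.sin (θ j) with ht
  set L : List (ℝ × ℂ) := (List.range n).map fun j : ℕ =>
    (t j, ω * Complex.exp (-(2 * Real.pi * j / n) * I)) with hLdef
  have hmap : L.map Prod.snd
      = (List.range n).map fun j : ℕ => ω * Complex.exp (-(2 * Real.pi * j / n) * I) := by
    simp [hLdef]
  rw [← hmap]
  refine GE_of_small (κ := -I * ω * Complex.exp ((Real.pi / n : ℝ) * I)) ?_ ?_ ?_
  · unfold SL
    rw [hLdef, List.pairwise_map]
    refine (List.pairwise_lt_range (n := n)).imp_of_mem ?_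
    intro i j hi hj hij
    rw [List.mem_range] at hi hj
    simp only [ht]
    rw [div_lt_div_iff₀ (hsin i hi) (hsin j hj)]
    have h1 : 0 < Real.sin (θ i - θ j) := by
      apply Real.sin_pos_of_pos_of_lt_pi
      · have : (i : ℝ) < j := by exact_mod_cast hij
        have : (2 * (i : ℝ) + 1) * Real.pi / (2 * n) < (2 * (j : ℝ) + 1) * Real.pi / (2 * n) := by
          apply div_lt_div_of_pos_right _ (by positivity)
          nlinarith [Real.pi_pos]
        simp only [hθ]; linarith
      · linarith [hθ1 i, hθ0 j hj]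
    rw [Real.sin_sub] at h1
    linarith
  · exact mul_ne_zero (mul_ne_zero (neg_ne_zero.2 I_ne_zero) hω) (Complex.exp_ne_zero _)
  · intro p hp
    rw [hLdef, List.mem_map] at hp
    obtain ⟨j, hj, rfl⟩ := hp
    rw [List.mem_range] at hj
    have hs := hsin j hj
    have hsc : ((Real.sin (θ j) : ℝ) : ℂ) ≠ 0 := by exact_mod_cast hs.ne'
    have e1 : ((t j : ℝ) : ℂ) + I = Complex.exp ((θ j : ℝ) * I) / (Real.sin (θ j) : ℝ) := by
      rw [Complex.exp_mul_I, ← Complex.ofReal_cos, ← Complex.ofReal_sin]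
      simp only [ht]
      push_cast
      have : Complex.sin (θ j : ℂ) ≠ 0 := by
        rw [← Complex.ofReal_sin]; exact hsc
      field_simp
    have e2 : Complex.exp ((θ j : ℝ) * I) ^ 2
        = Complex.exp (-(2 * Real.pi * j / n) * I) * Complex.exp (-((Real.pi / n : ℝ) * I)) := by
      rw [← Complex.exp_nat_mul, ← Complex.exp_add]
      have hnc : (n : ℂ) ≠ 0 := by exact_mod_cast hn'.ne'
      have : ((2 : ℕ) : ℂ) * (((θ j : ℝ) : ℂ) * I)
          = (-(2 * Real.pi * j / n) * I + -(((Real.pi / n : ℝ) : ℂ) * I)) + 2 * Real.pi * I := by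
        simp only [hθ]
        push_cast
        field_simp
        ring
      rw [this, Complex.exp_add, Complex.exp_two_pi_mul_I, mul_one]
    have e3 : ω * Complex.exp (-(2 * Real.pi * j / n) * I)
        / (-I * ω * Complex.exp ((Real.pi / n : ℝ) * I) * (((t j : ℝ) : ℂ) + I) ^ 2)
        = ((Real.sin (θ j) ^ 2 : ℝ) : ℂ) * I := by
      rw [e1, div_pow, e2]
      have h1 := Complex.exp_ne_zero (-(2 * Real.pi * j / n) * I)
      have h2 := Complex.exp_ne_zero ((Real.pi / n : ℝ) * I)
      rw [Complex.exp_neg ((Real.pi / n : ℝ) * I)]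
      have hI : (I : ℂ) ≠ 0 := I_ne_zero
      push_cast
      have hs' : Complex.sin (θ j : ℂ) ≠ 0 := by
        rw [← Complex.ofReal_sin]; exact hsc
      field_simp
      have := Complex.I_sq
      linear_combination (-1 : ℂ) * this
    simp only
    rw [e3, Complex.im_ofReal_mul, Complex.I_im, mul_one]
    positivity

end Pool.Agent.Lib.MP4cd976.Glu
end

section
/-!
# Induction along the spiral (MP_4cd976_an, block D)
-/
set_option autoImplicit false

open Complex Filter Topology

namespace Pool.Agent.Lib.MP4cd976.Glu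

/-- left jumps `W (K-1) - W K, .., W i - W (i+1)` -/
noncomputable def Lf (W : ℕ → ℂ) (K i : ℕ) : List ℂ :=
  ((List.range' i (K - i)).reverse).map fun n => W n - W (n + 1)

/-- right jumps `W (i+1) - W i, .., W K - W (K-1)` -/
noncomputable def Rt (W : ℕ → ℂ) (K i : ℕ) : List ℂ :=
  (List.range' i (K - i)).map fun n => W (n + 1) - W n

theorem Rt_step {W : ℕ → ℂ} {K i : ℕ} (h : i < K) :
    Rt W K i = (W (i + 1) - W i) :: Rt W K (i + 1) := by
  obtain ⟨d, hd⟩ : ∃ d, K - i = d + 1 := ⟨K - i - 1, by omega⟩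
  have hd' : K - (i + 1) = d := by omega
  simp only [Rt, hd, hd', List.range'_succ, List.map_cons]

theorem Lf_step {W : ℕ → ℂ} {K i : ℕ} (h : i < K) :
    Lf W K i = Lf W K (i + 1) ++ [W i - W (i + 1)] := by
  obtain ⟨d, hd⟩ : ∃ d, K - i = d + 1 := ⟨K - i - 1, by omega⟩
  have hd' : K - (i + 1) = d := by omega
  simp only [Lf, hd, hd', List.range'_succ, List.reverse_cons, List.map_append, List.map_cons,
    List.map_nil]

theorem Lf_self (W : ℕ → ℂ) (K : ℕ) : Lf W K K = [] := by simp [Lf]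

/-- vertices of the unit `N`-gon, clockwise -/
noncomputable def ee (N n : ℕ) : ℂ := Complex.exp (-(2 * Real.pi * n / N) * I)

theorem base_word {W : ℕ → ℂ} {K N : ℕ} (hN : 2 ≤ N) (hK : N ≤ K + 1) {ℓ : ℝ} (hℓ : 0 < ℓ)
    (hW : ∀ n, K + 1 ≤ n + N → n ≤ K → W n = ℓ * ee N n) :
    GE ((W (K + 1 - N) - W K) :: Rt W K (K + 1 - N)) := by
  set m := K + 1 - N with hm
  obtain ⟨M, hM⟩ : ∃ M, N = M + 1 := ⟨N - 1, by omega⟩
  have hKm : K = m + M := by omega
  have hN0 : (N : ℂ) ≠ 0 := by
    have : 0 < N := by omega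
    exact_mod_cast this.ne'
  set ω : ℂ := W m - W K with hω
  have hadd : ∀ i j : ℕ, ee N (i + j) = ee N i * ee N j := by
    intro i j
    simp only [ee]
    rw [← Complex.exp_add]
    congr 1
    push_cast
    field_simp
    ring
  have heN : ee N N = 1 := by
    simp only [ee]
    have : -(2 * (Real.pi : ℂ) * (N : ℂ) / (N : ℂ)) * I = -(2 * Real.pi * I) := by
      field_simp
    rw [this, Complex.exp_neg, Complex.exp_two_pi_mul_I, inv_one]
  have hWm : W m = ℓ * ee N m := hW m (by omega) (by omega)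
  have hWK : W K = ℓ * ee N K := hW K (by omega) (by omega)
  -- `ω * ee 1 = ℓ * ee m * (ee 1 - 1)`
  have hωe : ω * ee N 1 = ℓ * ee N m * (ee N 1 - 1) := by
    have h1 : ee N K * ee N 1 = ee N m := by
      rw [← hadd]
      have : K + 1 = m + N := by omega
      rw [this, hadd, heN, mul_one]
    rw [hω, hWm, hWK]
    linear_combination (-(ℓ : ℂ)) * h1
  have he1 : ee N 1 ≠ 0 := Complex.exp_ne_zero _
  have hem : ee N m ≠ 0 := Complex.exp_ne_zero _
  have he11 : ee N 1 ≠ 1 := by
    intro h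
    simp only [ee, Nat.cast_one, mul_one] at h
    rw [Complex.exp_eq_one_iff] at h
    obtain ⟨z, hz⟩ := h
    have h2 : (-1 : ℂ) = z * N := by
      have hpi : (Real.pi : ℂ) ≠ 0 := by exact_mod_cast Real.pi_ne_zero
      have h3 : 2 * (Real.pi : ℂ) * I ≠ 0 := by
        simp [Real.pi_ne_zero]
      have h4 : -(2 * (Real.pi : ℂ) / N) * I * N = z * (2 * Real.pi * I) * N := by rw [hz]
      have h5 : (-1 : ℂ) * (2 * Real.pi * I) = (z * N) * (2 * Real.pi * I) := by
        have : -(2 * (Real.pi : ℂ) / N) * I * N = (-1 : ℂ) * (2 * Real.pi * I) := by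
          field_simp
        rw [← this, h4]; ring
      exact mul_right_cancel₀ h3 h5
    have h6 : (-1 : ℤ) = z * N := by exact_mod_cast h2
    have h7 : ((N : ℤ)) ∣ -1 := ⟨z, by rw [h6]; ring⟩
    have h8 : ((N : ℤ)) ∣ 1 := by simpa using h7
    have h9 := Int.le_of_dvd one_pos h8
    omega
  have hω0 : ω ≠ 0 := by
    intro h
    rw [h, zero_mul] at hωe
    have hℓ' : (ℓ : ℂ) ≠ 0 := by exact_mod_cast hℓ.ne'
    exact (mul_ne_zero (mul_ne_zero hℓ' hem) (sub_ne_zero.2 he11)) hωe.symm
  have hpoly := GE_polygon (n := N) (by omega) hω0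
  have hlist : ((List.range N).map fun j : ℕ => ω * Complex.exp (-(2 * Real.pi * j / N) * I))
      = ω :: Rt W K m := by
    have hr : K - m = M := by omega
    rw [Rt, hr, hM, List.range_succ_eq_map, List.map_cons, List.range'_eq_map_range,
      List.map_map, List.map_map]
    congr 1
    · simp
    · apply List.map_congr_left
      intro i hi
      rw [List.mem_range] at hi
      simp only [Function.comp]
      have h1 : W (m + i + 1) = ℓ * ee N (m + i + 1) := hW _ (by omega) (by omega)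
      have h2 : W (m + i) = ℓ * ee N (m + i) := hW _ (by omega) (by omega)
      rw [h1, h2, hadd (m + i) 1, hadd m i]
      have h3 : Complex.exp (-(2 * Real.pi * ((i.succ : ℕ) : ℂ) / ((M + 1 : ℕ) : ℂ)) * I)
          = ee N i * ee N 1 := by
        rw [← hadd]
        simp only [ee, hM]
      rw [h3]
      linear_combination (ee N i) * hωe
  rw [hlist] at hpoly
  exact hpoly

/-- The spiral word up to the root gate. -/
theorem spiral_word {W : ℕ → ℂ} {K N : ℕ} (hN : 2 ≤ N) (hK : N ≤ K + 1) {ℓ : ℝ} (hℓ : 0 < ℓ)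
    (hW : ∀ n, K + 1 ≤ n + N → n ≤ K → W n = ℓ * ee N n)
    (htri : ∀ j, 1 ≤ j → j + N ≤ K + 1 →
      0 < ((starRingEnd ℂ) (W (j - 1) - W (j + N - 1)) * (W j - W (j + N - 1))).im ∧
      0 < ((starRingEnd ℂ) (W (j + N - 2) - W (j + N - 1)) * (W (j - 1) - W (j + N - 1))).im) :
    GE (Lf W K (N - 1) ++ (W 0 - W (N - 1)) :: Rt W K 0) := by
  have key : ∀ d, d ≤ K + 1 - N →
      GE (Lf W K (K - d) ++ (W (K + 1 - N - d) - W (K - d)) :: Rt W K (K + 1 - N - d)) := by
    intro d
    induction d with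
    | zero =>
      intro _
      have := base_word hN hK hℓ hW
      simpa [Lf_self] using this
    | succ d ih =>
      intro hd
      have h1 := ih (by omega)
      set j := K + 1 - N - d with hj
      have hj1 : 1 ≤ j := by omega
      have hjN : j + N ≤ K + 1 := by omega
      have e1 : K - d = j + N - 1 := by omega
      have e2 : K - (d + 1) = j + N - 2 := by omega
      have e3 : K + 1 - N - (d + 1) = j - 1 := by omega
      rw [e1] at h1
      rw [e2, e3]
      obtain ⟨t1, t2⟩ := htri j hj1 hjN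
      have g1 : GE (Lf W K (j + N - 1) ++ (W (j - 1) - W (j + N - 1)) :: (W j - W (j - 1))
          :: Rt W K j) := by
        apply insert
        · have : W (j - 1) - W (j + N - 1) + (W j - W (j - 1)) = W j - W (j + N - 1) := by ring
          rw [this]; exact h1
        · have : (starRingEnd ℂ) (W (j - 1) - W (j + N - 1)) * (W j - W (j + N - 1))
              = (starRingEnd ℂ) (W (j - 1) - W (j + N - 1)) * (W j - W (j - 1))
                + (starRingEnd ℂ) (W (j - 1) - W (j + N - 1)) * (W (j - 1) - W (j + N - 1)) := by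
            ring
          rw [this, Complex.add_im, ← Complex.normSq_eq_conj_mul_self, Complex.ofReal_im,
            add_zero] at t1
          exact t1
      have e4 : (W j - W (j - 1)) :: Rt W K j = Rt W K (j - 1) := by
        rw [Rt_step (W := W) (K := K) (i := j - 1) (by omega)]
        have : j - 1 + 1 = j := by omega
        rw [this]
      rw [e4] at g1
      have g2 : GE (Lf W K (j + N - 1) ++ (W (j + N - 2) - W (j + N - 1))
          :: (W (j - 1) - W (j + N - 2)) :: Rt W K (j - 1)) := by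
        apply insert
        · have : W (j + N - 2) - W (j + N - 1) + (W (j - 1) - W (j + N - 2))
              = W (j - 1) - W (j + N - 1) := by ring
          rw [this]; exact g1
        · have : (starRingEnd ℂ) (W (j + N - 2) - W (j + N - 1)) * (W (j - 1) - W (j + N - 1))
              = (starRingEnd ℂ) (W (j + N - 2) - W (j + N - 1)) * (W (j - 1) - W (j + N - 2))
                + (starRingEnd ℂ) (W (j + N - 2) - W (j + N - 1))
                  * (W (j + N - 2) - W (j + N - 1)) := by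
            ring
          rw [this, Complex.add_im, ← Complex.normSq_eq_conj_mul_self, Complex.ofReal_im,
            add_zero] at t2
          exact t2
      have e5 : Lf W K (j + N - 1) ++ (W (j + N - 2) - W (j + N - 1))
          :: (W (j - 1) - W (j + N - 2)) :: Rt W K (j - 1)
          = Lf W K (j + N - 2) ++ (W (j - 1) - W (j + N - 2)) :: Rt W K (j - 1) := by
        rw [Lf_step (W := W) (K := K) (i := j + N - 2) (by omega)]
        have : j + N - 2 + 1 = j + N - 1 := by omega
        rw [this]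
        simp
      rw [e5] at g2
      exact g2
  have h := key (K + 1 - N) le_rfl
  have e1 : K - (K + 1 - N) = N - 1 := by omega
  have e2 : K + 1 - N - (K + 1 - N) = 0 := by omega
  rw [e1, e2] at h
  exact h

end Pool.Agent.Lib.MP4cd976.Glu
end
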