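import Mathlib

/-!
# Gluing of rational half plane maps (MP_4cd976_an, block D)

A list `L : List (ℝ × ℂ)` of pairs (position, jump) stands for the rational function
`R L X = ∑ c / (X - x)`.  `D L` and `N L` are denominator and numerator, `F P L = P * D L + N L`.
A zero free `F P L` in the closed upper half plane says: no zeros of `P + R L` there, all jumps
are nonzero and all positions are distinct.
-/

set_option autoImplicit false

open Complex Filter Topology

namespace Pool.Agent.Lib.MP4cd976.Glu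

/-- denominator -/
noncomputable def D : List (ℝ × ℂ) → ℂ → ℂ
  | [], _ => 1
  | p :: L, X => (X - p.1) * D L X

/-- numerator -/
noncomputable def N : List (ℝ × ℂ) → ℂ → ℂ
  | [], _ => 0
  | p :: L, X => p.2 * D L X + (X - p.1) * N L X

/-- the rational function -/
noncomputable def R (L : List (ℝ × ℂ)) (X : ℂ) : ℂ := (L.map fun p => p.2 / (X - p.1)).sum

/-- its derivative -/
noncomputable def R' (L : List (ℝ × ℂ)) (X : ℂ) : ℂ :=
  (L.map fun p => -p.2 / (X - p.1) ^ 2).sum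

/-- numerator of `P + R L` -/
noncomputable def F (P : ℂ → ℂ) (L : List (ℝ × ℂ)) (X : ℂ) : ℂ := P X * D L X + N L X

/-- the sum of the jumps -/
noncomputable def S (L : List (ℝ × ℂ)) : ℂ := (L.map Prod.snd).sum

/-- strictly increasing positions -/
def SL (L : List (ℝ × ℂ)) : Prop := L.Pairwise fun p q => p.1 < q.1

theorem D_append (A B : List (ℝ × ℂ)) (X : ℂ) : D (A ++ B) X = D A X * D B X := by
  induction A with
  | nil => simp [D]
  | cons p A ih => simp only [List.cons_append, D, ih]; ring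

theorem N_append (A B : List (ℝ × ℂ)) (X : ℂ) :
    N (A ++ B) X = N A X * D B X + D A X * N B X := by
  induction A with
  | nil => simp [D, N]
  | cons p A ih => simp only [List.cons_append, D, N, ih, D_append]; ring

theorem D_ne_zero {L : List (ℝ × ℂ)} {X : ℂ} (h : ∀ p ∈ L, X ≠ p.1) : D L X ≠ 0 := by
  induction L with
  | nil => simp [D]
  | cons p L ih =>
    simp only [D]
    refine mul_ne_zero (sub_ne_zero.2 (h p (by simp))) (ih fun q hq => h q (by simp [hq]))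

theorem R_eq {L : List (ℝ × ℂ)} {X : ℂ} (h : ∀ p ∈ L, X ≠ p.1) : R L X = N L X / D L X := by
  induction L with
  | nil => simp [R, N, D]
  | cons p L ih =>
    have h1 : X - p.1 ≠ 0 := sub_ne_zero.2 (h p (by simp))
    have h2 : D L X ≠ 0 := D_ne_zero fun q hq => h q (by simp [hq])
    have h3 : R (p :: L) X = p.2 / (X - p.1) + R L X := by simp [R]
    rw [h3, ih fun q hq => h q (by simp [hq])]
    simp only [N, D]
    field_simp

theorem continuous_D (L : List (ℝ × ℂ)) : Continuous (D L) := by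
  induction L with
  | nil => exact continuous_const
  | cons p L ih => exact (continuous_id.sub continuous_const).mul ih

theorem continuous_N (L : List (ℝ × ℂ)) : Continuous (N L) := by
  induction L with
  | nil => exact continuous_const
  | cons p L ih =>
    exact (continuous_const.mul (continuous_D L)).add ((continuous_id.sub continuous_const).mul ih)

/-- the scaled list: positions `τ + ε x` -/
noncomputable def sc (τ ε : ℝ) (M : List (ℝ × ℂ)) : List (ℝ × ℂ) :=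
  M.map fun p => (τ + ε * p.1, p.2)

theorem D_sc (τ ε : ℝ) (M : List (ℝ × ℂ)) (ξ : ℂ) :
    D (sc τ ε M) (τ + ε * ξ) = (ε : ℂ) ^ M.length * D M ξ := by
  induction M with
  | nil => simp [sc, D]
  | cons p M ih =>
    simp only [sc, List.map_cons, D, List.length_cons] at ih ⊢
    rw [ih]
    push_cast
    ring

theorem N_sc (τ ε : ℝ) (M : List (ℝ × ℂ)) (ξ : ℂ) :
    (ε : ℂ) * N (sc τ ε M) (τ + ε * ξ) = (ε : ℂ) ^ M.length * N M ξ := by
  induction M with
  | nil => simp [sc, N]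
  | cons p M ih =>
    have h1 := D_sc τ ε M ξ
    simp only [sc, List.map_cons, N, List.length_cons] at ih h1 ⊢
    rw [mul_add]
    have e1 : (ε : ℂ) * (p.2 * D (List.map (fun p => (τ + ε * p.1, p.2)) M) (τ + ε * ξ))
        = (ε : ℂ) ^ (M.length + 1) * (p.2 * D M ξ) := by
      rw [h1]; ring
    have e2 : (ε : ℂ) * (((τ : ℂ) + ε * ξ - ((τ + ε * p.1 : ℝ) : ℂ))
          * N (List.map (fun p => (τ + ε * p.1, p.2)) M) (τ + ε * ξ))
        = (ε : ℂ) ^ (M.length + 1) * ((ξ - p.1) * N M ξ) := by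
      have : (ε : ℂ) * (((τ : ℂ) + ε * ξ - ((τ + ε * p.1 : ℝ) : ℂ))
          * N (List.map (fun p => (τ + ε * p.1, p.2)) M) (τ + ε * ξ))
          = (ε : ℂ) * (ξ - p.1) * ((ε : ℂ)
            * N (List.map (fun p => (τ + ε * p.1, p.2)) M) (τ + ε * ξ)) := by
        push_cast; ring
      rw [this, ih]; ring
    rw [e1, e2]; ring

theorem R_sc {τ ε : ℝ} (hε : ε ≠ 0) (M : List (ℝ × ℂ)) (ξ : ℂ) :
    (ε : ℂ) * R (sc τ ε M) (τ + ε * ξ) = R M ξ := by
  have h : (ε : ℂ) ≠ 0 := by exact_mod_cast hε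
  induction M with
  | nil => simp [sc, R]
  | cons p M ih =>
    simp only [sc, R, List.map_cons, List.sum_cons, List.map_map] at ih ⊢
    rw [mul_add, ih]
    congr 1
    have : (τ : ℂ) + ε * ξ - ((τ + ε * p.1 : ℝ) : ℂ) = ε * (ξ - p.1) := by push_cast; ring
    rw [this]
    rcases eq_or_ne (ξ - p.1) 0 with h0 | h0
    · simp [h0]
    · field_simp

theorem R'_sc {τ ε : ℝ} (hε : ε ≠ 0) (M : List (ℝ × ℂ)) (ξ : ℂ) :
    (ε : ℂ) ^ 2 * R' (sc τ ε M) (τ + ε * ξ) = R' M ξ := by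
  have h : (ε : ℂ) ≠ 0 := by exact_mod_cast hε
  induction M with
  | nil => simp [sc, R']
  | cons p M ih =>
    simp only [sc, R', List.map_cons, List.sum_cons, List.map_map] at ih ⊢
    rw [mul_add, ih]
    congr 1
    have : (τ : ℂ) + ε * ξ - ((τ + ε * p.1 : ℝ) : ℂ) = ε * (ξ - p.1) := by push_cast; ring
    rw [this]
    rcases eq_or_ne (ξ - p.1) 0 with h0 | h0
    · simp [h0]
    · field_simp



/-! ### growth at infinity -/

theorem eventually_ne_zero_cobounded : ∀ᶠ X : ℂ in Bornology.cobounded ℂ, X ≠ 0 := by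
  have h : Bornology.IsBounded ({0} : Set ℂ) := Bornology.isBounded_singleton
  filter_upwards [Bornology.isBounded_def.1 h] with X hX
  simpa using hX

theorem sub_div_tendsto (x : ℂ) :
    Tendsto (fun X : ℂ => (X - x) / X) (Bornology.cobounded ℂ) (𝓝 1) := by
  have h : Tendsto (fun X : ℂ => 1 - x * X⁻¹) (Bornology.cobounded ℂ) (𝓝 (1 - x * 0)) :=
    tendsto_const_nhds.sub (tendsto_const_nhds.mul Filter.tendsto_inv₀_cobounded)
  rw [mul_zero, sub_zero] at h
  refine h.congr' ?_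
  filter_upwards [eventually_ne_zero_cobounded] with X hX
  field_simp

theorem D_inf (L : List (ℝ × ℂ)) :
    Tendsto (fun X : ℂ => D L X / X ^ L.length) (Bornology.cobounded ℂ) (𝓝 1) := by
  induction L with
  | nil => simp [D]
  | cons p L ih =>
    have h := (sub_div_tendsto p.1).mul ih
    rw [mul_one] at h
    refine h.congr' ?_
    filter_upwards [eventually_ne_zero_cobounded] with X hX
    simp only [D, List.length_cons]
    field_simp
    ring

theorem N_inf (L : List (ℝ × ℂ)) :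
    Tendsto (fun X : ℂ => X * N L X / X ^ L.length) (Bornology.cobounded ℂ) (𝓝 (S L)) := by
  induction L with
  | nil => simp [N, S]
  | cons p L ih =>
    have h := ((D_inf L).const_mul p.2).add ((sub_div_tendsto p.1).mul ih)
    have e : p.2 * 1 + 1 * S L = S (p :: L) := by simp [S]
    rw [e] at h
    refine h.congr' ?_
    filter_upwards [eventually_ne_zero_cobounded] with X hX
    simp only [N, List.length_cons]
    field_simp
    ring

theorem ultra_cases (u : Ultrafilter ℂ) :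
    (∃ a : ℂ, (u : Filter ℂ) ≤ 𝓝 a) ∨ (u : Filter ℂ) ≤ Bornology.cobounded ℂ := by
  by_cases h : (u : Filter ℂ) ≤ Bornology.cobounded ℂ
  · exact Or.inr h
  · left
    rw [Filter.not_le] at h
    obtain ⟨s, hs, hsu⟩ := h
    have hc : sᶜ ∈ u := Ultrafilter.compl_mem_iff_notMem.2 hsu
    have hb : Bornology.IsBounded sᶜ := by
      rw [Bornology.isBounded_def, compl_compl]; exact hs
    obtain ⟨a, -, ha⟩ := hb.isCompact_closure.ultrafilter_le_nhds u
      (le_principal_iff.2 (mem_of_superset hc subset_closure))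
    exact ⟨a, ha⟩

/-- The numerator of the glued function. -/
theorem F_glue (P : ℂ → ℂ) (A B M : List (ℝ × ℂ)) (X : ℂ) :
    F P (A ++ M ++ B) X = D M X * F P (A ++ B) X + N M X * (D A X * D B X) := by
  simp only [F, D_append, N_append]
  ring

theorem F_orig (P : ℂ → ℂ) (A B : List (ℝ × ℂ)) (τ : ℝ) (ρ : ℂ) (X : ℂ) :
    F P (A ++ (τ, ρ) :: B) X = (X - τ) * F P (A ++ B) X + ρ * (D A X * D B X) := by
  have : A ++ (τ, ρ) :: B = A ++ [(τ, ρ)] ++ B := by simp
  rw [this, F_glue]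
  simp [D, N]

theorem glue_nz {P : ℂ → ℂ} {κ : ℂ} (hκ : κ ≠ 0) (hP : Continuous P)
    (hPinf : Tendsto (fun X : ℂ => P X / X ^ 2) (Bornology.cobounded ℂ) (𝓝 κ))
    {A B M : List (ℝ × ℂ)} {τ : ℝ} {ρ : ℂ}
    (h1 : ∀ X : ℂ, 0 ≤ X.im → F P (A ++ (τ, ρ) :: B) X ≠ 0)
    (h2 : ∀ X : ℂ, 0 ≤ X.im → N M X ≠ 0) (hS : S M = ρ) :
    ∀ᶠ ε : ℝ in 𝓝[>] 0, ∀ X : ℂ, 0 ≤ X.im → F P (A ++ sc τ ε M ++ B) X ≠ 0 := by
  by_contra hcon
  set T : Set (ℝ × ℂ) := {p | 0 ≤ p.2.im ∧ F P (A ++ sc τ p.1 M ++ B) p.2 = 0} with hT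
  have hfr : ∃ᶠ p in comap (Prod.fst : ℝ × ℂ → ℝ) (𝓝[>] 0), p ∈ T := by
    intro hno
    rw [Filter.eventually_comap] at hno
    apply hcon
    filter_upwards [hno] with ε hε X hX h0
    exact hε (ε, X) rfl ⟨hX, h0⟩
  have := Filter.frequently_mem_iff_neBot.1 hfr
  set u : Ultrafilter (ℝ × ℂ) := Ultrafilter.of (comap (Prod.fst : ℝ × ℂ → ℝ) (𝓝[>] 0) ⊓ 𝓟 T)
    with hu
  have hul : (u : Filter (ℝ × ℂ)) ≤ comap (Prod.fst : ℝ × ℂ → ℝ) (𝓝[>] 0) ⊓ 𝓟 T :=
    Ultrafilter.of_le _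
  have hT' : ∀ᶠ p in (u : Filter (ℝ × ℂ)), p ∈ T := hul.trans inf_le_right (mem_principal_self T)
  have hε : Tendsto (Prod.fst : ℝ × ℂ → ℝ) u (𝓝[>] 0) :=
    tendsto_comap.mono_left (hul.trans inf_le_left)
  have hε0 : Tendsto (Prod.fst : ℝ × ℂ → ℝ) u (𝓝 0) := hε.mono_right nhdsWithin_le_nhds
  have hεpos : ∀ᶠ p in (u : Filter (ℝ × ℂ)), 0 < p.1 := hε self_mem_nhdsWithin
  set ξ : ℝ × ℂ → ℂ := fun p => (p.2 - τ) / p.1 with hξ
  have hX : ∀ᶠ p in (u : Filter (ℝ × ℂ)), p.2 = τ + p.1 * ξ p := by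
    filter_upwards [hεpos] with p hp
    have : (p.1 : ℂ) ≠ 0 := by exact_mod_cast hp.ne'
    simp only [hξ]
    field_simp
    ring
  -- the key relation
  have hkey : ∀ᶠ p in (u : Filter (ℝ × ℂ)),
      (p.1 : ℂ) * D M (ξ p) * F P (A ++ B) p.2 + N M (ξ p) * (D A p.2 * D B p.2) = 0 := by
    filter_upwards [hεpos, hX, hT'] with p hp hpX hpT
    have hne : (p.1 : ℂ) ≠ 0 := by exact_mod_cast hp.ne'
    have h0 := hpT.2
    rw [F_glue] at h0
    have hD : D (sc τ p.1 M) p.2 = (p.1 : ℂ) ^ M.length * D M (ξ p) := by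
      conv_lhs => rw [hpX]
      exact D_sc τ p.1 M (ξ p)
    have hN : (p.1 : ℂ) * N (sc τ p.1 M) p.2 = (p.1 : ℂ) ^ M.length * N M (ξ p) := by
      conv_lhs => rw [hpX]
      exact N_sc τ p.1 M (ξ p)
    have h3 : (p.1 : ℂ) ^ M.length * ((p.1 : ℂ) * D M (ξ p) * F P (A ++ B) p.2
        + N M (ξ p) * (D A p.2 * D B p.2)) = 0 := by
      have : (p.1 : ℂ) * (D (sc τ p.1 M) p.2 * F P (A ++ B) p.2
          + N (sc τ p.1 M) p.2 * (D A p.2 * D B p.2)) = 0 := by rw [h0, mul_zero]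
      calc _ = (p.1 : ℂ) * ((p.1 : ℂ) ^ M.length * D M (ξ p)) * F P (A ++ B) p.2
            + ((p.1 : ℂ) ^ M.length * N M (ξ p)) * (D A p.2 * D B p.2) := by ring
        _ = _ := by rw [← hD, ← hN]; rw [← this]; ring
    rcases mul_eq_zero.1 h3 with h4 | h4
    · exact absurd h4 (pow_ne_zero _ hne)
    · exact h4
  have hFc : Continuous (F P (A ++ B)) :=
    (hP.mul (continuous_D _)).add (continuous_N _)
  rcases ultra_cases (u.map ξ) with ⟨a, ha⟩ | hinf
  · -- bounded case: X → τ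
    have hξa : Tendsto ξ u (𝓝 a) := ha
    have hεc : Tendsto (fun p : ℝ × ℂ => (p.1 : ℂ)) u (𝓝 0) := by
      have h := (Complex.continuous_ofReal.tendsto 0).comp hε0
      rw [Complex.ofReal_zero] at h
      exact h
    have hXτ : Tendsto (fun p : ℝ × ℂ => p.2) u (𝓝 (τ : ℂ)) := by
      have h := (tendsto_const_nhds (x := (τ : ℂ)) (f := (u : Filter (ℝ × ℂ)))).add
        (hεc.mul hξa)
      rw [zero_mul, add_zero] at h
      refine h.congr' ?_
      filter_upwards [hX] with p hp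
      exact hp.symm
    have him : 0 ≤ a.im := by
      have h1 : Tendsto (fun p => (ξ p).im) u (𝓝 a.im) :=
        (Complex.continuous_im.tendsto a).comp hξa
      refine ge_of_tendsto h1 ?_
      filter_upwards [hεpos, hT'] with p hp hpT
      have : (ξ p).im = p.2.im / p.1 := by
        simp only [hξ]
        rw [Complex.div_ofReal_im]
        simp
      rw [this]
      exact div_nonneg hpT.1 hp.le
    have hlim := (((hεc.mul ((continuous_D M).tendsto a |>.comp hξa)).mul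
      ((hFc.tendsto (τ : ℂ)).comp hXτ))).add
      (((continuous_N M).tendsto a |>.comp hξa).mul
      ((((continuous_D A).mul (continuous_D B)).tendsto (τ : ℂ)).comp hXτ))
    have h0 : (0 : ℂ) * D M a * F P (A ++ B) τ + N M a * (D A τ * D B τ) = 0 := by
      refine tendsto_nhds_unique hlim ?_
      refine (tendsto_const_nhds (x := (0 : ℂ))).congr' ?_
      filter_upwards [hkey] with p hp
      exact hp.symm
    have h3 : D A τ * D B τ ≠ 0 := by
      have := h1 τ (by simp)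
      rw [F_orig] at this
      intro h4
      apply this
      rw [h4]; simp
    have h5 : N M a * (D A τ * D B τ) = 0 := by
      rw [← h0]; ring
    rcases mul_eq_zero.1 h5 with h4 | h4
    · exact h2 a him h4
    · exact h3 h4
  · -- unbounded case
    have hξinf : Tendsto ξ u (Bornology.cobounded ℂ) := hinf
    have hξ0 : ∀ᶠ p in (u : Filter (ℝ × ℂ)), ξ p ≠ 0 :=
      hξinf.eventually eventually_ne_zero_cobounded
    have hDM : Tendsto (fun p => D M (ξ p) / ξ p ^ M.length) u (𝓝 1) := (D_inf M).comp hξinf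
    have hNM : Tendsto (fun p => ξ p * N M (ξ p) / ξ p ^ M.length) u (𝓝 ρ) := by
      rw [← hS]; exact (N_inf M).comp hξinf
    have hkey2 : ∀ᶠ p in (u : Filter (ℝ × ℂ)),
        (p.2 - τ) * (D M (ξ p) / ξ p ^ M.length) * F P (A ++ B) p.2
          + (ξ p * N M (ξ p) / ξ p ^ M.length) * (D A p.2 * D B p.2) = 0 := by
      filter_upwards [hkey, hξ0, hX] with p hp hp0 hpX
      have e : p.2 - (τ : ℂ) = p.1 * ξ p := by rw [hpX]; ring
      rw [e]
      have : (p.1 : ℂ) * ξ p * (D M (ξ p) / ξ p ^ M.length) * F P (A ++ B) p.2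
          + (ξ p * N M (ξ p) / ξ p ^ M.length) * (D A p.2 * D B p.2)
          = ξ p / ξ p ^ M.length * ((p.1 : ℂ) * D M (ξ p) * F P (A ++ B) p.2
            + N M (ξ p) * (D A p.2 * D B p.2)) := by ring
      rw [this, hp, mul_zero]
    rcases ultra_cases (u.map Prod.snd) with ⟨b, hb⟩ | hXinf
    · have hXb : Tendsto (Prod.snd : ℝ × ℂ → ℂ) u (𝓝 b) := hb
      have him : 0 ≤ b.im := by
        refine ge_of_tendsto ((Complex.continuous_im.tendsto b).comp hXb) ?_
        filter_upwards [hT'] with p hp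
        exact hp.1
      have hlim := (((hXb.sub (tendsto_const_nhds (x := (τ : ℂ)))).mul hDM).mul
        ((hFc.tendsto b).comp hXb)).add
        (hNM.mul ((((continuous_D A).mul (continuous_D B)).tendsto b).comp hXb))
      have h0 : (b - τ) * 1 * F P (A ++ B) b + ρ * (D A b * D B b) = 0 := by
        refine tendsto_nhds_unique hlim ?_
        refine (tendsto_const_nhds (x := (0 : ℂ))).congr' ?_
        filter_upwards [hkey2] with p hp
        exact hp.symm
      apply h1 b him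
      rw [F_orig, ← h0]
      ring
    · have hXi : Tendsto (Prod.snd : ℝ × ℂ → ℂ) u (Bornology.cobounded ℂ) := hXinf
      -- divide by (X - τ) X ^ (2 + n)
      set n := (A ++ B).length with hn
      have hnAB : n = A.length + B.length := by simp [hn]
      have hX0 : ∀ᶠ p in (u : Filter (ℝ × ℂ)), p.2 ≠ 0 :=
        hXi.eventually eventually_ne_zero_cobounded
      have hinv : Tendsto (fun X : ℂ => X⁻¹) (Bornology.cobounded ℂ) (𝓝 0) :=
        Filter.tendsto_inv₀_cobounded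
      have hG : Tendsto (fun X : ℂ => F P (A ++ B) X / X ^ (2 + n)) (Bornology.cobounded ℂ)
          (𝓝 κ) := by
        have h := (hPinf.mul (D_inf (A ++ B))).add
          ((N_inf (A ++ B)).mul ((hinv.mul hinv).mul hinv))
        have e : κ * 1 + S (A ++ B) * (0 * 0 * 0) = κ := by simp
        rw [e] at h
        refine h.congr' ?_
        filter_upwards [eventually_ne_zero_cobounded] with X hX
        simp only [F, ← hn]
        field_simp
        ring
      have hsub : Tendsto (fun X : ℂ => (X - τ) / X) (Bornology.cobounded ℂ) (𝓝 1) :=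
        sub_div_tendsto τ
      have hE : Tendsto (fun X : ℂ => (D A X * D B X) / X ^ (3 + n)) (Bornology.cobounded ℂ)
          (𝓝 0) := by
        have h := ((D_inf A).mul (D_inf B)).mul ((hinv.mul hinv).mul hinv)
        have e : (1 : ℂ) * 1 * (0 * 0 * 0) = 0 := by simp
        rw [e] at h
        refine h.congr' ?_
        filter_upwards [eventually_ne_zero_cobounded] with X hX
        rw [hnAB]
        field_simp
        ring
      have hlim := (((hsub.comp hXi).mul hDM).mul (hG.comp hXi)).add (hNM.mul (hE.comp hXi))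
      have h0 : (1 : ℂ) * 1 * κ + ρ * 0 = 0 := by
        refine tendsto_nhds_unique hlim ?_
        refine (tendsto_const_nhds (x := (0 : ℂ))).congr' ?_
        filter_upwards [hkey2, hX0] with p hp hp0
        have e : ((fun X : ℂ => (X - τ) / X) ∘ Prod.snd) p * (D M (ξ p) / ξ p ^ M.length)
            * ((fun X : ℂ => F P (A ++ B) X / X ^ (2 + n)) ∘ Prod.snd) p
            + ξ p * N M (ξ p) / ξ p ^ M.length
              * ((fun X : ℂ => (D A X * D B X) / X ^ (3 + n)) ∘ Prod.snd) p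
            = ((p.2 - τ) * (D M (ξ p) / ξ p ^ M.length) * F P (A ++ B) p.2
          + (ξ p * N M (ξ p) / ξ p ^ M.length) * (D A p.2 * D B p.2)) / p.2 ^ (3 + n) := by
          simp only [Function.comp]
          field_simp
          ring
        rw [e, hp, zero_div]
      exact hκ (by simpa using h0)


/-- `κ (X + i)²` grows like `κ X²`. -/
theorem quad_inf (κ c : ℂ) :
    Tendsto (fun X : ℂ => κ * (X + c) ^ 2 / X ^ 2) (Bornology.cobounded ℂ) (𝓝 κ) := by
  have h := ((sub_div_tendsto (-c)).mul (sub_div_tendsto (-c))).const_mul κ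
  rw [mul_one, mul_one] at h
  refine h.congr' ?_
  filter_upwards [eventually_ne_zero_cobounded] with X hX
  field_simp
  ring

theorem sl_glue {A B M : List (ℝ × ℂ)} {τ : ℝ} {ρ : ℂ} (h : SL (A ++ (τ, ρ) :: B))
    (hM : SL M) : ∀ᶠ ε : ℝ in 𝓝[>] 0, SL (A ++ sc τ ε M ++ B) := by
  unfold SL at h hM ⊢
  rw [List.pairwise_append, List.pairwise_cons] at h
  obtain ⟨hA, ⟨hτB, hB⟩, hAB⟩ := h
  have hpos : ∀ᶠ ε : ℝ in 𝓝[>] 0, 0 < ε := self_mem_nhdsWithin
  have hlim : ∀ x : ℝ, Tendsto (fun ε : ℝ => τ + ε * x) (𝓝[>] 0) (𝓝 τ) := by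
    intro x
    have : Continuous fun ε : ℝ => τ + ε * x := by fun_prop
    have h := (this.tendsto 0).mono_left (nhdsWithin_le_nhds (s := Set.Ioi (0 : ℝ)))
    simpa using h
  have h1 : ∀ᶠ ε : ℝ in 𝓝[>] 0, ∀ p ∈ {p | p ∈ A}, ∀ q ∈ {q | q ∈ M}, p.1 < τ + ε * q.1 := by
    rw [Filter.eventually_all_finite (List.finite_toSet A)]
    intro p hp
    rw [Filter.eventually_all_finite (List.finite_toSet M)]
    intro q _
    exact (hlim q.1).eventually (lt_mem_nhds (hAB p hp (τ, ρ) (by simp)))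
  have h2 : ∀ᶠ ε : ℝ in 𝓝[>] 0, ∀ p ∈ {p | p ∈ B}, ∀ q ∈ {q | q ∈ M}, τ + ε * q.1 < p.1 := by
    rw [Filter.eventually_all_finite (List.finite_toSet B)]
    intro p hp
    rw [Filter.eventually_all_finite (List.finite_toSet M)]
    intro q _
    exact (hlim q.1).eventually (gt_mem_nhds (hτB p hp))
  filter_upwards [hpos, h1, h2] with ε hε h1 h2
  rw [List.pairwise_append, List.pairwise_append]
  refine ⟨⟨hA, ?_, ?_⟩, hB, ?_⟩
  · unfold sc
    rw [List.pairwise_map]
    refine hM.imp ?_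
    intro a b hab
    simp only
    have := mul_lt_mul_of_pos_left hab hε
    linarith
  · intro p hp q hq
    unfold sc at hq
    rw [List.mem_map] at hq
    obtain ⟨q', hq', rfl⟩ := hq
    exact h1 p hp q' hq'
  · intro p hp q hq
    rw [List.mem_append] at hp
    rcases hp with hp | hp
    · exact hAB p hp q (by simp [hq])
    · unfold sc at hp
      rw [List.mem_map] at hp
      obtain ⟨p', hp', rfl⟩ := hp
      exact h2 q hq p' hp'

/-! ### the zoom -/

theorem R_append (A B : List (ℝ × ℂ)) (X : ℂ) : R (A ++ B) X = R A X + R B X := by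
  simp [R]

theorem R'_append (A B : List (ℝ × ℂ)) (X : ℂ) : R' (A ++ B) X = R' A X + R' B X := by
  simp [R']

theorem continuousAt_R {L : List (ℝ × ℂ)} {X : ℂ} (h : ∀ p ∈ L, X ≠ p.1) :
    ContinuousAt (R L) X := by
  induction L with
  | nil => exact continuousAt_const
  | cons p L ih =>
    have e : R (p :: L) = fun X => p.2 / (X - p.1) + R L X := by funext X; simp [R]
    rw [e]
    exact (continuousAt_const.div (continuousAt_id.sub continuousAt_const)
      (sub_ne_zero.2 (h p (by simp)))).add (ih fun q hq => h q (by simp [hq]))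

theorem continuousAt_R' {L : List (ℝ × ℂ)} {X : ℂ} (h : ∀ p ∈ L, X ≠ p.1) :
    ContinuousAt (R' L) X := by
  induction L with
  | nil => exact continuousAt_const
  | cons p L ih =>
    have e : R' (p :: L) = fun X => -p.2 / (X - p.1) ^ 2 + R' L X := by funext X; simp [R']
    rw [e]
    exact (continuousAt_const.div ((continuousAt_id.sub continuousAt_const).pow 2)
      (pow_ne_zero 2 (sub_ne_zero.2 (h p (by simp))))).add (ih fun q hq => h q (by simp [hq]))

theorem zoom {P : ℂ → ℂ} {A B M : List (ℝ × ℂ)} {τ : ℝ} (hP : ContinuousAt P τ)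
    (hA : ∀ p ∈ A, p.1 ≠ τ) (hB : ∀ p ∈ B, p.1 ≠ τ) (ξ : ℂ) :
    Tendsto (fun ε : ℝ => (ε : ℂ) * (P (τ + ε * ξ) + R (A ++ sc τ ε M ++ B) (τ + ε * ξ)))
      (𝓝[>] 0) (𝓝 (R M ξ)) := by
  have hcε : Tendsto (fun ε : ℝ => (ε : ℂ)) (𝓝[>] 0) (𝓝 0) := by
    have h := (Complex.continuous_ofReal.tendsto 0).mono_left
      (nhdsWithin_le_nhds (s := Set.Ioi (0 : ℝ)))
    rw [Complex.ofReal_zero] at h
    exact h
  have hX : Tendsto (fun ε : ℝ => (τ : ℂ) + ε * ξ) (𝓝[>] 0) (𝓝 τ) := by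
    have h := (tendsto_const_nhds (x := (τ : ℂ))).add (hcε.mul_const ξ)
    rw [zero_mul, add_zero] at h
    exact h
  have hA' : ContinuousAt (R A) (τ : ℂ) :=
    continuousAt_R fun p hp h => hA p hp (by exact_mod_cast h.symm)
  have hB' : ContinuousAt (R B) (τ : ℂ) :=
    continuousAt_R fun p hp h => hB p hp (by exact_mod_cast h.symm)
  have hlim := (hcε.mul (((hP.tendsto.comp hX).add (hA'.tendsto.comp hX)).add
    (hB'.tendsto.comp hX))).add_const (R M ξ)
  rw [zero_mul, zero_add] at hlim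
  refine hlim.congr' ?_
  filter_upwards [self_mem_nhdsWithin] with ε hε
  have hne : ε ≠ 0 := ne_of_gt hε
  have h1 := R_sc (τ := τ) hne M ξ
  simp only [Function.comp, R_append]
  rw [← h1]
  ring

theorem zoom' {P' : ℂ → ℂ} {A B M : List (ℝ × ℂ)} {τ : ℝ} (hP : ContinuousAt P' τ)
    (hA : ∀ p ∈ A, p.1 ≠ τ) (hB : ∀ p ∈ B, p.1 ≠ τ) (ξ : ℂ) :
    Tendsto (fun ε : ℝ => (ε : ℂ) ^ 2
        * (P' (τ + ε * ξ) + R' (A ++ sc τ ε M ++ B) (τ + ε * ξ)))
      (𝓝[>] 0) (𝓝 (R' M ξ)) := by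
  have hcε : Tendsto (fun ε : ℝ => (ε : ℂ)) (𝓝[>] 0) (𝓝 0) := by
    have h := (Complex.continuous_ofReal.tendsto 0).mono_left
      (nhdsWithin_le_nhds (s := Set.Ioi (0 : ℝ)))
    rw [Complex.ofReal_zero] at h
    exact h
  have hX : Tendsto (fun ε : ℝ => (τ : ℂ) + ε * ξ) (𝓝[>] 0) (𝓝 τ) := by
    have h := (tendsto_const_nhds (x := (τ : ℂ))).add (hcε.mul_const ξ)
    rw [zero_mul, add_zero] at h
    exact h
  have hA' : ContinuousAt (R' A) (τ : ℂ) :=
    continuousAt_R' fun p hp h => hA p hp (by exact_mod_cast h.symm)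
  have hB' : ContinuousAt (R' B) (τ : ℂ) :=
    continuousAt_R' fun p hp h => hB p hp (by exact_mod_cast h.symm)
  have hlim := ((hcε.pow 2).mul (((hP.tendsto.comp hX).add (hA'.tendsto.comp hX)).add
    (hB'.tendsto.comp hX))).add_const (R' M ξ)
  rw [zero_pow (by norm_num), zero_mul, zero_add] at hlim
  refine hlim.congr' ?_
  filter_upwards [self_mem_nhdsWithin] with ε hε
  have hne : ε ≠ 0 := ne_of_gt hε
  have h1 := R'_sc (τ := τ) hne M ξ
  simp only [Function.comp, R'_append]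
  rw [← h1]
  ring

/-- conjugated jumps -/
noncomputable def cj (L : List (ℝ × ℂ)) : List (ℝ × ℂ) :=
  L.map fun p => (p.1, (starRingEnd ℂ) p.2)

theorem cj_append (A B : List (ℝ × ℂ)) : cj (A ++ B) = cj A ++ cj B := by simp [cj]

theorem cj_sc (τ ε : ℝ) (M : List (ℝ × ℂ)) : cj (sc τ ε M) = sc τ ε (cj M) := by
  simp [cj, sc]

theorem map_snd_sc (τ ε : ℝ) (M : List (ℝ × ℂ)) :
    (sc τ ε M).map Prod.snd = M.map Prod.snd := by simp [sc]

/-! ### good jump words -/

/-- `κ (X + i)²` and derivative; `Pm` is the reflected version. -/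
noncomputable def Pe (κ X : ℂ) : ℂ := κ * (X + I) ^ 2
noncomputable def Pe' (κ X : ℂ) : ℂ := κ * (2 * (X + I))
noncomputable def Pm (κ X : ℂ) : ℂ := (starRingEnd ℂ) κ * (X - I) ^ 2
noncomputable def Pm' (κ X : ℂ) : ℂ := (starRingEnd ℂ) κ * (2 * (X - I))

/-- exterior type jump word -/
def GE (r : List ℂ) : Prop :=
  ∃ κ : ℂ, κ ≠ 0 ∧ ∃ L : List (ℝ × ℂ), L.map Prod.snd = r ∧ SL L ∧
    ∀ X : ℂ, 0 ≤ X.im → F (Pe κ) L X ≠ 0

/-- bounded type jump word -/
def GB (r : List ℂ) : Prop :=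
  ∃ L : List (ℝ × ℂ), L.map Prod.snd = r ∧ SL L ∧ ∀ X : ℂ, 0 ≤ X.im → N L X ≠ 0

theorem split_of_map {r : List (ℝ × ℂ)} {u v : List ℂ} {ρ : ℂ}
    (h : r.map Prod.snd = u ++ ρ :: v) : ∃ (A B : List (ℝ × ℂ)) (τ : ℝ),
      r = A ++ (τ, ρ) :: B ∧ A.map Prod.snd = u ∧ B.map Prod.snd = v := by
  rw [List.map_eq_append_iff] at h
  obtain ⟨A, l₂, rfl, hA, h2⟩ := h
  rw [List.map_eq_cons_iff] at h2
  obtain ⟨p, B, rfl, hp, hB⟩ := h2
  refine ⟨A, B, p.1, ?_, hA, hB⟩
  rw [← hp]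

/-- GLUE with ZOOM. -/
theorem glue_zoom {u v : List ℂ} {ρ : ℂ} (h : GE (u ++ ρ :: v)) {M : List (ℝ × ℂ)}
    (hM : SL M) (hMN : ∀ X : ℂ, 0 ≤ X.im → N M X ≠ 0) (hS : S M = ρ) (ξ : ℂ) {δ : ℝ}
    (hδ : 0 < δ) :
    ∃ κ : ℂ, κ ≠ 0 ∧ ∃ L : List (ℝ × ℂ), L.map Prod.snd = u ++ M.map Prod.snd ++ v ∧ SL L ∧
      (∀ X : ℂ, 0 ≤ X.im → F (Pe κ) L X ≠ 0) ∧
      ∃ τ ε : ℝ, 0 < ε ∧
        ‖(ε : ℂ) * (Pe κ (τ + ε * ξ) + R L (τ + ε * ξ)) - R M ξ‖ < δ ∧
        ‖(ε : ℂ) ^ 2 * (Pe' κ (τ + ε * ξ) + R' L (τ + ε * ξ)) - R' M ξ‖ < δ ∧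
        ‖(ε : ℂ) * (Pm κ (τ + ε * ξ) + R (cj L) (τ + ε * ξ)) - R (cj M) ξ‖ < δ ∧
        ‖(ε : ℂ) ^ 2 * (Pm' κ (τ + ε * ξ) + R' (cj L) (τ + ε * ξ)) - R' (cj M) ξ‖ < δ := by
  obtain ⟨κ, hκ, L₀, hL₀, hsl, hnz⟩ := h
  obtain ⟨A, B, τ, rfl, hA, hB⟩ := split_of_map hL₀
  have hPc : Continuous (Pe κ) := by unfold Pe; fun_prop
  have hPc' : Continuous (Pe' κ) := by unfold Pe'; fun_prop
  have hQc : Continuous (Pm κ) := by unfold Pm; fun_prop
  have hQc' : Continuous (Pm' κ) := by unfold Pm'; fun_prop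
  have e1 := glue_nz hκ hPc (quad_inf κ I) hnz hMN hS
  have e2 := sl_glue hsl hM
  have hsl' := hsl
  unfold SL at hsl'
  rw [List.pairwise_append, List.pairwise_cons] at hsl'
  have hAne : ∀ p ∈ A, p.1 ≠ τ := fun p hp =>
    (hsl'.2.2 p hp (τ, ρ) (by simp)).ne
  have hBne : ∀ p ∈ B, p.1 ≠ τ := fun p hp => (hsl'.2.1.1 p hp).ne'
  have hcAne : ∀ p ∈ cj A, p.1 ≠ τ := by
    intro p hp
    unfold cj at hp
    rw [List.mem_map] at hp
    obtain ⟨q, hq, rfl⟩ := hp
    exact hAne q hq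
  have hcBne : ∀ p ∈ cj B, p.1 ≠ τ := by
    intro p hp
    unfold cj at hp
    rw [List.mem_map] at hp
    obtain ⟨q, hq, rfl⟩ := hp
    exact hBne q hq
  have z1 := zoom (M := M) (τ := τ) hPc.continuousAt hAne hBne ξ
  have z2 := zoom' (M := M) (τ := τ) hPc'.continuousAt hAne hBne ξ
  have z3 := zoom (M := cj M) (τ := τ) hQc.continuousAt hcAne hcBne ξ
  have z4 := zoom' (M := cj M) (τ := τ) hQc'.continuousAt hcAne hcBne ξ
  have n1 := (Metric.tendsto_nhds.1 z1) δ hδ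
  have n2 := (Metric.tendsto_nhds.1 z2) δ hδ
  have n3 := (Metric.tendsto_nhds.1 z3) δ hδ
  have n4 := (Metric.tendsto_nhds.1 z4) δ hδ
  have hpos : ∀ᶠ ε : ℝ in 𝓝[>] 0, 0 < ε := self_mem_nhdsWithin
  obtain ⟨ε, hε, h1, h2, h3, h4, h5, h6⟩ :=
    (hpos.and (e1.and (e2.and (n1.and (n2.and (n3.and n4)))))).exists
  refine ⟨κ, hκ, A ++ sc τ ε M ++ B, ?_, h2, h1, τ, ε, hε, ?_, ?_, ?_, ?_⟩
  · simp only [List.map_append, map_snd_sc, hA, hB]
  · rwa [dist_eq_norm] at h3
  · rwa [dist_eq_norm] at h4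
  · rw [cj_append, cj_append, cj_sc]; rwa [dist_eq_norm] at h5
  · rw [cj_append, cj_append, cj_sc]; rwa [dist_eq_norm] at h6

/-- GLUE. -/
theorem glue {u v m : List ℂ} {ρ : ℂ} (h : GE (u ++ ρ :: v)) (hm : GB m) (hS : m.sum = ρ) :
    GE (u ++ m ++ v) := by
  obtain ⟨M, hMm, hM, hMN⟩ := hm
  have hS' : S M = ρ := by rw [S, hMm, hS]
  obtain ⟨κ, hκ, L, hL, hsl, hnz, -⟩ := glue_zoom h hM hMN hS' 0 one_pos
  rw [hMm] at hL
  exact ⟨κ, hκ, L, hL, hsl, hnz⟩

/-- the triangle -/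
theorem GB_tri {c₁ c₂ : ℂ} (h : 0 < ((starRingEnd ℂ) c₁ * c₂).im) : GB [c₁, c₂] := by
  refine ⟨[(0, c₁), (1, c₂)], by simp, by simp [SL], ?_⟩
  intro X hX h0
  simp only [N, D] at h0
  have h1 : (c₁ + c₂) * X = c₁ := by
    push_cast at h0
    linear_combination h0
  -- multiply by the conjugate of `c₁ + c₂`
  have h2 : ((Complex.normSq (c₁ + c₂) : ℝ) : ℂ) * X = (starRingEnd ℂ) (c₁ + c₂) * c₁ := by
    rw [Complex.normSq_eq_conj_mul_self]
    linear_combination (starRingEnd ℂ) (c₁ + c₂) * h1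
  have h3 := congrArg Complex.im h2
  rw [Complex.im_ofReal_mul] at h3
  have h4 : ((starRingEnd ℂ) (c₁ + c₂) * c₁).im = -((starRingEnd ℂ) c₁ * c₂).im := by
    simp only [map_add, Complex.mul_im, Complex.add_re, Complex.add_im, Complex.conj_re,
      Complex.conj_im]
    ring
  have h5 : 0 ≤ Complex.normSq (c₁ + c₂) * X.im := mul_nonneg (Complex.normSq_nonneg _) hX
  rw [h3, h4] at h5
  linarith

/-- INSERT a vertex at a gate: the jump `c₁ + c₂` is replaced by `c₁, c₂` if the triangle is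
positively oriented. -/
theorem insert {u v : List ℂ} {c₁ c₂ : ℂ} (h : GE (u ++ (c₁ + c₂) :: v))
    (ho : 0 < ((starRingEnd ℂ) c₁ * c₂).im) : GE (u ++ c₁ :: c₂ :: v) := by
  have := glue h (GB_tri ho) (by simp)
  simpa using this

end Pool.Agent.Lib.MP4cd976.Glu
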