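import Mathlib
import Pool.Agent.Lib.MP_4cd976_an.DN.Defs
import Pool.Agent.Lib.MP_4cd976_an.DN.GLU

section
/-! Root step map of a harmonic map, part A: Taylor coefficients and discrete sums. -/
open Complex Finset Filter Topology Metric

namespace Pool.Agent.Lib.MP4cd976.RT

/-- the `N`-th roots of unity, clockwise -/
noncomputable def e (N n : ℕ) : ℂ := exp (((-(2 * Real.pi * n / N) : ℝ) : ℂ) * I)

/-- the midpoints between them (`N`-th roots of `-1`) -/
noncomputable def zt (N n : ℕ) : ℂ := exp (((-(Real.pi * (2 * n + 1) / N) : ℝ) : ℂ) * I)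

/-- basic `2N`-th root of unity -/
noncomputable def et (N : ℕ) : ℂ := exp (((-(Real.pi / N) : ℝ) : ℂ) * I)

theorem e_eq (N n : ℕ) : e N n = (et N) ^ (2 * n) := by
  rw [e, et, ← Complex.exp_nat_mul]
  congr 1
  push_cast
  ring

theorem zt_eq (N n : ℕ) : zt N n = (et N) ^ (2 * n + 1) := by
  rw [zt, et, ← Complex.exp_nat_mul]
  congr 1
  push_cast
  ring

theorem et_pow_N {N : ℕ} (hN : 0 < N) : (et N) ^ N = -1 := by
  rw [et, ← Complex.exp_nat_mul]
  have h : (N : ℂ) ≠ 0 := by exact_mod_cast hN.ne'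
  have : (N : ℂ) * (((-(Real.pi / N) : ℝ) : ℂ) * I) = -(Real.pi * I) := by
    push_cast
    field_simp
  rw [this, Complex.exp_neg, Complex.exp_pi_mul_I]
  norm_num

theorem norm_et (N : ℕ) : ‖et N‖ = 1 := by
  rw [et, Complex.norm_exp_ofReal_mul_I]

theorem et_ne (N : ℕ) : et N ≠ 0 := by
  intro h
  have := norm_et N
  rw [h] at this
  simp at this

theorem norm_e (N n : ℕ) : ‖e N n‖ = 1 := by
  rw [e, Complex.norm_exp_ofReal_mul_I]

theorem norm_zt (N n : ℕ) : ‖zt N n‖ = 1 := by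
  rw [zt, Complex.norm_exp_ofReal_mul_I]

theorem zt_ne (N n : ℕ) : zt N n ≠ 0 := by
  intro h
  have := norm_zt N n
  rw [h] at this
  simp at this

theorem zt_pow_N {N : ℕ} (hN : 0 < N) (n : ℕ) : (zt N n) ^ N = -1 := by
  rw [zt_eq, ← pow_mul, mul_comm, pow_mul, et_pow_N hN, pow_succ, pow_mul]
  norm_num

theorem et_sq_prim {N : ℕ} (hN : 0 < N) : IsPrimitiveRoot ((et N) ^ 2) N := by
  have h1 := (Complex.isPrimitiveRoot_exp N hN.ne').inv
  have h2 : (et N) ^ 2 = (exp (2 * Real.pi * I / N))⁻¹ := by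
    rw [et, ← Complex.exp_nat_mul, ← Complex.exp_neg]
    congr 1
    push_cast
    ring
  rw [h2]
  exact h1

theorem sum_pow {N : ℕ} (hN : 0 < N) (m : ℕ) :
    ∑ n ∈ range N, (((et N) ^ 2) ^ m) ^ n = if N ∣ m then (N : ℂ) else 0 := by
  split_ifs with h
  · have h1 : ((et N) ^ 2) ^ m = 1 := (et_sq_prim hN).pow_eq_one_iff_dvd m |>.2 h
    rw [h1]
    simp
  · have h1 : ((et N) ^ 2) ^ m ≠ 1 := fun h1 => h ((et_sq_prim hN).pow_eq_one_iff_dvd m |>.1 h1)
    have h2 : (((et N) ^ 2) ^ m) ^ N = 1 := by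
      rw [← pow_mul, mul_comm, pow_mul, (et_sq_prim hN).pow_eq_one, one_pow]
    have h3 := geom_sum_mul (((et N) ^ 2) ^ m) N
    rw [h2, sub_self] at h3
    exact (mul_eq_zero.1 h3).resolve_right (sub_ne_zero.2 h1)

/-- the coefficient functionals of the numerator -/
noncomputable def CN (N j : ℕ) (W : ℕ → ℂ) : ℂ :=
  ∑ n ∈ range N, (W (n + 1) - W n) * (zt N n) ^ (N - 1 - j)

theorem CN_pow {N : ℕ} (hN : 0 < N) {k : ℕ} (hk : 0 < k) (hkN : k < N) {j : ℕ} (hj : j < N) :
    CN N j (fun n => (e N n) ^ k) =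
      if j = k - 1 then 2 * I * N * (Real.sin (Real.pi * k / N) : ℝ) else 0 := by
  have h1 : CN N j (fun n => (e N n) ^ k) =
      ((et N) ^ (2 * k) - 1) * (et N) ^ (N - 1 - j) *
        ∑ n ∈ range N, (((et N) ^ 2) ^ (k + (N - 1 - j))) ^ n := by
    rw [CN, Finset.mul_sum]
    refine Finset.sum_congr rfl fun n _ => ?_
    simp only [e_eq, zt_eq]
    ring
  rw [h1, sum_pow hN]
  by_cases hjk : j = k - 1
  · have h2 : N ∣ k + (N - 1 - j) := by
      have : k + (N - 1 - j) = N := by omega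
      rw [this]
    rw [if_pos h2, if_pos hjk]
    have h3 : N - 1 - j = N - k := by omega
    rw [h3]
    have h4 : (et N) ^ (N - k) * (et N) ^ k = -1 := by
      rw [← pow_add, Nat.sub_add_cancel hkN.le, et_pow_N hN]
    have h5 : (et N) ^ k = exp (((-(Real.pi * k / N) : ℝ) : ℂ) * I) := by
      rw [et, ← Complex.exp_nat_mul]
      congr 1
      push_cast
      ring
    have h6 : (et N) ^ (N - k) = -exp (((Real.pi * k / N : ℝ) : ℂ) * I) := by
      have : exp (((-(Real.pi * k / N) : ℝ) : ℂ) * I) ≠ 0 := Complex.exp_ne_zero _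
      rw [h5] at h4
      apply mul_right_cancel₀ this
      rw [h4, neg_mul, ← Complex.exp_add]
      push_cast
      rw [← add_mul, add_neg_cancel, zero_mul, Complex.exp_zero]
    have h7 : (et N) ^ (2 * k) = exp (((-(Real.pi * k / N) : ℝ) : ℂ) * I) ^ 2 := by
      rw [← h5, ← pow_mul, mul_comm]
    rw [h7, h6, Complex.exp_mul_I, Complex.exp_mul_I]
    push_cast
    rw [Complex.cos_neg, Complex.sin_neg]
    have h8 := Complex.sin_sq_add_cos_sq ((Real.pi : ℂ) * k / N)
    have h9 : (I : ℂ) ^ 2 = -1 := Complex.I_sq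
    set s := Complex.sin ((Real.pi : ℂ) * k / N)
    set c := Complex.cos ((Real.pi : ℂ) * k / N)
    have h10 : c ^ 2 = 1 - s ^ 2 := by rw [← h8]; ring
    have : ((c + -s * I) ^ 2 - 1) * -(c + s * I) = 2 * I * s := by
      have e1 : ((c + -s * I) ^ 2 - 1) * -(c + s * I) =
          -(c ^ 2 * c) + c ^ 2 * s * I + c * s ^ 2 * I ^ 2 - s ^ 3 * I ^ 2 * I + c + s * I := by
        ring
      rw [e1, h9, h10]
      ring
    calc ((c + -s * I) ^ 2 - 1) * -(c + s * I) * N = (2 * I * s) * N := by rw [this]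
      _ = _ := by ring
  · have h2 : ¬ N ∣ k + (N - 1 - j) := by
      rintro ⟨c, hc⟩
      have hc1 : c < 2 := by
        by_contra h
        have : N * 2 ≤ N * c := Nat.mul_le_mul_left N (by omega)
        omega
      interval_cases c <;> omega
    rw [if_neg h2, if_neg hjk, mul_zero]

theorem e_periodic {N : ℕ} (hN : 0 < N) : e N N = e N 0 := by
  rw [e_eq, e_eq, mul_comm, pow_mul, et_pow_N hN]
  norm_num

theorem conj_e_pow {N : ℕ} (hN : 0 < N) {k : ℕ} (hkN : k ≤ N) (n : ℕ) :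
    (starRingEnd ℂ (e N n)) ^ k = (e N n) ^ (N - k) := by
  have h1 : e N n * starRingEnd ℂ (e N n) = 1 := by
    rw [Complex.mul_conj, Complex.normSq_eq_norm_sq, norm_e]
    norm_num
  have h2 : (e N n) ^ N = 1 := by
    rw [e_eq, ← pow_mul, mul_comm, pow_mul, et_pow_N hN, pow_mul]
    norm_num
  have h3 : (e N n) ^ k ≠ 0 := by
    apply pow_ne_zero
    intro h
    rw [h] at h1
    simp at h1
  apply mul_left_cancel₀ h3
  rw [← mul_pow, h1, one_pow, ← pow_add, Nat.add_sub_cancel' hkN, h2]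

theorem CN_conj {N : ℕ} (hN : 0 < N) {k : ℕ} (hk : 0 < k) (hkN : k < N) {j : ℕ} (hj : j < N) :
    CN N j (fun n => (starRingEnd ℂ (e N n)) ^ k) =
      if j = N - k - 1 then 2 * I * N * (Real.sin (Real.pi * k / N) : ℝ) else 0 := by
  have h1 : (fun n => (starRingEnd ℂ (e N n)) ^ k) = fun n => (e N n) ^ (N - k) := by
    funext n
    exact conj_e_pow hN hkN.le n
  rw [h1, CN_pow hN (by omega) (by omega) hj]
  have h2 : Real.sin (Real.pi * (N - k : ℕ) / N) = Real.sin (Real.pi * k / N) := by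
    rw [Nat.cast_sub hkN.le]
    have hN' : (N : ℝ) ≠ 0 := by exact_mod_cast hN.ne'
    have : Real.pi * ((N : ℝ) - k) / N = Real.pi - Real.pi * k / N := by field_simp
    rw [this, Real.sin_pi_sub]
  rw [h2]

theorem CN_bound (N j : ℕ) (W : ℕ → ℂ) (hW : ∀ n, ‖W n‖ ≤ 1) : ‖CN N j W‖ ≤ 2 * N := by
  rw [CN]
  refine (norm_sum_le _ _).trans ?_
  have : ∀ n ∈ range N, ‖(W (n + 1) - W n) * (zt N n) ^ (N - 1 - j)‖ ≤ 2 := by
    intro n _
    rw [norm_mul, norm_pow, norm_zt, one_pow, mul_one]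
    exact (norm_sub_le _ _).trans (by linarith [hW (n + 1), hW n])
  refine (Finset.sum_le_sum this).trans ?_
  rw [Finset.sum_const, Finset.card_range, nsmul_eq_mul]
  linarith

/-- the numerator -/
noncomputable def PN (N : ℕ) (W : ℕ → ℂ) (z : ℂ) : ℂ := ∑ j ∈ range N, z ^ j * CN N j W

theorem PN_pow {N : ℕ} (hN : 0 < N) {k : ℕ} (hk : 0 < k) (hkN : k < N) (z : ℂ) :
    PN N (fun n => (e N n) ^ k) z =
      2 * I * N * (Real.sin (Real.pi * k / N) : ℝ) * z ^ (k - 1) := by
  rw [PN, Finset.sum_eq_single (k - 1)]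
  · rw [CN_pow hN hk hkN (by omega), if_pos rfl]
    ring
  · intro j hj hne
    rw [CN_pow hN hk hkN (Finset.mem_range.1 hj), if_neg hne, mul_zero]
  · intro h
    exact absurd (Finset.mem_range.2 (by omega)) h

theorem PN_conj {N : ℕ} (hN : 0 < N) {k : ℕ} (hk : 0 < k) (hkN : k < N) (z : ℂ) :
    PN N (fun n => (starRingEnd ℂ (e N n)) ^ k) z =
      2 * I * N * (Real.sin (Real.pi * k / N) : ℝ) * z ^ (N - k - 1) := by
  rw [PN, Finset.sum_eq_single (N - k - 1)]
  · rw [CN_conj hN hk hkN (by omega), if_pos rfl]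
    ring
  · intro j hj hne
    rw [CN_conj hN hk hkN (Finset.mem_range.1 hj), if_neg hne, mul_zero]
  · intro h
    exact absurd (Finset.mem_range.2 (by omega)) h

theorem PN_bound (N : ℕ) (W : ℕ → ℂ) (hW : ∀ n, ‖W n‖ ≤ 1) {z : ℂ} (hz : ‖z‖ ≤ 1) :
    ‖PN N W z‖ ≤ 2 * N ^ 2 := by
  rw [PN]
  refine (norm_sum_le _ _).trans ?_
  have : ∀ j ∈ range N, ‖z ^ j * CN N j W‖ ≤ 2 * N := by
    intro j _
    rw [norm_mul, norm_pow]
    calc ‖z‖ ^ j * ‖CN N j W‖ ≤ 1 * (2 * N) :=
          mul_le_mul (pow_le_one₀ (norm_nonneg _) hz) (CN_bound N j W hW) (norm_nonneg _)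
            zero_le_one
      _ = _ := one_mul _
  refine (Finset.sum_le_sum this).trans ?_
  rw [Finset.sum_const, Finset.card_range, nsmul_eq_mul]
  apply le_of_eq
  ring

end Pool.Agent.Lib.MP4cd976.RT
end

section
/-! Root step map of a harmonic map, part B: Taylor series and the uniform limit. -/
open Complex Finset Filter Topology Metric

namespace Pool.Agent.Lib.MP4cd976.RT

/-- Taylor coefficients at `0` of a function on a disk of radius `> 1` -/
theorem taylor {ρ : ℝ} (hρ : 1 < ρ) {f : ℂ → ℂ} (hf : DifferentiableOn ℂ f (ball 0 ρ)) :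
    ∃ a : ℕ → ℂ, Summable (fun k : ℕ => (k : ℝ) ^ 2 * ‖a k‖) ∧
      (∀ z, ‖z‖ ≤ 1 → HasSum (fun k : ℕ => a k * z ^ k) (f z)) ∧
      (∀ z, ‖z‖ ≤ 1 → HasSum (fun k : ℕ => a k * (k * z ^ (k - 1))) (deriv f z)) ∧
      a 1 = deriv f 0 ∧ 2 * a 2 = deriv (deriv f) 0 := by
  have hmem : ∀ z : ℂ, ‖z‖ ≤ 1 → z ∈ ball (0 : ℂ) ρ := fun z hz => by
    rw [mem_ball_zero_iff]
    linarith
  have hf' : DifferentiableOn ℂ (deriv f) (ball 0 ρ) := hf.deriv isOpen_ball
  set a : ℕ → ℂ := fun k => ((Nat.factorial k : ℕ) : ℂ)⁻¹ * iteratedDeriv k f 0 with ha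
  have h1 : ∀ z ∈ ball (0 : ℂ) ρ, HasSum (fun k : ℕ => a k * z ^ k) (f z) := by
    intro z hz
    have := Complex.hasSum_taylorSeries_on_ball hf hz
    refine this.congr_fun fun k => ?_
    simp only [ha, sub_zero, smul_eq_mul]
    ring
  have h2 : ∀ z ∈ ball (0 : ℂ) ρ, HasSum (fun k : ℕ => a (k + 1) * (((k + 1 : ℕ) : ℂ) * z ^ k))
      (deriv f z) := by
    intro z hz
    have := Complex.hasSum_taylorSeries_on_ball hf' hz
    refine this.congr_fun fun k => ?_
    have hk : ((Nat.factorial k : ℕ) : ℂ) ≠ 0 := by exact_mod_cast Nat.factorial_ne_zero k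
    have hk1 : ((k + 1 : ℕ) : ℂ) ≠ 0 := by exact_mod_cast Nat.succ_ne_zero k
    simp only [ha, sub_zero, smul_eq_mul]
    rw [iteratedDeriv_succ', Nat.factorial_succ, Nat.cast_mul, mul_inv]
    field_simp
  refine ⟨a, ?_, fun z hz => h1 z (hmem z hz), ?_, ?_, ?_⟩
  · obtain ⟨r, hr1, hr2⟩ := exists_between hρ
    have hr0 : 0 < r := by linarith
    have hs := (h1 (r : ℂ) (by
      rw [mem_ball_zero_iff, Complex.norm_real, Real.norm_of_nonneg hr0.le]
      exact hr2)).summable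
    have hs' := hs.norm.tendsto_atTop_zero
    obtain ⟨C, hC⟩ := hs'.bddAbove_range
    have hC' : ∀ k, ‖a k‖ * r ^ k ≤ C := by
      intro k
      have := hC ⟨k, rfl⟩
      simpa [norm_mul, norm_pow, Complex.norm_real, abs_of_pos hr0] using this
    have hg : Summable (fun k : ℕ => (k : ℝ) ^ 2 * (r⁻¹) ^ k) := by
      apply summable_pow_mul_geometric_of_norm_lt_one
      rw [Real.norm_of_nonneg (inv_nonneg.2 hr0.le)]
      exact inv_lt_one_of_one_lt₀ hr1
    refine Summable.of_nonneg_of_le (fun k => by positivity) (fun k => ?_) (hg.mul_left C)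
    have h3 : ‖a k‖ ≤ C * (r⁻¹) ^ k := by
      rw [inv_pow, ← div_eq_mul_inv, le_div_iff₀ (pow_pos hr0 k)]
      exact hC' k
    calc (k : ℝ) ^ 2 * ‖a k‖ ≤ (k : ℝ) ^ 2 * (C * (r⁻¹) ^ k) :=
          mul_le_mul_of_nonneg_left h3 (by positivity)
      _ = _ := by ring
  · intro z hz
    have h3 := h2 z (hmem z hz)
    have h4 := (hasSum_nat_add_iff' (f := fun k : ℕ => a k * ((k : ℂ) * z ^ (k - 1))) 1
      (g := deriv f z)).1 (by simpa using h3)
    exact h4
  · simp [ha, iteratedDeriv_one]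
  · simp [ha, iteratedDeriv_succ', iteratedDeriv_zero]

/-- error weights -/
noncomputable def beta (N k : ℕ) : ℝ :=
  if k < N then |2 * N * Real.sin (Real.pi * k / N) - 2 * Real.pi * k| else 20 * k ^ 2

theorem beta_nonneg (N k : ℕ) : 0 ≤ beta N k := by
  unfold beta
  split_ifs <;> positivity

theorem beta_le (N k : ℕ) : beta N k ≤ 20 * (k : ℝ) ^ 2 := by
  unfold beta
  split_ifs with h
  · rcases Nat.eq_zero_or_pos k with h0 | h0
    · subst h0
      simp
    · have hN : (0 : ℝ) < N := by exact_mod_cast (by omega : 0 < N)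
      have hk : (1 : ℝ) ≤ k := by exact_mod_cast h0
      have hx : 0 ≤ Real.pi * k / N := by positivity
      have h1 : |Real.sin (Real.pi * k / N)| ≤ Real.pi * k / N := by
        have := Real.abs_sin_le_abs (x := Real.pi * k / N)
        rwa [abs_of_nonneg hx] at this
      have h2 : |2 * N * Real.sin (Real.pi * k / N)| ≤ 2 * Real.pi * k := by
        rw [abs_mul, abs_of_pos (by positivity : (0 : ℝ) < 2 * N)]
        calc 2 * N * |Real.sin (Real.pi * k / N)| ≤ 2 * N * (Real.pi * k / N) :=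
              mul_le_mul_of_nonneg_left h1 (by positivity)
          _ = _ := by field_simp
      have h3 : |2 * Real.pi * (k : ℝ)| = 2 * Real.pi * k := abs_of_nonneg (by positivity)
      have h4 := abs_sub (2 * N * Real.sin (Real.pi * k / N)) (2 * Real.pi * k)
      have hpi : Real.pi < 4 := Real.pi_lt_four
      nlinarith [Real.pi_pos]
  · exact le_rfl

theorem beta_tendsto (k : ℕ) : Tendsto (fun N => beta N k) atTop (𝓝 0) := by
  have h1 : Tendsto (fun N : ℕ => (N : ℝ) * Real.sin (Real.pi * k / N)) atTop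
      (𝓝 (Real.pi * k)) := by
    rcases Nat.eq_zero_or_pos k with h0 | h0
    · subst h0
      simp
    · have hd := Real.hasDerivAt_sin 0
      rw [Real.cos_zero, hasDerivAt_iff_tendsto_slope_zero] at hd
      have hc : (0 : ℝ) < Real.pi * k := by positivity
      have ht : Tendsto (fun N : ℕ => Real.pi * k / (N : ℝ)) atTop (𝓝[≠] 0) := by
        refine tendsto_nhdsWithin_iff.2 ⟨tendsto_const_div_atTop_nhds_zero_nat _, ?_⟩
        filter_upwards [eventually_gt_atTop 0] with N hN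
        have : (0 : ℝ) < N := by exact_mod_cast hN
        exact (div_pos hc this).ne'
      have h2 := (hd.comp ht).const_mul (Real.pi * k)
      rw [mul_one] at h2
      refine h2.congr' ?_
      filter_upwards [eventually_gt_atTop 0] with N hN
      have : (0 : ℝ) < N := by exact_mod_cast hN
      simp only [Function.comp, zero_add, Real.sin_zero, sub_zero, smul_eq_mul]
      field_simp
  have h3 : Tendsto (fun N : ℕ => |2 * N * Real.sin (Real.pi * k / N) - 2 * Real.pi * k|) atTop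
      (𝓝 0) := by
    have h4 := ((h1.const_mul 2).sub_const (2 * (Real.pi * k))).abs
    rw [sub_self, abs_zero] at h4
    refine h4.congr fun N => ?_
    congr 1
    ring
  refine h3.congr' ?_
  filter_upwards [eventually_gt_atTop k] with N hN
  rw [beta, if_pos hN]

/-- total error -/
theorem delta_tendsto {a : ℕ → ℝ} (ha : ∀ k, 0 ≤ a k)
    (hs : Summable (fun k : ℕ => (k : ℝ) ^ 2 * a k)) :
    (∀ N, Summable (fun k => a k * beta N k)) ∧
      Tendsto (fun N => ∑' k, a k * beta N k) atTop (𝓝 0) := by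
  have hb : ∀ N k, ‖a k * beta N k‖ ≤ 20 * ((k : ℝ) ^ 2 * a k) := by
    intro N k
    rw [Real.norm_of_nonneg (mul_nonneg (ha k) (beta_nonneg N k))]
    calc a k * beta N k ≤ a k * (20 * (k : ℝ) ^ 2) :=
          mul_le_mul_of_nonneg_left (beta_le N k) (ha k)
      _ = _ := by ring
  refine ⟨fun N => Summable.of_norm_bounded (hs.mul_left 20) (hb N), ?_⟩
  have := tendsto_tsum_of_dominated_convergence (f := fun N k => a k * beta N k)
    (g := fun _ => (0 : ℝ)) (𝓕 := atTop) (hs.mul_left 20)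
    (fun k => by simpa using (beta_tendsto k).const_mul (a k))
    (Eventually.of_forall fun N k => hb N k)
  simpa using this

/-- linearity of the coefficient functional along series -/
theorem CN_hasSum (N j : ℕ) {w : ℕ → ℕ → ℂ} {W : ℕ → ℂ} (a : ℕ → ℂ)
    (h : ∀ n, HasSum (fun k => a k * w k n) (W n)) :
    HasSum (fun k => a k * CN N j (w k)) (CN N j W) := by
  unfold CN
  have h1 : HasSum (fun k => ∑ n ∈ range N, (a k * w k (n + 1) - a k * w k n) *
      (zt N n) ^ (N - 1 - j)) (∑ n ∈ range N, (W (n + 1) - W n) * (zt N n) ^ (N - 1 - j)) :=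
    hasSum_sum fun n _ => ((h (n + 1)).sub (h n)).mul_right _
  convert h1 using 2 with k
  rw [Finset.mul_sum]
  refine Finset.sum_congr rfl fun n _ => ?_
  ring

theorem PN_hasSum (N : ℕ) (z : ℂ) {w : ℕ → ℕ → ℂ} {W : ℕ → ℂ} (a : ℕ → ℂ)
    (h : ∀ n, HasSum (fun k => a k * w k n) (W n)) :
    HasSum (fun k => a k * PN N (w k) z) (PN N W z) := by
  unfold PN
  have h1 : HasSum (fun k => ∑ j ∈ range N, z ^ j * (a k * CN N j (w k)))
      (∑ j ∈ range N, z ^ j * CN N j W) :=
    hasSum_sum fun j _ => (CN_hasSum N j a h).mul_left _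
  convert h1 using 2 with k
  rw [Finset.mul_sum]
  refine Finset.sum_congr rfl fun j _ => ?_
  ring

theorem CN_add (N j : ℕ) (W V : ℕ → ℂ) :
    CN N j (fun n => W n + V n) = CN N j W + CN N j V := by
  unfold CN
  rw [← Finset.sum_add_distrib]
  refine Finset.sum_congr rfl fun n _ => ?_
  ring

theorem PN_add (N : ℕ) (W V : ℕ → ℂ) (z : ℂ) :
    PN N (fun n => W n + V n) z = PN N W z + PN N V z := by
  unfold PN
  rw [← Finset.sum_add_distrib]
  refine Finset.sum_congr rfl fun n _ => ?_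
  rw [CN_add]
  ring

theorem CN_one (N j : ℕ) : CN N j (fun _ => (1 : ℂ)) = 0 := by
  simp [CN]

theorem PN_one (N : ℕ) (z : ℂ) : PN N (fun _ => (1 : ℂ)) z = 0 := by
  simp [PN, CN_one]

end Pool.Agent.Lib.MP4cd976.RT
end

section
/-! Root step map of a harmonic map, part C: the numerator has no zeros in the closed disk, and
its first two coefficients converge. -/
open Complex Finset Filter Topology Metric

namespace Pool.Agent.Lib.MP4cd976.RT

theorem norm_e_pow (N n k : ℕ) : ‖(e N n) ^ k‖ ≤ 1 := by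
  rw [norm_pow, norm_e, one_pow]

theorem norm_conj_e_pow (N n k : ℕ) : ‖(starRingEnd ℂ (e N n)) ^ k‖ ≤ 1 := by
  rw [norm_pow, RCLike.norm_conj, norm_e, one_pow]

/-- the values of a harmonic map at the roots of unity -/
noncomputable def WF (h g : ℂ → ℂ) (N n : ℕ) : ℂ := h (e N n) + starRingEnd ℂ (g (e N n))

theorem PN_h {h : ℂ → ℂ} {a : ℕ → ℂ} (ha : Summable (fun k : ℕ => (k : ℝ) ^ 2 * ‖a k‖))
    (h1 : ∀ z, ‖z‖ ≤ 1 → HasSum (fun k : ℕ => a k * z ^ k) (h z))
    (h2 : ∀ z, ‖z‖ ≤ 1 → HasSum (fun k : ℕ => a k * (k * z ^ (k - 1))) (deriv h z))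
    {N : ℕ} (hN : 0 < N) {z : ℂ} (hz : ‖z‖ ≤ 1) :
    ‖PN N (fun n => h (e N n)) z - 2 * Real.pi * I * deriv h z‖ ≤ ∑' k, ‖a k‖ * beta N k := by
  have e1 : HasSum (fun k : ℕ => a k * PN N (fun n => (e N n) ^ k) z)
      (PN N (fun n => h (e N n)) z) :=
    PN_hasSum N z (w := fun k n => (e N n) ^ k) a (fun n => h1 _ (norm_e N n).le)
  have e2 := e1.sub ((h2 z hz).mul_left (2 * Real.pi * I))
  have hb : ∀ k : ℕ, ‖a k * PN N (fun n => (e N n) ^ k) z -
      2 * Real.pi * I * (a k * (k * z ^ (k - 1)))‖ ≤ ‖a k‖ * beta N k := by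
    intro k
    have : a k * PN N (fun n => (e N n) ^ k) z - 2 * Real.pi * I * (a k * (k * z ^ (k - 1))) =
        a k * (PN N (fun n => (e N n) ^ k) z - 2 * Real.pi * I * (k * z ^ (k - 1))) := by ring
    rw [this, norm_mul]
    refine mul_le_mul_of_nonneg_left ?_ (norm_nonneg _)
    rcases Nat.eq_zero_or_pos k with h0 | h0
    · subst h0
      simp [PN_one, beta_nonneg]
    by_cases hk : k < N
    · rw [PN_pow hN h0 hk, beta, if_pos hk]
      have : 2 * I * N * (Real.sin (Real.pi * k / N) : ℝ) * z ^ (k - 1) -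
          2 * Real.pi * I * (k * z ^ (k - 1)) =
          ((2 * N * Real.sin (Real.pi * k / N) - 2 * Real.pi * k : ℝ) : ℂ) * (I * z ^ (k - 1)) := by
        push_cast
        ring
      rw [this, norm_mul, Complex.norm_real, Real.norm_eq_abs, norm_mul, Complex.norm_I, one_mul,
        norm_pow]
      exact mul_le_of_le_one_right (abs_nonneg _) (pow_le_one₀ (norm_nonneg _) hz)
    · rw [beta, if_neg hk]
      have hk' : (N : ℝ) ≤ k := by exact_mod_cast (not_lt.1 hk)
      have hk1 : (1 : ℝ) ≤ k := by exact_mod_cast h0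
      have b1 := PN_bound N (fun n => (e N n) ^ k) (fun n => norm_e_pow N n k) hz
      have b2 : ‖2 * Real.pi * I * (k * z ^ (k - 1))‖ ≤ 2 * Real.pi * k := by
        simp only [norm_mul, norm_pow, Complex.norm_I, mul_one, Complex.norm_real,
          Complex.norm_natCast, Complex.norm_ofNat, Real.norm_eq_abs, abs_of_pos Real.pi_pos]
        have := pow_le_one₀ (n := k - 1) (norm_nonneg z) hz
        have h3 : (k : ℝ) * ‖z‖ ^ (k - 1) ≤ k := mul_le_of_le_one_right (by positivity) this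
        exact mul_le_mul_of_nonneg_left h3 (by positivity)
      have hN0 : (0 : ℝ) ≤ N := by positivity
      have hpi := Real.pi_lt_four
      have : (N : ℝ) ^ 2 ≤ (k : ℝ) ^ 2 := by nlinarith
      calc _ ≤ _ := norm_sub_le _ _
        _ ≤ 2 * (N : ℝ) ^ 2 + 2 * Real.pi * k := add_le_add b1 b2
        _ ≤ 20 * (k : ℝ) ^ 2 := by nlinarith
  exact tsum_of_norm_bounded
    ((delta_tendsto (fun k => norm_nonneg (a k)) ha).1 N).hasSum hb |> fun h => by
      rw [e2.tsum_eq] at h
      exact h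

theorem PN_g {g : ℂ → ℂ} {b : ℕ → ℂ} (hb' : Summable (fun k : ℕ => (k : ℝ) ^ 2 * ‖b k‖))
    (h1 : ∀ z, ‖z‖ ≤ 1 → HasSum (fun k : ℕ => b k * z ^ k) (g z))
    (h2 : ∀ z, ‖z‖ ≤ 1 → HasSum (fun k : ℕ => b k * (k * z ^ (k - 1))) (deriv g z))
    {N : ℕ} (hN : 2 ≤ N) {z : ℂ} (hz : ‖z‖ = 1) :
    ‖PN N (fun n => starRingEnd ℂ (g (e N n))) z -
      2 * Real.pi * I * (z ^ (N - 2) * starRingEnd ℂ (deriv g z))‖ ≤ ∑' k, ‖b k‖ * beta N k := by
  have hN0 : 0 < N := by omega
  have e1 : HasSum (fun k : ℕ => starRingEnd ℂ (b k) * PN N (fun n => (starRingEnd ℂ (e N n)) ^ k) z)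
      (PN N (fun n => starRingEnd ℂ (g (e N n))) z) := by
    refine PN_hasSum N z (w := fun k n => (starRingEnd ℂ (e N n)) ^ k) (fun k => starRingEnd ℂ (b k))
      (fun n => ?_)
    have := (h1 _ (norm_e N n).le).mapL (Complex.conjCLE : ℂ →L[ℝ] ℂ)
    simpa using this
  have e3 := (h2 z hz.le).mapL (Complex.conjCLE : ℂ →L[ℝ] ℂ)
  have e2 := e1.sub (e3.mul_left (2 * Real.pi * I * z ^ (N - 2)))
  have hb : ∀ k : ℕ, ‖starRingEnd ℂ (b k) * PN N (fun n => (starRingEnd ℂ (e N n)) ^ k) z -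
      2 * Real.pi * I * z ^ (N - 2) * (Complex.conjCLE : ℂ →L[ℝ] ℂ) (b k * (k * z ^ (k - 1)))‖ ≤
      ‖b k‖ * beta N k := by
    intro k
    have : starRingEnd ℂ (b k) * PN N (fun n => (starRingEnd ℂ (e N n)) ^ k) z -
      2 * Real.pi * I * z ^ (N - 2) * (Complex.conjCLE : ℂ →L[ℝ] ℂ) (b k * (k * z ^ (k - 1))) =
        starRingEnd ℂ (b k) * (PN N (fun n => (starRingEnd ℂ (e N n)) ^ k) z -
          2 * Real.pi * I * (k * (z ^ (N - 2) * (starRingEnd ℂ z) ^ (k - 1)))) := by
      simp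
      ring
    rw [this, norm_mul, RCLike.norm_conj]
    refine mul_le_mul_of_nonneg_left ?_ (norm_nonneg _)
    rcases Nat.eq_zero_or_pos k with h0 | h0
    · subst h0
      simp [PN_one, beta_nonneg]
    by_cases hk : k < N
    · rw [PN_conj hN0 h0 hk, beta, if_pos hk]
      have hzz : z * starRingEnd ℂ z = 1 := by
        rw [Complex.mul_conj, Complex.normSq_eq_norm_sq, hz]
        norm_num
      have hz2 : z ^ (N - 2) * (starRingEnd ℂ z) ^ (k - 1) = z ^ (N - k - 1) := by
        have : N - 2 = (N - k - 1) + (k - 1) := by omega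
        rw [this, pow_add, mul_assoc, ← mul_pow, hzz, one_pow, mul_one]
      rw [hz2]
      have : 2 * I * N * (Real.sin (Real.pi * k / N) : ℝ) * z ^ (N - k - 1) -
          2 * Real.pi * I * (k * z ^ (N - k - 1)) =
          ((2 * N * Real.sin (Real.pi * k / N) - 2 * Real.pi * k : ℝ) : ℂ) *
            (I * z ^ (N - k - 1)) := by
        push_cast
        ring
      rw [this, norm_mul, Complex.norm_real, Real.norm_eq_abs, norm_mul, Complex.norm_I, one_mul,
        norm_pow, hz, one_pow, mul_one]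
    · rw [beta, if_neg hk]
      have hk' : (N : ℝ) ≤ k := by exact_mod_cast (not_lt.1 hk)
      have hk1 : (1 : ℝ) ≤ k := by exact_mod_cast h0
      have b1 := PN_bound N (fun n => (starRingEnd ℂ (e N n)) ^ k)
        (fun n => norm_conj_e_pow N n k) hz.le
      have b2 : ‖2 * Real.pi * I * (k * (z ^ (N - 2) * (starRingEnd ℂ z) ^ (k - 1)))‖ ≤
          2 * Real.pi * k := by
        simp only [norm_mul, norm_pow, Complex.norm_I, mul_one, Complex.norm_real,
          Complex.norm_natCast, Complex.norm_ofNat, Real.norm_eq_abs, abs_of_pos Real.pi_pos,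
          RCLike.norm_conj, hz, one_pow]
        exact le_rfl
      have hN0 : (0 : ℝ) ≤ N := by positivity
      have hpi := Real.pi_lt_four
      have : (N : ℝ) ^ 2 ≤ (k : ℝ) ^ 2 := by nlinarith
      calc _ ≤ _ := norm_sub_le _ _
        _ ≤ 2 * (N : ℝ) ^ 2 + 2 * Real.pi * k := add_le_add b1 b2
        _ ≤ 20 * (k : ℝ) ^ 2 := by nlinarith
  have h := tsum_of_norm_bounded
    ((delta_tendsto (fun k => norm_nonneg (b k)) hb').1 N).hasSum hb
  rw [e2.tsum_eq] at h
  simpa [mul_assoc] using h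

/-- `(1 + z ^ N) ∂f_N = h' + z ^ (N - 2) conj g' + o(1)` uniformly on the unit circle -/
theorem PN_unif {ρ : ℝ} (hρ : 1 < ρ) {h g : ℂ → ℂ} (hh : DifferentiableOn ℂ h (ball 0 ρ))
    (hg : DifferentiableOn ℂ g (ball 0 ρ)) :
    ∃ δ : ℕ → ℝ, Tendsto δ atTop (𝓝 0) ∧ ∀ N : ℕ, 2 ≤ N → ∀ z : ℂ, ‖z‖ = 1 →
      ‖PN N (WF h g N) z - 2 * Real.pi * I *
        (deriv h z + z ^ (N - 2) * starRingEnd ℂ (deriv g z))‖ ≤ δ N := by
  obtain ⟨a, ha1, ha2, ha3, -⟩ := taylor hρ hh
  obtain ⟨b, hb1, hb2, hb3, -⟩ := taylor hρ hg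
  refine ⟨fun N => ∑' k, ‖a k‖ * beta N k + ∑' k, ‖b k‖ * beta N k, ?_, ?_⟩
  · simpa using (delta_tendsto (fun k => norm_nonneg (a k)) ha1).2.add
      (delta_tendsto (fun k => norm_nonneg (b k)) hb1).2
  · intro N hN z hz
    have e1 := PN_h ha1 ha2 ha3 (by omega : 0 < N) hz.le
    have e2 := PN_g hb1 hb2 hb3 hN hz
    have e3 : PN N (WF h g N) z - 2 * Real.pi * I *
        (deriv h z + z ^ (N - 2) * starRingEnd ℂ (deriv g z)) =
        (PN N (fun n => h (e N n)) z - 2 * Real.pi * I * deriv h z) +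
        (PN N (fun n => starRingEnd ℂ (g (e N n))) z -
          2 * Real.pi * I * (z ^ (N - 2) * starRingEnd ℂ (deriv g z))) := by
      have : WF h g N = fun n => h (e N n) + starRingEnd ℂ (g (e N n)) := rfl
      rw [this, PN_add]
      ring
    rw [e3]
    exact (norm_add_le _ _).trans (add_le_add e1 e2)

/-- the numerator of the root step map has no zero in the closed disk -/
theorem PN_ne_zero {ρ : ℝ} (hρ : 1 < ρ) {h g : ℂ → ℂ} (hh : DifferentiableOn ℂ h (ball 0 ρ))
    (hg : DifferentiableOn ℂ g (ball 0 ρ))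
    (hJ : ∀ z ∈ ball (0 : ℂ) ρ, ‖deriv g z‖ < ‖deriv h z‖) :
    ∀ᶠ N : ℕ in atTop, ∀ z : ℂ, ‖z‖ ≤ 1 → PN N (WF h g N) z ≠ 0 := by
  obtain ⟨δ, hδ, hP⟩ := PN_unif hρ hh hg
  have hmem : ∀ z : ℂ, ‖z‖ ≤ 1 → z ∈ ball (0 : ℂ) ρ := fun z hz => by
    rw [mem_ball_zero_iff]
    linarith
  have hh' : DifferentiableOn ℂ (deriv h) (ball 0 ρ) := hh.deriv isOpen_ball
  have hg' : DifferentiableOn ℂ (deriv g) (ball 0 ρ) := hg.deriv isOpen_ball
  have hh0 : ∀ z : ℂ, ‖z‖ ≤ 1 → deriv h z ≠ 0 := by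
    intro z hz h0
    have := hJ z (hmem z hz)
    rw [h0, norm_zero] at this
    exact absurd (norm_nonneg _) (not_le.2 this)
  -- the margin on the circle
  obtain ⟨m, hm, hm'⟩ : ∃ m : ℝ, 0 < m ∧ ∀ z : ℂ, ‖z‖ = 1 → m ≤ ‖deriv h z‖ - ‖deriv g z‖ := by
    have hc : ContinuousOn (fun z => ‖deriv h z‖ - ‖deriv g z‖) (sphere (0 : ℂ) 1) := by
      have hsub : sphere (0 : ℂ) 1 ⊆ ball 0 ρ := fun z hz => hmem z (by
        rw [mem_sphere_zero_iff_norm] at hz
        exact hz.le)
      exact (hh'.continuousOn.mono hsub).norm.sub (hg'.continuousOn.mono hsub).norm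
    obtain ⟨z₀, hz₀, hmin⟩ := (isCompact_sphere (0 : ℂ) 1).exists_isMinOn
      ⟨1, by simp⟩ hc
    refine ⟨‖deriv h z₀‖ - ‖deriv g z₀‖, ?_, ?_⟩
    · rw [mem_sphere_zero_iff_norm] at hz₀
      have := hJ z₀ (hmem z₀ hz₀.le)
      linarith
    · intro z hz
      exact hmin (by rw [mem_sphere_zero_iff_norm]; exact hz)
  filter_upwards [eventually_ge_atTop 2, hδ.eventually_lt_const (show (0 : ℝ) < m by exact hm)]
    with N hN hδN z hz hPz
  set Q : ℂ → ℂ := fun z => (PN N (WF h g N) z / (2 * Real.pi * I) - deriv h z) / deriv h z with hQ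
  have hpi : (2 * Real.pi * I : ℂ) ≠ 0 := by
    simp [Real.pi_ne_zero]
  have hnpi : ‖(2 * Real.pi * I : ℂ)‖ = 2 * Real.pi := by
    simp [abs_of_pos Real.pi_pos]
  have hPd : Differentiable ℂ (PN N (WF h g N)) := by
    unfold PN
    fun_prop
  have hQd : DifferentiableOn ℂ Q (closedBall 0 1) := by
    have hsub : closedBall (0 : ℂ) 1 ⊆ ball 0 ρ := fun z hz => hmem z (by
      rwa [mem_closedBall_zero_iff] at hz)
    refine DifferentiableOn.div ((hPd.differentiableOn.div_const _).sub (hh'.mono hsub))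
      (hh'.mono hsub) fun z hz => hh0 z (by rwa [mem_closedBall_zero_iff] at hz)
  -- bound on the circle
  obtain ⟨z₁, hz₁, hmax⟩ := (isCompact_sphere (0 : ℂ) 1).exists_isMaxOn (f := fun z => ‖Q z‖)
      ⟨1, by simp⟩ ((hQd.continuousOn.mono sphere_subset_closedBall).norm)
  have hz₁' : ‖z₁‖ = 1 := by rwa [mem_sphere_zero_iff_norm] at hz₁
  have hM : ‖Q z₁‖ < 1 := by
    have h1 := hP N hN z₁ hz₁'
    have h2 := hm' z₁ hz₁'
    have h3 : PN N (WF h g N) z₁ / (2 * Real.pi * I) - deriv h z₁ =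
        (PN N (WF h g N) z₁ - 2 * Real.pi * I *
        (deriv h z₁ + z₁ ^ (N - 2) * starRingEnd ℂ (deriv g z₁))) / (2 * Real.pi * I) +
        z₁ ^ (N - 2) * starRingEnd ℂ (deriv g z₁) := by
      field_simp
      ring
    have h4 : ‖PN N (WF h g N) z₁ / (2 * Real.pi * I) - deriv h z₁‖ ≤
        δ N / (2 * Real.pi) + ‖deriv g z₁‖ := by
      rw [h3]
      refine (norm_add_le _ _).trans (add_le_add ?_ ?_)
      · rw [norm_div, hnpi]
        exact div_le_div_of_nonneg_right h1 (by positivity)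
      · rw [norm_mul, norm_pow, hz₁', one_pow, one_mul, RCLike.norm_conj]
    have h5 : δ N / (2 * Real.pi) ≤ m / (2 * Real.pi) :=
      div_le_div_of_nonneg_right hδN.le (by positivity)
    have h6 : m / (2 * Real.pi) < m := by
      rw [div_lt_iff₀ (by positivity)]
      nlinarith [Real.pi_gt_three]
    rw [hQ]
    simp only
    rw [norm_div, div_lt_one (norm_pos_iff.2 (hh0 z₁ hz₁'.le))]
    linarith
  have hle : ‖Q z‖ ≤ ‖Q z₁‖ := by
    refine Complex.norm_le_of_forall_mem_frontier_norm_le (U := ball (0 : ℂ) 1) isBounded_ball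
      ?_ ?_ ?_
    · exact (hQd.diffContOnCl_ball (subset_rfl))
    · intro w hw
      rw [frontier_ball (0 : ℂ) one_ne_zero] at hw
      exact hmax hw
    · rw [closure_ball (0 : ℂ) one_ne_zero, mem_closedBall_zero_iff]
      exact hz
  have hQz : Q z = -1 := by
    rw [hQ]
    simp only
    rw [hPz, zero_div, zero_sub, neg_div, div_self (hh0 z hz)]
  rw [hQz, norm_neg, norm_one] at hle
  linarith

end Pool.Agent.Lib.MP4cd976.RT
end

section
/-! Root step map of a harmonic map, part D: limits of the coefficients, half plane coordinate. -/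
open Complex Finset Filter Topology Metric

namespace Pool.Agent.Lib.MP4cd976.RT

theorem conj_WF (h g : ℂ → ℂ) (N n : ℕ) : starRingEnd ℂ (WF h g N n) = WF g h N n := by
  rw [WF, WF, map_add, Complex.conj_conj, add_comm]

theorem CN_lim_h {h : ℂ → ℂ} {a : ℕ → ℂ} (ha : Summable (fun k : ℕ => (k : ℝ) ^ 2 * ‖a k‖))
    (h1 : ∀ z, ‖z‖ ≤ 1 → HasSum (fun k : ℕ => a k * z ^ k) (h z)) (j : ℕ) :
    Tendsto (fun N => CN N j (fun n => h (e N n))) atTop
      (𝓝 (2 * Real.pi * I * ((j + 1 : ℕ) * a (j + 1)))) := by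
  have e1 : ∀ N, HasSum (fun k : ℕ => a k * CN N j (fun n => (e N n) ^ k))
      (CN N j (fun n => h (e N n))) := fun N =>
    CN_hasSum N j (w := fun k n => (e N n) ^ k) a (fun n => h1 _ (norm_e N n).le)
  have e2 : HasSum (fun k : ℕ => if k = j + 1 then
      2 * Real.pi * I * ((j + 1 : ℕ) * a (j + 1)) else 0)
      (2 * Real.pi * I * ((j + 1 : ℕ) * a (j + 1))) := hasSum_ite_eq _ _
  rw [← e2.tsum_eq]
  have e3 : (fun N => CN N j (fun n => h (e N n))) =
      fun N => ∑' k : ℕ, a k * CN N j (fun n => (e N n) ^ k) := by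
    funext N
    exact (e1 N).tsum_eq.symm
  rw [e3]
  refine tendsto_tsum_of_dominated_convergence (bound := fun k : ℕ => 7 * ((k : ℝ) ^ 2 * ‖a k‖))
    (ha.mul_left 7) ?_ ?_
  · intro k
    rcases Nat.eq_zero_or_pos k with h0 | h0
    · subst h0
      simp [CN_one]
    have hev : ∀ᶠ N : ℕ in atTop, a k * CN N j (fun n => (e N n) ^ k) =
        a k * (if j = k - 1 then 2 * I * N * (Real.sin (Real.pi * k / N) : ℝ) else 0) := by
      filter_upwards [eventually_gt_atTop k, eventually_gt_atTop j] with N hN hj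
      rw [CN_pow (by omega) h0 hN hj]
    refine Tendsto.congr' (EventuallyEq.symm hev) ?_
    by_cases hjk : j = k - 1
    · have hk1 : k = j + 1 := by omega
      rw [if_pos hk1]
      simp only [if_pos hjk]
      have hb := beta_tendsto k
      have h2 : Tendsto (fun N : ℕ => 2 * N * Real.sin (Real.pi * k / N)) atTop
          (𝓝 (2 * Real.pi * k)) := by
        rw [tendsto_iff_norm_sub_tendsto_zero]
        refine hb.congr' ?_
        filter_upwards [eventually_gt_atTop k] with N hN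
        rw [beta, if_pos hN, Real.norm_eq_abs]
      have h3 := ((Complex.continuous_ofReal.tendsto _).comp h2).const_mul (a k * I)
      have e4 : a k * I * ((2 * Real.pi * k : ℝ) : ℂ) =
          2 * Real.pi * I * ((j + 1 : ℕ) * a (j + 1)) := by
        rw [hk1]
        push_cast
        ring
      rw [e4] at h3
      refine h3.congr fun N => ?_
      simp only [Function.comp]
      push_cast
      ring
    · have hk1 : k ≠ j + 1 := by omega
      rw [if_neg hk1]
      simp only [if_neg hjk, mul_zero]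
      exact tendsto_const_nhds
  · filter_upwards [eventually_gt_atTop j] with N hj k
    rw [norm_mul]
    rcases Nat.eq_zero_or_pos k with h0 | h0
    · subst h0
      simp [CN_one]
    have hk1 : (1 : ℝ) ≤ k := by exact_mod_cast h0
    have hb : ‖CN N j (fun n => (e N n) ^ k)‖ ≤ 7 * (k : ℝ) ^ 2 := by
      by_cases hk : k < N
      · rw [CN_pow (by omega) h0 hk hj]
        split_ifs
        · have hN : (0 : ℝ) < N := by exact_mod_cast (by omega : 0 < N)
          have h2 : |Real.sin (Real.pi * k / N)| ≤ Real.pi * k / N := by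
            have := Real.abs_sin_le_abs (x := Real.pi * k / N)
            rwa [abs_of_nonneg (by positivity : 0 ≤ Real.pi * k / N)] at this
          simp only [norm_mul, Complex.norm_I, mul_one, Complex.norm_real,
            Complex.norm_natCast, Complex.norm_ofNat, Real.norm_eq_abs]
          calc 2 * (N : ℝ) * |Real.sin (Real.pi * k / N)| ≤ 2 * N * (Real.pi * k / N) :=
                mul_le_mul_of_nonneg_left h2 (by positivity)
            _ = 2 * Real.pi * k := by field_simp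
            _ ≤ _ := by nlinarith [Real.pi_lt_d2]
        · rw [norm_zero]
          positivity
      · have hk' : (N : ℝ) ≤ k := by exact_mod_cast (not_lt.1 hk)
        have := CN_bound N j (fun n => (e N n) ^ k) (fun n => norm_e_pow N n k)
        nlinarith
    calc ‖a k‖ * ‖CN N j (fun n => (e N n) ^ k)‖ ≤ ‖a k‖ * (7 * (k : ℝ) ^ 2) :=
          mul_le_mul_of_nonneg_left hb (norm_nonneg _)
      _ = _ := by ring

theorem CN_lim_g {g : ℂ → ℂ} {b : ℕ → ℂ} (hb' : Summable (fun k : ℕ => (k : ℝ) ^ 2 * ‖b k‖))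
    (h1 : ∀ z, ‖z‖ ≤ 1 → HasSum (fun k : ℕ => b k * z ^ k) (g z)) (j : ℕ) :
    Tendsto (fun N => CN N j (fun n => starRingEnd ℂ (g (e N n)))) atTop (𝓝 0) := by
  have e1 : ∀ N, HasSum (fun k : ℕ => starRingEnd ℂ (b k) *
      CN N j (fun n => (starRingEnd ℂ (e N n)) ^ k))
      (CN N j (fun n => starRingEnd ℂ (g (e N n)))) := by
    intro N
    refine CN_hasSum N j (w := fun k n => (starRingEnd ℂ (e N n)) ^ k)
      (fun k => starRingEnd ℂ (b k)) (fun n => ?_)
    have := (h1 _ (norm_e N n).le).mapL (Complex.conjCLE : ℂ →L[ℝ] ℂ)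
    simpa using this
  have e2 : (0 : ℂ) = ∑' _ : ℕ, (0 : ℂ) := by simp
  rw [e2]
  have e3 : (fun N => CN N j (fun n => starRingEnd ℂ (g (e N n)))) =
      fun N => ∑' k : ℕ, starRingEnd ℂ (b k) *
      CN N j (fun n => (starRingEnd ℂ (e N n)) ^ k) := by
    funext N
    exact (e1 N).tsum_eq.symm
  rw [e3]
  refine tendsto_tsum_of_dominated_convergence (bound := fun k : ℕ => 7 * ((k : ℝ) ^ 2 * ‖b k‖))
    (hb'.mul_left 7) ?_ ?_
  · intro k
    rcases Nat.eq_zero_or_pos k with h0 | h0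
    · subst h0
      simp [CN_one]
    refine Tendsto.congr' (f₁ := fun _ => 0) ?_ tendsto_const_nhds
    filter_upwards [eventually_gt_atTop (k + j + 1)] with N hN
    rw [CN_conj (by omega) h0 (by omega) (by omega), if_neg (by omega), mul_zero]
  · filter_upwards [eventually_gt_atTop j] with N hj k
    rw [norm_mul, RCLike.norm_conj]
    rcases Nat.eq_zero_or_pos k with h0 | h0
    · subst h0
      simp [CN_one]
    have hk1 : (1 : ℝ) ≤ k := by exact_mod_cast h0
    have hb : ‖CN N j (fun n => (starRingEnd ℂ (e N n)) ^ k)‖ ≤ 7 * (k : ℝ) ^ 2 := by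
      by_cases hk : k < N
      · rw [CN_conj (by omega) h0 hk hj]
        split_ifs
        · have hN : (0 : ℝ) < N := by exact_mod_cast (by omega : 0 < N)
          have h2 : |Real.sin (Real.pi * k / N)| ≤ Real.pi * k / N := by
            have := Real.abs_sin_le_abs (x := Real.pi * k / N)
            rwa [abs_of_nonneg (by positivity : 0 ≤ Real.pi * k / N)] at this
          simp only [norm_mul, Complex.norm_I, mul_one, Complex.norm_real,
            Complex.norm_natCast, Complex.norm_ofNat, Real.norm_eq_abs]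
          calc 2 * (N : ℝ) * |Real.sin (Real.pi * k / N)| ≤ 2 * N * (Real.pi * k / N) :=
                mul_le_mul_of_nonneg_left h2 (by positivity)
            _ = 2 * Real.pi * k := by field_simp
            _ ≤ _ := by nlinarith [Real.pi_lt_d2]
        · rw [norm_zero]
          positivity
      · have hk' : (N : ℝ) ≤ k := by exact_mod_cast (not_lt.1 hk)
        have := CN_bound N j (fun n => (starRingEnd ℂ (e N n)) ^ k)
          (fun n => norm_conj_e_pow N n k)
        nlinarith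
    calc ‖b k‖ * ‖CN N j (fun n => (starRingEnd ℂ (e N n)) ^ k)‖ ≤ ‖b k‖ * (7 * (k : ℝ) ^ 2) :=
          mul_le_mul_of_nonneg_left hb (norm_nonneg _)
      _ = _ := by ring

/-- the first two coefficients of the numerator -/
theorem CN_lim {ρ : ℝ} (hρ : 1 < ρ) {h g : ℂ → ℂ} (hh : DifferentiableOn ℂ h (ball 0 ρ))
    (hg : DifferentiableOn ℂ g (ball 0 ρ)) :
    Tendsto (fun N => CN N 0 (WF h g N)) atTop (𝓝 (2 * Real.pi * I * deriv h 0)) ∧
    Tendsto (fun N => CN N 1 (WF h g N)) atTop (𝓝 (2 * Real.pi * I * deriv (deriv h) 0)) := by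
  obtain ⟨a, ha1, ha2, -, ha4, ha5⟩ := taylor hρ hh
  obtain ⟨b, hb1, hb2, -⟩ := taylor hρ hg
  have e1 : ∀ j, (fun N => CN N j (WF h g N)) = fun N =>
      CN N j (fun n => h (e N n)) + CN N j (fun n => starRingEnd ℂ (g (e N n))) := by
    intro j
    funext N
    rw [← CN_add]
    rfl
  constructor
  · rw [e1]
    have := (CN_lim_h ha1 ha2 0).add (CN_lim_g hb1 hb2 0)
    simpa [ha4] using this
  · rw [e1]
    have := (CN_lim_h ha1 ha2 1).add (CN_lim_g hb1 hb2 1)
    have e2 : 2 * Real.pi * I * (((1 + 1 : ℕ) : ℂ) * a (1 + 1)) + 0 =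
        2 * Real.pi * I * deriv (deriv h) 0 := by
      rw [← ha5]
      push_cast
      ring
    rwa [e2] at this

/-- nodes of the root piece in the half plane coordinate -/
noncomputable def dn (N i : ℕ) : ℝ :=
  Real.cos (Real.pi * (i + 1) / N) / Real.sin (Real.pi * (i + 1) / N)

theorem angle_pos {N i : ℕ} (hi : i < N - 1) :
    0 < Real.pi * (i + 1) / N ∧ Real.pi * (i + 1) / N < Real.pi := by
  have hN : (0 : ℝ) < N := by exact_mod_cast (by omega : 0 < N)
  refine ⟨by positivity, ?_⟩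
  rw [div_lt_iff₀ hN]
  have : ((i : ℝ) + 1) < N := by exact_mod_cast (by omega : i + 1 < N)
  exact mul_lt_mul_of_pos_left this Real.pi_pos

theorem sin_pos' {N i : ℕ} (hi : i < N - 1) : 0 < Real.sin (Real.pi * (i + 1) / N) :=
  Real.sin_pos_of_pos_of_lt_pi (angle_pos hi).1 (angle_pos hi).2

theorem dn_anti {N i j : ℕ} (hij : i < j) (hj : j < N - 1) : dn N j < dn N i := by
  have hi : i < N - 1 := by omega
  have h1 := sin_pos' hi
  have h2 := sin_pos' hj
  unfold dn
  rw [div_lt_div_iff₀ h2 h1]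
  have hN : (0 : ℝ) < N := by exact_mod_cast (by omega : 0 < N)
  have h3 : 0 < Real.sin (Real.pi * (j + 1) / N - Real.pi * (i + 1) / N) := by
    apply Real.sin_pos_of_pos_of_lt_pi
    · rw [← sub_div]
      apply div_pos _ hN
      have : (i : ℝ) < j := by exact_mod_cast hij
      nlinarith [Real.pi_pos]
    · have := (angle_pos hj).2
      have := (angle_pos hi).1
      linarith
  rw [Real.sin_sub] at h3
  linarith

/-- `zt N n = γ (t - I)/(t + I)` -/
theorem zt_dn {N i : ℕ} (hi : i < N - 1) :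
    zt N i * (dn N i + I) = zt N (N - 1) * (dn N i - I) := by
  have hN : (N : ℝ) ≠ 0 := by
    have : 0 < N := by omega
    exact_mod_cast this.ne'
  have h1 := (sin_pos' hi).ne'
  set α : ℝ := Real.pi * (i + 1) / N with hα
  have h2 : (Real.sin α : ℂ) ≠ 0 := by exact_mod_cast h1
  have e1 : (dn N i : ℂ) + I = exp ((α : ℂ) * I) / Real.sin α := by
    rw [dn, ← hα, Complex.exp_mul_I, eq_div_iff h2]
    push_cast
    rw [add_mul, div_mul_cancel₀ _ (by exact_mod_cast h2)]
    ring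
  have e2 : (dn N i : ℂ) - I = exp (((-α : ℝ) : ℂ) * I) / Real.sin α := by
    rw [dn, ← hα, Complex.exp_mul_I, eq_div_iff h2]
    push_cast
    rw [Complex.cos_neg, Complex.sin_neg, sub_mul, div_mul_cancel₀ _ (by exact_mod_cast h2)]
    ring
  rw [e1, e2, zt, zt, mul_div_assoc', mul_div_assoc', ← Complex.exp_add, ← Complex.exp_add]
  congr 1
  rw [Complex.exp_eq_exp_iff_exists_int]
  refine ⟨1, ?_⟩
  rw [hα]
  have hN' : (N : ℂ) ≠ 0 := by exact_mod_cast hN
  have hc : ((N - 1 : ℕ) : ℂ) = N - 1 := by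
    rw [Nat.cast_sub (by omega)]
    simp
  push_cast
  rw [hc]
  field_simp
  ring

end Pool.Agent.Lib.MP4cd976.RT
end

section
/-! Root step map of a harmonic map, part E: the root piece as a list of poles in the half plane
(no zeros in the closed upper half plane; values at `I`). -/
open Complex Finset Filter Topology Metric

namespace Pool.Agent.Lib.MP4cd976.RT

/-- the function of the root piece -/
noncomputable def HR (N : ℕ) (W : ℕ → ℂ) (X : ℂ) : ℂ :=
  ∑ i ∈ range (N - 1), (W i - W (i + 1)) / (X - dn N i)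

/-- minus its derivative -/
noncomputable def HR2 (N : ℕ) (W : ℕ → ℂ) (X : ℂ) : ℂ :=
  ∑ i ∈ range (N - 1), (W i - W (i + 1)) / (X - dn N i) ^ 2

theorem PN_swap (N : ℕ) (W : ℕ → ℂ) (z : ℂ) :
    PN N W z = ∑ n ∈ range N, (W (n + 1) - W n) *
      ∑ j ∈ range N, z ^ j * (zt N n) ^ (N - 1 - j) := by
  unfold PN CN
  simp only [Finset.mul_sum]
  rw [Finset.sum_comm]
  refine Finset.sum_congr rfl fun n _ => Finset.sum_congr rfl fun j _ => ?_
  ring

theorem geom_zt {N : ℕ} (hN : 0 < N) (n : ℕ) (z : ℂ) :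
    (∑ j ∈ range N, z ^ j * (zt N n) ^ (N - 1 - j)) * (z - zt N n) = z ^ N + 1 := by
  have := (Commute.all z (zt N n)).geom_sum₂_mul N
  rw [this, zt_pow_N hN]
  ring

theorem sum_W {N : ℕ} {W : ℕ → ℂ} (hW : W N = W 0) :
    ∑ i ∈ range (N - 1), (W (i + 1) - W i) + (W N - W (N - 1)) = 0 := by
  have h1 := Finset.sum_range_sub W (N - 1)
  rw [h1, hW]
  ring

/-- change of variables -/
theorem PN_HR {N : ℕ} (hN : 2 ≤ N) {W : ℕ → ℂ} (hW : W N = W 0) {X : ℂ} (hX : X + I ≠ 0)
    (hXd : ∀ i, i < N - 1 → X ≠ (dn N i : ℂ)) :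
    PN N W (zt N (N - 1) * ((X - I) / (X + I))) * (2 * I * zt N (N - 1)) =
      -(((zt N (N - 1) * ((X - I) / (X + I))) ^ N + 1) * (X + I) ^ 2 * HR N W X) := by
  set γ := zt N (N - 1) with hγ
  have hγ0 : γ ≠ 0 := zt_ne _ _
  set z := γ * ((X - I) / (X + I)) with hz
  have hN0 : 0 < N := by omega
  have hq : ∀ i, i < N - 1 → (∑ j ∈ range N, z ^ j * (zt N i) ^ (N - 1 - j)) * (2 * I * γ) =
      (z ^ N + 1) * (X + I) * ((X + I) / (X - dn N i) - 1) := by
    intro i hi
    have h1 : X - dn N i ≠ 0 := sub_ne_zero.2 (hXd i hi)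
    have h2 := zt_dn hi
    have h3 : (dn N i : ℂ) + I ≠ 0 := by
      intro h0
      have := congrArg Complex.im h0
      simp at this
    have h4 : (z - zt N i) * ((X + I) * (dn N i + I)) = 2 * I * γ * (X - dn N i) := by
      have e1 : z * (X + I) = γ * (X - I) := by
        rw [hz]
        field_simp
      calc (z - zt N i) * ((X + I) * (dn N i + I)) =
            (z * (X + I)) * (dn N i + I) - (zt N i * (dn N i + I)) * (X + I) := by ring
        _ = γ * (X - I) * (dn N i + I) - γ * (dn N i - I) * (X + I) := by rw [e1, h2]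
        _ = _ := by ring
    have h5 := geom_zt hN0 i z
    have h6 : (X + I) / (X - dn N i) - 1 = (dn N i + I) / (X - dn N i) := by
      field_simp
      ring
    rw [h6, mul_div_assoc', eq_div_iff h1, ← h5]
    calc (∑ j ∈ range N, z ^ j * (zt N i) ^ (N - 1 - j)) * (2 * I * γ) * (X - dn N i)
        = (∑ j ∈ range N, z ^ j * (zt N i) ^ (N - 1 - j)) * (2 * I * γ * (X - dn N i)) := by ring
      _ = (∑ j ∈ range N, z ^ j * (zt N i) ^ (N - 1 - j)) *
          ((z - zt N i) * ((X + I) * (dn N i + I))) := by rw [h4]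
      _ = _ := by ring
  have hq0 : (∑ j ∈ range N, z ^ j * (zt N (N - 1)) ^ (N - 1 - j)) * (2 * I * γ) =
      -((z ^ N + 1) * (X + I)) := by
    have h5 := geom_zt hN0 (N - 1) z
    have h4 : (z - zt N (N - 1)) * (X + I) = -(2 * I * γ) := by
      rw [← hγ, hz]
      field_simp
      ring
    rw [← h5]
    calc (∑ j ∈ range N, z ^ j * (zt N (N - 1)) ^ (N - 1 - j)) * (2 * I * γ) =
        -((∑ j ∈ range N, z ^ j * (zt N (N - 1)) ^ (N - 1 - j)) * -(2 * I * γ)) := by ring
      _ = _ := by rw [← h4]; ring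
  have hr : range N = range ((N - 1) + 1) := by
    congr 1
    omega
  rw [PN_swap, Finset.sum_mul]
  rw [hr, Finset.sum_range_succ, ← hr]
  have e1 : ∀ i ∈ range (N - 1), (W (i + 1) - W i) *
      (∑ j ∈ range N, z ^ j * (zt N i) ^ (N - 1 - j)) * (2 * I * γ) =
      (z ^ N + 1) * (X + I) * (-((X + I) * ((W i - W (i + 1)) / (X - dn N i))) -
        (W (i + 1) - W i)) := by
    intro i hi
    rw [mul_assoc, hq i (Finset.mem_range.1 hi)]
    ring
  rw [Finset.sum_congr rfl e1, ← Finset.mul_sum, Finset.sum_sub_distrib, Finset.sum_neg_distrib,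
    ← Finset.mul_sum]
  have e2 : (W (N - 1 + 1) - W (N - 1)) * (∑ j ∈ range N, z ^ j * (zt N (N - 1)) ^ (N - 1 - j)) *
      (2 * I * γ) = -((W N - W (N - 1)) * ((z ^ N + 1) * (X + I))) := by
    rw [mul_assoc, hq0, Nat.sub_add_cancel (by omega : 1 ≤ N)]
    ring
  rw [e2]
  have e3 := sum_W (N := N) hW
  have e4 : ∑ i ∈ range (N - 1), (W (i + 1) - W i) = -(W N - W (N - 1)) := by
    linear_combination e3
  rw [e4, HR]
  ring

/-- the root piece has no zero in the closed upper half plane -/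
theorem HR_ne_zero {N : ℕ} (hN : 2 ≤ N) {W : ℕ → ℂ} (hW : W N = W 0)
    (hP : ∀ z : ℂ, ‖z‖ ≤ 1 → PN N W z ≠ 0) {X : ℂ} (hX : 0 ≤ X.im)
    (hXd : ∀ i, i < N - 1 → X ≠ (dn N i : ℂ)) : HR N W X ≠ 0 := by
  intro h0
  have hXI : X + I ≠ 0 := by
    intro h
    have := congrArg Complex.im h
    simp at this
    linarith
  have h1 := PN_HR hN hW hXI hXd
  rw [h0, mul_zero, neg_zero] at h1
  have h2 : (2 * I * zt N (N - 1) : ℂ) ≠ 0 := by
    simp [zt_ne]
  have h3 := (mul_eq_zero.1 h1).resolve_right h2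
  refine hP _ ?_ h3
  rw [norm_mul, norm_zt, one_mul, norm_div, div_le_one (norm_pos_iff.2 hXI)]
  rw [← sq_le_sq₀ (norm_nonneg _) (norm_nonneg _), ← Complex.normSq_eq_norm_sq,
    ← Complex.normSq_eq_norm_sq, Complex.normSq_apply, Complex.normSq_apply]
  simp
  nlinarith

/-- consecutive values differ -/
theorem W_ne {N : ℕ} (hN : 2 ≤ N) {W : ℕ → ℂ} (hP : ∀ z : ℂ, ‖z‖ ≤ 1 → PN N W z ≠ 0) {m : ℕ}
    (hm : m < N) : W m ≠ W (m + 1) := by
  intro h0
  have hN0 : 0 < N := by omega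
  refine hP (zt N m) (norm_zt N m).le ?_
  rw [PN_swap]
  refine Finset.sum_eq_zero fun n hn => ?_
  by_cases hnm : n = m
  · rw [hnm, h0, sub_self, zero_mul]
  · have h1 := geom_zt hN0 n (zt N m)
    rw [zt_pow_N hN0] at h1
    have h2 : zt N m - zt N n ≠ 0 := by
      intro h
      have h3 : zt N m = zt N n := sub_eq_zero.1 h
      rw [zt_eq, zt_eq, pow_succ, pow_succ] at h3
      have h4 := mul_right_cancel₀ (et_ne N) h3
      rw [pow_mul, pow_mul] at h4
      exact hnm ((et_sq_prim hN0).pow_inj (Finset.mem_range.1 hn) hm h4.symm)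
    have h3 : (∑ j ∈ range N, (zt N m) ^ j * (zt N n) ^ (N - 1 - j)) = 0 := by
      have h5 : (∑ j ∈ range N, (zt N m) ^ j * (zt N n) ^ (N - 1 - j)) * (zt N m - zt N n) = 0 := by
        rw [h1]
        ring
      exact (mul_eq_zero.1 h5).resolve_right h2
    rw [h3, mul_zero]

/-- value at `I` -/
theorem HR_I {N : ℕ} (hN : 2 ≤ N) {W : ℕ → ℂ} (hW : W N = W 0) :
    HR N W I = I / 2 * zt N (N - 1) * CN N 0 W := by
  have h1 : (I : ℂ) + I ≠ 0 := by
    intro h
    have := congrArg Complex.im h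
    simp at this
  have h2 := PN_HR hN hW h1 (fun i _ h => by
    have := congrArg Complex.im h
    simp at this)
  rw [sub_self, zero_div, mul_zero, zero_pow (by omega : N ≠ 0), zero_add, one_mul] at h2
  have h3 : PN N W 0 = CN N 0 W := by
    rw [PN, Finset.sum_eq_single 0]
    · simp
    · intro j _ hj
      rw [zero_pow hj, zero_mul]
    · intro h
      exact absurd (Finset.mem_range.2 (by omega)) h
  rw [h3] at h2
  have h4 : (I + I : ℂ) ^ 2 = -4 := by
    have := Complex.I_sq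
    calc (I + I : ℂ) ^ 2 = 4 * I ^ 2 := by ring
      _ = -4 := by rw [this]; ring
  rw [h4] at h2
  linear_combination -h2 / 4

/-- value at `I` of the second combination -/
theorem HR2_I {N : ℕ} (hN : 2 ≤ N) {W : ℕ → ℂ} (hW : W N = W 0) :
    HR N W I - I * HR2 N W I = I / 4 * (zt N (N - 1)) ^ 2 * CN N 1 W := by
  have hN0 : 0 < N := by omega
  set γ := zt N (N - 1) with hγ
  have hγ0 : γ ≠ 0 := zt_ne _ _
  have key : ∀ i, i < N - 1 → 1 / ((I : ℂ) - dn N i) - I * (1 / ((I : ℂ) - dn N i) ^ 2) =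
      I / 4 * (γ ^ 2 * -(zt N i) ^ (N - 1 - 1) - 1) := by
    intro i hi
    have h1 : (I : ℂ) - dn N i ≠ 0 := by
      intro h
      have := congrArg Complex.im h
      simp at this
    have h2 := zt_dn hi
    have h3 := zt_ne N i
    have h4 : -(zt N i) ^ (N - 1 - 1) = ((zt N i) ^ 2)⁻¹ := by
      apply eq_inv_of_mul_eq_one_left
      rw [neg_mul, ← pow_add]
      have : N - 1 - 1 + 2 = N := by omega
      rw [this, zt_pow_N hN0]
      ring
    have h5 : γ * (zt N i)⁻¹ = 1 - 2 * I / (I - dn N i) := by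
      have h6 : γ * (dn N i - I) = zt N i * (dn N i + I) := h2.symm
      field_simp
      linear_combination -h6
    have h6 : γ ^ 2 * ((zt N i) ^ 2)⁻¹ = (1 - 2 * I / (I - dn N i)) ^ 2 := by
      rw [← h5]
      field_simp
    rw [h4, h6]
    have h7 : (I : ℂ) ^ 2 = -1 := Complex.I_sq
    field_simp
    ring_nf
    rw [h7]
    ring
  have e1 : HR N W I - I * HR2 N W I = ∑ i ∈ range (N - 1), (W i - W (i + 1)) *
      (I / 4 * (γ ^ 2 * -(zt N i) ^ (N - 1 - 1) - 1)) := by
    rw [HR, HR2, Finset.mul_sum, ← Finset.sum_sub_distrib]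
    refine Finset.sum_congr rfl fun i hi => ?_
    rw [← key i (Finset.mem_range.1 hi)]
    ring
  rw [e1]
  have hr : range N = range ((N - 1) + 1) := by
    congr 1
    omega
  rw [CN, hr, Finset.sum_range_succ, Nat.sub_add_cancel (by omega : 1 ≤ N)]
  have h4 : (zt N (N - 1)) ^ (N - 1 - 1) * γ ^ 2 = -1 := by
    rw [← hγ, ← pow_add]
    have : N - 1 - 1 + 2 = N := by omega
    rw [this, zt_pow_N hN0]
  have e3 := sum_W (N := N) hW
  have e5 : ∑ i ∈ range (N - 1), (W i - W (i + 1)) *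
      (I / 4 * (γ ^ 2 * -(zt N i) ^ (N - 1 - 1) - 1)) =
      I / 4 * γ ^ 2 * ∑ i ∈ range (N - 1), (W (i + 1) - W i) * (zt N i) ^ (N - 1 - 1) +
      I / 4 * ∑ i ∈ range (N - 1), (W (i + 1) - W i) := by
    rw [Finset.mul_sum, Finset.mul_sum, ← Finset.sum_add_distrib]
    refine Finset.sum_congr rfl fun i _ => ?_
    ring
  rw [e5]
  have e6 : ∑ i ∈ range (N - 1), (W (i + 1) - W i) = -(W N - W (N - 1)) := by
    linear_combination e3
  rw [e6]
  linear_combination -(I / 4 * (W N - W (N - 1))) * h4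

theorem gate_lim : Tendsto (fun N : ℕ => zt N (N - 1)) atTop (𝓝 1) := by
  have h1 : Tendsto (fun N : ℕ => (Real.pi / N : ℝ)) atTop (𝓝 0) :=
    tendsto_const_div_atTop_nhds_zero_nat _
  have h2 : Tendsto (fun N : ℕ => exp (((Real.pi / N : ℝ) : ℂ) * I)) atTop (𝓝 1) := by
    have := ((Complex.continuous_ofReal.tendsto _).comp h1).mul_const I
    have h3 := (Complex.continuous_exp.tendsto _).comp this
    simpa [Function.comp_def] using h3
  refine h2.congr' ?_
  filter_upwards [eventually_gt_atTop 0] with N hN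
  rw [zt, Complex.exp_eq_exp_iff_exists_int]
  refine ⟨1, ?_⟩
  have hN' : (N : ℂ) ≠ 0 := by exact_mod_cast hN.ne'
  have hc : ((N - 1 : ℕ) : ℂ) = N - 1 := by
    rw [Nat.cast_sub (by omega)]
    simp
  push_cast
  rw [hc]
  field_simp
  ring

/-- limits of the values at `I` -/
theorem HR_lim {ρ : ℝ} (hρ : 1 < ρ) {h g : ℂ → ℂ} (hh : DifferentiableOn ℂ h (ball 0 ρ))
    (hg : DifferentiableOn ℂ g (ball 0 ρ)) :
    Tendsto (fun N => HR N (WF h g N) I) atTop (𝓝 (-Real.pi * deriv h 0)) ∧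
    Tendsto (fun N => HR N (WF h g N) I - I * HR2 N (WF h g N) I) atTop
      (𝓝 (-Real.pi * (deriv (deriv h) 0 / 2))) := by
  obtain ⟨h1, h2⟩ := CN_lim hρ hh hg
  have hper : ∀ N : ℕ, 2 ≤ N → WF h g N N = WF h g N 0 := by
    intro N hN
    rw [WF, WF, e_periodic (by omega)]
  have hI : (I : ℂ) ^ 2 = -1 := Complex.I_sq
  constructor
  · have h3 := (gate_lim.const_mul (I / 2)).mul h1
    have e1 : I / 2 * 1 * (2 * Real.pi * I * deriv h 0) = -Real.pi * deriv h 0 := by
      linear_combination (Real.pi * deriv h 0) * hI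
    rw [e1] at h3
    refine h3.congr' ?_
    filter_upwards [eventually_ge_atTop 2] with N hN
    rw [HR_I hN (hper N hN)]
  · have h3 := ((gate_lim.pow 2).const_mul (I / 4)).mul h2
    have e1 : I / 4 * 1 ^ 2 * (2 * Real.pi * I * deriv (deriv h) 0) =
        -Real.pi * (deriv (deriv h) 0 / 2) := by
      linear_combination (Real.pi * deriv (deriv h) 0 / 2) * hI
    rw [e1] at h3
    refine h3.congr' ?_
    filter_upwards [eventually_ge_atTop 2] with N hN
    rw [HR2_I hN (hper N hN)]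

end Pool.Agent.Lib.MP4cd976.RT
end

section
/-!
# MP_4cd976_an, block D, root step map: final statement (theorem `root`)

For `F = h + conj g` on a disk of radius `> 1` with `‖g'‖ < ‖h'‖` and large `N`, the list
`RL N W`, `W n = F (e^{-2πin/N})`, of the `N - 1` poles `dn N n = cot (π(n+1)/N)` with jumps
`W n - W (n+1)` (from left to right: `n = N-2, ..., 0`) has no zeros in the closed upper half plane,
and its values at `I` converge to the 2-jet of `(h, g)` at `0`.
-/
open Complex Filter Topology Metric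

namespace Pool.Agent.Lib.MP4cd976.RT

open Pool.Agent.Lib.MP4cd976

/-- the root list -/
noncomputable def RL (N : ℕ) (W : ℕ → ℂ) : List (ℝ × ℂ) :=
  (List.range (N - 1)).reverse.map fun i => (dn N i, W i - W (i + 1))

theorem sum_rev (n : ℕ) (f : ℕ → ℂ) :
    ((List.range n).reverse.map f).sum = ∑ i ∈ Finset.range n, f i := by
  induction n with
  | zero => simp
  | succ n ih =>
    rw [List.range_succ, List.reverse_append, List.map_append, List.sum_append,
      Finset.sum_range_succ, ← ih]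
    simp [add_comm]

theorem R_RL (N : ℕ) (W : ℕ → ℂ) (X : ℂ) : Glu.R (RL N W) X = HR N W X := by
  rw [Glu.R, RL, List.map_map, HR, ← sum_rev]
  rfl

theorem R'_RL (N : ℕ) (W : ℕ → ℂ) (X : ℂ) : Glu.R' (RL N W) X = -HR2 N W X := by
  rw [Glu.R', RL, List.map_map, HR2, ← Finset.sum_neg_distrib, ← sum_rev]
  congr 1
  apply List.map_congr_left
  intro i _
  simp only [Function.comp]
  ring

theorem cj_RL (N : ℕ) (W : ℕ → ℂ) : Glu.cj (RL N W) = RL N (fun n => starRingEnd ℂ (W n)) := by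
  rw [Glu.cj, RL, RL, List.map_map]
  apply List.map_congr_left
  intro i _
  simp only [Function.comp, map_sub]

theorem SL_RL (N : ℕ) (W : ℕ → ℂ) : Glu.SL (RL N W) := by
  unfold Glu.SL RL
  rw [List.pairwise_map, List.pairwise_reverse]
  refine (List.pairwise_lt_range (n := N - 1)).imp_of_mem ?_
  intro a b ha hb hab
  exact dn_anti hab (List.mem_range.1 hb)

theorem S_RL {N : ℕ} (W : ℕ → ℂ) : Glu.S (RL N W) = W 0 - W (N - 1) := by
  rw [Glu.S, RL, List.map_map]
  have : ((List.range (N - 1)).reverse.map (Prod.snd ∘ fun i => (dn N i, W i - W (i + 1)))).sum =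
      ∑ i ∈ Finset.range (N - 1), (W i - W (i + 1)) := by
    rw [← sum_rev]
    rfl
  rw [this, Finset.sum_range_sub']

theorem N_ne_zero_of {M : List (ℝ × ℂ)} (hS : Glu.SL M) (hj : ∀ p ∈ M, p.2 ≠ 0) {X : ℂ}
    (h : (∀ p ∈ M, X ≠ (p.1 : ℂ)) → Glu.R M X ≠ 0) : Glu.N M X ≠ 0 := by
  by_cases hX : ∀ p ∈ M, X ≠ (p.1 : ℂ)
  · have h1 := h hX
    rw [Glu.R_eq hX] at h1
    exact fun h0 => h1 (by rw [h0, zero_div])
  · push Not at hX
    obtain ⟨p, hp, hXp⟩ := hX
    obtain ⟨A, B, rfl⟩ := List.append_of_mem hp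
    unfold Glu.SL at hS
    rw [List.pairwise_append, List.pairwise_cons] at hS
    have hA : Glu.D A X ≠ 0 := Glu.D_ne_zero fun q hq h0 => by
      have h1 := hS.2.2 q hq p (by simp)
      rw [hXp] at h0
      exact h1.ne' (by exact_mod_cast h0)
    have hB : Glu.D B X ≠ 0 := Glu.D_ne_zero fun q hq h0 => by
      have h1 := hS.2.1.1 q hq
      rw [hXp] at h0
      exact h1.ne (by exact_mod_cast h0)
    rw [Glu.N_append]
    simp only [Glu.D, Glu.N]
    rw [hXp, sub_self, zero_mul, mul_zero, zero_mul, add_zero, zero_add, ← hXp]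
    exact mul_ne_zero hA (mul_ne_zero (hj p hp) hB)

/-- vertex values of the root -/
noncomputable def WR (h g : ℂ → ℂ) (N n : ℕ) : ℂ :=
  D.Fm h g (D.ex (-(2 * Real.pi * n / N)))

theorem WR_eq (h g : ℂ → ℂ) (N : ℕ) : WR h g N = WF h g N := by
  funext n
  rfl

/-- **ROOT** -/
theorem root {ρ : ℝ} (hρ : 1 < ρ) {h g : ℂ → ℂ} (hh : DifferentiableOn ℂ h (ball 0 ρ))
    (hg : DifferentiableOn ℂ g (ball 0 ρ))
    (hJ : ∀ z ∈ ball (0 : ℂ) ρ, ‖deriv g z‖ < ‖deriv h z‖) :
    (∀ᶠ N : ℕ in atTop, Glu.SL (RL N (WR h g N)) ∧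
      (∀ X : ℂ, 0 ≤ X.im → Glu.N (RL N (WR h g N)) X ≠ 0) ∧
      Glu.S (RL N (WR h g N)) = WR h g N 0 - WR h g N (N - 1) ∧
      (∀ i, i < N → WR h g N i ≠ WR h g N (i + 1)) ∧ WR h g N N = WR h g N 0 ∧
      ∀ X : ℂ, 0 ≤ X.im → (∀ i, i < N - 1 → X ≠ (dn N i : ℂ)) → HR N (WR h g N) X ≠ 0) ∧
    Tendsto (fun N => Glu.R (RL N (WR h g N)) I) atTop (𝓝 (-Real.pi * deriv h 0)) ∧
    Tendsto (fun N => Glu.R (RL N (WR h g N)) I + I * Glu.R' (RL N (WR h g N)) I) atTop
      (𝓝 (-Real.pi * (deriv (deriv h) 0 / 2))) ∧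
    Tendsto (fun N => Glu.R (Glu.cj (RL N (WR h g N))) I) atTop (𝓝 (-Real.pi * deriv g 0)) ∧
    Tendsto (fun N => Glu.R (Glu.cj (RL N (WR h g N))) I +
      I * Glu.R' (Glu.cj (RL N (WR h g N))) I) atTop
      (𝓝 (-Real.pi * (deriv (deriv g) 0 / 2))) := by
  obtain ⟨l1, l2⟩ := HR_lim hρ hh hg
  obtain ⟨l3, l4⟩ := HR_lim hρ hg hh
  have hc : ∀ N, (fun n => starRingEnd ℂ (WR h g N n)) = WF g h N := by
    intro N
    funext n
    rw [WR_eq, conj_WF]
  refine ⟨?_, ?_, ?_, ?_, ?_⟩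
  · filter_upwards [PN_ne_zero hρ hh hg hJ, eventually_ge_atTop 2] with N hP hN
    have hW : WR h g N N = WR h g N 0 := by
      rw [WR_eq, WF, WF, e_periodic (by omega)]
    rw [← WR_eq] at hP
    have hne : ∀ i, i < N → WR h g N i ≠ WR h g N (i + 1) := fun i hi => W_ne hN hP hi
    have hnz : ∀ X : ℂ, 0 ≤ X.im → (∀ i, i < N - 1 → X ≠ (dn N i : ℂ)) →
        HR N (WR h g N) X ≠ 0 := fun X hX hXd => HR_ne_zero hN hW hP hX hXd
    refine ⟨SL_RL N _, ?_, S_RL _, hne, hW, hnz⟩
    intro X hX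
    refine N_ne_zero_of (SL_RL N _) ?_ ?_
    · intro p hp
      unfold RL at hp
      rw [List.mem_map] at hp
      obtain ⟨i, hi, rfl⟩ := hp
      rw [List.mem_reverse, List.mem_range] at hi
      exact sub_ne_zero.2 (hne i (by omega))
    · intro hX'
      rw [R_RL]
      refine hnz X hX fun i hi => ?_
      refine hX' (dn N i, WR h g N i - WR h g N (i + 1)) ?_
      unfold RL
      rw [List.mem_map]
      exact ⟨i, by rw [List.mem_reverse, List.mem_range]; exact hi, rfl⟩
  · refine l1.congr fun N => ?_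
    rw [R_RL, WR_eq]
  · refine l2.congr fun N => ?_
    rw [R_RL, R'_RL, WR_eq]
    ring
  · refine l3.congr fun N => ?_
    rw [cj_RL, R_RL, hc]
  · refine l4.congr fun N => ?_
    rw [cj_RL, R_RL, R'_RL, hc]
    ring

end Pool.Agent.Lib.MP4cd976.RT
end
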