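import Pool.Agent.Lib.MP_4cd976_an.DN.RAD

section
/-!
# MP_4cd976_an, block D: the ambient map `Φ = F ∘ σ ∘ F⁻¹`

For `F = h + conj g` injective and sense preserving on `ball 0 ρ`, the map which is
`F ∘ sg ∘ F⁻¹` on `F '' ball 0 ρ` and the identity elsewhere is strictly differentiable with
orientation preserving derivative at every point `≠ F 0`.
-/
open Set Filter Metric Topology Complex ComplexConjugate

namespace Pool.Agent.Lib.MP4cd976.DN

noncomputable section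

/-- the determinant of a real linear map of `ℂ` -/
def dt (T : ℂ →L[ℝ] ℂ) : ℝ := (conj (T 1) * T I).im

lemma dt_spec (T : ℂ →L[ℝ] ℂ) (a b : ℂ) :
    (conj (T a) * T b).im = dt T * (conj a * b).im := by
  have h : ∀ v : ℂ, T v = (v.re : ℂ) * T 1 + (v.im : ℂ) * T I := by
    intro v
    have e : v = v.re • (1:ℂ) + v.im • I := by
      simp only [real_smul, mul_one]; exact (Complex.re_add_im v).symm
    conv_lhs => rw [e]
    rw [map_add, map_smul, map_smul, real_smul, real_smul]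
  rw [h a, h b, dt]
  simp only [map_add, map_mul, Complex.add_im, Complex.mul_im, Complex.add_re, Complex.mul_re,
      Complex.conj_re, Complex.conj_im, Complex.ofReal_re, Complex.ofReal_im]
  ring

lemma orPos_iff (T : ℂ →L[ℝ] ℂ) : OrPos T ↔ 0 < dt T := by
  constructor
  · intro h; exact h 1 I (by simp)
  · intro h a b hab
    rw [dt_spec]; positivity

/-- orientation preserving maps are invertible, and so are their inverses -/
lemma OrPos.exists_equiv {T : ℂ →L[ℝ] ℂ} (h : OrPos T) :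
    ∃ e : ℂ ≃L[ℝ] ℂ, (e : ℂ →L[ℝ] ℂ) = T ∧ OrPos (e.symm : ℂ →L[ℝ] ℂ) := by
  have hi : Function.Injective (T : ℂ →ₗ[ℝ] ℂ) := by
    rw [injective_iff_map_eq_zero]
    intro a ha
    by_contra h0
    have := h a (I * a) (by
      have : conj a * (I * a) = (Complex.normSq a : ℂ) * I := by
        rw [Complex.normSq_eq_conj_mul_self]; ring
      rw [this]
      simpa using Complex.normSq_pos.2 h0)
    have h1 : T a = 0 := ha
    rw [h1] at this
    simp at this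
  let e0 : ℂ ≃ₗ[ℝ] ℂ := LinearEquiv.ofInjectiveEndo (T : ℂ →ₗ[ℝ] ℂ) hi
  let e : ℂ ≃L[ℝ] ℂ := e0.toContinuousLinearEquiv
  have he : (e : ℂ →L[ℝ] ℂ) = T := by
    ext v; rfl
  refine ⟨e, he, ?_⟩
  rw [orPos_iff]
  have h1 : 0 < dt T := (orPos_iff T).1 h
  have h2 := dt_spec T ((e.symm : ℂ →L[ℝ] ℂ) 1) ((e.symm : ℂ →L[ℝ] ℂ) I)
  have h3 : ∀ v, T ((e.symm : ℂ →L[ℝ] ℂ) v) = v := by
    intro v; rw [← he]; simp
  rw [h3, h3] at h2
  have h4 : (conj (1:ℂ) * I).im = 1 := by simp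
  rw [h4] at h2
  have h5 : dt T * dt (e.symm : ℂ →L[ℝ] ℂ) = 1 := h2.symm
  by_contra hn
  push Not at hn
  have : dt T * dt (e.symm : ℂ →L[ℝ] ℂ) ≤ 0 := mul_nonpos_of_nonneg_of_nonpos h1.le hn
  linarith

/-- the real linear map `v ↦ p v + conj (q v)` -/
def pq (p q : ℂ) : ℂ →L[ℝ] ℂ :=
  (ContinuousLinearMap.restrictScalars ℝ (ContinuousLinearMap.toSpanSingleton ℂ p)) +
  (conjCLE : ℂ →L[ℝ] ℂ).comp
    (ContinuousLinearMap.restrictScalars ℝ (ContinuousLinearMap.toSpanSingleton ℂ q))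

lemma pq_apply (p q v : ℂ) : pq p q v = p * v + conj (q * v) := by
  simp [pq, mul_comm]

lemma orPos_pq {p q : ℂ} (h : ‖q‖ < ‖p‖) : OrPos (pq p q) := by
  rw [orPos_iff, dt, pq_apply, pq_apply]
  have : (conj (p * 1 + conj (q * 1)) * (p * I + conj (q * I))).im =
      ‖p‖ ^ 2 - ‖q‖ ^ 2 := by
    rw [← Complex.normSq_eq_norm_sq, ← Complex.normSq_eq_norm_sq, Complex.normSq_apply,
      Complex.normSq_apply]
    simp only [map_add, map_mul, Complex.add_im, Complex.mul_im, Complex.add_re, Complex.mul_re,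
      Complex.conj_re, Complex.conj_im, Complex.I_re, Complex.I_im, mul_one, Complex.conj_conj,
      Complex.conj_I, Complex.neg_re, Complex.neg_im]
    ring
  rw [this]
  have h0 := norm_nonneg q
  nlinarith

variable {ρ : ℝ} {h g : ℂ → ℂ}

/-- the harmonic map -/
def HF (h g : ℂ → ℂ) (z : ℂ) : ℂ := h z + conj (g z)

lemma hasStrictFDerivAt_HF (hh : DifferentiableOn ℂ h (ball 0 ρ))
    (hg : DifferentiableOn ℂ g (ball 0 ρ)) {z : ℂ} (hz : z ∈ ball (0:ℂ) ρ) :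
    HasStrictFDerivAt (HF h g) (pq (deriv h z) (deriv g z)) z := by
  have h1 : HasStrictDerivAt h (deriv h z) z :=
    ((hh.analyticAt (isOpen_ball.mem_nhds hz)).hasStrictDerivAt)
  have h2 : HasStrictDerivAt g (deriv g z) z :=
    ((hg.analyticAt (isOpen_ball.mem_nhds hz)).hasStrictDerivAt)
  have h3 := h1.hasStrictFDerivAt.restrictScalars ℝ
  have h4 := h2.hasStrictFDerivAt.restrictScalars ℝ
  have h5 := ((conjCLE : ℂ →L[ℝ] ℂ).hasStrictFDerivAt (x := g z)).comp z h4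
  exact h3.add h5

/-- the inverse of `F` on its image -/
def HG (h g : ℂ → ℂ) (ρ : ℝ) : ℂ → ℂ := Function.invFunOn (HF h g) (ball 0 ρ)

lemma HG_HF (hinj : InjOn (HF h g) (ball 0 ρ)) {z : ℂ} (hz : z ∈ ball (0:ℂ) ρ) :
    HG h g ρ (HF h g z) = z := hinj.leftInvOn_invFunOn hz

lemma HG_mem {w : ℂ} (hw : w ∈ HF h g '' ball 0 ρ) : HG h g ρ w ∈ ball (0:ℂ) ρ :=
  Function.invFunOn_mem hw

lemma HF_HG {w : ℂ} (hw : w ∈ HF h g '' ball 0 ρ) : HF h g (HG h g ρ w) = w :=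
  Function.invFunOn_eq hw

section

variable (hh : DifferentiableOn ℂ h (ball 0 ρ)) (hg : DifferentiableOn ℂ g (ball 0 ρ))
  (hJ : ∀ z ∈ ball (0:ℂ) ρ, ‖deriv g z‖ < ‖deriv h z‖)
  (hinj : InjOn (HF h g) (ball 0 ρ))

include hh hg hJ

lemma HF_map_nhds {z : ℂ} (hz : z ∈ ball (0:ℂ) ρ) : map (HF h g) (𝓝 z) = 𝓝 (HF h g z) := by
  obtain ⟨e, he, -⟩ := (orPos_pq (hJ z hz)).exists_equiv
  have := hasStrictFDerivAt_HF hh hg hz
  rw [← he] at this
  exact this.map_nhds_eq_of_equiv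

lemma isOpen_image : IsOpen (HF h g '' ball 0 ρ) := by
  rw [isOpen_iff_mem_nhds]
  rintro _ ⟨z, hz, rfl⟩
  rw [← HF_map_nhds hh hg hJ hz]
  exact image_mem_map (isOpen_ball.mem_nhds hz)

include hinj

lemma continuousAt_HG {z : ℂ} (hz : z ∈ ball (0:ℂ) ρ) :
    ContinuousAt (HG h g ρ) (HF h g z) := by
  rw [ContinuousAt, HG_HF hinj hz, ← HF_map_nhds hh hg hJ hz, tendsto_map'_iff]
  refine tendsto_id.congr' ?_
  filter_upwards [isOpen_ball.mem_nhds hz] with y hy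
  exact (HG_HF hinj hy).symm

lemma hasStrictFDerivAt_HG {z : ℂ} (hz : z ∈ ball (0:ℂ) ρ) :
    ∃ T : ℂ →L[ℝ] ℂ, HasStrictFDerivAt (HG h g ρ) T (HF h g z) ∧ OrPos T := by
  obtain ⟨e, he, hp⟩ := (orPos_pq (hJ z hz)).exists_equiv
  have h1 := hasStrictFDerivAt_HF hh hg hz
  rw [← he] at h1
  refine ⟨_, HasStrictFDerivAt.of_local_left_inverse (continuousAt_HG hh hg hJ hinj hz)
    (by rw [HG_HF hinj hz]; exact h1) ?_, hp⟩
  filter_upwards [(isOpen_image hh hg hJ).mem_nhds (mem_image_of_mem _ hz)] with w hw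
  exact HF_HG hw

end

/-- the ambient map -/
def Ph (h g : ℂ → ℂ) (ρ : ℝ) (n : ℕ) (u₁ : ℝ) (w : ℂ) : ℂ :=
  open Classical in
  if w ∈ HF h g '' ball 0 ρ then HF h g (sg n u₁ (HG h g ρ w)) else w

lemma Ph_HF (hinj : InjOn (HF h g) (ball 0 ρ)) {n : ℕ} {u₁ : ℝ} {z : ℂ}
    (hz : z ∈ ball (0:ℂ) ρ) : Ph h g ρ n u₁ (HF h g z) = HF h g (sg n u₁ z) := by
  rw [Ph, if_pos (mem_image_of_mem _ hz), HG_HF hinj hz]

lemma mem_closedBall_sqrt {u₁ : ℝ} {z : ℂ} :
    z ∈ closedBall (0:ℂ) (Real.sqrt u₁) ↔ Complex.normSq z ≤ u₁ ∨ z = 0 := by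
  rw [mem_closedBall_zero_iff]
  constructor
  · intro h1
    rcases eq_or_ne z 0 with h0 | h0
    · exact Or.inr h0
    left
    have hz : 0 < ‖z‖ := norm_pos_iff.2 h0
    have h3 : 0 < Real.sqrt u₁ := lt_of_lt_of_le hz h1
    have h4 : 0 < u₁ := Real.sqrt_pos.1 h3
    rw [Complex.normSq_eq_norm_sq, ← Real.sq_sqrt h4.le]
    gcongr
  · rintro (h1 | rfl)
    · rw [Complex.normSq_eq_norm_sq] at h1
      exact Real.le_sqrt_of_sq_le h1
    · simp

lemma Ph_of_notMem {n : ℕ} {u₁ : ℝ} (hu : 0 < u₁) {w : ℂ}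
    (hw : w ∉ HF h g '' closedBall 0 (Real.sqrt u₁)) : Ph h g ρ n u₁ w = w := by
  rw [Ph]
  split_ifs with h1
  · have h2 : HG h g ρ w ∉ closedBall (0:ℂ) (Real.sqrt u₁) := fun hc =>
      hw ⟨_, hc, HF_HG h1⟩
    rw [mem_closedBall_sqrt] at h2
    push Not at h2
    rw [sg_of_le hu h2.1.le, HF_HG h1]
  · rfl

lemma sg_mem_ball {n : ℕ} {u₁ : ℝ} (hu : 0 < u₁) (hρ : Real.sqrt u₁ < ρ) {z : ℂ}
    (hz : z ∈ ball (0:ℂ) ρ) : sg n u₁ z ∈ ball (0:ℂ) ρ := by
  rcases le_total (Complex.normSq z) u₁ with h1 | h1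
  · have := normSq_sg_le (n := n) hu h1
    have h2 : sg n u₁ z ∈ closedBall (0:ℂ) (Real.sqrt u₁) := mem_closedBall_sqrt.2 (Or.inl this)
    exact closedBall_subset_ball hρ h2
  · rw [sg_of_le hu h1]; exact hz

lemma hasStrictFDerivAt_Ph (hh : DifferentiableOn ℂ h (ball 0 ρ))
    (hg : DifferentiableOn ℂ g (ball 0 ρ))
    (hJ : ∀ z ∈ ball (0:ℂ) ρ, ‖deriv g z‖ < ‖deriv h z‖)
    (hinj : InjOn (HF h g) (ball 0 ρ)) {n : ℕ} (hn : 1 ≤ n) {u₁ : ℝ} (hu : 0 < u₁)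
    (hρ : Real.sqrt u₁ < ρ) {w : ℂ} (hw : w ≠ HF h g 0) :
    ∃ T : ℂ →L[ℝ] ℂ, HasStrictFDerivAt (Ph h g ρ n u₁) T w ∧ OrPos T := by
  by_cases h1 : w ∈ HF h g '' ball 0 ρ
  · obtain ⟨z, hz, rfl⟩ := h1
    have hz0 : z ≠ 0 := by rintro rfl; exact hw rfl
    obtain ⟨T1, hT1, hp1⟩ := hasStrictFDerivAt_HG hh hg hJ hinj hz
    obtain ⟨T2, hT2, hp2⟩ := hasStrictFDerivAt_sg hn hu hz0
    have hs : sg n u₁ z ∈ ball (0:ℂ) ρ := sg_mem_ball hu hρ hz
    have hT3 := hasStrictFDerivAt_HF hh hg hs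
    have hp3 := orPos_pq (hJ _ hs)
    rw [← HG_HF hinj hz] at hT2
    have h12 := hT2.comp _ hT1
    have e1 : sg n u₁ z = (sg n u₁ ∘ HG h g ρ) (HF h g z) := by
      rw [Function.comp_apply, HG_HF hinj hz]
    rw [e1] at hT3
    have h123 := hT3.comp _ h12
    refine ⟨_, h123.congr_of_eventuallyEq ?_, ?_⟩
    · filter_upwards [(isOpen_image hh hg hJ).mem_nhds (mem_image_of_mem _ hz)] with w hw
      rw [Ph, if_pos hw]; rfl
    · rw [← e1]
      exact hp3.comp (hp2.comp hp1)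
  · refine ⟨_, (hasStrictFDerivAt_id w).congr_of_eventuallyEq ?_, OrPos.id⟩
    have hcl : IsClosed (HF h g '' closedBall 0 (Real.sqrt u₁)) := by
      refine ((isCompact_closedBall (0:ℂ) _).image_of_continuousOn ?_).isClosed
      intro z hz
      exact (hasStrictFDerivAt_HF hh hg (closedBall_subset_ball hρ hz)).continuousAt.continuousWithinAt
    have hw' : w ∉ HF h g '' closedBall 0 (Real.sqrt u₁) := fun hc =>
      h1 (image_mono (closedBall_subset_ball hρ) hc)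
    filter_upwards [hcl.isOpen_compl.mem_nhds hw'] with v hv
    exact (Ph_of_notMem hu hv).symm

end

end Pool.Agent.Lib.MP4cd976.DN
end

section
/-!
# MP_4cd976_an, block D: the annulus between `F(e^{it})` and the circle `L e^{it}`
-/
open Set Filter Metric Topology Complex ComplexConjugate

namespace Pool.Agent.Lib.MP4cd976.DN

noncomputable section

/-- algebra of the straight line homotopy -/
lemma homotopy_pos {τ L s : ℝ} (hτ : 0 < τ) (hL : 2 * τ ≤ L) (hs : s ∈ Icc (0:ℝ) 1) {u P Q : ℂ}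
    (hu : ‖u‖ = 1) (hP : ‖P - τ * u‖ ≤ τ / 4) (hQ : ‖Q - I * (τ * u)‖ ≤ τ / 4) :
    0 < (conj (L * u - P) * ((1 - s) * Q + s * (L * (I * u)))).im := by
  obtain ⟨hs0, hs1⟩ := hs
  set p := P - τ * u with hp
  set q := Q - I * (τ * u) with hq
  have eP : P = τ * u + p := by rw [hp]; ring
  have eQ : Q = I * (τ * u) + q := by rw [hq]; ring
  set A : ℝ := L - τ with hA
  set B : ℝ := (1 - s) * τ + s * L with hB
  have hA0 : τ ≤ A := by rw [hA]; linarith
  have hB1 : (1 - s) * τ ≤ B := by rw [hB]; nlinarith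
  have hB0 : 0 < B := by rw [hB]; nlinarith
  have huu : conj u * u = 1 := by
    rw [← Complex.normSq_eq_conj_mul_self, Complex.normSq_eq_norm_sq, hu]; simp
  have e1 : conj (L * u - P) * ((1 - s) * Q + s * (L * (I * u))) =
      (A * B : ℝ) * I + (A * (1 - s) : ℝ) * (conj u * q) - (B : ℝ) * (I * (conj p * u)) -
        ((1 - s : ℝ) : ℂ) * (conj p * q) := by
    rw [eP, eQ, hA, hB]
    push_cast
    simp only [map_sub, map_add, map_mul, Complex.conj_ofReal]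
    linear_combination (L - τ : ℂ) * I * ((1 - s) * τ + s * L) * huu
  have hq1 : |(conj u * q).im| ≤ τ / 4 := by
    refine (Complex.abs_im_le_norm _).trans ?_
    rw [norm_mul, Complex.norm_conj, hu, one_mul]; exact hQ
  have hp1 : |(I * (conj p * u)).im| ≤ τ / 4 := by
    refine (Complex.abs_im_le_norm _).trans ?_
    rw [norm_mul, norm_mul, Complex.norm_I, Complex.norm_conj, hu, one_mul, mul_one]; exact hP
  have hpq : |(conj p * q).im| ≤ τ / 4 * (τ / 4) := by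
    refine (Complex.abs_im_le_norm _).trans ?_
    rw [norm_mul, Complex.norm_conj]
    gcongr
  rw [e1]
  have e2 : ((A * B : ℝ) * I + (A * (1 - s) : ℝ) * (conj u * q) - (B : ℝ) * (I * (conj p * u)) -
        ((1 - s : ℝ) : ℂ) * (conj p * q)).im =
      A * B + A * (1 - s) * (conj u * q).im - B * (I * (conj p * u)).im -
        (1 - s) * (conj p * q).im := by
    rw [Complex.sub_im, Complex.sub_im, Complex.add_im, Complex.im_ofReal_mul,
      Complex.im_ofReal_mul, Complex.im_ofReal_mul, Complex.im_ofReal_mul, Complex.I_im, mul_one]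
  rw [e2]
  rw [abs_le] at hq1 hp1 hpq
  have hA1 : 0 < A := lt_of_lt_of_le hτ hA0
  have h1s : 0 ≤ 1 - s := by linarith
  have t1 : A * (1 - s) * (conj u * q).im ≥ - (A * B / 4) := by
    have : A * (1 - s) * (conj u * q).im ≥ A * (1 - s) * (-(τ / 4)) :=
      mul_le_mul_of_nonneg_left hq1.1 (by positivity)
    nlinarith
  have t2 : B * (I * (conj p * u)).im ≤ A * B / 4 := by
    have : B * (I * (conj p * u)).im ≤ B * (τ / 4) :=
      mul_le_mul_of_nonneg_left hp1.2 hB0.le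
    nlinarith
  have t3 : (1 - s) * (conj p * q).im ≤ A * B / 16 := by
    have h3 : (1 - s) * (conj p * q).im ≤ (1 - s) * (τ / 4 * (τ / 4)) :=
      mul_le_mul_of_nonneg_left hpq.2 h1s
    have h4 : (1 - s) * (τ / 4 * (τ / 4)) = ((1 - s) * τ) * τ / 16 := by ring
    have h5 : ((1 - s) * τ) * τ ≤ B * A := by gcongr
    nlinarith
  have : 0 < A * B := by positivity
  linarith

lemma homotopy_ne {τ L s : ℝ} (hτ : 0 < τ) (hL : 2 * τ ≤ L) (hs : s ∈ Icc (0:ℝ) 1) {u P : ℂ}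
    (hu : ‖u‖ = 1) (hP : ‖P - τ * u‖ ≤ τ / 4) :
    (1 - s) * P + s * (L * u) ≠ 0 := by
  obtain ⟨hs0, hs1⟩ := hs
  intro h0
  have e1 : ((((1 - s) * τ + s * L : ℝ) : ℂ)) * u = -((1 - s : ℝ) : ℂ) * (P - τ * u) := by
    push_cast
    linear_combination h0
  have e2 := congrArg norm e1
  rw [norm_mul, norm_mul, hu, norm_neg, Complex.norm_real, Complex.norm_real, mul_one,
    Real.norm_eq_abs, Real.norm_eq_abs, abs_of_nonneg (by linarith : (0:ℝ) ≤ 1 - s)] at e2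
  have h3 : (1 - s) * ‖P - τ * u‖ ≤ (1 - s) * (τ / 4) :=
    mul_le_mul_of_nonneg_left hP (by linarith)
  have h4 : (1 - s) * τ + s * L ≤ (1 - s) * (τ / 4) := by
    calc _ ≤ |(1 - s) * τ + s * L| := le_abs_self _
      _ = _ := e2
      _ ≤ _ := h3
  nlinarith

variable {ρ : ℝ} {h g : ℂ → ℂ}

/-- the small circles are almost round -/
lemma exists_small (hρ : 0 < ρ) (hh : DifferentiableOn ℂ h (ball 0 ρ))
    (hg : DifferentiableOn ℂ g (ball 0 ρ)) (h0 : h 0 = 0) (g0 : g 0 = 0)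
    (h1 : deriv h 0 = 1) (g1 : deriv g 0 = 0) :
    ∃ δ > 0, ∀ z : ℂ, ‖z‖ < δ → z ∈ ball (0:ℂ) ρ ∧ ‖HF h g z - z‖ ≤ ‖z‖ / 4 ∧
      ∀ v, ‖pq (deriv h z) (deriv g z) v - v‖ ≤ ‖v‖ / 4 := by
  have hmem : (0:ℂ) ∈ ball (0:ℂ) ρ := mem_ball_self hρ
  have hF := (hasStrictFDerivAt_HF hh hg hmem).hasFDerivAt
  have hid : pq (deriv h 0) (deriv g 0) = ContinuousLinearMap.id ℝ ℂ := by
    ext v; rw [pq_apply, h1, g1]; simp
  rw [hid, hasFDerivAt_iff_isLittleO_nhds_zero] at hF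
  have hF2 := hF.def (show (0:ℝ) < 1/4 by norm_num)
  have hF0 : HF h g 0 = 0 := by simp [HF, h0, g0]
  have ch : ContinuousAt (deriv h) 0 :=
    ((hh.analyticAt (isOpen_ball.mem_nhds hmem)).deriv).continuousAt
  have cg : ContinuousAt (deriv g) 0 :=
    ((hg.analyticAt (isOpen_ball.mem_nhds hmem)).deriv).continuousAt
  have e1 : ∀ᶠ z in 𝓝 (0:ℂ), ‖deriv h z - 1‖ < 1/8 := by
    have := Metric.tendsto_nhds.1 ch (1/8) (by norm_num)
    rw [h1] at this
    simpa [dist_eq_norm] using this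
  have e2 : ∀ᶠ z in 𝓝 (0:ℂ), ‖deriv g z‖ < 1/8 := by
    have := Metric.tendsto_nhds.1 cg (1/8) (by norm_num)
    rw [g1] at this
    simpa [dist_eq_norm] using this
  have e3 := isOpen_ball.mem_nhds hmem
  obtain ⟨δ, hδ, hb⟩ := Metric.mem_nhds_iff.1 (inter_mem (inter_mem hF2 (inter_mem e1 e2)) e3)
  refine ⟨δ, hδ, fun z hz => ?_⟩
  have hz' : z ∈ ball (0:ℂ) δ := by simpa using hz
  obtain ⟨⟨a1, a2, a3⟩, a4⟩ := hb hz'
  refine ⟨a4, ?_, fun v => ?_⟩
  · simp only [Set.mem_ofPred_eq, zero_add, hF0, sub_zero, ContinuousLinearMap.id_apply] at a1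
    linarith
  · rw [pq_apply]
    have : deriv h z * v + conj (deriv g z * v) - v = (deriv h z - 1) * v +
        conj (deriv g z * v) := by ring
    rw [this]
    have n1 : ‖(deriv h z - 1) * v‖ ≤ 1/8 * ‖v‖ := by
      rw [norm_mul]; gcongr; exact le_of_lt a2
    have n2 : ‖conj (deriv g z * v)‖ ≤ 1/8 * ‖v‖ := by
      rw [Complex.norm_conj, norm_mul]; gcongr; exact le_of_lt a3
    calc _ ≤ _ := norm_add_le _ _
      _ ≤ 1/8 * ‖v‖ + 1/8 * ‖v‖ := add_le_add n1 n2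
      _ = ‖v‖ / 4 := by ring

/-- the annulus -/
theorem exists_annulus (hρ : 1 < ρ) (hh : DifferentiableOn ℂ h (ball 0 ρ))
    (hg : DifferentiableOn ℂ g (ball 0 ρ)) (h0 : h 0 = 0) (g0 : g 0 = 0)
    (h1 : deriv h 0 = 1) (g1 : deriv g 0 = 0)
    (hJ : ∀ z ∈ ball (0:ℂ) ρ, ‖deriv g z‖ < ‖deriv h z‖)
    (hinj : InjOn (HF h g) (ball 0 ρ)) :
    ∃ (L : ℝ) (Ψ : ℝ × ℝ → ℂ), 0 < L ∧ (∀ s t, Ψ (s, t + 2 * Real.pi) = Ψ (s, t)) ∧
      (∀ t : ℝ, Ψ (0, t) = HF h g (exp (t * I))) ∧ (∀ t : ℝ, Ψ (1, t) = L * exp (t * I)) ∧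
      ∀ s ∈ Icc (0:ℝ) 1, ∀ t, ∃ D : ℝ × ℝ →L[ℝ] ℂ, HasStrictFDerivAt Ψ D (s, t) ∧
        0 < (conj (D (1, 0)) * D (0, 1)).im := by
  obtain ⟨δ, hδ, hsm⟩ := exists_small (by linarith) hh hg h0 g0 h1 g1
  -- the integer n
  obtain ⟨n, hn1, hn⟩ : ∃ n : ℕ, 1 ≤ n ∧ Real.exp (1 / n) < ρ ^ 2 := by
    have hl : 0 < Real.log (ρ ^ 2) := Real.log_pos (by nlinarith)
    obtain ⟨n, hn⟩ := exists_nat_one_div_lt hl
    refine ⟨n + 1, by omega, ?_⟩
    rw [← Real.lt_log_iff_exp_lt (by positivity)]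
    push_cast
    exact hn
  -- the parameter c
  obtain ⟨c, hc0, hc1, hcδ⟩ : ∃ c : ℝ, 0 < c ∧ c ≤ 1 ∧ c * ρ ^ 2 < δ ^ 2 := by
    refine ⟨min 1 (δ ^ 2 / (2 * ρ ^ 2)), by positivity, min_le_left _ _, ?_⟩
    have : min 1 (δ ^ 2 / (2 * ρ ^ 2)) ≤ δ ^ 2 / (2 * ρ ^ 2) := min_le_right _ _
    calc _ ≤ δ ^ 2 / (2 * ρ ^ 2) * ρ ^ 2 := by gcongr
      _ = δ ^ 2 / 2 := by field_simp
      _ < δ ^ 2 := by have : 0 < δ ^ 2 := by positivity
                      linarith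
  set u₁ : ℝ := Real.exp ((1 - c ^ n) / n) with hu₁
  have hu0 : 0 < u₁ := Real.exp_pos _
  have hu1 : u₁ < ρ ^ 2 := by
    refine lt_of_le_of_lt ?_ hn
    rw [hu₁]
    apply Real.exp_le_exp.2
    gcongr
    have : 0 < c ^ n := by positivity
    linarith
  have hsq : Real.sqrt u₁ < ρ := by
    rw [Real.sqrt_lt' (by linarith)]; exact hu1
  set τ : ℝ := Real.sqrt (c * u₁) with hτ
  have hτ0 : 0 < τ := Real.sqrt_pos.2 (by positivity)
  have hτ2 : τ ^ 2 = c * u₁ := Real.sq_sqrt (by positivity)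
  have hτδ : τ < δ := by
    rw [hτ, Real.sqrt_lt' hδ]
    calc _ ≤ c * ρ ^ 2 := by gcongr
      _ < δ ^ 2 := hcδ
  -- the constant L
  have hcomp : IsCompact (HF h g '' closedBall 0 (Real.sqrt u₁)) := by
    refine (isCompact_closedBall (0:ℂ) _).image_of_continuousOn ?_
    intro z hz
    exact (hasStrictFDerivAt_HF hh hg
      (closedBall_subset_ball hsq hz)).continuousAt.continuousWithinAt
  obtain ⟨M, hM⟩ := hcomp.isBounded.exists_norm_le
  set L : ℝ := max (M + 1) (2 * τ) with hL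
  have hL2 : 2 * τ ≤ L := le_max_right _ _
  have hLM : M < L := lt_of_lt_of_le (by linarith) (le_max_left _ _)
  have hL0 : 0 < L := by linarith
  -- the small circle
  have hnorm : ∀ t : ℝ, ‖exp (t * I)‖ = 1 := fun t => norm_exp_ofReal_mul_I t
  have hsc : ∀ t : ℝ, ‖(τ : ℂ) * exp (t * I)‖ = τ := by
    intro t
    rw [norm_mul, hnorm, mul_one, Complex.norm_real, Real.norm_eq_abs, abs_of_pos hτ0]
  set γ : ℝ → ℂ := fun t => HF h g (τ * exp (t * I)) with hγ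
  have hP : ∀ t : ℝ, ‖γ t - τ * exp (t * I)‖ ≤ τ / 4 := by
    intro t
    have := (hsm (τ * exp (t * I)) (by rw [hsc]; exact hτδ)).2.1
    rwa [hsc] at this
  have hexp : ∀ t : ℝ, HasStrictDerivAt (fun t : ℝ => exp (t * I)) (I * exp (t * I)) t := by
    intro t
    have a1 : HasStrictDerivAt (fun t : ℝ => (t : ℂ) * I) I t := by
      have := (Complex.ofRealCLM.hasStrictDerivAt (x := t)).mul_const I
      simpa using this
    have := a1.cexp
    simpa [mul_comm] using this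
  set Q : ℝ → ℂ := fun t => pq (deriv h (τ * exp (t * I))) (deriv g (τ * exp (t * I)))
    (I * (τ * exp (t * I))) with hQdef
  have hγ' : ∀ t : ℝ, HasStrictDerivAt γ (Q t) t := by
    intro t
    have a1 : HasStrictDerivAt (fun t : ℝ => (τ : ℂ) * exp (t * I)) (I * (τ * exp (t * I))) t := by
      exact ((hexp t).const_mul (τ : ℂ)).congr_deriv (by ring)
    have hb : (τ : ℂ) * exp (t * I) ∈ ball (0:ℂ) ρ :=
      (hsm (τ * exp (t * I)) (by rw [hsc]; exact hτδ)).1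
    exact (hasStrictFDerivAt_HF hh hg hb).comp_hasStrictDerivAt t a1
  have hQ : ∀ t : ℝ, ‖Q t - I * (τ * exp (t * I))‖ ≤ τ / 4 := by
    intro t
    have := (hsm (τ * exp (t * I)) (by rw [hsc]; exact hτδ)).2.2 (I * (τ * exp (t * I)))
    rwa [norm_mul, Complex.norm_I, one_mul, hsc] at this
  -- the homotopy
  set E : ℝ × ℝ → ℂ := fun p => (1 - p.1 : ℝ) • γ p.2 + p.1 • (L * exp (p.2 * I)) with hE
  have hE' : ∀ s t : ℝ, ∃ D : ℝ × ℝ →L[ℝ] ℂ, HasStrictFDerivAt E D (s, t) ∧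
      D (1, 0) = L * exp (t * I) - γ t ∧
      D (0, 1) = (1 - s) * Q t + s * (L * (I * exp (t * I))) := by
    intro s t
    have f1 : HasStrictFDerivAt (fun p : ℝ × ℝ => p.1) (ContinuousLinearMap.fst ℝ ℝ ℝ) (s, t) :=
      hasStrictFDerivAt_fst
    have f2 : HasStrictFDerivAt (fun p : ℝ × ℝ => p.2) (ContinuousLinearMap.snd ℝ ℝ ℝ) (s, t) :=
      hasStrictFDerivAt_snd
    have g1 := (hγ' t).hasStrictFDerivAt.comp (s, t) f2
    have g2 := ((hexp t).const_mul (L : ℂ)).hasStrictFDerivAt.comp (s, t) f2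
    have k1 := (f1.const_sub 1).smul g1
    have k2 := f1.smul g2
    refine ⟨_, k1.add k2, ?_, ?_⟩
    · simp
      ring
    · simp
  have hEz : ∀ s ∈ Icc (0:ℝ) 1, ∀ t, E (s, t) ≠ 0 := by
    intro s hs t
    have := homotopy_ne (s := s) hτ0 hL2 hs (hnorm t) (hP t)
    simpa [hE] using this
  have hF0 : HF h g 0 = 0 := by simp [HF, h0, g0]
  refine ⟨L, fun p => Ph h g ρ n u₁ (E p), hL0, ?_, ?_, ?_, ?_⟩
  · intro s t
    have hper : exp (((t + 2 * Real.pi : ℝ) : ℂ) * I) = exp (t * I) := by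
      rw [Complex.exp_eq_exp_iff_exists_int]
      exact ⟨1, by push_cast; ring⟩
    have : E (s, t + 2 * Real.pi) = E (s, t) := by
      simp only [hE, hγ, hper]
    simp only [this]
  · intro t
    have e0 : E (0, t) = HF h g (τ * exp (t * I)) := by simp [hE, hγ]
    have hb : (τ : ℂ) * exp (t * I) ∈ ball (0:ℂ) ρ :=
      (hsm (τ * exp (t * I)) (by rw [hsc]; exact hτδ)).1
    have hnsq : normSq ((τ : ℂ) * exp (t * I)) = c * u₁ := by
      rw [Complex.normSq_eq_norm_sq, hsc, hτ2]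
    have e1 := normSq_sg_circle (n := n) hc0 hc1 hu₁ hnsq
    have e2 : sg n u₁ (τ * exp (t * I)) = exp (t * I) := by
      rw [normSq_sg, hnsq, ← hτ2] at e1
      rw [sg, real_smul, hnsq, ← mul_assoc, ← Complex.ofReal_mul]
      rw [show c * u₁ = τ ^ 2 from hτ2.symm]
      have e3 : (Real.exp (Vf n (τ ^ 2 / u₁)) * τ) ^ 2 = 1 := by
        rw [mul_pow, ← Real.exp_nat_mul]
        push_cast
        exact e1
      have e4 : Real.exp (Vf n (τ ^ 2 / u₁)) * τ = 1 := by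
        have hpos : 0 < Real.exp (Vf n (τ ^ 2 / u₁)) * τ := by positivity
        nlinarith
      rw [e4]; simp
    change Ph h g ρ n u₁ (E (0, t)) = _
    rw [e0, Ph_HF hinj hb, e2]
  · intro t
    have e0 : E (1, t) = L * exp (t * I) := by simp [hE]
    change Ph h g ρ n u₁ (E (1, t)) = _
    rw [e0]
    apply Ph_of_notMem hu0
    intro hc
    have := hM _ hc
    rw [norm_mul, hnorm, mul_one, Complex.norm_real, Real.norm_eq_abs, abs_of_pos hL0] at this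
    linarith
  · intro s hs t
    obtain ⟨D, hD, hD1, hD2⟩ := hE' s t
    have hne : E (s, t) ≠ HF h g 0 := by rw [hF0]; exact hEz s hs t
    obtain ⟨T, hT, hTp⟩ := hasStrictFDerivAt_Ph (n := n) hh hg hJ hinj hn1 hu0 hsq hne
    refine ⟨T.comp D, hT.comp (s, t) hD, ?_⟩
    rw [ContinuousLinearMap.comp_apply, ContinuousLinearMap.comp_apply]
    apply hTp
    rw [hD1, hD2]
    exact homotopy_pos hτ0 hL2 hs (hnorm t) (hP t) (hQ t)

end

end Pool.Agent.Lib.MP4cd976.DN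
end
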