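import Mathlib
import Pool.Agent.Lib.MP_4cd976_an.DN.EXT
import Pool.Agent.Lib.MP_4cd976_an.DN.Defs

section
/-!
# MP_4cd976_an, block D: small triangles with one leg in the `s`-direction are positive
-/
open Set Filter Metric Topology Complex ComplexConjugate

namespace Pool.Agent.Lib.MP4cd976.DN

noncomputable section

lemma mesh_local {Ψ : ℝ × ℝ → ℂ} {x₀ : ℝ × ℝ} {D : ℝ × ℝ →L[ℝ] ℂ}
    (hD : HasStrictFDerivAt Ψ D x₀) (hJ : 0 < (conj (D (1, 0)) * D (0, 1)).im) :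
    ∀ᶠ z : (ℝ × ℝ × ℝ) × (ℝ × ℝ) in 𝓝 ((0, 0, 0), x₀),
      |z.1.2.1| ≤ |z.1.2.2| → z.1.1 * z.1.2.2 ≠ 0 →
      0 < (z.1.1 * z.1.2.2) * (conj (Ψ (z.2.1 + z.1.1, z.2.2) - Ψ z.2) *
        (Ψ (z.2.1 + z.1.2.1, z.2.2 + z.1.2.2) - Ψ z.2)).im := by
  set J := (conj (D (1, 0)) * D (0, 1)).im with hJd
  set P := D (1, 0) with hP
  set Q := D (0, 1) with hQ
  obtain ⟨ε, hε, hε2⟩ : ∃ ε > 0, ε * (2 * ‖P‖ + ‖Q‖ + ε) < J := by
    refine ⟨min 1 (J / (2 * (2 * ‖P‖ + ‖Q‖ + 1))), by positivity, ?_⟩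
    set ε := min 1 (J / (2 * (2 * ‖P‖ + ‖Q‖ + 1))) with hεd
    have e1 : ε ≤ 1 := min_le_left _ _
    have e2 : ε ≤ J / (2 * (2 * ‖P‖ + ‖Q‖ + 1)) := min_le_right _ _
    have e0 : 0 < ε := by positivity
    calc ε * (2 * ‖P‖ + ‖Q‖ + ε) ≤ J / (2 * (2 * ‖P‖ + ‖Q‖ + 1)) * (2 * ‖P‖ + ‖Q‖ + 1) := by
          gcongr
      _ = J / 2 := by field_simp
      _ < J := by linarith
  have h1 := hD.isLittleO.def hε
  have t1 : Tendsto (fun z : (ℝ × ℝ × ℝ) × (ℝ × ℝ) =>
      (((z.2.1 + z.1.1, z.2.2), z.2) : (ℝ × ℝ) × (ℝ × ℝ))) (𝓝 ((0, 0, 0), x₀))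
      (𝓝 (x₀, x₀)) := by
    have : Continuous (fun z : (ℝ × ℝ × ℝ) × (ℝ × ℝ) =>
      (((z.2.1 + z.1.1, z.2.2), z.2) : (ℝ × ℝ) × (ℝ × ℝ))) := by fun_prop
    have := this.tendsto ((0, 0, 0), x₀)
    simpa using this
  have t2 : Tendsto (fun z : (ℝ × ℝ × ℝ) × (ℝ × ℝ) =>
      (((z.2.1 + z.1.2.1, z.2.2 + z.1.2.2), z.2) : (ℝ × ℝ) × (ℝ × ℝ))) (𝓝 ((0, 0, 0), x₀))
      (𝓝 (x₀, x₀)) := by
    have : Continuous (fun z : (ℝ × ℝ × ℝ) × (ℝ × ℝ) =>
      (((z.2.1 + z.1.2.1, z.2.2 + z.1.2.2), z.2) : (ℝ × ℝ) × (ℝ × ℝ))) := by fun_prop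
    have := this.tendsto ((0, 0, 0), x₀)
    simpa using this
  filter_upwards [t1.eventually h1, t2.eventually h1]
  rintro ⟨⟨a, b, d⟩, s, t⟩ k1 k2 hbd had
  simp only at k1 k2 hbd had ⊢
  have ha : 0 < |a| := abs_pos.2 (fun h => had (by simp [h]))
  have hd : 0 < |d| := abs_pos.2 (fun h => had (by simp [h]))
  set R1 := Ψ (s + a, t) - Ψ (s, t) - D ((s + a, t) - (s, t)) with hR1
  set R2 := Ψ (s + b, t + d) - Ψ (s, t) - D ((s + b, t + d) - (s, t)) with hR2
  have n1 : ‖((s + a, t) : ℝ × ℝ) - (s, t)‖ = |a| := by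
    simp [Prod.norm_def]
  have n2 : ‖((s + b, t + d) : ℝ × ℝ) - (s, t)‖ = |d| := by
    simp [Prod.norm_def, hbd]
  rw [n1] at k1
  rw [n2] at k2
  have d1 : D ((s + a, t) - (s, t)) = (a : ℂ) * P := by
    have : ((s + a, t) - (s, t) : ℝ × ℝ) = a • ((1, 0) : ℝ × ℝ) := by ext <;> simp
    rw [this, map_smul, real_smul]
  have d2 : D ((s + b, t + d) - (s, t)) = (b : ℂ) * P + (d : ℂ) * Q := by
    have : ((s + b, t + d) - (s, t) : ℝ × ℝ) = b • ((1, 0) : ℝ × ℝ) + d • ((0, 1) : ℝ × ℝ) := by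
      ext <;> simp
    rw [this, map_add, map_smul, map_smul, real_smul, real_smul]
  have e1 : Ψ (s + a, t) - Ψ (s, t) = a * P + R1 := by rw [hR1, d1]; ring
  have e2 : Ψ (s + b, t + d) - Ψ (s, t) = b * P + d * Q + R2 := by rw [hR2, d2]; ring
  rw [e1, e2]
  have e3 : (conj (a * P + R1) * (b * P + d * Q + R2)).im =
      a * d * J + (conj (a * P) * R2).im + (conj R1 * (b * P + d * Q)).im +
        (conj R1 * R2).im := by
    rw [hJd]
    simp only [map_add, map_mul, Complex.add_im, Complex.mul_im, Complex.add_re, Complex.mul_re,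
      Complex.conj_re, Complex.conj_im, Complex.ofReal_re, Complex.ofReal_im]
    ring
  have b1 : |(conj (a * P) * R2).im| ≤ |a| * ‖P‖ * (ε * |d|) := by
    refine (Complex.abs_im_le_norm _).trans ?_
    rw [norm_mul, Complex.norm_conj, norm_mul, Complex.norm_real, Real.norm_eq_abs]
    gcongr
  have b2 : |(conj R1 * (b * P + d * Q)).im| ≤ (ε * |a|) * (|d| * ‖P‖ + |d| * ‖Q‖) := by
    refine (Complex.abs_im_le_norm _).trans ?_
    rw [norm_mul, Complex.norm_conj]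
    have : ‖(b:ℂ) * P + d * Q‖ ≤ |d| * ‖P‖ + |d| * ‖Q‖ := by
      refine (norm_add_le _ _).trans ?_
      rw [norm_mul, norm_mul, Complex.norm_real, Complex.norm_real, Real.norm_eq_abs,
        Real.norm_eq_abs]
      gcongr
    gcongr
  have b3 : |(conj R1 * R2).im| ≤ (ε * |a|) * (ε * |d|) := by
    refine (Complex.abs_im_le_norm _).trans ?_
    rw [norm_mul, Complex.norm_conj]
    gcongr
  rw [e3]
  set X := (conj (a * P) * R2).im + (conj R1 * (b * P + d * Q)).im + (conj R1 * R2).im with hX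
  have hXb : |X| ≤ |a * d| * (ε * (2 * ‖P‖ + ‖Q‖ + ε)) := by
    calc |X| ≤ |(conj (a * P) * R2).im| + |(conj R1 * (b * P + d * Q)).im| +
          |(conj R1 * R2).im| := abs_add_three _ _ _
      _ ≤ |a| * ‖P‖ * (ε * |d|) + (ε * |a|) * (|d| * ‖P‖ + |d| * ‖Q‖) +
          (ε * |a|) * (ε * |d|) := by gcongr
      _ = |a * d| * (ε * (2 * ‖P‖ + ‖Q‖ + ε)) := by rw [abs_mul]; ring
  have had0 : 0 < |a * d| := abs_pos.2 had
  have hX2 : |a * d * X| < (a * d) ^ 2 * J := by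
    rw [abs_mul, ← sq_abs (a * d)]
    calc |a * d| * |X| ≤ |a * d| * (|a * d| * (ε * (2 * ‖P‖ + ‖Q‖ + ε))) := by gcongr
      _ < |a * d| * (|a * d| * J) := by gcongr
      _ = |a * d| ^ 2 * J := by ring
  have := (abs_lt.1 hX2).1
  have e4 : a * d * (a * d * J + (conj (a * P) * R2).im + (conj R1 * (b * P + d * Q)).im +
        (conj R1 * R2).im) = (a * d) ^ 2 * J + a * d * X := by rw [hX]; ring
  rw [e4]
  linarith

/-- uniform version on the annulus -/
theorem mesh_uniform {Ψ : ℝ × ℝ → ℂ} (hper : ∀ s t, Ψ (s, t + 2 * Real.pi) = Ψ (s, t))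
    (hD : ∀ s ∈ Icc (0:ℝ) 1, ∀ t, ∃ D : ℝ × ℝ →L[ℝ] ℂ, HasStrictFDerivAt Ψ D (s, t) ∧
        0 < (conj (D (1, 0)) * D (0, 1)).im) :
    ∃ δ > 0, ∀ s ∈ Icc (0:ℝ) 1, ∀ t a b d : ℝ, |a| < δ → |d| < δ → |b| ≤ |d| → a * d ≠ 0 →
      0 < (a * d) * (conj (Ψ (s + a, t) - Ψ (s, t)) * (Ψ (s + b, t + d) - Ψ (s, t))).im := by
  have hK : IsCompact (Icc (0:ℝ) 1 ×ˢ Icc (0:ℝ) (2 * Real.pi)) := isCompact_Icc.prod isCompact_Icc
  have h1 := hK.eventually_forall_of_forall_eventually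
    (x₀ := ((0, 0, 0) : ℝ × ℝ × ℝ))
    (P := fun (z : ℝ × ℝ × ℝ) (x : ℝ × ℝ) => |z.2.1| ≤ |z.2.2| → z.1 * z.2.2 ≠ 0 →
      0 < (z.1 * z.2.2) * (conj (Ψ (x.1 + z.1, x.2) - Ψ x) *
        (Ψ (x.1 + z.2.1, x.2 + z.2.2) - Ψ x)).im) (by
      rintro ⟨s, t⟩ ⟨hs, -⟩
      obtain ⟨D, hD1, hD2⟩ := hD s hs t
      exact mesh_local hD1 hD2)
  obtain ⟨δ, hδ, hb⟩ := Metric.eventually_nhds_iff.1 h1
  refine ⟨δ, hδ, fun s hs t a b d ha hd hbd had => ?_⟩
  -- reduce t modulo 2π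
  have hper' : ∀ (k : ℤ) (s t : ℝ), Ψ (s, t + k * (2 * Real.pi)) = Ψ (s, t) := by
    intro k s t
    have hp : Function.Periodic (fun t => Ψ (s, t)) (2 * Real.pi) := hper s
    exact (hp.int_mul k) t
  obtain ⟨k, hk1, hk2⟩ : ∃ k : ℤ, 0 ≤ t + k * (2 * Real.pi) ∧
      t + k * (2 * Real.pi) ≤ 2 * Real.pi := by
    refine ⟨-⌊t / (2 * Real.pi)⌋, ?_, ?_⟩
    · have h2 := Int.floor_le (t / (2 * Real.pi))
      rw [le_div_iff₀ Real.two_pi_pos] at h2
      push_cast
      linarith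
    · have h2 := Int.lt_floor_add_one (t / (2 * Real.pi))
      rw [div_lt_iff₀ Real.two_pi_pos] at h2
      push_cast
      linarith
  have h2 := hb (y := (a, b, d)) (by
    rw [dist_eq_norm]
    simp only [sub_zero, Prod.norm_def, Prod.fst_sub, Prod.snd_sub, Real.norm_eq_abs]
    exact max_lt ha (max_lt (lt_of_le_of_lt hbd hd) hd)) (s, t + k * (2 * Real.pi))
      ⟨hs, ⟨hk1, hk2⟩⟩ hbd had
  simp only at h2
  rw [hper' k (s + a) t, hper' k s t,
    show t + k * (2 * Real.pi) + d = (t + d) + k * (2 * Real.pi) by ring,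
    hper' k (s + b) (t + d)] at h2
  exact h2

end

end Pool.Agent.Lib.MP4cd976.DN
end

section
/-!
# MP_4cd976_an, block D: the spiral of vertices in the form `Spiral` of `DN/Defs.lean`

`nice_spiral : Nice ρ h g → ∃ L, ∀ᶠ N in atTop, ∃ W, Spiral N (Fm h g) L W`.
-/
open Set Filter Metric Topology Complex ComplexConjugate

namespace Pool.Agent.Lib.MP4cd976.DN

noncomputable section

/-- the radial parameter of the spiral -/
def sq (N n : ℕ) : ℝ := max 0 (min 1 (((n : ℝ) - N + 1) / (N ^ 2 - N + 1)))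

lemma sq_den (N : ℕ) : (0:ℝ) < (N:ℝ) ^ 2 - N + 1 := by nlinarith [sq_nonneg ((N:ℝ) - 1)]

lemma sq_mem (N n : ℕ) : sq N n ∈ Icc (0:ℝ) 1 :=
  ⟨le_max_left _ _, max_le zero_le_one (min_le_left _ _)⟩

lemma sq_zero {N n : ℕ} (h : n < N) : sq N n = 0 := by
  rw [sq]
  apply max_eq_left
  refine (min_le_right _ _).trans ?_
  apply div_nonpos_of_nonpos_of_nonneg _ (sq_den N).le
  have : (n : ℝ) + 1 ≤ N := by exact_mod_cast h
  linarith

lemma sq_one {N n : ℕ} (h : N ^ 2 ≤ n) : sq N n = 1 := by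
  have h1 : (N : ℝ) ^ 2 ≤ n := by exact_mod_cast h
  have : 1 ≤ ((n : ℝ) - N + 1) / (N ^ 2 - N + 1) := by
    rw [one_le_div (sq_den N)]; linarith
  rw [sq, min_eq_left this]
  simp

lemma sq_mono {N n m : ℕ} (h : n ≤ m) : sq N n ≤ sq N m := by
  have h1 : (n : ℝ) ≤ m := by exact_mod_cast h
  have h2 : ((n : ℝ) - N + 1) / (N ^ 2 - N + 1) ≤ ((m : ℝ) - N + 1) / (N ^ 2 - N + 1) :=
    div_le_div_of_nonneg_right (by linarith) (sq_den N).le
  unfold sq
  gcongr

lemma sq_le {N n m : ℕ} (h : n ≤ m) : sq N m - sq N n ≤ ((m : ℝ) - n) / (N ^ 2 - N + 1) := by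
  have hnm : (n : ℝ) ≤ m := by exact_mod_cast h
  have key : ∀ x y : ℝ, x ≤ y → max 0 (min 1 y) - max 0 (min 1 x) ≤ y - x := by
    intro x y hxy
    rcases max_cases 0 (min 1 y) with h1 | h1 <;> rcases max_cases 0 (min 1 x) with h2 | h2 <;>
    rcases min_cases 1 y with h3 | h3 <;> rcases min_cases 1 x with h4 | h4 <;> linarith
  have h2 := key (((n : ℝ) - N + 1) / (N ^ 2 - N + 1)) (((m : ℝ) - N + 1) / (N ^ 2 - N + 1))
    (div_le_div_of_nonneg_right (by linarith) (sq_den N).le)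
  calc _ ≤ _ := h2
    _ = ((m : ℝ) - n) / (N ^ 2 - N + 1) := by ring

lemma sq_lt {N n : ℕ} (hN : 1 ≤ N) (h : n < N ^ 2) : sq N n < sq N (n + N) := by
  have h1 : (n : ℝ) < (N : ℝ) ^ 2 := by exact_mod_cast h
  have hNr : (0:ℝ) < N := by exact_mod_cast hN
  have e1 : ((n : ℝ) - N + 1) / (N ^ 2 - N + 1) < 1 := by
    rw [div_lt_one (sq_den N)]; linarith
  have e2 : 0 < (((n + N : ℕ) : ℝ) - N + 1) / (N ^ 2 - N + 1) := by
    push_cast
    have : (0:ℝ) ≤ n := Nat.cast_nonneg n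
    apply div_pos _ (sq_den N)
    linarith
  have e3 : ((n : ℝ) - N + 1) / (N ^ 2 - N + 1) <
      (((n + N : ℕ) : ℝ) - N + 1) / (N ^ 2 - N + 1) := by
    apply div_lt_div_of_pos_right _ (sq_den N)
    push_cast
    linarith
  unfold sq
  apply max_lt
  · exact lt_max_of_lt_right (lt_min one_pos e2)
  · apply lt_max_of_lt_right
    rw [min_eq_right e1.le]
    exact lt_min e1 e3

lemma cr_eq (u v : ℂ) : D.cr u v = (conj u * v).im := by
  simp only [D.cr, Complex.mul_im, Complex.conj_re, Complex.conj_im]; ring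

variable {ρ : ℝ} {h g : ℂ → ℂ}

/-- **the spiral** -/
theorem nice_spiral (hn : D.Nice ρ h g) :
    ∃ L : ℝ, ∀ᶠ N : ℕ in atTop, ∃ W : ℕ → ℂ, D.Spiral N (D.Fm h g) L W := by
  obtain ⟨L, Ψ, hL, hper, hΨ0, hΨ1, hD⟩ :=
    exists_annulus hn.ρ1 hn.dh hn.dg hn.h0 hn.g0 hn.h1 hn.g1 hn.sp hn.inj
  obtain ⟨δ, hδ, hm⟩ := mesh_uniform hper hD
  refine ⟨L, ?_⟩
  have lim1 : ∀ᶠ N : ℕ in atTop, 2 * Real.pi / N < δ := by
    have : Tendsto (fun N : ℕ => 2 * Real.pi / (N : ℝ)) atTop (𝓝 0) :=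
      tendsto_const_div_atTop_nhds_zero_nat _
    exact this.eventually_lt_const hδ
  filter_upwards [lim1, eventually_ge_atTop 2] with N hN hN2
  have hNr : (0:ℝ) < N := by positivity
  have hN2r : (2:ℝ) ≤ N := by exact_mod_cast hN2
  have hper' : ∀ (k : ℕ) (s t : ℝ), Ψ (s, t - k * (2 * Real.pi)) = Ψ (s, t) := by
    intro k s t
    have hp : Function.Periodic (fun t => Ψ (s, t)) (2 * Real.pi) := hper s
    have := (hp.nat_mul k) (t - k * (2 * Real.pi))
    simp only [sub_add_cancel] at this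
    exact this.symm
  have hper2 : ∀ s t, Ψ (s, t - 2 * Real.pi) = Ψ (s, t) := by
    intro s t
    have := hper' 1 s t
    simpa using this
  set t : ℕ → ℝ := fun n => -(2 * Real.pi * n / N) with ht
  set W : ℕ → ℂ := fun n => Ψ (sq N n, t n) with hW
  set d : ℝ := 2 * Real.pi / N with hd
  have hd0 : 0 < d := by positivity
  have hd1 : (N:ℝ) / (N ^ 2 - N + 1) ≤ d := by
    rw [hd, div_le_div_iff₀ (sq_den N) hNr]
    nlinarith [Real.pi_gt_three, sq_nonneg ((N:ℝ) - 1), sq_nonneg ((N:ℝ))]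
  have hb : ∀ n, sq N (n + 1) - sq N n ≤ d ∧ 0 ≤ sq N (n + 1) - sq N n := by
    intro n
    refine ⟨?_, sub_nonneg.2 (sq_mono (by omega))⟩
    have := sq_le (N := N) (n := n) (m := n + 1) (by omega)
    refine this.trans (le_trans ?_ hd1)
    apply div_le_div_of_nonneg_right _ (sq_den N).le
    push_cast
    linarith
  -- the two triangles
  have key : ∀ i : ℕ, i < N * N →
      0 < (conj (W i - W (i + N)) * (W (i + 1) - W (i + N))).im ∧
      0 < (conj (W (i + N - 1) - W (i + N)) * (W i - W (i + N))).im := by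
    intro i hi
    have hi2 : i < N ^ 2 := by rw [pow_two]; exact hi
    have ht1 : t (i + N) = t i - 2 * Real.pi := by
      simp only [ht]; push_cast; field_simp; ring
    have ht2 : t (i + 1) = t i - d := by
      simp only [ht, hd]; push_cast; field_simp; ring
    have ht3 : t (i + N - 1) = t i + d - 2 * Real.pi := by
      simp only [ht, hd]
      rw [Nat.cast_sub (by omega)]
      push_cast; field_simp; ring
    have w1 : W (i + N) = Ψ (sq N (i + N), t i) := by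
      simp only [hW]; rw [ht1, hper2]
    have w2 : W (i + 1) = Ψ (sq N (i + 1), t i - d) := by
      simp only [hW]; rw [ht2]
    have w3 : W (i + N - 1) = Ψ (sq N (i + N - 1), t i + d) := by
      simp only [hW]; rw [ht3, hper2]
    have w0 : W i = Ψ (sq N i, t i) := rfl
    set a : ℝ := sq N (i + N) - sq N i with ha
    have ha0 : 0 < a := sub_pos.2 (sq_lt (by omega) hi2)
    have ha1 : a ≤ d := by
      have := sq_le (N := N) (n := i) (m := i + N) (by omega)
      refine this.trans (le_trans (le_of_eq ?_) hd1)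
      push_cast; ring
    constructor
    · -- triangle (W (i+N), W i, W (i+1)), corner at W i
      obtain ⟨b1, b2⟩ := hb i
      set b := sq N (i + 1) - sq N i with hbd
      have := hm (sq N i) (sq_mem N i) (t i) a b (-d)
        (by rw [abs_of_pos ha0]; linarith) (by rw [abs_neg, abs_of_pos hd0]; exact hN)
        (by rw [abs_neg, abs_of_pos hd0, abs_of_nonneg b2]; exact b1)
        (mul_ne_zero ha0.ne' (neg_ne_zero.2 hd0.ne'))
      have e1 : sq N i + a = sq N (i + N) := by rw [ha]; ring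
      have e2 : sq N i + b = sq N (i + 1) := by rw [hbd]; ring
      rw [e1, e2, ← sub_eq_add_neg, ← w1, ← w0, ← w2] at this
      have had : 0 < a * d := by positivity
      have h3 : (conj (W (i + N) - W i) * (W (i + 1) - W i)).im < 0 := by
        by_contra hc
        push Not at hc
        have : a * -d * (conj (W (i + N) - W i) * (W (i + 1) - W i)).im ≤ 0 := by nlinarith
        linarith
      have h4 : (conj (W i - W (i + N)) * (W (i + 1) - W (i + N))).im =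
          -(conj (W (i + N) - W i) * (W (i + 1) - W i)).im := by
        simp only [map_sub, Complex.mul_im, Complex.sub_re, Complex.sub_im, Complex.conj_re,
          Complex.conj_im]
        ring
      rw [h4]; linarith
    · -- triangle (W (i+N), W (i+N-1), W i), corner at W (i+N)
      obtain ⟨b1, b2⟩ := hb (i + N - 1)
      have eq : i + N - 1 + 1 = i + N := by omega
      rw [eq] at b1 b2
      set b := sq N (i + N) - sq N (i + N - 1) with hbd
      have := hm (sq N (i + N)) (sq_mem N _) (t i) (-a) (-b) d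
        (by rw [abs_neg, abs_of_pos ha0]; linarith) (by rw [abs_of_pos hd0]; exact hN)
        (by rw [abs_neg, abs_of_pos hd0, abs_of_nonneg b2]; exact b1)
        (mul_ne_zero (neg_ne_zero.2 ha0.ne') hd0.ne')
      have e1 : sq N (i + N) + -a = sq N i := by rw [ha]; ring
      have e2 : sq N (i + N) + -b = sq N (i + N - 1) := by rw [hbd]; ring
      rw [e1, e2, ← w1, ← w0, ← w3] at this
      have had : 0 < a * d := by positivity
      have h3 : (conj (W i - W (i + N)) * (W (i + N - 1) - W (i + N))).im < 0 := by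
        by_contra hc
        push Not at hc
        have : -a * d * (conj (W i - W (i + N)) * (W (i + N - 1) - W (i + N))).im ≤ 0 := by
          nlinarith
        linarith
      have h4 : (conj (W (i + N - 1) - W (i + N)) * (W i - W (i + N))).im =
          -(conj (W i - W (i + N)) * (W (i + N - 1) - W (i + N))).im := by
        simp only [map_sub, Complex.mul_im, Complex.sub_re, Complex.sub_im, Complex.conj_re,
          Complex.conj_im]
        ring
      rw [h4]; linarith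
  refine ⟨W, hL, ?_, ?_, ?_, ?_⟩
  · intro n hn
    simp only [hW]
    rw [sq_zero hn, hΨ0]
    rfl
  · intro n hn
    simp only [hW]
    rw [sq_one (by rw [pow_two]; omega), hΨ1]
    have e1 : t (N * N + n) = -(2 * Real.pi * n / N) - (N:ℝ) * (2 * Real.pi) := by
      simp only [ht]; push_cast; field_simp; ring
    have e2 : exp (((t (N * N + n) : ℝ) : ℂ) * I) = exp (((-(2 * Real.pi * n / N) : ℝ) : ℂ) * I) := by
      rw [Complex.exp_eq_exp_iff_exists_int]
      refine ⟨-N, ?_⟩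
      rw [e1]; push_cast; ring
    rw [e2]
    rfl
  · intro n hn1 hn2
    obtain ⟨i, rfl⟩ : ∃ i, n = i + 1 := ⟨n - 1, by omega⟩
    have ei : i + 1 - 1 = i := by omega
    have eiN : i + 1 + N - 1 = i + N := by omega
    rw [ei, eiN, cr_eq]
    exact (key i (by omega)).1
  · intro n hn1 hn2
    obtain ⟨i, rfl⟩ : ∃ i, n = i + 1 := ⟨n - 1, by omega⟩
    have ei : i + 1 - 1 = i := by omega
    have eiN : i + 1 + N - 1 = i + N := by omega
    have eiN1 : i + 1 + N - 2 = i + N - 1 := by omega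
    rw [ei, eiN, eiN1, cr_eq]
    exact (key i (by omega)).2

end

end Pool.Agent.Lib.MP4cd976.DN
end
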