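import Mathlib
import Pool.Agent.Lib.MP_4cd976_an.DN.Defs

/-!
# MP_4cd976_an (S04615), block D: specifications (helper14)

GOAL of the block: `TiedBound → SliceBound` (`SpecDEN`).

IDEA.  Let `F = h + conj g` be nice on `|z| < ρ`, `ρ > 1`.  Extend `F | {|z| = 1}` to an immersed
annulus `Ψ` (module EXT) which ends at a big round circle.  On a fine mesh choose the SPIRAL of
vertices `W 0, W 1, ..., W K`, `K = N*N + N - 1` (N rounds and the outer round): `W (i*N + j) =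
Ψ (R_i, -2πj/N)`.  The complement of the broken line `W 0 W 1 ... W K ∞` contains (about) `F(D)`
and a long corridor (a strip of positively oriented triangles) whose only gate to `F(D)` is
`W (N-1) | W 0`.  We start with the exterior piece (XPC: word `W K | W (N*N), ..., W K`), insert
the vertices of the corridor one by one at the gate (GLU, STP, IND) and finally glue the step map
of `F` on `N` equal arcs (RTM ... RTL) at the gate `W (N-1) | W 0` (FIN).  The final word is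
`W K, ..., W 1, W 0, W 1, ..., W K`, that is: NESTED TIES, and `TiedBound` applies.  Then the
gluing parameter tends to `0` and after that `N → ∞`.

CONVENTION.  A word `v_0, v_1, ..., v_n` with jump points `t_1 < ... < t_n` has the function
`H(X) = κ (X+I)^2 + ∑ (v_i - v_{i-1}) / (X - t_i)`; the map is sense preserving on the upper half
plane iff `H` has no zero in the closed upper half plane; then the domain lies to the LEFT of the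
word.  A triangle `(p, v', q)` may be inserted at the gate `p | q` iff it is positively oriented:
`0 < cr (v' - p) (q - p)`.
-/

open Complex Filter Topology

namespace Pool.Agent.Lib.MP4cd976.D

/-! ## 1. Gluing -/

/-- **GLU** (150 lines).  GLUING LEMMA: replace the pole `ρ/(X-τ)` of a function without zeros in
the closed upper half plane by a small copy of a function `∑ q_j/(ξ - d_j)`, `∑ q_j = ρ`.

PROOF.  Suppose not.  Then there are `ε_n → 0+` and `X_n`, `Im X_n ≥ 0`, not a pole, with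
`κ (X_n+I)^2 + ∑ r_i/(X_n - c_i) + ∑ q_j/(X_n - τ - ε_n d_j) = 0`  (use `Filter.not_eventually`,
`Filter.Frequently` and `Filter.exists_seq_forall_of_frequently`, or an explicit sequence from
`∃ᶠ`).  Put `A(X) = κ (X+I)^2 + ∑ r_i/(X-c_i)`, `B(ξ) = ∑ q_j/(ξ-d_j)`, so
`A(X_n) + B(ξ_n)/ε_n = 0`, `ξ_n = (X_n - τ)/ε_n` (`Im ξ_n ≥ 0`, `ξ_n ≠ d_j`).
(1) `X_n` is bounded: if `‖X_n‖ → ∞` along a subsequence then `∑ r_i/(X_n-c_i) → 0`,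
`∑ q_j/(X_n-τ-ε_n d_j) → 0` and `‖κ (X_n+I)^2‖ → ∞`, impossible.  Pass to a subsequence with
`X_n → X*` (`tendsto_subseq_of_bounded` or compactness of closed balls), `Im X* ≥ 0`.
(2) `X* ≠ τ`, `X* ≠ c_i` for all `i ∈ s`: the expression tends to `A(X*) + ρ/(X*-τ)`, which is
`≠ 0` by hypothesis.  Contradiction.
(3) `X* = c_i` (then `≠ τ`, `≠ c_k` for `k ≠ i`): multiply by `(X_n - c_i)`: all terms tend to `0`
except the `i`-th, which is `r_i ≠ 0`.  Contradiction.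
(4) `X* = τ`.  Subcase (a): `ξ_n` has a bounded subsequence; pass to `ξ_n → ξ*`, `Im ξ* ≥ 0`.  If
`ξ*` is no `d_j`: multiply by `ε_n`: `ε_n A(X_n) + B(ξ_n) → 0 + B(ξ*) ≠ 0` (`A` is continuous at
`τ`).  If `ξ* = d_j`: multiply by `ε_n (ξ_n - d_j)`: `→ q_j ≠ 0` (the `d`'s are distinct on `s'`).
Subcase (b): `‖ξ_n‖ → ∞`: multiply by `X_n - τ = ε_n ξ_n`: `(X_n-τ) A(X_n) → 0` and
`ξ_n B(ξ_n) = ∑ q_j ξ_n/(ξ_n-d_j) → ∑ q_j = ρ ≠ 0`.  Contradiction. -/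
def SpecGLU : Prop :=
  ∀ (ι ι' : Type) (s : Finset ι) (c : ι → ℝ) (r : ι → ℂ) (s' : Finset ι') (d : ι' → ℝ)
    (q : ι' → ℂ) (κ ρ : ℂ) (τ : ℝ), κ ≠ 0 → ρ ≠ 0 → Set.InjOn c (s : Set ι) →
    (∀ i ∈ s, c i ≠ τ) → (∀ i ∈ s, r i ≠ 0) → Set.InjOn d (s' : Set ι') →
    (∀ j ∈ s', q j ≠ 0) → ∑ j ∈ s', q j = ρ →
    (∀ X : ℂ, 0 ≤ X.im → X ≠ (τ : ℂ) → (∀ i ∈ s, X ≠ (c i : ℂ)) →
      κ * (X + I) ^ 2 + ∑ i ∈ s, r i / (X - c i) + ρ / (X - τ) ≠ 0) →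
    (∀ ξ : ℂ, 0 ≤ ξ.im → (∀ j ∈ s', ξ ≠ (d j : ℂ)) → ∑ j ∈ s', q j / (ξ - d j) ≠ 0) →
    ∀ᶠ ε : ℝ in 𝓝[>] 0, ∀ X : ℂ, 0 ≤ X.im → (∀ i ∈ s, X ≠ (c i : ℂ)) →
      (∀ j ∈ s', X ≠ ((τ + ε * d j : ℝ) : ℂ)) →
      κ * (X + I) ^ 2 + ∑ i ∈ s, r i / (X - c i) +
        ∑ j ∈ s', q j / (X - ((τ + ε * d j : ℝ) : ℂ)) ≠ 0

/-- **STP** (150 lines, uses GLU).  INSERTION of one vertex at the gate `W p | W q`, on the right
side (`W (q-1)`) or on the left side (`W (p-1)`).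

PROOF.  Right side.  Let `κ, a, b, τ` be the data of `Gate K p q W`.  Apply GLU with
`ι = ℕ ⊕ ℕ`, `s = (Ico p K).disjSum (Ico q K)`, `c = Sum.elim a b`,
`r = Sum.elim (fun i => W i - W (i+1)) (fun i => W (i+1) - W i)`, `ρ = W q - W p`, `ι' = Bool`
or `Fin 2`, `d = 0, 1`, `q_0 = W (q-1) - W p`, `q_1 = W q - W (q-1)` (sum `= ρ`).  `ρ ≠ 0`,
`q_0 ≠ 0` because of `cr > 0`, and `q_1 ≠ 0` too (`v' ≠ q`).  The function
`q_0/ξ + q_1/(ξ-1) = (ρ ξ - q_0)/(ξ (ξ-1))` vanishes only at `ξ = q_0/ρ`, and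
`Im (q_0/ρ) = - cr q_0 ρ/|ρ|^2 < 0`.  `c` is injective on `s` since `a i < τ < b j` and `a`, `b`
are strictly monotone there.  Take `ε > 0` from GLU and so small that `τ + ε < b i` for all
`q ≤ i < K` (finitely many).  New data: `κ, a`, `b' = Function.update b (q-1) (τ+ε)`, `τ`
(`Ico (q-1) K = {q-1} ∪ Ico q K`).
Left side: the same with `d = 0, 1`, `q_0 = W (p-1) - W p` (at the new `a (p-1) := τ`) and
`q_1 = W q - W (p-1)` (the new gate at `τ + ε`). -/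
def SpecSTP : Prop :=
  ∀ (K p q : ℕ) (W : ℕ → ℂ), (∀ i, i < K → W i ≠ W (i + 1)) → p ≤ K → q ≤ K → Gate K p q W →
    (1 ≤ q → 0 < cr (W (q - 1) - W p) (W q - W p) → Gate K p (q - 1) W) ∧
    (1 ≤ p → 0 < cr (W (p - 1) - W p) (W q - W p) → Gate K (p - 1) q W)

/-- **IND** (80 lines, uses STP, XPC).  The corridor.

PROOF.  Put `K = N*N+N-1`.  By descending induction on `q ≤ N*N`: `Gate K (q+N-1) q W`.  Start
`q = N*N`: this is XPC (`q+N-1 = K`).  Step `q → q-1` (`1 ≤ q`): STP right side with `tri1 q`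
gives `Gate K (q+N-1) (q-1) W`; STP left side (`p = q+N-1`, `q := q-1`) with `tri2 q` gives
`Gate K (q+N-2) (q-1) W`, and `q+N-2 = (q-1)+N-1`.  `q = 0` is the claim.
`W i ≠ W (i+1)` for `i < K`: for `i < N*N` it follows from `tri1 (i+1)` (if `W i = W (i+1)` the
cross product is `cr x x = 0`); for `N*N ≤ i < K` from `outer` and `L ≠ 0`:
`ex (-2π(j+1)/N) = ex (-2πj/N) * ex (-2π/N)` and `ex (-2π/N) ≠ 1` for `N ≥ 2`. -/
def SpecIND : Prop :=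
  ∀ (N : ℕ) (F : ℂ → ℂ) (L : ℝ) (W : ℕ → ℂ), 3 ≤ N → Spiral N F L W →
    (∀ i, i < N * N + N - 1 → W i ≠ W (i + 1)) ∧ Gate (N * N + N - 1) (N - 1) 0 W

/-- **XPC** (120 lines).  The EXTERIOR PIECE: the outside of the regular `N`-gon minus a ray.

PROOF (explicit, no compactness).  `δ = 2π/N`, `φ_j = π(2j+1)/(2N) ∈ (0,π)` for `j < N`,
`t_j = -cos φ_j/sin φ_j`: strictly increasing in `j`
(`cos φ/sin φ - cos φ'/sin φ' = sin(φ'-φ)/(sin φ sin φ') > 0` for `φ < φ'` in `(0,π)`).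
`τ = t_0`, `b (N*N + j - 1) = t_j` for `1 ≤ j < N` (`b i = t_{i+1-N*N}`), `a` arbitrary
(`Ico K K = ∅`, `K = N*N+N-1`).
Residues: `r_0 = W (N*N) - W K`, `r_j = W (N*N+j) - W (N*N+j-1)`: in all cases
`r_j = L (ex(-δ j) - ex(-δ (j-1)))` (`ex (-δ(N-1)) = ex δ`) `= -2 I L sin(δ/2) ex(-δ (j-1/2))`.
`t_j + I = - ex(-φ_j)/sin φ_j`, so `(t_j+I)^2 = ex(-δ (j+1/2)) (1+t_j^2)`; hence
`r_j ex(-δ) = -2 I m c_j (t_j+I)^2` with `m = L sin(δ/2) > 0`, `c_j = 1/(1+t_j^2) > 0`.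
Take `κ = -κ₀ ex δ` with `κ₀ > 2 m ∑ c_j (1 + ‖t_j+I‖)`.  For `Im X ≥ 0`, `X ≠ t_j`:
`(X+I)^(-2) ex(-δ) * HG = -κ₀ - 2 I m ∑ c_j (t_j+I)^2/((X+I)^2 (X-t_j))` and
`(t_j+I)^2/((X+I)^2 (X-t_j)) = 1/(X-t_j) - (X+t_j+2I)/(X+I)^2`.  Real parts:
`Re(-I/(X-t_j)) = Im(1/(X-t_j)) = -Im X/|X-t_j|^2 ≤ 0`, and
`‖(X+t_j+2I)/(X+I)^2‖ ≤ (‖X+I‖ + ‖t_j+I‖)/‖X+I‖^2 ≤ 1 + ‖t_j+I‖` since `‖X+I‖ ≥ 1`.  So the
real part is `≤ -κ₀ + 2 m ∑ c_j (1+‖t_j+I‖) < 0`: no zero. -/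
def SpecXPC : Prop :=
  ∀ (N : ℕ) (L : ℝ) (W : ℕ → ℂ), 2 ≤ N → 0 < L →
    (∀ n, n < N → W (N * N + n) = L * ex (-(2 * Real.pi * n / N))) →
    Gate (N * N + N - 1) (N * N + N - 1) (N * N) W

/-! ## 2. The map `Ψ` -/

/-- What is needed of the immersed annulus `Ψ (R, t)`, `τ ≤ R ≤ L`. -/
structure PsiMap (F : ℂ → ℂ) (τ L : ℝ) (Ψ : ℝ × ℝ → ℂ) : Prop where
  τ0 : 0 < τ
  τL : τ < L
  smooth : ∀ P : ℝ × ℝ, τ ≤ P.1 → P.1 ≤ L → ContDiffAt ℝ 1 Ψ P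
  jac : ∀ P : ℝ × ℝ, τ ≤ P.1 → P.1 ≤ L →
    0 < cr (fderiv ℝ Ψ P (1, 0)) (fderiv ℝ Ψ P (0, 1))
  per : ∀ R t : ℝ, Ψ (R, t + 2 * Real.pi) = Ψ (R, t)
  inner : ∀ t : ℝ, Ψ (τ, t) = F (ex t)
  outer : ∀ t : ℝ, Ψ (L, t) = L * ex t

/-- **FJP** (60 lines).  `F = h + conj g` is `C^1` with positive Jacobian.

PROOF.  `h`, `g` are analytic on the open ball (`DifferentiableOn.analyticAt`), hence
`ContDiffAt ℝ 1` after restriction of scalars (`AnalyticAt.contDiffAt`,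
`ContDiffAt.restrict_scalars`), and conjugation is continuous linear (`Complex.conjCLE`).
The derivative is `v ↦ h'(z) v + conj (g'(z) v)` (`HasDerivAt.complexToReal_fderiv'` or
`HasDerivAt.hasFDerivAt.restrictScalars`).  With `A = h'`, `B = g'`:
`cr (A + conj B) (A I + conj (B I)) = |A|^2 - |B|^2 > 0`. -/
def SpecFJP : Prop :=
  ∀ (ρ : ℝ) (h g : ℂ → ℂ), Nice ρ h g → ∀ z ∈ Metric.ball (0 : ℂ) ρ,
    ContDiffAt ℝ 1 (Fm h g) z ∧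
    (∀ v : ℂ, fderiv ℝ (Fm h g) z v = deriv h z * v + starRingEnd ℂ (deriv g z * v)) ∧
    0 < cr (fderiv ℝ (Fm h g) z 1) (fderiv ℝ (Fm h g) z I)

/-- **SIG** (90 lines).  A radial profile which pushes `τ` to `1` and is the identity from `ρ'` on.

PROOF.  Choose `k : ℕ` with `ρ'/(k+1) < ρ' - 1`.  `E(r) = (ρ'-r) - ρ'/(k+1) (1 - (r/ρ')^(k+1))`
for `r ≤ ρ'` and `E(r) = 0` for `r ≥ ρ'`.  `E(ρ') = 0` and `E'(r) = -1 + (r/ρ')^k` for `r ≤ ρ'`,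
which is `0` at `ρ'`: so `E` is `C^1` on `ℝ` (glue the two formulas: `HasDerivAt` on both sides,
`contDiff_one_iff_deriv`).  `E ≥ 0` on `[0,ρ']` (decreasing there).  `σ(r) = r + θ E(r)` with
`θ = (1-τ)/E(τ)`; `E(τ) ≥ ρ' - τ - ρ'/(k+1) > 1 - τ > 0`, so `0 < θ < 1`.  For `0 < r`:
`σ(r) ≥ r > 0`, `σ'(r) = 1 - θ (1 - (r/ρ')^k) ≥ 1 - θ > 0` if `r ≤ ρ'`, and `σ'(r) = 1` if
`r ≥ ρ'`. -/
def SpecSIG : Prop :=
  ∀ τ ρ' : ℝ, 0 < τ → τ < 1 → 1 < ρ' → ∃ σ : ℝ → ℝ, ContDiff ℝ 1 σ ∧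
    (∀ r, 0 < r → 0 < σ r ∧ 0 < deriv σ r) ∧ σ τ = 1 ∧ ∀ r, ρ' ≤ r → σ r = r

/-- **RAD** (80 lines).  The radial map `S(z) = (σ(|z|)/|z|) z`.

PROOF.  `ContDiffAt`: `contDiffAt_norm` at `z ≠ 0`, composition, quotient.  With
`φ(r) = σ(r)/r`, `r = |z|`, the derivative is `v ↦ φ(r) v + (φ'(r)/r) Re(conj z * v) z`
(the derivative of `|z|` in direction `v` is `Re(conj z v)/|z|`); with `ψ = φ'(r)/r`, `z = x+iy`:
`cr (φ + ψ x z) (φ I + ψ y z) = φ^2 + φ ψ (x^2+y^2) = φ (φ + r φ') = φ σ' > 0`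
since `(r φ)' = σ'`. -/
def SpecRAD : Prop :=
  ∀ σ : ℝ → ℝ, ContDiff ℝ 1 σ → (∀ r, 0 < r → 0 < σ r ∧ 0 < deriv σ r) →
    ∀ z : ℂ, z ≠ 0 →
      ContDiffAt ℝ 1 (fun z : ℂ => ((σ ‖z‖ / ‖z‖ : ℝ) : ℂ) * z) z ∧
      0 < cr (fderiv ℝ (fun z : ℂ => ((σ ‖z‖ / ‖z‖ : ℝ) : ℂ) * z) z 1)
        (fderiv ℝ (fun z : ℂ => ((σ ‖z‖ / ‖z‖ : ℝ) : ℂ) * z) z I)

/-- **INV** (120 lines, uses FJP).  The inverse of `F` is `C^1` with positive Jacobian, images of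
open disks are open.

PROOF.  `DF(z)` is invertible because `cr (DF 1) (DF I) ≠ 0`.  By the inverse function theorem
(`ContDiffAt.toOpenPartialHomeomorph` / `HasStrictFDerivAt.map_nhds_eq_of_equiv`) `F` is a local
homeomorphism with `C^1` local inverse; `F` maps neighbourhoods of `z` to neighbourhoods of
`F z`, so images of open subsets of the ball are open.  `G = Function.invFunOn F (ball 0 ρ)` is
equal near `F z` to the local inverse (by injectivity of `F` on the ball), so `ContDiffAt ℝ 1 G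
(F z)` (`ContDiffAt.to_localInverse` and `ContDiffAt.congr_of_eventuallyEq`).  For real linear
`A, B : ℂ → ℂ`: `cr (A u) (A v) = cr (A 1) (A I) * cr u v`, hence
`cr (A (B 1)) (A (B I)) = cr (A 1) (A I) * cr (B 1) (B I)`; with `A = DG`, `B = DF`, `A ∘ B = id`:
the product of the two Jacobians is `cr 1 I = 1`, so that of `G` is positive. -/
def SpecINV : Prop :=
  ∀ (ρ : ℝ) (h g : ℂ → ℂ), Nice ρ h g → ∃ G : ℂ → ℂ,
    (∀ z ∈ Metric.ball (0 : ℂ) ρ, G (Fm h g z) = z ∧ ContDiffAt ℝ 1 G (Fm h g z) ∧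
      0 < cr (fderiv ℝ G (Fm h g z) 1) (fderiv ℝ G (Fm h g z) I)) ∧
    ∀ r, r ≤ ρ → IsOpen (Fm h g '' Metric.ball (0 : ℂ) r)

/-- **PHI** (150 lines, uses FJP, SIG, RAD, INV).  The map `Φ` which pushes the outside of
`F(|z| < τ)` onto the outside of `F(D)`.

PROOF.  `ρ' = (1+ρ)/2`, `σ` from SIG, `S` from RAD, `G` from INV,
`Φ w = if w ∈ F '' ball 0 ρ then F (S (G w)) else w`.
(a) If `w = F z`, `z ∈ ball 0 ρ`, `w ≠ 0`: then `z ≠ 0` (`F 0 = 0`), and near `w` (the image is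
open) `Φ = F ∘ S ∘ G`.  `‖S z‖ = σ ‖z‖ < ρ` (`σ` is strictly increasing on `(0,∞)` and `σ r = r`
for `r ≥ ρ'`), `S z ≠ 0`.  So `Φ` is `C^1` at `w` and its Jacobian is the product of the three
(see INV for the product rule; chain rule for `fderiv`).
(b) If `w ∉ F '' closedBall 0 ρ'` (compact, hence closed): near `w` we have `Φ w' = w'`, since for
`w' = F z'` with `‖z'‖ > ρ'` we get `S z' = z'`.  So `Φ = id` near `w`, Jacobian `cr 1 I = 1`.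
Every `w ≠ 0` is in case (a) or (b).
`Φ (F (τ ex t)) = F (S (τ ex t)) = F (ex t)` since `σ τ = 1`.  `L₀ := 1 + sup of ‖F‖ on
closedBall 0 ρ'`: if `‖w‖ ≥ L₀` then `w` is in case (b) and `Φ w = w`. -/
def SpecPHI : Prop :=
  ∀ (ρ : ℝ) (h g : ℂ → ℂ), Nice ρ h g → ∀ τ : ℝ, 0 < τ → τ < 1 → ∃ (Φ : ℂ → ℂ) (L₀ : ℝ),
    (∀ w : ℂ, w ≠ 0 → ContDiffAt ℝ 1 Φ w ∧ 0 < cr (fderiv ℝ Φ w 1) (fderiv ℝ Φ w I)) ∧
    (∀ t : ℝ, Φ (Fm h g (τ * ex t)) = Fm h g (ex t)) ∧ ∀ w : ℂ, L₀ ≤ ‖w‖ → Φ w = w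

/-- The linear interpolation between `F(τ e^{it})` and `L e^{it}`. -/
noncomputable def EM (F : ℂ → ℂ) (τ L : ℝ) (P : ℝ × ℝ) : ℂ :=
  P.1 * ex P.2 + ((L - P.1) / (L - τ) : ℝ) * (F (τ * ex P.2) - τ * ex P.2)

/-- **EMB** (150 lines, uses FJP).  `EM F τ L` is a `C^1` immersion with positive Jacobian for small
`τ`.

PROOF.  There is `C ≥ 1` with `‖h'(z) - 1‖ ≤ C ‖z‖`, `‖g'(z)‖ ≤ C ‖z‖`, `‖F z - z‖ ≤ C ‖z‖^2` for
`‖z‖ ≤ 1/2` (`h' - 1`, `g'` are analytic and vanish at `0`; `h z - z` and `g z` vanish to second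
order; e.g. from `isBigO` or from the mean value inequality on the disk `‖z‖ ≤ 1/2`).
`e(t) = F(τ ex t) - τ ex t`, `e'(t) = DF(τ ex t)(I τ ex t) - I τ ex t`, so `‖e‖ ≤ C τ^2`,
`‖e'‖ ≤ 2 C τ^2`.  With `χ = (L-R)/(L-τ) ∈ [0,1]`, `L - τ ≥ 1`:
`∂_R EM = ex t - e/(L-τ)`, `∂_t EM = I R ex t + χ e'`.
`cr (ex t) (I R ex t) = R`, `|cr u v| ≤ ‖u‖ ‖v‖`:
`J ≥ R - 2Cτ² - Cτ² R - 2C²τ⁴ ≥ τ (1 - Cτ²) - 2Cτ² - 2C²τ⁴ > 0` for `R ≥ τ` if `τ ≤ 1/(8C)`.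
`‖EM‖ ≥ R - Cτ² > 0`.  Periodicity is clear from `ex (t+2π) = ex t`. -/
def SpecEMB : Prop :=
  ∀ (ρ : ℝ) (h g : ℂ → ℂ), Nice ρ h g → ∃ τ : ℝ, 0 < τ ∧ τ < 1 ∧ ∀ L : ℝ, 2 ≤ L →
    ∀ P : ℝ × ℝ, τ ≤ P.1 → P.1 ≤ L →
      ContDiffAt ℝ 1 (EM (Fm h g) τ L) P ∧ EM (Fm h g) τ L P ≠ 0 ∧
      0 < cr (fderiv ℝ (EM (Fm h g) τ L) P (1, 0)) (fderiv ℝ (EM (Fm h g) τ L) P (0, 1))

/-- **EXT** (60 lines, uses PHI, EMB).  `Ψ = Φ ∘ EM`.

PROOF.  `τ` from EMB, `Φ, L₀` from PHI for this `τ`, `L = max 2 L₀`.  Chain rule; Jacobian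
`cr (DΦ u) (DΦ v) = cr (DΦ 1) (DΦ I) * cr u v`.  Inner: `EM (τ, t) = F (τ ex t)`.  Outer:
`EM (L, t) = L ex t` has norm `L ≥ L₀`. -/
def SpecEXT : Prop :=
  ∀ (ρ : ℝ) (h g : ℂ → ℂ), Nice ρ h g → ∃ (τ L : ℝ) (Ψ : ℝ × ℝ → ℂ), PsiMap (Fm h g) τ L Ψ

/-- **MSH** (150 lines).  Small, not too thin, positively oriented triangles in the strip are mapped
to positively oriented triangles.

PROOF.  Let `Q = [τ,L] × [0,2π]` (compact, convex); by periodicity we may assume that `P ∈ Q`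
(translate `P` by a multiple of `(0,2π)`; `Ψ`, hence `fderiv Ψ`, is periodic).  On the compact
convex set `Q' = [τ,L] × [-1, 2π+1]` the derivative `DΨ` is uniformly continuous
(`ContDiffAt.continuousAt_fderiv`-type statement at each point, `CompactSpace` uniform
continuity), `‖DΨ‖ ≤ M`, and the Jacobian `J ≥ j > 0`.  Given `ω > 0` there is `η ∈ (0,1)` with
`‖Ψ(P+U) - Ψ P - DΨ(P) U‖ ≤ ω ‖U‖` for `P ∈ Q`, `P+U ∈ Q'`, `‖U‖ < η` (mean value inequality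
`Convex.norm_image_sub_le_of_norm_hasFDerivWithin_le'` on the segment).  Then with `u = DΨ(P) U`,
`v = DΨ(P) V`: `cr u v = J(P) (U.1 V.2 - U.2 V.1) ≥ j c ‖U‖ ‖V‖`, and the error is
`≤ (2 M ω + ω^2) ‖U‖ ‖V‖` (`|cr x y| ≤ ‖x‖ ‖y‖`).  Choose `ω` with `2Mω + ω² < j c`; note that
`‖U‖ ‖V‖ > 0` because `U.1 V.2 - U.2 V.1 > 0`. -/
def SpecMSH : Prop :=
  ∀ (F : ℂ → ℂ) (τ L : ℝ) (Ψ : ℝ × ℝ → ℂ), PsiMap F τ L Ψ → ∀ c : ℝ, 0 < c → ∃ η : ℝ, 0 < η ∧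
    ∀ P U V : ℝ × ℝ, τ ≤ P.1 → P.1 ≤ L → τ ≤ (P + U).1 → (P + U).1 ≤ L → τ ≤ (P + V).1 →
      (P + V).1 ≤ L → ‖U‖ < η → ‖V‖ < η → 0 < U.1 * V.2 - U.2 * V.1 →
      c * (‖U‖ * ‖V‖) ≤ U.1 * V.2 - U.2 * V.1 →
      0 < cr (Ψ (P + U) - Ψ P) (Ψ (P + V) - Ψ P)

/-- **VTX** (150 lines, uses MSH).  The spiral of vertices.

PROOF.  `δ = 2π/N`, `Δ = (L-τ)/N`, `R_i = τ + iΔ`, `W n = Ψ (R_(n/N), -(2π (n%N)/N))`.
`c = 2π(L-τ)/max(L-τ,2π)^2`, `η` from MSH, `N ≥ 3` with `max(L-τ,2π)/N < η`.  All vectors below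
have sup norm `≤ max(Δ,δ)` and cross product `Δδ = c (max(Δ,δ))^2`.
`tri1 n`, `n = iN+j`: base point `p = W (n+N-1)`.
 * `j ≥ 1`: `P = (R_(i+1), -δ(j-1))`, `W (n-1)`: `U = (-Δ, 0)`, `W n`: `V = (-Δ,-δ)`.
 * `j = 0` (`i ≥ 1`): `P = (R_i, -δ(N-1))`, `U = (-Δ,0)` (`W (n-1) = Ψ(R_(i-1), -δ(N-1))`),
   `V = (0,-δ)` (`W n = Ψ(R_i, 0) = Ψ(R_i,-2π)`).
`tri2 n`: base point `p = W (n+N-1)`, `W (n+N-2)` and `W (n-1)`:
 * `j ≥ 2`: `P = (R_(i+1), -δ(j-1))`, `U = (0,δ)`, `V = (-Δ,0)`.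
 * `j = 1`: `P = (R_(i+1), 0)`, `W (n+N-2) = W (iN+N-1) = Ψ(R_i,-δ(N-1)) = Ψ(R_i, δ)`:
   `U = (-Δ,δ)`, `V = (-Δ,0)`.
 * `j = 0` (`i ≥ 1`): `P = (R_i,-δ(N-1))`, `U = (0,δ)`, `V = (-Δ,0)`.
`inner`: `n/N = 0`.  `outer`: `(N*N+n)/N = N`, `R_N = L`. -/
def SpecVTX : Prop :=
  ∀ (F : ℂ → ℂ) (τ L : ℝ) (Ψ : ℝ × ℝ → ℂ), PsiMap F τ L Ψ →
    ∀ᶠ N : ℕ in atTop, ∃ W : ℕ → ℂ, Spiral N F L W

/-! ## 3. The root step map -/

/-- The jump points `ζ_j` (roots of `z^N = -1`). -/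
noncomputable def zt (N j : ℕ) : ℂ := ex (Real.pi * (2 * j + 1) / N)

/-- The numerator polynomial of the step map with values `V j` on the `N` arcs centred at the
`N`-th roots of unity. -/
noncomputable def PN (N : ℕ) (V : ℕ → ℂ) (z : ℂ) : ℂ :=
  I / (2 * Real.pi) * ∑ j ∈ Finset.range N, (V (j + 1) - V j) *
    ∑ l ∈ Finset.range N, z ^ l * zt N j ^ (N - 1 - l)

/-- The boundary values. -/
noncomputable def Vr (N : ℕ) (F : ℂ → ℂ) (j : ℕ) : ℂ := F (ex (2 * Real.pi * j / N))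

/-- **RTM** (100 lines).  One Fourier mode.

PROOF.  `u = zt N 0 = ex (π/N)`, `ω = u^2 = ex (2π/N)`, `zt N j = u ω^j`, `u^N = -1`.
`V (j+1) - V j = ω^(jk) (ω^k - 1)`.  `∑_j ω^(jk) ∑_l z^l (u ω^j)^(N-1-l) =
∑_l z^l u^(N-1-l) ∑_j (ω^(k+N-1-l))^j`, and the inner sum is `N` if `N ∣ k+N-1-l`, i.e.
`l = k-1` (`0 ≤ l ≤ N-1`, `1 ≤ k ≤ N`), and `0` otherwise (geometric sum of an `N`-th root of unity
`≠ 1`).  So the sum is `N z^(k-1) u^(N-k)`, and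
`(ω^k - 1) u^(N-k) = (u^k - u^(-k)) u^N = -2 I sin(πk/N)`.  Together
`I/(2π) * N * (-2 I sin(πk/N)) z^(k-1) = (N/π) sin(πk/N) z^(k-1)`. -/
def SpecRTM : Prop :=
  ∀ (N k : ℕ), 1 ≤ k → k ≤ N → ∀ z : ℂ,
    PN N (fun j => ex (2 * Real.pi * j / N) ^ k) z =
      (N / Real.pi * Real.sin (Real.pi * k / N) : ℝ) * z ^ (k - 1)

/-- **RTE** (180 lines, uses RTM).  The numerator is uniformly close to
`h'(z) + z^(N-2) conj (g'(z))` on the unit circle, with limits of the interior values.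

PROOF.  `h z = ∑ a_m z^m`, `g z = ∑ b_m z^m` on `|z| < ρ`, with `∑ m (‖a_m‖ + ‖b_m‖) < ∞`
(coefficients `O(s^(-m))` for some `1 < s < ρ`).  For `|ω| = 1`, `ω^N = 1`, `V_j = F(ω^j) =
∑ a_m (ω^j)^m + ∑ conj(b_m) (ω^j)^(-m)`.  `PN` is linear in `V` (finite sums commute with `tsum`).
Mode `m ≥ 1`: `(ω^j)^m = (ω^j)^k` with `k = (m-1)%N + 1 ∈ [1,N]`; mode `-m`:
`(ω^j)^(-m) = (ω^j)^(k')` with `k' = N - m%N ∈ [1,N]`; the mode `0` has `V` constant and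
contributes `0`.  By RTM
`PN z = ∑_{m≥1} a_m μ_N(k) z^(k-1) + ∑_{m≥1} conj(b_m) μ_N(k') z^(k'-1)`, `μ_N(k) = (N/π)
sin(πk/N)`, `0 ≤ μ_N(k) ≤ min(k, N-k) ≤ m` resp. `μ_N(k') ≤ m%N ≤ m`.  For fixed `m` and `N > m`:
`k = m`, `k' = N-m`, `μ_N(k) = μ_N(k') = (N/π) sin(πm/N) → m`.  On `|z| = 1`:
`z^(N-2) conj(z^(m-1)) = z^(N-m-1)` (`N ≥ m+1`), so the difference to
`h'(z) + z^(N-2) conj(g'(z)) = ∑ m a_m z^(m-1) + ∑ conj(b_m) m z^(N-2) conj(z)^(m-1)` is bounded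
by `∑ (‖a_m‖+‖b_m‖) ε_(N,m)`, where `ε_(N,m) = |μ_N(m) - m|` for `N > m` and `≤ 2m` always.
Tannery's theorem (`tendsto_tsum_of_dominated_convergence`) gives the uniform limit `0`.  -/
def SpecRTE : Prop :=
  ∀ (ρ : ℝ) (h g : ℂ → ℂ), 1 < ρ → DifferentiableOn ℂ h (Metric.ball (0 : ℂ) ρ) →
    DifferentiableOn ℂ g (Metric.ball (0 : ℂ) ρ) → ∀ ε : ℝ, 0 < ε → ∀ᶠ N : ℕ in atTop,
      ∀ z : ℂ, ‖z‖ = 1 → ‖PN N (Vr N (Fm h g)) z -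
        (deriv h z + z ^ (N - 2) * starRingEnd ℂ (deriv g z))‖ ≤ ε

/-- **RTZ** (80 lines, uses RTE).  The numerator has no zero in the closed unit disk.

PROOF.  `m = min over |z| = 1 of (‖h'‖ - ‖g'‖) > 0` (compactness), `ε = m/2`.  For `N` from RTE
and `|z| = 1`: `‖PN z - h' z‖ ≤ ‖g' z‖ + m/2 ≤ ‖h' z‖ - m/2`, so
`‖(PN z - h' z)/h' z‖ ≤ 1 - m/(2M)`, `M = max ‖h'‖` on the circle.  `(PN - h')/h'` is analytic on
a neighbourhood of the closed disk (`h' ≠ 0` on the ball of radius `ρ`; `PN` is a polynomial), so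
by the maximum principle (`Complex.norm_le_of_forall_mem_frontier_norm_le`) it is `< 1` in norm on
the closed disk, hence `PN z ≠ 0`. -/
def SpecRTZ : Prop :=
  ∀ (ρ : ℝ) (h g : ℂ → ℂ), Nice ρ h g → ∀ᶠ N : ℕ in atTop,
    ∀ z : ℂ, ‖z‖ ≤ 1 → PN N (Vr N (Fm h g)) z ≠ 0

/-- The poles of the root piece in the half plane coordinate `ξ`:
`z = ζ_0 (ξ - I)/(ξ + I)`, the pole `ζ_0` (the gate) is sent to `∞`. -/
noncomputable def dn (N i : ℕ) : ℝ :=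
  Real.cos (Real.pi * (i + 1) / N) / Real.sin (Real.pi * (i + 1) / N)

/-- **RTC** (150 lines).  Change of variables: if the numerator has no zero in the closed disk, the
function of the root piece has no zero in the closed upper half plane.

PROOF.  `W i = V (N - i)`.  With `j = N-1-i` (`1 ≤ j ≤ N-1` for `0 ≤ i ≤ N-2`):
`W i - W (i+1) = V (j+1) - V j =: D_j` and `dn N i = cot(π(N-j)/N) = -cot(πj/N) =: ξ_j`.
`ζ_j = ζ_0 ω^j`, `ω^j = (ξ_j - I)/(ξ_j + I)`.  For `Im ξ ≥ 0`, `z = ζ_0 (ξ-I)/(ξ+I)` has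
`‖z‖ ≤ 1`, and `1/(z - ζ_j) = (ξ+I)^2/(2 I ζ_0) * 1/(ξ - ξ_j) - (ξ+I)/(2 I ζ_0)` (`j ≥ 1`),
`1/(z - ζ_0) = -(ξ+I)/(2 I ζ_0)`.  Since `∑_{j<N} D_j = V N - V 0 = 0`:
`∑_{j<N} D_j/(z-ζ_j) = (ξ+I)^2/(2 I ζ_0) ∑_{j=1}^{N-1} D_j/(ξ-ξ_j)`.  Multiply by `1+z^N`:
`(1+z^N)/(z-ζ_j) = (z^N - ζ_j^N)/(z-ζ_j) = ∑_l z^l ζ_j^(N-1-l)` so
`(1+z^N) ∑_j D_j/(z-ζ_j) = PN z * (2π/I) ≠ 0`.  (`ξ ≠ ξ_j` means `z ≠ ζ_j`; `z = ζ_0` is
impossible.) -/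
def SpecRTC : Prop :=
  ∀ (N : ℕ) (V : ℕ → ℂ), 2 ≤ N → V N = V 0 → (∀ z : ℂ, ‖z‖ ≤ 1 → PN N V z ≠ 0) →
    ∀ ξ : ℂ, 0 ≤ ξ.im → (∀ i, i < N - 1 → ξ ≠ (dn N i : ℂ)) →
      ∑ i ∈ Finset.range (N - 1), (V (N - i) - V (N - (i + 1))) / (ξ - dn N i) ≠ 0

/-- The two Fourier coefficients. -/
noncomputable def C1 (N : ℕ) (V : ℕ → ℂ) : ℂ :=
  ∑ j ∈ Finset.range N, V j * ex (-(2 * Real.pi * j / N))

/-- See `C1`. -/
noncomputable def C2 (N : ℕ) (V : ℕ → ℂ) : ℂ :=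
  ∑ j ∈ Finset.range N, V j * ex (-(4 * Real.pi * j / N))

/-- **RTD** (100 lines).  Values at the centre `ξ = I`, for an arbitrary periodic sequence `V`.

PROOF.  Notation of RTC.  `1/(I-ξ_j) = (1 - ω^(-j))/(2 I)` and
`1/(I-ξ_j) - I/(I-ξ_j)^2 = -(I/4)(1 - ω^(-2j))` (with `w = 1-ω^(-j)`: `w/(2I) + I w^2/4 =
(I/4) w (w-2)`).  Sum with weights `D_j` over `1 ≤ j ≤ N-1` (the term `j = 0` is `0`), `∑ D_j = 0`:
`∑ D_j/(I-ξ_j) = (I/2) ∑_{j<N} D_j ω^(-j)`, second sum `= (I/4) ∑_{j<N} D_j ω^(-2j)`.  Abel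
summation (shift `j`, `V N = V 0`, `ω^N = 1`): `∑_{j<N} (V (j+1) - V j) ω^(-j) = (ω - 1) C1`,
`∑ (V (j+1) - V j) ω^(-2j) = (ω^2 - 1) C2`. -/
def SpecRTD : Prop :=
  ∀ (N : ℕ) (V : ℕ → ℂ), 2 ≤ N → V N = V 0 →
    ∑ i ∈ Finset.range (N - 1), (V (N - i) - V (N - (i + 1))) / (I - dn N i) =
      I / 2 * ((ex (2 * Real.pi / N) - 1) * C1 N V) ∧
    ∑ i ∈ Finset.range (N - 1), (V (N - i) - V (N - (i + 1))) / (I - dn N i) -
      I * ∑ i ∈ Finset.range (N - 1), (V (N - i) - V (N - (i + 1))) / (I - dn N i) ^ 2 =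
      I / 4 * ((ex (2 * Real.pi / N) ^ 2 - 1) * C2 N V)

/-- **RTL** (120 lines).  Riemann sums for the first two coefficients.

PROOF.  `(1/N) ∑_j f(ω^j) (ω^j)^(-m)` are Riemann sums: with the expansions of RTE and
`∑_j (ω^j)^l = N` if `N ∣ l`, `0` otherwise, the left side is the sum of the coefficients of
index `≡ m mod N` of the Laurent-type expansion `∑ a_l z^l + ∑ conj(b_l) z^(-l)`, and tends to the
coefficient `m` (dominated convergence).  (Or: uniform continuity of `f` on the circle, Riemann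
sums of continuous functions tend to the circle integral, Cauchy formula.)  `m = 1`:
`h'(0)`; `m = 2`: `h''(0)/2`. -/
def SpecRTL : Prop :=
  ∀ (ρ : ℝ) (h g : ℂ → ℂ), 1 < ρ → DifferentiableOn ℂ h (Metric.ball (0 : ℂ) ρ) →
    DifferentiableOn ℂ g (Metric.ball (0 : ℂ) ρ) →
    Tendsto (fun N : ℕ => C1 N (Vr N (Fm h g)) / N) atTop (𝓝 (deriv h 0)) ∧
    Tendsto (fun N : ℕ => C2 N (Vr N (Fm h g)) / N) atTop (𝓝 (deriv (deriv h) 0 / 2))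

/-! ## 4. Assembly -/

/-- **FIN** (200 lines, uses GLU, RTC, RTD, TiedBound).  Glue the root at the gate `W (N-1) | W 0` and let
the gluing parameter tend to `0`.

PROOF.  `K = N*N+N-1`, `V` with `V N = V 0`, `W i = V (N-i)` for `i < N`.  Data `κ,a,b,τ` of
`Gate K (N-1) 0 W`.  GLU with `s = (Ico (N-1) K).disjSum (Ico 0 K)`, `c = Sum.elim a b`, residues
as in STP, `ρ = W 0 - W (N-1)` (this is `≠ 0`: `N ≥ 3`, hypothesis), `s' = range (N-1)`,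
`d = dn N` (strictly decreasing in `i`: cot), `q_i = W i - W (i+1)`, telescoping sum
`W 0 - W (N-1) = ρ`; second nonvanishing hypothesis = RTC.  So for all small `ε > 0`, with
`a' i = if i < N-1 then τ + ε dn N i else a i`, `r i = W i - W (i+1)`:
`Tied K κ a' b r` (order: `a j < τ + ε dn N i < b k` for small `ε`, finitely many conditions).
`TiedBound` at `z = τ + ε I` (`z.im = ε`): `‖HU + I ε HU'‖ ≤ 3 ‖HU‖`; multiply by `ε`.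
As `ε → 0+`: `ε HU(τ+εI) → ∑_{i<N-1} (r_i + u conj r_i)/(I - dn N i)` and
`ε^2 HU'(τ+εI) → -∑_{i<N-1} (r_i + u conj r_i)/(I - dn N i)^2` (the other terms are bounded:
`τ` is not a pole of them).  Now RTD for `V^u j = V j + u conj (V j)`. -/
def SpecFIN : Prop :=
  TiedBound → ∀ (N : ℕ) (W V : ℕ → ℂ), 3 ≤ N → V N = V 0 → (∀ i, i < N → W i = V (N - i)) →
    (∀ i, i < N * N + N - 1 → W i ≠ W (i + 1)) → W 0 ≠ W (N - 1) →
    Gate (N * N + N - 1) (N - 1) 0 W → (∀ z : ℂ, ‖z‖ ≤ 1 → PN N V z ≠ 0) →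
    ∀ u : ℂ, ‖u‖ = 1 →
      ‖(ex (2 * Real.pi / N) ^ 2 - 1) * C2 N (fun j => V j + u * starRingEnd ℂ (V j))‖ ≤
        6 * ‖(ex (2 * Real.pi / N) - 1) * C1 N (fun j => V j + u * starRingEnd ℂ (V j))‖

/-- **NCE** (150 lines, uses IND, EXT, VTX, RTZ, RTL, FIN).  The bound for nice maps.

PROOF.  EXT, VTX: for all large `N` a spiral `W`; `V = Vr N F`; `V N = V 0`,
`W i = F(ex(-2πi/N)) = V (N-i)`.  `W 0 ≠ W (N-1)`: they are `F` of two different points of the unit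
circle (injectivity).  IND gives the gate.  RTZ gives the numerator.  FIN gives the inequality for
all large `N`.  Divide by `N |ω-1|`, `ω = ex (2π/N)`: `|ω+1| ‖C2^u/N‖ ≤ 6 ‖C1^u/N‖`.  By RTL for
`(h,g)` and for `(g,h)` (`conj F = g + conj h`, so `C1 N (conj V)` belongs to `Fm g h`):
`C1^u/N → h'(0) + u g'(0)`, `C2^u/N → (h''(0) + u g''(0))/2`, `|ω+1| → 2`. -/
def SpecNCE : Prop :=
  TiedBound → ∀ (ρ : ℝ) (h g : ℂ → ℂ), Nice ρ h g → ∀ u : ℂ, ‖u‖ = 1 →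
    ‖deriv (deriv h) 0 + u * deriv (deriv g) 0‖ ≤ 6 * ‖deriv h 0 + u * deriv g 0‖

/-- **NRM** (200 lines, uses NCE).  Removal of the normalisation.

PROOF.  Let `h, g` be as in `SliceBound`, `0 < r < 1`.  Put `A = deriv h 0`, `B = deriv g 0`,
`J = |A|^2 - |B|^2 > 0`, `α = conj A/J`, `β = -conj B/J`, `L w = α w + β conj w`.  Then
`L f = (α h + β g) + conj (conj α g + conj β h)` for `f = h + conj g`, and `α A + β B = 1`,
`conj α B + conj β A = 0`.  `ĥ z = (α (h (r z) - h 0) + β (g (r z) - g 0))/r`,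
`ĝ z = (conj α (g (r z) - g 0) + conj β (h (r z) - h 0))/r`: differentiable on `ball 0 (1/r)`,
`ĥ 0 = ĝ 0 = 0`, `ĥ'(0) = 1`, `ĝ'(0) = 0`;
`|α x + β y|^2 - |conj α y + conj β x|^2 = (|α|^2-|β|^2)(|x|^2-|y|^2)` and
`|α|^2 - |β|^2 = 1/J > 0`; injectivity: `L` is injective and `Fm ĥ ĝ z = L (f (r z) - f 0)/r`.
So `Nice (1/r) ĥ ĝ`.  Given `u`, put `û = (u α - β)/(conj α - u conj β)` (`|û| = 1` since
`|conj α - u conj β| = |α - conj u β| = |u α - β|`, `≠ 0` as `|β| < |α|`).  Then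
`β + û conj α = u (α + û conj β)` and `ĥ + û ĝ` has derivative coefficients
`(α + û conj β)(h' + u g')` at `0` and `r (α + û conj β)(h'' + u g'')` for the second derivative.
`α + û conj β ≠ 0`.  NCE gives `r ‖h''(0) + u g''(0)‖ ≤ 6 ‖h'(0) + u g'(0)‖`; let `r → 1`. -/
def SpecNRM : Prop := TiedBound → SliceBound

end Pool.Agent.Lib.MP4cd976.D
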