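import Mathlib

section
/-!
# A one-pole inequality

Analytic part of the covering theorem for harmonic mappings that are starlike in one direction.
-/
set_option autoImplicit false

open Complex Metric Set Filter Topology

namespace Pool.Agent.Lib.MP4cd976

/-- Caratheodory coefficient inequality, up to the boundary. -/
theorem norm_deriv_le_two_re {Z : ℂ → ℂ} (hd : DiffContOnCl ℂ Z (ball 0 1))
    (hre : ∀ z ∈ sphere (0 : ℂ) 1, 0 ≤ (Z z).re) : ‖deriv Z 0‖ ≤ 2 * (Z 0).re := by
  have hin : ∀ z ∈ closedBall (0 : ℂ) 1, 0 ≤ (Z z).re := by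
    intro z hz
    have hE : DiffContOnCl ℂ (fun z => Complex.exp (-(Z z))) (ball 0 1) :=
      (Complex.differentiable_exp.comp_diffContOnCl hd.neg)
    have := Complex.norm_le_of_forall_mem_frontier_norm_le (U := ball (0 : ℂ) 1)
      isBounded_ball hE (C := 1) (by
        intro y hy
        rw [frontier_ball (0 : ℂ) one_ne_zero] at hy
        have := hre y hy
        rw [Complex.norm_exp]
        simpa using this) (z := z) (by rwa [closure_ball (0 : ℂ) one_ne_zero])
    rw [Complex.norm_exp] at this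
    have h2 : (-(Z z)).re ≤ 0 := by
      by_contra hcon
      push Not at hcon
      have := Real.add_one_lt_exp hcon.ne'
      linarith
    simpa using h2
  have hdiff : DifferentiableOn ℂ Z (ball 0 1) := hd.differentiableOn
  have hZ0 : DifferentiableAt ℂ Z 0 :=
    hdiff.differentiableAt (isOpen_ball.mem_nhds (mem_ball_self one_pos))
  refine le_of_forall_pos_le_add fun ε hε => ?_
  set M : ℝ := (Z 0).re + ε / 2 with hM
  have hMpos : 0 < M := by
    have := hin 0 (by simp)
    linarith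
  set f : ℂ → ℂ := fun z => Z 0 - Z z with hf
  have hfd : DifferentiableOn ℂ f (ball 0 1) := by
    intro z hz
    exact ((differentiableWithinAt_const _).sub (hdiff z hz))
  have hmaps : Set.MapsTo f (ball 0 1) {z | z.re ≤ M} := by
    intro z hz
    have := hin z (ball_subset_closedBall hz)
    simp only [hf, Set.mem_ofPred_eq, Complex.sub_re]
    linarith
  have hbound : ∀ z ∈ ball (0 : ℂ) 1, ‖f z‖ ≤ 2 * M * ‖z‖ / (1 - ‖z‖) := fun z hz =>
    Complex.borelCaratheodory_zero hMpos hfd hmaps one_pos hz (by simp [hf])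
  have hder : HasDerivAt f (-(deriv Z 0)) 0 := by
    exact hZ0.hasDerivAt.const_sub (Z 0)
  have hslope : Tendsto (slope f 0) (𝓝[≠] 0) (𝓝 (-(deriv Z 0))) := hasDerivAt_iff_tendsto_slope.mp hder
  have hn : Tendsto (fun z => ‖slope f 0 z‖) (𝓝[≠] 0) (𝓝 ‖-(deriv Z 0)‖) := hslope.norm
  have hr : Tendsto (fun z : ℂ => 2 * M / (1 - ‖z‖)) (𝓝[≠] 0) (𝓝 (2 * M / (1 - ‖(0 : ℂ)‖))) := by
    have : ContinuousAt (fun z : ℂ => 2 * M / (1 - ‖z‖)) 0 := by
      apply ContinuousAt.div
      · fun_prop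
      · fun_prop
      · simp
    exact this.tendsto.mono_left nhdsWithin_le_nhds
  have hle : ‖-(deriv Z 0)‖ ≤ 2 * M / (1 - ‖(0 : ℂ)‖) := by
    refine le_of_tendsto_of_tendsto hn hr ?_
    have hmem : ball (0 : ℂ) 1 ∈ 𝓝[≠] (0 : ℂ) :=
      nhdsWithin_le_nhds (isOpen_ball.mem_nhds (mem_ball_self one_pos))
    filter_upwards [hmem, self_mem_nhdsWithin] with z hz hz0
    have hz0' : z ≠ 0 := hz0
    have hznorm : 0 < ‖z‖ := norm_pos_iff.mpr hz0'
    have hb := hbound z hz
    have hz1 : ‖z‖ < 1 := by simpa using hz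
    have : slope f 0 z = f z / z := by
      simp [slope_def_field, hf]
    rw [this, norm_div, div_le_iff₀ hznorm]
    calc ‖f z‖ ≤ 2 * M * ‖z‖ / (1 - ‖z‖) := hb
      _ = 2 * M / (1 - ‖z‖) * ‖z‖ := by ring
  rw [norm_neg] at hle
  simp only [norm_zero, sub_zero, div_one] at hle
  linarith

/-- The signed version: if `σ Re Z ≥ 0` on the unit circle then `|Z'(0)| ≤ 2 |Z(0)|`. -/
theorem norm_deriv_le_two_norm {Z : ℂ → ℂ} (hd : DiffContOnCl ℂ Z (ball 0 1)) (σ : ℝ)
    (hσ : σ = 1 ∨ σ = -1)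
    (hre : ∀ z ∈ sphere (0 : ℂ) 1, 0 ≤ σ * (Z z).re) : ‖deriv Z 0‖ ≤ 2 * ‖Z 0‖ := by
  rcases hσ with rfl | rfl
  · have := norm_deriv_le_two_re hd (by simpa using hre)
    exact this.trans (by gcongr; exact Complex.re_le_norm _)
  · have h := norm_deriv_le_two_re (Z := fun z => -(Z z)) hd.neg (by
      intro z hz
      have := hre z hz
      simpa using this)
    have hder : deriv (fun z => -(Z z)) 0 = -(deriv Z 0) := by
      simp
    rw [hder, norm_neg] at h
    refine h.trans ?_
    have : (-(Z 0)).re ≤ ‖Z 0‖ := by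
      calc (-(Z 0)).re ≤ ‖-(Z 0)‖ := Complex.re_le_norm _
        _ = ‖Z 0‖ := norm_neg _
    linarith

/-- Auxiliary elementary identity. -/
theorem one_sub_exp (t : ℝ) :
    1 - Complex.exp (t * I) = -2 * I * (Real.sin (t / 2) : ℂ) * Complex.exp ((t / 2 : ℝ) * I) := by
  have h1 : (Real.sin (t / 2) : ℂ) =
      (Complex.exp (-((t / 2 : ℝ) : ℂ) * I) - Complex.exp (((t / 2 : ℝ) : ℂ) * I)) * I / 2 := by
    rw [Complex.ofReal_sin, Complex.sin]
  rw [h1]
  have h2 : Complex.exp (-((t / 2 : ℝ) : ℂ) * I) * Complex.exp (((t / 2 : ℝ) : ℂ) * I) = 1 := by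
    rw [← Complex.exp_add]; simp
  have h3 : Complex.exp (((t / 2 : ℝ) : ℂ) * I) * Complex.exp (((t / 2 : ℝ) : ℂ) * I)
      = Complex.exp (t * I) := by
    rw [← Complex.exp_add]
    congr 1
    push_cast
    ring
  have hI : I * I = -1 := Complex.I_mul_I
  calc 1 - Complex.exp (t * I)
      = Complex.exp (-((t / 2 : ℝ) : ℂ) * I) * Complex.exp (((t / 2 : ℝ) : ℂ) * I)
        - Complex.exp (((t / 2 : ℝ) : ℂ) * I) * Complex.exp (((t / 2 : ℝ) : ℂ) * I) := by
          rw [h2, h3]
    _ = -(I * I) * ((Complex.exp (-((t / 2 : ℝ) : ℂ) * I) - Complex.exp (((t / 2 : ℝ) : ℂ) * I))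
        * Complex.exp (((t / 2 : ℝ) : ℂ) * I)) := by rw [hI]; ring
    _ = _ := by ring

/-- Data of the one-pole problem: a primitive `M` of `(F - w)/(1 - z)^2`, vanishing at `0`, on the
disc of radius `R > 1` cut along `[1, R)`, together with the continuity of `(1 - z) M` up to the
closed unit disc. -/
theorem exists_primitive {F : ℂ → ℂ} {R : ℝ} (hR : 1 < R) (hF : DifferentiableOn ℂ F (ball 0 R))
    (w : ℂ) :
    ∃ M : ℂ → ℂ, M 0 = 0 ∧
      (∀ z ∈ ball (0 : ℂ) R, 1 - z ∈ slitPlane → HasDerivAt M ((F z - w) / (1 - z) ^ 2) z) ∧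
      ∃ W : ℂ → ℂ, DiffContOnCl ℂ W (ball 0 1) ∧ ∀ z, z ≠ 1 → W z = (1 - z) * M z := by
  have h1 : (1 : ℂ) ∈ ball (0 : ℂ) R := by simpa using hR
  have hnhds : ball (0 : ℂ) R ∈ 𝓝 (1 : ℂ) := isOpen_ball.mem_nhds h1
  set c : ℂ := deriv F 1 with hc
  set E : ℂ → ℂ := dslope (dslope F 1) 1 with hE
  have hEd : DifferentiableOn ℂ E (ball 0 R) := by
    rw [hE, Complex.differentiableOn_dslope hnhds, Complex.differentiableOn_dslope hnhds]
    exact hF
  have hFE : ∀ z, F z = F 1 + (z - 1) * c + (z - 1) ^ 2 * E z := by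
    intro z
    have e1 : (z - 1) * dslope F 1 z = F z - F 1 := by
      simpa [smul_eq_mul] using sub_smul_dslope F 1 z
    have e2 : (z - 1) * E z = dslope F 1 z - c := by
      have := sub_smul_dslope (dslope F 1) 1 z
      simpa [smul_eq_mul, hE, hc, dslope_same] using this
    linear_combination (-1 : ℂ) * e1 - (z - 1) * e2
  obtain ⟨P, hP⟩ := hEd.isExactOn_ball
  set M : ℂ → ℂ := fun z => (F 1 - w) * (1 / (1 - z) - 1) + c * Complex.log (1 - z) + (P z - P 0)
    with hM
  have hslit0 : (1 : ℂ) - 0 ∈ slitPlane := by simp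
  refine ⟨M, by simp [hM], ?_, ?_⟩
  · intro z hz hs
    have hne : (1 : ℂ) - z ≠ 0 := slitPlane_ne_zero hs
    have hd1 : HasDerivAt (fun z : ℂ => 1 - z) (-1) z := by
      simpa using (hasDerivAt_id z).const_sub 1
    have hd2 : HasDerivAt (fun z : ℂ => 1 / (1 - z)) (1 / (1 - z) ^ 2) z := by
      have := hd1.fun_inv hne
      simpa [one_div] using this
    have hd3 : HasDerivAt (fun z : ℂ => Complex.log (1 - z)) (-1 / (1 - z)) z := hd1.clog hs
    have hd4 : HasDerivAt P (E z) z := hP z hz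
    have := (((hd2.sub_const 1).const_mul (F 1 - w)).add (hd3.const_mul c)).add
      (hd4.sub_const (P 0))
    refine this.congr_deriv ?_
    rw [hFE z]
    field_simp
    ring
  · set W : ℂ → ℂ := fun z => (F 1 - w) * z + c * ((1 - z) * Complex.log (1 - z))
      + (1 - z) * (P z - P 0) with hW
    refine ⟨W, ?_, ?_⟩
    · have hPcont : ContinuousOn P (closedBall 0 1) := by
        intro z hz
        have hzR : z ∈ ball (0 : ℂ) R := by
          have : ‖z‖ ≤ 1 := by simpa using hz
          simpa using this.trans_lt hR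
        exact (hP z hzR).continuousAt.continuousWithinAt
      have hxlog : ContinuousOn (fun z : ℂ => (1 - z) * Complex.log (1 - z)) (closedBall 0 1) := by
        intro z hz
        by_cases h : z = 1
        · subst h
          have key : Tendsto (fun y : ℂ => y * Complex.log y) (𝓝 0) (𝓝 0) := by
            have hb : ∀ y : ℂ, ‖y * Complex.log y‖ ≤ |‖y‖ * Real.log ‖y‖| + ‖y‖ * Real.pi := by
              intro y
              rw [norm_mul]
              have : ‖Complex.log y‖ ≤ |Real.log ‖y‖| + Real.pi := by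
                calc ‖Complex.log y‖ ≤ |(Complex.log y).re| + |(Complex.log y).im| :=
                      Complex.norm_le_abs_re_add_abs_im _
                  _ ≤ _ := by
                      rw [Complex.log_re, Complex.log_im]
                      gcongr
                      exact Complex.abs_arg_le_pi y
              calc ‖y‖ * ‖Complex.log y‖ ≤ ‖y‖ * (|Real.log ‖y‖| + Real.pi) := by gcongr
                _ = _ := by rw [abs_mul, abs_of_nonneg (norm_nonneg y)]; ring
            refine squeeze_zero_norm hb ?_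
            have hc1 : Continuous (fun y : ℂ => |‖y‖ * Real.log ‖y‖| + ‖y‖ * Real.pi) := by
              have := Real.continuous_mul_log
              have h2 : Continuous (fun y : ℂ => ‖y‖ * Real.log ‖y‖) :=
                this.comp continuous_norm
              fun_prop
            have := hc1.tendsto 0
            simpa using this
          have h0 : Tendsto (fun z : ℂ => 1 - z) (𝓝 1) (𝓝 0) := by
            have : Continuous (fun z : ℂ => 1 - z) := by fun_prop
            simpa using this.tendsto 1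
          have : ContinuousAt (fun z : ℂ => (1 - z) * Complex.log (1 - z)) 1 := by
            have h := key.comp h0
            unfold ContinuousAt
            simp only [sub_self, zero_mul]
            exact h
          exact this.continuousWithinAt
        · have hre : 0 < (1 - z).re := by
            have hz1 : ‖z‖ ≤ 1 := by simpa using hz
            have h1 : z.re ≤ 1 := (Complex.re_le_norm z).trans hz1
            rcases h1.lt_or_eq with h2 | h2
            · simp; exact h2
            · exfalso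
              apply h
              have h3 : z.im = 0 := by
                have : z.re ^ 2 + z.im ^ 2 ≤ 1 := by
                  have := Complex.sq_norm z
                  rw [Complex.normSq_apply] at this
                  nlinarith [norm_nonneg z]
                nlinarith
              exact Complex.ext (by simpa using h2) (by simpa using h3)
          have hs : 1 - z ∈ slitPlane := Or.inl hre
          have : ContinuousAt (fun z : ℂ => (1 - z) * Complex.log (1 - z)) z := by
            have hc1 : ContinuousAt (fun z : ℂ => 1 - z) z := by fun_prop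
            exact hc1.mul (hc1.clog hs)
          exact this.continuousWithinAt
      refine ⟨?_, ?_⟩
      · intro z hz
        have hz1 : ‖z‖ < 1 := by simpa using hz
        have hzR : z ∈ ball (0 : ℂ) R := by simpa using hz1.trans hR
        have hre : 0 < (1 - z).re := by
          have : z.re < 1 := (Complex.re_le_norm z).trans_lt hz1
          simpa using this
        have hs : 1 - z ∈ slitPlane := Or.inl hre
        have hd1 : DifferentiableAt ℂ (fun z : ℂ => 1 - z) z := by fun_prop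
        have hd2 : DifferentiableAt ℂ (fun z : ℂ => Complex.log (1 - z)) z := hd1.clog hs
        have hd3 : DifferentiableAt ℂ P z := (hP z hzR).differentiableAt
        have : DifferentiableAt ℂ W z := by
          simp only [hW]
          fun_prop
        exact this.differentiableWithinAt
      · rw [closure_ball (0 : ℂ) one_ne_zero]
        simp only [hW]
        fun_prop
    · intro z hz
      have hne : (1 : ℂ) - z ≠ 0 := sub_ne_zero.mpr (Ne.symm hz)
      simp only [hW, hM]
      field_simp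
      ring

/-- The real part of the primitive `M` on the unit circle has the expected derivative. -/
theorem hasDerivAt_q {F M : ℂ → ℂ} {R : ℝ} (hR : 1 < R) {w : ℂ}
    (hM : ∀ z ∈ ball (0 : ℂ) R, 1 - z ∈ slitPlane → HasDerivAt M ((F z - w) / (1 - z) ^ 2) z)
    {t : ℝ} (ht : t ∈ Ioo 0 (2 * Real.pi)) :
    HasDerivAt (fun t : ℝ => -2 * (M (Complex.exp (t * I))).re)
      (-(F (Complex.exp (t * I)) - w).im / (2 * Real.sin (t / 2) ^ 2)) t := by
  have hsin : 0 < Real.sin (t / 2) :=
    Real.sin_pos_of_pos_of_lt_pi (by linarith [ht.1]) (by linarith [ht.2])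
  set z : ℂ := Complex.exp (t * I) with hz
  have hz1 : ‖z‖ = 1 := by simp [hz, Complex.norm_exp]
  have hzR : z ∈ ball (0 : ℂ) R := by simpa [hz1] using hR
  have hone : (1 - z).re = 2 * Real.sin (t / 2) ^ 2 := by
    have : z.re = Real.cos t := by rw [hz]; exact Complex.exp_ofReal_mul_I_re t
    rw [Complex.sub_re, this, Complex.one_re]
    have := Real.cos_sq (t / 2)
    have h2 := Real.sin_sq_add_cos_sq (t / 2)
    have h3 : 2 * (t / 2) = t := by ring
    rw [h3] at this
    linarith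
  have hs : 1 - z ∈ slitPlane := Or.inl (by rw [hone]; positivity)
  have hd : HasDerivAt M ((F z - w) / (1 - z) ^ 2) z := hM z hzR hs
  have he : HasDerivAt (fun t : ℝ => Complex.exp (t * I)) (z * I) t := by
    have h1 : HasDerivAt (fun t : ℝ => (t : ℂ) * I) I t := by
      simpa using (Complex.ofRealCLM.hasDerivAt (x := t)).mul_const I
    simpa [hz] using h1.cexp
  have hcomp : HasDerivAt (fun t : ℝ => M (Complex.exp (t * I)))
      ((F z - w) / (1 - z) ^ 2 * (z * I)) t := hd.comp t he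
  have hre0 : HasDerivAt (fun t : ℝ => (M (Complex.exp (t * I))).re)
      (((F z - w) / (1 - z) ^ 2 * (z * I))).re t := by
    exact Complex.reCLM.hasFDerivAt.comp_hasDerivAt t hcomp
  have hre := hre0.const_mul (-2 : ℝ)
  refine hre.congr_deriv ?_
  have hkey : z / (1 - z) ^ 2 = -1 / (4 * (Real.sin (t / 2) : ℂ) ^ 2) := by
    have h1 := one_sub_exp t
    rw [← hz] at h1
    have h2 : Complex.exp ((t / 2 : ℝ) * I) ^ 2 = z := by
      rw [hz, ← Complex.exp_nat_mul]
      congr 1
      push_cast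
      ring
    have hz0 : z ≠ 0 := Complex.exp_ne_zero _
    have hsc : (Real.sin (t / 2) : ℂ) ≠ 0 := by exact_mod_cast hsin.ne'
    rw [h1]
    have : (-2 * I * (Real.sin (t / 2) : ℂ) * Complex.exp ((t / 2 : ℝ) * I)) ^ 2
        = -4 * (Real.sin (t / 2) : ℂ) ^ 2 * z := by
      rw [mul_pow, h2, mul_pow, mul_pow, Complex.I_sq]
      ring
    rw [this]
    field_simp
  have h3 : (F z - w) / (1 - z) ^ 2 * (z * I) = (F z - w) * (z / (1 - z) ^ 2) * I := by ring
  rw [h3, hkey]
  have h4 : (F z - w) * (-1 / (4 * (Real.sin (t / 2) : ℂ) ^ 2)) * I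
      = ((-1 / (4 * Real.sin (t / 2) ^ 2) : ℝ) : ℂ) * ((F z - w) * I) := by
    push_cast; ring
  rw [h4, Complex.re_ofReal_mul]
  have h5 : ((F z - w) * I).re = -(F z - w).im := by simp
  rw [h5]
  field_simp
  ring

/-- Main one-pole inequality in terms of the sign of `q`. -/
theorem norm_deriv_le_of_sign {F M W : ℂ → ℂ} {R : ℝ} (hR : 1 < R)
    (hF : DifferentiableOn ℂ F (ball 0 R)) (hF0 : F 0 = 0) {w : ℂ} (hM0 : M 0 = 0)
    (hM : ∀ z ∈ ball (0 : ℂ) R, 1 - z ∈ slitPlane → HasDerivAt M ((F z - w) / (1 - z) ^ 2) z)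
    (hW : DiffContOnCl ℂ W (ball 0 1)) (hWM : ∀ z, z ≠ 1 → W z = (1 - z) * M z)
    {t₀ σ : ℝ} (ht₀ : t₀ ∈ Icc 0 (2 * Real.pi)) (hσ : σ = 1 ∨ σ = -1)
    (hlt : ∀ t ∈ Ioo 0 (2 * Real.pi), t < t₀ → σ * (-2 * (M (Complex.exp (t * I))).re) ≤ 0)
    (hgt : ∀ t ∈ Ioo 0 (2 * Real.pi), t₀ < t → 0 ≤ σ * (-2 * (M (Complex.exp (t * I))).re)) :
    ‖deriv F 0‖ ≤ 6 * ‖w‖ := by
  have h0mem : ball (0 : ℂ) 1 ∈ 𝓝 (0 : ℂ) := isOpen_ball.mem_nhds (mem_ball_self one_pos)
  have hball : ball (0 : ℂ) 1 ⊆ ball (0 : ℂ) R := ball_subset_ball hR.le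
  have hslit : ∀ z ∈ ball (0 : ℂ) 1, 1 - z ∈ slitPlane := by
    intro z hz
    have hz1 : ‖z‖ < 1 := by simpa using hz
    left
    have : z.re < 1 := (Complex.re_le_norm z).trans_lt hz1
    simpa using this
  have hWd : DifferentiableOn ℂ W (ball 0 1) := hW.differentiableOn
  -- derivative of W inside
  have hW' : ∀ z ∈ ball (0 : ℂ) 1, HasDerivAt W ((F z - w) / (1 - z) - M z) z := by
    intro z hz
    have hz1 : ‖z‖ < 1 := by simpa using hz
    have hne1 : z ≠ 1 := by rintro rfl; simp at hz1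
    have hd1 : HasDerivAt (fun z : ℂ => 1 - z) (-1) z := by
      simpa using (hasDerivAt_id z).const_sub 1
    have hd := hd1.mul (hM z (hball hz) (hslit z hz))
    have hne : (1 : ℂ) - z ≠ 0 := sub_ne_zero.mpr (Ne.symm hne1)
    have heq : W =ᶠ[𝓝 z] (fun z => 1 - z) * M := by
      have : {1}ᶜ ∈ 𝓝 z := isOpen_compl_singleton.mem_nhds hne1
      filter_upwards [this] with y hy
      exact hWM y hy
    refine (hd.congr_of_eventuallyEq heq).congr_deriv ?_
    field_simp
    ring
  have hW0 : W 0 = 0 := by rw [hWM 0 zero_ne_one, hM0, mul_zero]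
  set V : ℂ → ℂ := dslope W 0 with hV
  have hVd : DifferentiableOn ℂ V (ball 0 1) := by
    rw [hV, Complex.differentiableOn_dslope h0mem]; exact hWd
  have hVc : ContinuousOn V (closedBall 0 1) := by
    have hmem : closedBall (0 : ℂ) 1 ∈ 𝓝 (0 : ℂ) := closedBall_mem_nhds 0 one_pos
    rw [hV, continuousOn_dslope hmem]
    refine ⟨?_, ?_⟩
    · have := hW.continuousOn
      rwa [closure_ball (0 : ℂ) one_ne_zero] at this
    · exact (hW' 0 (mem_ball_self one_pos)).differentiableAt
  have hWV : ∀ z, W z = z * V z := by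
    intro z
    have := sub_smul_dslope W 0 z
    simp only [sub_zero, smul_eq_mul, hW0] at this
    rw [hV, this]
  have hV0 : V 0 = -w := by
    rw [hV, dslope_same, (hW' 0 (mem_ball_self one_pos)).deriv, hM0, hF0]
    simp
  have hVdiff0 : DifferentiableAt ℂ V 0 := hVd.differentiableAt h0mem
  -- second derivative
  have hV' : deriv V 0 = deriv F 0 / 2 := by
    have hVan : AnalyticAt ℂ V 0 := (hVd.analyticOnNhd isOpen_ball) 0 (mem_ball_self one_pos)
    have hdV : DifferentiableAt ℂ (deriv V) 0 := hVan.deriv.differentiableAt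
    have e1 : (fun z => (F z - w) / (1 - z) - M z) =ᶠ[𝓝 0] fun z => V z + z * deriv V z := by
      filter_upwards [h0mem] with z hz
      have h1 := hW' z hz
      have h2 : HasDerivAt W (V z + z * deriv V z) z := by
        have hVz : HasDerivAt V (deriv V z) z :=
          (hVd.differentiableAt (isOpen_ball.mem_nhds hz)).hasDerivAt
        have h3 := (hasDerivAt_id z).mul hVz
        have heq : W = id * V := by
          ext y; exact hWV y
        rw [heq]
        refine h3.congr_deriv ?_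
        simp
      exact h1.unique h2
    have d1 : HasDerivAt (fun z => V z + z * deriv V z) (deriv V 0 + deriv V 0) 0 := by
      have := hVdiff0.hasDerivAt.add ((hasDerivAt_id (0 : ℂ)).mul hdV.hasDerivAt)
      refine this.congr_deriv ?_
      simp
    have hFd0 : HasDerivAt F (deriv F 0) 0 :=
      (hF.differentiableAt (isOpen_ball.mem_nhds (mem_ball_self (by linarith)))).hasDerivAt
    have hM'0 : HasDerivAt M (-w) 0 := by
      have := hM 0 (hball (mem_ball_self one_pos)) (hslit 0 (mem_ball_self one_pos))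
      simpa [hF0] using this
    have d2 : HasDerivAt (fun z => (F z - w) / (1 - z) - M z) (deriv F 0) 0 := by
      have hd1 : HasDerivAt (fun z : ℂ => 1 - z) (-1) 0 := by
        simpa using (hasDerivAt_id (0 : ℂ)).const_sub 1
      have := ((hFd0.sub_const w).fun_div hd1 (by simp)).sub hM'0
      refine this.congr_deriv ?_
      simp [hF0]
    have d3 := d1.congr_of_eventuallyEq e1
    have := d2.unique d3
    rw [this]; ring
  -- the test function
  set κ : ℂ := Complex.exp (-((t₀ : ℂ) * I)) with hκ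
  set κ2 : ℂ := Complex.exp (((t₀ / 2 : ℝ) : ℂ) * I) with hκ2
  have hκn : ‖κ‖ = 1 := by simp [hκ, Complex.norm_exp]
  have hκ2n : ‖κ2‖ = 1 := by simp [hκ2, Complex.norm_exp]
  set Z : ℂ → ℂ := fun z => V z * ((1 - z * κ) * κ2) with hZ
  have hVcl : DiffContOnCl ℂ V (ball 0 1) :=
    ⟨hVd, by rwa [closure_ball (0 : ℂ) one_ne_zero]⟩
  have hZcl : DiffContOnCl ℂ Z (ball 0 1) := by
    have h2 : Differentiable ℂ (fun z : ℂ => (1 - z * κ) * κ2) := by fun_prop
    have := hVcl.smul h2.diffContOnCl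
    simpa [hZ, smul_eq_mul] using this
  have hZ0 : Z 0 = -w * κ2 := by simp [hZ, hV0]
  have hZ' : deriv Z 0 = (deriv F 0 / 2 + w * κ) * κ2 := by
    have h2 : HasDerivAt (fun z : ℂ => (1 - z * κ) * κ2) (-κ * κ2) 0 := by
      have := (((hasDerivAt_id (0 : ℂ)).mul_const κ).const_sub 1).mul_const κ2
      simpa using this
    have := hVdiff0.hasDerivAt.mul h2
    rw [hV'] at this
    have h3 := this.deriv
    have h4 : deriv Z 0 = deriv (V * fun z : ℂ => (1 - z * κ) * κ2) 0 := rfl
    rw [h4, h3, hV0]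
    ring
  have hsign : ∀ t ∈ Ioo 0 (2 * Real.pi), 0 ≤ σ * (Z (Complex.exp (t * I))).re := by
    intro t ht
    set z : ℂ := Complex.exp (t * I) with hz
    have hz0 : z ≠ 0 := Complex.exp_ne_zero _
    have hsin : 0 < Real.sin (t / 2) :=
      Real.sin_pos_of_pos_of_lt_pi (by linarith [ht.1]) (by linarith [ht.2])
    have hone : (1 - z) = -2 * I * (Real.sin (t / 2) : ℂ) * Complex.exp ((t / 2 : ℝ) * I) :=
      one_sub_exp t
    have hz1 : z ≠ 1 := by
      intro h
      rw [h, sub_self] at hone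
      have hsc : (Real.sin (t / 2) : ℂ) ≠ 0 := by exact_mod_cast hsin.ne'
      have := mul_ne_zero (mul_ne_zero (mul_ne_zero (by norm_num : (-2 : ℂ) ≠ 0) I_ne_zero) hsc)
        (Complex.exp_ne_zero (((t / 2 : ℝ) : ℂ) * I))
      exact this hone.symm
    have htwo : (1 - z * κ) = -2 * I * (Real.sin ((t - t₀) / 2) : ℂ)
        * Complex.exp (((t - t₀) / 2 : ℝ) * I) := by
      have := one_sub_exp (t - t₀)
      rw [← this]
      congr 1
      rw [hz, hκ, ← Complex.exp_add]
      congr 1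
      push_cast
      ring
    have hVz : V z = (1 - z) * M z / z := by
      have h1 := hWV z
      rw [hWM z hz1] at h1
      rw [h1]
      field_simp
    have hphase : Complex.exp ((t / 2 : ℝ) * I) * Complex.exp (((t - t₀) / 2 : ℝ) * I) * κ2 = z := by
      rw [hκ2, hz, ← Complex.exp_add, ← Complex.exp_add]
      congr 1
      push_cast
      ring
    have hZz : Z z = ((-4 * Real.sin (t / 2) * Real.sin ((t - t₀) / 2) : ℝ) : ℂ) * M z := by
      simp only [hZ]
      rw [hVz, hone, htwo]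
      have hI2 : I * I = -1 := I_mul_I
      calc -2 * I * (Real.sin (t / 2) : ℂ) * Complex.exp ((t / 2 : ℝ) * I) * M z / z *
            (-2 * I * (Real.sin ((t - t₀) / 2) : ℂ) * Complex.exp (((t - t₀) / 2 : ℝ) * I) * κ2)
          = 4 * (I * I) * (Real.sin (t / 2) : ℂ) * (Real.sin ((t - t₀) / 2) : ℂ) * M z
            * (Complex.exp ((t / 2 : ℝ) * I) * Complex.exp (((t - t₀) / 2 : ℝ) * I) * κ2) / z := by
            ring
        _ = 4 * (I * I) * (Real.sin (t / 2) : ℂ) * (Real.sin ((t - t₀) / 2) : ℂ) * M z := by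
            rw [hphase]; field_simp
        _ = _ := by rw [hI2]; push_cast; ring
    rw [hZz, Complex.re_ofReal_mul]
    rcases lt_trichotomy t t₀ with h | h | h
    · have h1 := hlt t ht h
      have h2 : Real.sin ((t - t₀) / 2) ≤ 0 := by
        apply Real.sin_nonpos_of_nonpos_of_neg_pi_le
        · linarith
        · linarith [ht.1, ht₀.2, Real.pi_pos]
      have h3 : 0 ≤ -(2 * Real.sin (t / 2) * Real.sin ((t - t₀) / 2)) := by nlinarith
      rw [← hz] at h1
      nlinarith [mul_nonneg h3 (neg_nonneg.mpr h1)]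
    · subst h; simp
    · have h1 := hgt t ht h
      have h2 : 0 ≤ Real.sin ((t - t₀) / 2) := by
        apply Real.sin_nonneg_of_nonneg_of_le_pi
        · linarith
        · linarith [ht.2, ht₀.1, Real.pi_pos]
      have h3 : 0 ≤ 2 * Real.sin (t / 2) * Real.sin ((t - t₀) / 2) := by positivity
      rw [← hz] at h1
      nlinarith [mul_nonneg h3 h1]
  have hsphere : ∀ z ∈ sphere (0 : ℂ) 1, 0 ≤ σ * (Z z).re := by
    have hcont : Continuous (fun t : ℝ => σ * (Z (Complex.exp (t * I))).re) := by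
      have h1 : ContinuousOn Z (closedBall 0 1) := by
        have := hZcl.continuousOn
        rwa [closure_ball (0 : ℂ) one_ne_zero] at this
      have h2 : Continuous (fun t : ℝ => Z (Complex.exp (t * I))) := by
        apply h1.comp_continuous (by fun_prop)
        intro t
        simp [Complex.norm_exp]
      exact continuous_const.mul (Complex.continuous_re.comp h2)
    have hclosed : ∀ t ∈ Icc 0 (2 * Real.pi), 0 ≤ σ * (Z (Complex.exp (t * I))).re := by
      have hset : IsClosed {t : ℝ | 0 ≤ σ * (Z (Complex.exp (t * I))).re} :=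
        isClosed_le continuous_const hcont
      have hsub : Ioo 0 (2 * Real.pi) ⊆ {t : ℝ | 0 ≤ σ * (Z (Complex.exp (t * I))).re} := hsign
      have := closure_minimal hsub hset
      rw [closure_Ioo (by positivity)] at this
      exact this
    intro z hz
    have hz1 : ‖z‖ = 1 := by simpa using hz
    set a := Complex.arg z with ha
    have hza : Complex.exp (a * I) = z := by
      have := Complex.norm_mul_exp_arg_mul_I z
      rwa [hz1, Complex.ofReal_one, one_mul] at this
    by_cases h : 0 ≤ a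
    · have := hclosed a ⟨h, by linarith [Complex.arg_le_pi z, Real.pi_pos]⟩
      rwa [hza] at this
    · push Not at h
      have := hclosed (a + 2 * Real.pi) ⟨by linarith [Complex.neg_pi_lt_arg z, Real.pi_pos],
        by linarith⟩
      have h2 : Complex.exp (((a + 2 * Real.pi : ℝ) : ℂ) * I) = z := by
        rw [← hza]
        push_cast
        rw [add_mul, Complex.exp_add, Complex.exp_two_pi_mul_I, mul_one]
      rwa [h2] at this
  have hfin := norm_deriv_le_two_norm hZcl σ hσ hsphere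
  rw [hZ', hZ0, norm_mul, norm_mul, hκ2n, norm_neg, mul_one, mul_one] at hfin
  have h1 : ‖deriv F 0 / 2‖ ≤ ‖deriv F 0 / 2 + w * κ‖ + ‖w * κ‖ := by
    calc ‖deriv F 0 / 2‖ = ‖(deriv F 0 / 2 + w * κ) - w * κ‖ := by congr 1; ring
      _ ≤ _ := norm_sub_le _ _
  have h2 : ‖w * κ‖ = ‖w‖ := by rw [norm_mul, hκn, mul_one]
  have h3 : ‖deriv F 0 / 2‖ = ‖deriv F 0‖ / 2 := by rw [norm_div]; simp
  rw [h3, h2] at h1
  linarith

end Pool.Agent.Lib.MP4cd976
end

section
/-!
# One-pole inequality: sign analysis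
-/
set_option autoImplicit false

open Complex Metric Set Filter Topology

namespace Pool.Agent.Lib.MP4cd976

/-- A function which increases, decreases, increases, and is nonnegative at the second turning
point, changes sign once, from minus to plus. -/
theorem exists_sign_change_one {q : ℝ → ℝ} {b t₁ L : ℝ} (hbt : b ≤ t₁) (ht₁ : t₁ < L)
    (ht0 : 0 < t₁)
    (h1 : MonotoneOn q (Ioc 0 b)) (h2 : AntitoneOn q (Icc b t₁ ∩ Ioo 0 L))
    (h3 : MonotoneOn q (Ico t₁ L)) (hq : 0 ≤ q t₁) :
    ∃ t₀ ∈ Icc 0 L, (∀ t ∈ Ioo 0 L, t < t₀ → q t ≤ 0) ∧ (∀ t ∈ Ioo 0 L, t₀ < t → 0 ≤ q t) := by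
  have hpos : ∀ t ∈ Ioo 0 L, b ≤ t → 0 ≤ q t := by
    intro t ht hbt'
    rcases le_total t t₁ with h | h
    · exact hq.trans (h2 ⟨⟨hbt', h⟩, ht⟩ ⟨⟨hbt, le_rfl⟩, ht0, ht₁⟩ h)
    · exact hq.trans (h3 ⟨le_rfl, ht₁⟩ ⟨h, ht.2⟩ h)
  by_cases hS : ∃ t ∈ Ioo 0 L, q t < 0
  · set S : Set ℝ := {t | t ∈ Ioo 0 L ∧ q t < 0} with hSdef
    have hne : S.Nonempty := by
      obtain ⟨t, ht, hqt⟩ := hS
      exact ⟨t, ht, hqt⟩
    have hSb : ∀ s ∈ S, s < b := by
      intro s hs
      by_contra hcon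
      push Not at hcon
      exact absurd (hpos s hs.1 hcon) (not_le.mpr hs.2)
    have hbdd : BddAbove S := ⟨b, fun s hs => (hSb s hs).le⟩
    refine ⟨sSup S, ⟨?_, ?_⟩, ?_, ?_⟩
    · obtain ⟨s, hs⟩ := hne
      exact hs.1.1.le.trans (le_csSup hbdd hs)
    · exact csSup_le hne fun s hs => hs.1.2.le
    · intro t ht hlt
      obtain ⟨s, hs, hts⟩ := exists_lt_of_lt_csSup hne hlt
      have := h1 ⟨ht.1, (hts.trans (hSb s hs)).le⟩ ⟨hs.1.1, (hSb s hs).le⟩ hts.le
      exact this.trans hs.2.le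
    · intro t ht hgt
      by_contra hcon
      push Not at hcon
      exact absurd (le_csSup hbdd (⟨ht, hcon⟩ : t ∈ S)) (not_le.mpr hgt)
  · push Not at hS
    exact ⟨0, ⟨le_rfl, (ht0.trans ht₁).le⟩, fun t ht h => absurd h (not_lt.mpr ht.1.le),
      fun t ht _ => hS t ht⟩

/-- The mirror image of the previous lemma. -/
theorem exists_sign_change_two {q : ℝ → ℝ} {b t₁ L : ℝ} (hbt : t₁ ≤ b) (ht₁ : t₁ < L)
    (ht0 : 0 < t₁)
    (h1 : AntitoneOn q (Ioc 0 t₁)) (h2 : MonotoneOn q (Icc t₁ b ∩ Ioo 0 L))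
    (h3 : AntitoneOn q (Ico b L)) (hq : 0 ≤ q t₁) :
    ∃ t₀ ∈ Icc 0 L, (∀ t ∈ Ioo 0 L, t < t₀ → 0 ≤ q t) ∧ (∀ t ∈ Ioo 0 L, t₀ < t → q t ≤ 0) := by
  have hpos : ∀ t ∈ Ioo 0 L, t ≤ b → 0 ≤ q t := by
    intro t ht hbt'
    rcases le_total t t₁ with h | h
    · exact hq.trans (h1 ⟨ht.1, h⟩ ⟨ht0, le_rfl⟩ h)
    · exact hq.trans (h2 ⟨⟨le_rfl, hbt⟩, ht0, ht₁⟩ ⟨⟨h, hbt'⟩, ht⟩ h)
  by_cases hS : ∃ t ∈ Ioo 0 L, q t < 0
  · set S : Set ℝ := {t | t ∈ Ioo 0 L ∧ q t < 0} with hSdef
    have hne : S.Nonempty := by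
      obtain ⟨t, ht, hqt⟩ := hS
      exact ⟨t, ht, hqt⟩
    have hSb : ∀ s ∈ S, b < s := by
      intro s hs
      by_contra hcon
      push Not at hcon
      exact absurd (hpos s hs.1 hcon) (not_le.mpr hs.2)
    have hbdd : BddBelow S := ⟨b, fun s hs => (hSb s hs).le⟩
    refine ⟨sInf S, ⟨?_, ?_⟩, ?_, ?_⟩
    · exact le_csInf hne fun s hs => hs.1.1.le
    · obtain ⟨s, hs⟩ := hne
      exact (csInf_le hbdd hs).trans hs.1.2.le
    · intro t ht hlt
      by_contra hcon
      push Not at hcon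
      exact absurd (csInf_le hbdd (⟨ht, hcon⟩ : t ∈ S)) (not_le.mpr hlt)
    · intro t ht hgt
      obtain ⟨s, hs, hts⟩ := exists_lt_of_csInf_lt hne hgt
      have := h3 ⟨(hSb s hs).le, hs.1.2⟩ ⟨((hSb s hs).trans hts).le, ht.2⟩ hts.le
      exact this.trans hs.2.le
  · push Not at hS
    exact ⟨L, ⟨(ht0.trans ht₁).le, le_rfl⟩, fun t ht _ => hS t ht,
      fun t ht h => absurd h (not_lt.mpr ht.2.le)⟩

/-- The one-pole functional: integral of the half-plane function with pole `ζ` against `F'` along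
the radius ending at `z`. -/
noncomputable def ray (F : ℂ → ℂ) (z ζ : ℂ) : ℂ :=
  ∫ ρ in (0 : ℝ)..1, (ζ + ρ * z) / (ζ - ρ * z) * (deriv F (ρ * z) * z)

/-- Evaluation of the one-pole functional for the pole `1`. -/
theorem ray_one_eq {F M : ℂ → ℂ} {R : ℝ} (hR : 1 < R)
    (hF : DifferentiableOn ℂ F (ball 0 R)) (hF0 : F 0 = 0) {w : ℂ} (hM0 : M 0 = 0)
    (hM : ∀ z ∈ ball (0 : ℂ) R, 1 - z ∈ slitPlane → HasDerivAt M ((F z - w) / (1 - z) ^ 2) z)
    {t : ℝ} (ht : t ∈ Ioo 0 (2 * Real.pi)) :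
    ray F (Complex.exp (t * I)) 1 =
      (1 + Complex.exp (t * I)) / (1 - Complex.exp (t * I)) * (F (Complex.exp (t * I)) - w)
        - 2 * M (Complex.exp (t * I)) + w := by
  set z : ℂ := Complex.exp (t * I) with hz
  have hz1 : ‖z‖ = 1 := by simp [hz, Complex.norm_exp]
  have hcos : Real.cos t < 1 := by
    have h1 : 0 < Real.sin (t / 2) :=
      Real.sin_pos_of_pos_of_lt_pi (by linarith [ht.1]) (by linarith [ht.2])
    have h2 := Real.cos_sq (t / 2)
    have h3 := Real.sin_sq_add_cos_sq (t / 2)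
    have h4 : 2 * (t / 2) = t := by ring
    rw [h4] at h2
    nlinarith
  have hzre : z.re = Real.cos t := by rw [hz]; exact Complex.exp_ofReal_mul_I_re t
  have hmemR : ∀ ρ ∈ Icc (0 : ℝ) 1, (ρ : ℂ) * z ∈ ball (0 : ℂ) R := by
    intro ρ hρ
    have : ‖(ρ : ℂ) * z‖ ≤ 1 := by
      rw [norm_mul, hz1, mul_one, Complex.norm_real, Real.norm_eq_abs, abs_of_nonneg hρ.1]
      exact hρ.2
    simpa using this.trans_lt hR
  have hslit : ∀ ρ ∈ Icc (0 : ℝ) 1, 1 - (ρ : ℂ) * z ∈ slitPlane := by
    intro ρ hρ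
    left
    rw [Complex.sub_re, Complex.re_ofReal_mul, hzre, Complex.one_re]
    have : ρ * Real.cos t < 1 := by
      rcases le_total (Real.cos t) 0 with h | h
      · nlinarith [hρ.1]
      · nlinarith [hρ.1, hρ.2]
    linarith
  set Φ : ℂ → ℂ := fun z => (1 + z) / (1 - z) * (F z - w) - 2 * M z with hΦ
  have hder : ∀ y ∈ ball (0 : ℂ) R, 1 - y ∈ slitPlane →
      HasDerivAt Φ ((1 + y) / (1 - y) * deriv F y) y := by
    intro y hy hs
    have hne : (1 : ℂ) - y ≠ 0 := slitPlane_ne_zero hs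
    have hFy : HasDerivAt F (deriv F y) y :=
      (hF.differentiableAt (isOpen_ball.mem_nhds hy)).hasDerivAt
    have h1 : HasDerivAt (fun z : ℂ => 1 + z) 1 y := by
      simpa using (hasDerivAt_id y).const_add 1
    have h2 : HasDerivAt (fun z : ℂ => 1 - z) (-1) y := by
      simpa using (hasDerivAt_id y).const_sub 1
    have h3 := ((h1.fun_div h2 hne).fun_mul (hFy.sub_const w)).fun_sub ((hM y hy hs).const_mul 2)
    refine h3.congr_deriv ?_
    field_simp
    ring
  have hint : ray F z 1 = Φ ((1 : ℝ) * z) - Φ ((0 : ℝ) * z) := by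
    unfold ray
    apply intervalIntegral.integral_eq_sub_of_hasDerivAt (f := fun ρ : ℝ => Φ (ρ * z))
    · intro ρ hρ
      rw [uIcc_of_le zero_le_one] at hρ
      have h1 : HasDerivAt (fun ρ : ℝ => (ρ : ℂ) * z) z ρ := by
        simpa using (Complex.ofRealCLM.hasDerivAt (x := ρ)).mul_const z
      have h2 := (hder _ (hmemR ρ hρ) (hslit ρ hρ)).comp ρ h1
      refine h2.congr_deriv ?_
      ring
    · apply ContinuousOn.intervalIntegrable
      rw [uIcc_of_le zero_le_one]
      have hdF : ContinuousOn (deriv F) (ball 0 R) :=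
        ((hF.analyticOnNhd isOpen_ball).deriv).continuousOn
      have h1 : ContinuousOn (fun ρ : ℝ => deriv F (ρ * z)) (Icc 0 1) :=
        hdF.comp (by fun_prop) hmemR
      have h2 : ContinuousOn (fun ρ : ℝ => (1 + (ρ : ℂ) * z) / (1 - ρ * z)) (Icc 0 1) := by
        apply ContinuousOn.div (by fun_prop) (by fun_prop)
        intro ρ hρ
        exact slitPlane_ne_zero (hslit ρ hρ)
      exact h2.mul (h1.mul continuousOn_const)
  rw [hint]
  simp only [hΦ, Complex.ofReal_one, one_mul, Complex.ofReal_zero, zero_mul, hM0, hF0]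
  simp

/-- On the unit circle the half-plane function with pole `1` is imaginary. -/
theorem re_kernel_one {z : ℂ} (hz : ‖z‖ = 1) (x : ℂ) (hx : x.im = 0) :
    ((1 + z) / (1 - z) * x).re = 0 := by
  have hx' : x = (x.re : ℂ) := Complex.ext (by simp) (by simpa using hx)
  rw [hx', mul_comm, Complex.re_ofReal_mul]
  have h1 : z.re * z.re + z.im * z.im = 1 := by
    have := Complex.sq_norm z
    rw [hz, Complex.normSq_apply] at this
    linarith
  have : ((1 + z) / (1 - z)).re = 0 := by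
    rw [Complex.div_re]
    simp only [Complex.add_re, Complex.one_re, Complex.sub_re, Complex.add_im, Complex.one_im,
      Complex.sub_im, zero_add, zero_sub]
    rw [← add_div]
    have : (1 + z.re) * (1 - z.re) + z.im * -z.im = 0 := by nlinarith
    rw [this, zero_div]
  rw [this, mul_zero]

/-- **One-pole inequality, pole at 1.**  `t₁` is a descending crossing of the level `Im w`. -/
theorem onePole_one {F : ℂ → ℂ} {R : ℝ} (hR : 1 < R)
    (hF : DifferentiableOn ℂ F (ball 0 R)) (hF0 : F 0 = 0) {w : ℂ}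
    {t₁ b : ℝ} (ht₁ : t₁ ∈ Ioo 0 (2 * Real.pi))
    (hcases : (b ∈ Icc 0 t₁ ∧ (∀ t ∈ Icc 0 b, (F (Complex.exp (t * I)) - w).im ≤ 0) ∧
        (∀ t ∈ Icc b t₁, 0 ≤ (F (Complex.exp (t * I)) - w).im) ∧
        (∀ t ∈ Icc t₁ (2 * Real.pi), (F (Complex.exp (t * I)) - w).im ≤ 0)) ∨
      (b ∈ Icc t₁ (2 * Real.pi) ∧ (∀ t ∈ Icc 0 t₁, 0 ≤ (F (Complex.exp (t * I)) - w).im) ∧
        (∀ t ∈ Icc t₁ b, (F (Complex.exp (t * I)) - w).im ≤ 0) ∧
        (∀ t ∈ Icc b (2 * Real.pi), 0 ≤ (F (Complex.exp (t * I)) - w).im)))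
    (ha : w.re ≤ (ray F (Complex.exp (t₁ * I)) 1).re) : ‖deriv F 0‖ ≤ 6 * ‖w‖ := by
  obtain ⟨M, hM0, hM, W, hW, hWM⟩ := exists_primitive hR hF w
  set q : ℝ → ℝ := fun t => -2 * (M (Complex.exp (t * I))).re with hqdef
  have hq' : ∀ t ∈ Ioo 0 (2 * Real.pi),
      HasDerivAt q (-(F (Complex.exp (t * I)) - w).im / (2 * Real.sin (t / 2) ^ 2)) t :=
    fun t ht => hasDerivAt_q hR hM ht
  have hz1 : ‖Complex.exp (t₁ * I)‖ = 1 := by simp [Complex.norm_exp]
  have him : (F (Complex.exp (t₁ * I)) - w).im = 0 := by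
    rcases hcases with ⟨hb, h1, h2, h3⟩ | ⟨hb, h1, h2, h3⟩
    · exact le_antisymm (h3 t₁ ⟨le_rfl, ht₁.2.le⟩) (h2 t₁ ⟨hb.2, le_rfl⟩)
    · exact le_antisymm (h2 t₁ ⟨le_rfl, hb.1⟩) (h1 t₁ ⟨ht₁.1.le, le_rfl⟩)
  have hq1 : 0 ≤ q t₁ := by
    rw [ray_one_eq hR hF hF0 hM0 hM ht₁, Complex.add_re, Complex.sub_re, re_kernel_one hz1 _ him]
      at ha
    simp only [hqdef]
    have : (2 * M (Complex.exp (t₁ * I))).re = 2 * (M (Complex.exp (t₁ * I))).re := by simp
    linarith
  have hmono : ∀ s : Set ℝ, Convex ℝ s → s ⊆ Ioo 0 (2 * Real.pi) →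
      (∀ t ∈ s, (F (Complex.exp (t * I)) - w).im ≤ 0) → MonotoneOn q s := by
    intro s hs hsub hle
    apply monotoneOn_of_deriv_nonneg hs
    · intro t ht
      exact (hq' t (hsub ht)).continuousAt.continuousWithinAt
    · intro t ht
      exact (hq' t (hsub (interior_subset ht))).differentiableAt.differentiableWithinAt
    · intro t ht
      have ht' := interior_subset ht
      rw [(hq' t (hsub ht')).deriv]
      apply div_nonneg
      · have := hle t ht'; linarith
      · positivity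
  have hanti : ∀ s : Set ℝ, Convex ℝ s → s ⊆ Ioo 0 (2 * Real.pi) →
      (∀ t ∈ s, 0 ≤ (F (Complex.exp (t * I)) - w).im) → AntitoneOn q s := by
    intro s hs hsub hle
    apply antitoneOn_of_deriv_nonpos hs
    · intro t ht
      exact (hq' t (hsub ht)).continuousAt.continuousWithinAt
    · intro t ht
      exact (hq' t (hsub (interior_subset ht))).differentiableAt.differentiableWithinAt
    · intro t ht
      have ht' := interior_subset ht
      rw [(hq' t (hsub ht')).deriv]
      apply div_nonpos_of_nonpos_of_nonneg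
      · have := hle t ht'; linarith
      · positivity
  rcases hcases with ⟨hb, h1, h2, h3⟩ | ⟨hb, h1, h2, h3⟩
  · obtain ⟨t₀, ht₀, hl, hg⟩ := exists_sign_change_one (q := q) (b := b) (t₁ := t₁)
      (L := 2 * Real.pi) hb.2 ht₁.2 ht₁.1
      (hmono _ (convex_Ioc _ _) (fun t ht => ⟨ht.1, lt_of_le_of_lt (ht.2.trans hb.2) ht₁.2⟩)
        (fun t ht => h1 t ⟨ht.1.le, ht.2⟩))
      (hanti _ ((convex_Icc _ _).inter (convex_Ioo _ _)) inter_subset_right
        (fun t ht => h2 t ht.1))
      (hmono _ (convex_Ico _ _) (fun t ht => ⟨ht₁.1.trans_le ht.1, ht.2⟩)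
        (fun t ht => h3 t ⟨ht.1, ht.2.le⟩)) hq1
    refine norm_deriv_le_of_sign hR hF hF0 hM0 hM hW hWM (σ := 1) ht₀ (Or.inl rfl) ?_ ?_
    · intro t ht h; rw [one_mul]; exact hl t ht h
    · intro t ht h; rw [one_mul]; exact hg t ht h
  · obtain ⟨t₀, ht₀, hl, hg⟩ := exists_sign_change_two (q := q) (b := b) (t₁ := t₁)
      (L := 2 * Real.pi) hb.1 ht₁.2 ht₁.1
      (hanti _ (convex_Ioc _ _) (fun t ht => ⟨ht.1, lt_of_le_of_lt ht.2 ht₁.2⟩)
        (fun t ht => h1 t ⟨ht.1.le, ht.2⟩))
      (hmono _ ((convex_Icc _ _).inter (convex_Ioo _ _)) inter_subset_right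
        (fun t ht => h2 t ht.1))
      (hanti _ (convex_Ico _ _) (fun t ht => ⟨lt_of_lt_of_le (ht₁.1.trans_le hb.1) ht.1, ht.2⟩)
        (fun t ht => h3 t ⟨ht.1, ht.2.le⟩)) hq1
    refine norm_deriv_le_of_sign hR hF hF0 hM0 hM hW hWM (σ := -1) ht₀ (Or.inr rfl) ?_ ?_
    · intro t ht h
      have := hl t ht h
      simp only [hqdef] at this
      linarith
    · intro t ht h
      have := hg t ht h
      simp only [hqdef] at this
      linarith

/-- **One-pole inequality, general pole.**  The imaginary part of `F - w` is nonpositive on the arc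
`[θ₁, θ₂]` and nonnegative on `[θ₂, θ₁ + 2π]`. -/
theorem onePole {F : ℂ → ℂ} {R : ℝ} (hR : 1 < R)
    (hF : DifferentiableOn ℂ F (ball 0 R)) (hF0 : F 0 = 0) {w : ℂ}
    {θ₁ θ₂ : ℝ} (h₁₂ : θ₁ ≤ θ₂) (h₂₁ : θ₂ ≤ θ₁ + 2 * Real.pi)
    (hlow : ∀ t ∈ Icc θ₁ θ₂, (F (Complex.exp (t * I)) - w).im ≤ 0)
    (hupp : ∀ t ∈ Icc θ₂ (θ₁ + 2 * Real.pi), 0 ≤ (F (Complex.exp (t * I)) - w).im)
    (hw : 6 * ‖w‖ < ‖deriv F 0‖) {α : ℝ} (hα : α ∈ Ioo θ₁ (θ₁ + 2 * Real.pi)) :
    (ray F (Complex.exp (θ₁ * I)) (Complex.exp (α * I))).re < w.re := by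
  set u : ℂ := Complex.exp (α * I) with hu
  have hun : ‖u‖ = 1 := by simp [hu, Complex.norm_exp]
  have hu0 : u ≠ 0 := Complex.exp_ne_zero _
  set F₁ : ℂ → ℂ := fun z => F (u * z) with hF₁
  have hmaps : ∀ z ∈ ball (0 : ℂ) R, u * z ∈ ball (0 : ℂ) R := by
    intro z hz
    have : ‖z‖ < R := by simpa using hz
    simpa [hun] using this
  have hF₁d : DifferentiableOn ℂ F₁ (ball 0 R) :=
    hF.comp (by fun_prop) hmaps
  have hderiv : ∀ z ∈ ball (0 : ℂ) R, deriv F₁ z = deriv F (u * z) * u := by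
    intro z hz
    have h1 : HasDerivAt F (deriv F (u * z)) (u * z) :=
      (hF.differentiableAt (isOpen_ball.mem_nhds (hmaps z hz))).hasDerivAt
    have h2 : HasDerivAt (fun z : ℂ => u * z) u z := by
      simpa using (hasDerivAt_id z).const_mul u
    exact (h1.comp z h2).deriv
  have h0 : deriv F₁ 0 = deriv F 0 * u := by
    have := hderiv 0 (mem_ball_self (by linarith))
    simpa using this
  set t₁ : ℝ := θ₁ + 2 * Real.pi - α with ht₁
  have ht₁mem : t₁ ∈ Ioo 0 (2 * Real.pi) := ⟨by linarith [hα.2], by linarith [hα.1]⟩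
  have hexp : ∀ t : ℝ, u * Complex.exp (t * I) = Complex.exp ((α + t : ℝ) * I) := by
    intro t
    rw [hu, ← Complex.exp_add]
    congr 1
    push_cast
    ring
  have hper : ∀ t : ℝ, Complex.exp ((t - 2 * Real.pi : ℝ) * I) = Complex.exp (t * I) := by
    intro t
    have : ((t - 2 * Real.pi : ℝ) : ℂ) * I = t * I - 2 * Real.pi * I := by push_cast; ring
    rw [this, Complex.exp_sub, Complex.exp_two_pi_mul_I, div_one]
  have hF₁e : ∀ t : ℝ, F₁ (Complex.exp (t * I)) = F (Complex.exp ((α + t : ℝ) * I)) := by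
    intro t; simp only [hF₁]; rw [hexp]
  by_contra hcon
  push Not at hcon
  have hray : ray F₁ (Complex.exp (t₁ * I)) 1 = ray F (Complex.exp (θ₁ * I)) u := by
    unfold ray
    apply intervalIntegral.integral_congr
    intro ρ hρ
    rw [uIcc_of_le zero_le_one] at hρ
    have hz : Complex.exp (θ₁ * I) = u * Complex.exp (t₁ * I) := by
      rw [hexp, ht₁]
      have := hper (θ₁ + 2 * Real.pi)
      rw [show (θ₁ + 2 * Real.pi - 2 * Real.pi : ℝ) = θ₁ by ring] at this
      rw [this]
      congr 2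
      push_cast
      ring
    have hmem : (ρ : ℂ) * Complex.exp (t₁ * I) ∈ ball (0 : ℂ) R := by
      have : ‖(ρ : ℂ) * Complex.exp (t₁ * I)‖ ≤ 1 := by
        rw [norm_mul, Complex.norm_exp_ofReal_mul_I, mul_one, Complex.norm_real, Real.norm_eq_abs,
          abs_of_nonneg hρ.1]
        exact hρ.2
      simpa using this.trans_lt hR
    simp only
    rw [hderiv _ hmem, hz]
    have e1 : u + (ρ : ℂ) * (u * Complex.exp (t₁ * I)) = u * (1 + ρ * Complex.exp (t₁ * I)) := by
      ring
    have e2 : u - (ρ : ℂ) * (u * Complex.exp (t₁ * I)) = u * (1 - ρ * Complex.exp (t₁ * I)) := by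
      ring
    have e3 : (ρ : ℂ) * (u * Complex.exp (t₁ * I)) = u * (ρ * Complex.exp (t₁ * I)) := by ring
    rw [e1, e2, e3, mul_div_mul_left _ _ hu0]
    ring
  have hmain : ‖deriv F₁ 0‖ ≤ 6 * ‖w‖ := by
    rcases le_total α θ₂ with h | h
    · refine onePole_one hR hF₁d (by simp [hF₁, hF0]) (b := θ₂ - α) ht₁mem (Or.inl ?_) ?_
      · refine ⟨⟨by linarith, by linarith⟩, ?_, ?_, ?_⟩
        · intro t ht
          rw [hF₁e]
          exact hlow _ ⟨by linarith [ht.1, hα.1], by linarith [ht.2]⟩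
        · intro t ht
          rw [hF₁e]
          exact hupp _ ⟨by linarith [ht.1], by linarith [ht.2]⟩
        · intro t ht
          rw [hF₁e, ← hper]
          exact hlow _ ⟨by linarith [ht.1], by linarith [ht.2]⟩
      · rw [hray]; exact hcon
    · refine onePole_one hR hF₁d (by simp [hF₁, hF0]) (b := θ₂ + 2 * Real.pi - α) ht₁mem
        (Or.inr ?_) ?_
      · refine ⟨⟨by linarith, by linarith⟩, ?_, ?_, ?_⟩
        · intro t ht
          rw [hF₁e]
          exact hupp _ ⟨by linarith [ht.1], by linarith [ht.2]⟩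
        · intro t ht
          rw [hF₁e, ← hper]
          exact hlow _ ⟨by linarith [ht.1], by linarith [ht.2]⟩
        · intro t ht
          rw [hF₁e, ← hper]
          exact hupp _ ⟨by linarith [ht.1], by linarith [ht.2, hα.2]⟩
      · rw [hray]; exact hcon
  rw [h0, norm_mul, hun, mul_one] at hmain
  linarith

end Pool.Agent.Lib.MP4cd976
end

section
/-!
# Averaging over the pole
-/
set_option autoImplicit false

open Complex Metric Set Filter Topology MeasureTheory

namespace Pool.Agent.Lib.MP4cd976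

/-- Herglotz formula. -/
theorem herglotz {p : ℂ → ℂ} {R : ℝ} (hR : 1 < R) (hp : DifferentiableOn ℂ p (ball 0 R))
    (hp0 : (p 0).im = 0) {z : ℂ} (hz : z ∈ ball (0 : ℂ) 1) :
    Real.circleAverage (fun ζ => (ζ + z) / (ζ - z) * ((p ζ).re : ℂ)) 0 1 = p z := by
  have hz1 : ‖z‖ < 1 := by simpa using hz
  have hpc : ContinuousOn p (closedBall 0 1) :=
    hp.continuousOn.mono (closedBall_subset_ball hR)
  have hpcl : DiffContOnCl ℂ p (ball 0 1) :=
    ⟨hp.mono (ball_subset_ball hR.le), by rwa [closure_ball (0 : ℂ) one_ne_zero]⟩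
  have hne : ∀ ζ ∈ sphere (0 : ℂ) 1, ζ - z ≠ 0 := by
    intro ζ hζ h
    have h1 : ‖ζ‖ = 1 := by simpa using hζ
    rw [sub_eq_zero.mp h] at h1
    linarith
  have hsp : sphere (0 : ℂ) |1| = sphere 0 1 := by rw [abs_one]
  have hpsp : ContinuousOn p (sphere 0 1) := hpc.mono sphere_subset_closedBall
  -- the function `k p`
  have hk : ContinuousOn (fun ζ => (ζ + z) / (ζ - z)) (sphere (0 : ℂ) 1) :=
    ContinuousOn.div (by fun_prop) (by fun_prop) hne
  have hA : Real.circleAverage (fun ζ => ζ / (ζ - z) * p ζ) 0 1 = p z := by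
    have := DiffContOnCl.circleAverage_smul_div (f := p) (c := 0) (R := 1) (w := z)
      (by rw [abs_one]; exact hpcl) (by rw [abs_one]; exact hz)
    simpa [smul_eq_mul] using this
  have hB : Real.circleAverage p 0 1 = p 0 := by
    have := DiffContOnCl.circleAverage (f := p) (c := 0) (R := 1) (by rw [abs_one]; exact hpcl)
    exact this
  have hint1 : CircleIntegrable (fun ζ => ζ / (ζ - z) * p ζ) 0 1 := by
    apply ContinuousOn.circleIntegrable (zero_le_one)
    exact (ContinuousOn.div (by fun_prop) (by fun_prop) hne).mul hpsp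
  have hint2 : CircleIntegrable p 0 1 := hpsp.circleIntegrable zero_le_one
  have hkp : Real.circleAverage (fun ζ => (ζ + z) / (ζ - z) * p ζ) 0 1 = 2 * p z - p 0 := by
    have e : Set.EqOn (fun ζ => (ζ + z) / (ζ - z) * p ζ)
        (fun ζ => (2 : ℂ) • (ζ / (ζ - z) * p ζ) - p ζ) (sphere 0 |1|) := by
      intro ζ hζ
      rw [hsp] at hζ
      have := hne ζ hζ
      simp only [smul_eq_mul]
      field_simp
      ring
    have hint1' : CircleIntegrable (fun ζ => (2 : ℂ) • (ζ / (ζ - z) * p ζ)) 0 1 := by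
      apply ContinuousOn.circleIntegrable (zero_le_one)
      exact ((ContinuousOn.div (by fun_prop) (by fun_prop) hne).mul hpsp).const_smul (2 : ℂ)
    rw [Real.circleAverage_congr_sphere e, Real.circleAverage_fun_sub hint1' hint2,
      Real.circleAverage_fun_smul, hA, hB, smul_eq_mul]
  -- the conjugate part
  have hden : ∀ ζ ∈ closedBall (0 : ℂ) 1, 1 - (starRingEnd ℂ) z * ζ ≠ 0 := by
    intro ζ hζ h
    have h1 : ‖ζ‖ ≤ 1 := by simpa using hζ
    have h2 : ‖(starRingEnd ℂ) z * ζ‖ < 1 := by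
      rw [norm_mul, RCLike.norm_conj]
      calc ‖z‖ * ‖ζ‖ ≤ ‖z‖ * 1 := by gcongr
        _ < 1 := by linarith
    rw [← sub_eq_zero.mp h] at h2
    simp at h2
  set Q : ℂ → ℂ := fun ζ => (1 + (starRingEnd ℂ) z * ζ) / (1 - (starRingEnd ℂ) z * ζ) * p ζ with hQ
  have hQcont : ContinuousOn Q (closedBall 0 1) :=
    (ContinuousOn.div (by fun_prop) (by fun_prop) hden).mul hpc
  have hQcl : DiffContOnCl ℂ Q (ball 0 1) := by
    refine ⟨?_, by rwa [closure_ball (0 : ℂ) one_ne_zero]⟩
    apply DifferentiableOn.mul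
    · apply DifferentiableOn.div (by fun_prop) (by fun_prop)
      intro ζ hζ
      exact hden ζ (ball_subset_closedBall hζ)
    · exact hp.mono (ball_subset_ball hR.le)
  have hC : Real.circleAverage Q 0 1 = p 0 := by
    have := DiffContOnCl.circleAverage (f := Q) (c := 0) (R := 1) (by rw [abs_one]; exact hQcl)
    rw [this]
    simp [hQ]
  have hQint : CircleIntegrable Q 0 1 :=
    (hQcont.mono sphere_subset_closedBall).circleIntegrable zero_le_one
  have hconj : Real.circleAverage (fun ζ => (ζ + z) / (ζ - z) * (starRingEnd ℂ) (p ζ)) 0 1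
      = (starRingEnd ℂ) (p 0) := by
    have e : Set.EqOn (fun ζ => (ζ + z) / (ζ - z) * (starRingEnd ℂ) (p ζ))
        ((Complex.conjCLE : ℂ ≃L[ℝ] ℂ).toContinuousLinearMap ∘ Q) (sphere 0 |1|) := by
      intro ζ hζ
      rw [hsp] at hζ
      have h1 : ‖ζ‖ = 1 := by simpa using hζ
      have hζζ : ζ * (starRingEnd ℂ) ζ = 1 := by
        rw [Complex.mul_conj, Complex.normSq_eq_norm_sq, h1]; norm_num
      have hζ0 : ζ ≠ 0 := by
        intro h; rw [h, norm_zero] at h1; exact zero_ne_one h1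
      have hb := hne ζ hζ
      have hc : 1 - z * (starRingEnd ℂ) ζ ≠ 0 := by
        intro h
        have := congrArg (fun x => ζ * x) h
        simp only [mul_sub, mul_one, mul_zero] at this
        apply hb
        linear_combination this + z * hζζ
      simp only [Function.comp_apply, hQ]
      change _ = (starRingEnd ℂ) _
      simp only [map_mul, map_div₀, map_add, map_sub, map_one, Complex.conj_conj]
      congr 1
      rw [div_eq_div_iff hb hc]
      linear_combination (-2 * z) * hζζ + 0 * hζζ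
    rw [Real.circleAverage_congr_sphere e, ContinuousLinearMap.circleAverage_comp_comm _ hQint, hC]
    rfl
  have hint3 : CircleIntegrable (fun ζ => (ζ + z) / (ζ - z) * p ζ) 0 1 :=
    (hk.mul hpsp).circleIntegrable zero_le_one
  have hint4 : CircleIntegrable (fun ζ => (ζ + z) / (ζ - z) * (starRingEnd ℂ) (p ζ)) 0 1 :=
    (hk.mul (Complex.continuous_conj.comp_continuousOn hpsp)).circleIntegrable zero_le_one
  have e : (fun ζ => (ζ + z) / (ζ - z) * ((p ζ).re : ℂ))
      = fun ζ => (1 / 2 : ℂ) • ((ζ + z) / (ζ - z) * p ζ + (ζ + z) / (ζ - z) * (starRingEnd ℂ) (p ζ))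
        := by
    ext ζ
    have : ((p ζ).re : ℂ) = (p ζ + (starRingEnd ℂ) (p ζ)) / 2 := by
      rw [Complex.add_conj]; push_cast; ring
    rw [this, smul_eq_mul]
    ring
  rw [e, Real.circleAverage_fun_smul, Real.circleAverage_fun_add hint3 hint4, hkp, hconj]
  have h0 : (starRingEnd ℂ) (p 0) = p 0 := by
    apply Complex.ext <;> simp [hp0]
  rw [h0, smul_eq_mul]
  ring

/-- Herglotz formula as an integral over an arbitrary period interval. -/
theorem herglotz_interval {p : ℂ → ℂ} {R : ℝ} (hR : 1 < R) (hp : DifferentiableOn ℂ p (ball 0 R))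
    (hp0 : (p 0).im = 0) {z : ℂ} (hz : z ∈ ball (0 : ℂ) 1) (θ : ℝ) :
    ∫ α in Ioo θ (θ + 2 * Real.pi), (Complex.exp (α * I) + z) / (Complex.exp (α * I) - z)
        * ((p (Complex.exp (α * I))).re : ℂ) = 2 * Real.pi * p z := by
  have h := herglotz hR hp hp0 hz
  rw [Real.circleAverage_def] at h
  set g : ℝ → ℂ := fun α => (Complex.exp (α * I) + z) / (Complex.exp (α * I) - z)
        * ((p (Complex.exp (α * I))).re : ℂ) with hg
  have hcm : ∀ α : ℝ, circleMap 0 1 α = Complex.exp (α * I) := by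
    intro α; simp [circleMap]
  simp only [hcm] at h
  have hper : Function.Periodic g (2 * Real.pi) := by
    intro α
    have : Complex.exp (((α + 2 * Real.pi : ℝ) : ℂ) * I) = Complex.exp (α * I) := by
      push_cast
      rw [add_mul, Complex.exp_add, Complex.exp_two_pi_mul_I, mul_one]
    simp only [hg, this]
  have h1 := hper.intervalIntegral_add_eq θ 0
  rw [zero_add] at h1
  rw [← integral_Ioc_eq_integral_Ioo, ← intervalIntegral.integral_of_le (by
    linarith [Real.pi_pos]), h1]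
  have hpi : (2 * Real.pi : ℝ) ≠ 0 := by positivity
  have h2 : ∫ θ in (0 : ℝ)..2 * Real.pi, g θ = (2 * Real.pi : ℝ) • p z := by
    rw [← h, smul_smul, mul_inv_cancel₀ hpi, one_smul]
  rw [h2]
  simp

/-- A lower bound for the distance between a point of the circle and a point of a radius. -/
theorem dist_lower {ζ z : ℂ} (hζ : ‖ζ‖ = 1) (hz : ‖z‖ = 1) {ρ : ℝ} (hρ : ρ ∈ Ioo (0 : ℝ) 1) :
    Real.sqrt (1 - ρ) * Real.sqrt (‖ζ - z‖ / 2) ≤ ‖ζ - ρ * z‖ := by
  have h1 : 1 - ρ ≤ ‖ζ - ρ * z‖ := by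
    have : ‖ζ‖ - ‖(ρ : ℂ) * z‖ ≤ ‖ζ - ρ * z‖ := norm_sub_norm_le _ _
    rw [hζ, norm_mul, hz, mul_one, Complex.norm_real, Real.norm_eq_abs, abs_of_pos hρ.1] at this
    exact this
  have h2 : ‖ζ - z‖ / 2 ≤ ‖ζ - ρ * z‖ := by
    have h3 : ‖ζ - z‖ ≤ ‖ζ - ρ * z‖ + ‖((ρ : ℂ) - 1) * z‖ := by
      calc ‖ζ - z‖ = ‖(ζ - ρ * z) + ((ρ : ℂ) - 1) * z‖ := by congr 1; ring
        _ ≤ _ := norm_add_le _ _
    have h4 : ‖((ρ : ℂ) - 1) * z‖ = 1 - ρ := by
      rw [norm_mul, hz, mul_one, ← Complex.ofReal_one, ← Complex.ofReal_sub, Complex.norm_real,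
        Real.norm_eq_abs, abs_of_neg (by linarith [hρ.2])]
      ring
    rw [h4] at h3
    linarith
  have h0 : 0 ≤ ‖ζ - ρ * z‖ := norm_nonneg _
  calc Real.sqrt (1 - ρ) * Real.sqrt (‖ζ - z‖ / 2)
      ≤ Real.sqrt ‖ζ - ρ * z‖ * Real.sqrt ‖ζ - ρ * z‖ := by
        gcongr
    _ = ‖ζ - ρ * z‖ := Real.mul_self_sqrt h0

/-- Chord length bound on a period. -/
theorem chord_lower {θ α : ℝ} (hα : α ∈ Ioo θ (θ + 2 * Real.pi)) :
    (2 / Real.pi) * min (α - θ) (θ + 2 * Real.pi - α)
      ≤ ‖Complex.exp (α * I) - Complex.exp (θ * I)‖ := by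
  have hnorm : ‖Complex.exp (α * I) - Complex.exp (θ * I)‖ = 2 * Real.sin ((α - θ) / 2) := by
    have h1 : Complex.exp (α * I) - Complex.exp (θ * I)
        = -(Complex.exp (θ * I) * (1 - Complex.exp ((α - θ : ℝ) * I))) := by
      have : Complex.exp (α * I) = Complex.exp (θ * I) * Complex.exp ((α - θ : ℝ) * I) := by
        rw [← Complex.exp_add]; congr 1; push_cast; ring
      rw [this]; ring
    have hs : 0 < Real.sin ((α - θ) / 2) :=
      Real.sin_pos_of_pos_of_lt_pi (by linarith [hα.1]) (by linarith [hα.2])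
    rw [h1, norm_neg, norm_mul, Complex.norm_exp_ofReal_mul_I, one_mul, one_sub_exp]
    rw [norm_mul, Complex.norm_exp_ofReal_mul_I, mul_one, norm_mul, norm_mul, Complex.norm_I,
      Complex.norm_real, Real.norm_eq_abs, abs_of_pos hs]
    simp
  rw [hnorm]
  have hpi := Real.pi_pos
  rcases le_total (α - θ) Real.pi with h | h
  · have h1 : 2 / Real.pi * ((α - θ) / 2) ≤ Real.sin ((α - θ) / 2) :=
      Real.mul_le_sin (by linarith [hα.1]) (by linarith)
    have h2 : min (α - θ) (θ + 2 * Real.pi - α) ≤ α - θ := min_le_left _ _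
    calc 2 / Real.pi * min (α - θ) (θ + 2 * Real.pi - α) ≤ 2 / Real.pi * (α - θ) := by gcongr
      _ = 2 * (2 / Real.pi * ((α - θ) / 2)) := by ring
      _ ≤ _ := by gcongr
  · have h1 : 2 / Real.pi * ((θ + 2 * Real.pi - α) / 2)
        ≤ Real.sin ((θ + 2 * Real.pi - α) / 2) :=
      Real.mul_le_sin (by linarith [hα.2]) (by linarith)
    have h3 : Real.sin ((θ + 2 * Real.pi - α) / 2) = Real.sin ((α - θ) / 2) := by
      rw [show (θ + 2 * Real.pi - α) / 2 = Real.pi - (α - θ) / 2 by ring, Real.sin_pi_sub]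
    rw [h3] at h1
    have h2 : min (α - θ) (θ + 2 * Real.pi - α) ≤ θ + 2 * Real.pi - α := min_le_right _ _
    calc 2 / Real.pi * min (α - θ) (θ + 2 * Real.pi - α)
        ≤ 2 / Real.pi * (θ + 2 * Real.pi - α) := by gcongr
      _ = 2 * (2 / Real.pi * ((θ + 2 * Real.pi - α) / 2)) := by ring
      _ ≤ _ := by gcongr

/-- Integrable majorant of the kernel. -/
theorem kernel_bound {θ α : ℝ} (hα : α ∈ Ioo θ (θ + 2 * Real.pi)) {ρ : ℝ}
    (hρ : ρ ∈ Ioo (0 : ℝ) 1) :
    ‖(Complex.exp (α * I) + ρ * Complex.exp (θ * I)) /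
        (Complex.exp (α * I) - ρ * Complex.exp (θ * I))‖
      ≤ (2 * Real.sqrt Real.pi * ((α - θ) ^ (-(1 / 2) : ℝ) + (θ + 2 * Real.pi - α) ^ (-(1 / 2) : ℝ)))
        * (1 - ρ) ^ (-(1 / 2) : ℝ) := by
  have hpi := Real.pi_pos
  set m : ℝ := min (α - θ) (θ + 2 * Real.pi - α) with hm
  have hmpos : 0 < m := lt_min (by linarith [hα.1]) (by linarith [hα.2])
  have hα1 : ‖Complex.exp (α * I)‖ = 1 := Complex.norm_exp_ofReal_mul_I α
  have hθ1 : ‖Complex.exp (θ * I)‖ = 1 := Complex.norm_exp_ofReal_mul_I θ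
  have hd := dist_lower hα1 hθ1 hρ
  have hc := chord_lower hα
  have h1ρ : 0 < 1 - ρ := by linarith [hρ.2]
  have hlow : Real.sqrt (1 - ρ) * Real.sqrt (m / Real.pi)
      ≤ ‖Complex.exp (α * I) - ρ * Complex.exp (θ * I)‖ := by
    refine le_trans ?_ hd
    have h3 : m / Real.pi ≤ ‖Complex.exp (α * I) - Complex.exp (θ * I)‖ / 2 := by
      calc m / Real.pi = (2 / Real.pi * m) / 2 := by ring
        _ ≤ _ := by gcongr
    exact mul_le_mul_of_nonneg_left (Real.sqrt_le_sqrt h3) (Real.sqrt_nonneg _)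
  have hlowpos : 0 < Real.sqrt (1 - ρ) * Real.sqrt (m / Real.pi) := by positivity
  have hnum : ‖Complex.exp (α * I) + ρ * Complex.exp (θ * I)‖ ≤ 2 := by
    calc ‖Complex.exp (α * I) + ρ * Complex.exp (θ * I)‖
        ≤ ‖Complex.exp (α * I)‖ + ‖(ρ : ℂ) * Complex.exp (θ * I)‖ := norm_add_le _ _
      _ = 1 + ρ := by
        rw [hα1, norm_mul, hθ1, mul_one, Complex.norm_real, Real.norm_eq_abs, abs_of_pos hρ.1]
      _ ≤ 2 := by linarith [hρ.2]
  rw [norm_div]
  have hrpow : ∀ x : ℝ, 0 < x → x ^ (-(1 / 2) : ℝ) = (Real.sqrt x)⁻¹ := by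
    intro x hx
    rw [Real.rpow_neg hx.le, ← Real.sqrt_eq_rpow]
  have hmle : m ^ (-(1 / 2) : ℝ)
      ≤ (α - θ) ^ (-(1 / 2) : ℝ) + (θ + 2 * Real.pi - α) ^ (-(1 / 2) : ℝ) := by
    have e1 : 0 ≤ (α - θ) ^ (-(1 / 2) : ℝ) := Real.rpow_nonneg (by linarith [hα.1]) _
    have e2 : 0 ≤ (θ + 2 * Real.pi - α) ^ (-(1 / 2) : ℝ) := Real.rpow_nonneg (by linarith [hα.2]) _
    rcases min_cases (α - θ) (θ + 2 * Real.pi - α) with ⟨h, _⟩ | ⟨h, _⟩
    · rw [hm, h]; linarith
    · rw [hm, h]; linarith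
  calc ‖Complex.exp (α * I) + ρ * Complex.exp (θ * I)‖ /
        ‖Complex.exp (α * I) - ρ * Complex.exp (θ * I)‖
      ≤ 2 / (Real.sqrt (1 - ρ) * Real.sqrt (m / Real.pi)) := by gcongr
    _ = (2 * Real.sqrt Real.pi * m ^ (-(1 / 2) : ℝ)) * (1 - ρ) ^ (-(1 / 2) : ℝ) := by
        rw [hrpow m hmpos, hrpow _ h1ρ, Real.sqrt_div hmpos.le]
        have e1 : Real.sqrt m ≠ 0 := (Real.sqrt_pos.mpr hmpos).ne'
        have e2 : Real.sqrt (1 - ρ) ≠ 0 := (Real.sqrt_pos.mpr h1ρ).ne'
        have e3 : Real.sqrt Real.pi ≠ 0 := (Real.sqrt_pos.mpr hpi).ne'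
        field_simp
    _ ≤ _ := by
        have : 0 ≤ (1 - ρ) ^ (-(1 / 2) : ℝ) := Real.rpow_nonneg h1ρ.le _
        gcongr

/-- Averaging the one-pole inequality over the pole. -/
theorem re_le_of_ray {F p G : ℂ → ℂ} {R : ℝ} (hR : 1 < R)
    (hF : DifferentiableOn ℂ F (ball 0 R)) (hp : DifferentiableOn ℂ p (ball 0 R)) (hp0 : p 0 = 1)
    (hpos : ∀ z ∈ ball (0 : ℂ) R, 0 < (p z).re)
    (hG : ∀ z ∈ ball (0 : ℂ) R, HasDerivAt G (p z * deriv F z) z) (hG0 : G 0 = 0) {x θ : ℝ}
    (hray : ∀ α ∈ Ioo θ (θ + 2 * Real.pi),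
      (ray F (Complex.exp (θ * I)) (Complex.exp (α * I))).re ≤ x) :
    (G (Complex.exp (θ * I))).re ≤ x := by
  set z : ℂ := Complex.exp (θ * I) with hz
  have hz1 : ‖z‖ = 1 := Complex.norm_exp_ofReal_mul_I θ
  have hpi := Real.pi_pos
  have hmemR : ∀ ρ ∈ Icc (0 : ℝ) 1, (ρ : ℂ) * z ∈ ball (0 : ℂ) R := by
    intro ρ hρ
    have : ‖(ρ : ℂ) * z‖ ≤ 1 := by
      rw [norm_mul, hz1, mul_one, Complex.norm_real, Real.norm_eq_abs, abs_of_nonneg hρ.1]
      exact hρ.2
    simpa using this.trans_lt hR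
  have hmem1 : ∀ ρ ∈ Ioo (0 : ℝ) 1, (ρ : ℂ) * z ∈ ball (0 : ℂ) 1 := by
    intro ρ hρ
    have : ‖(ρ : ℂ) * z‖ < 1 := by
      rw [norm_mul, hz1, mul_one, Complex.norm_real, Real.norm_eq_abs, abs_of_pos hρ.1]
      exact hρ.2
    simpa using this
  have hdF : ContinuousOn (deriv F) (ball 0 R) :=
    ((hF.analyticOnNhd isOpen_ball).deriv).continuousOn
  have hcirc : ∀ α : ℝ, Complex.exp (α * I) ∈ ball (0 : ℂ) R := by
    intro α
    simpa [Complex.norm_exp] using hR
  have hpc : Continuous (fun α : ℝ => p (Complex.exp (α * I))) :=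
    hp.continuousOn.comp_continuous (by fun_prop) hcirc
  -- the value of G
  have hGval : G z = ∫ ρ in Ioo (0 : ℝ) 1, p (ρ * z) * (deriv F (ρ * z) * z) := by
    have h1 : ∫ ρ in (0 : ℝ)..1, p (ρ * z) * (deriv F (ρ * z) * z)
        = G ((1 : ℝ) * z) - G ((0 : ℝ) * z) := by
      apply intervalIntegral.integral_eq_sub_of_hasDerivAt (f := fun ρ : ℝ => G (ρ * z))
      · intro ρ hρ
        rw [uIcc_of_le zero_le_one] at hρ
        have h1 : HasDerivAt (fun ρ : ℝ => (ρ : ℂ) * z) z ρ := by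
          simpa using (Complex.ofRealCLM.hasDerivAt (x := ρ)).mul_const z
        have h2 := (hG _ (hmemR ρ hρ)).comp ρ h1
        refine h2.congr_deriv ?_
        ring
      · apply ContinuousOn.intervalIntegrable
        rw [uIcc_of_le zero_le_one]
        have h1 : ContinuousOn (fun ρ : ℝ => deriv F (ρ * z)) (Icc 0 1) :=
          hdF.comp (by fun_prop) hmemR
        have h2 : ContinuousOn (fun ρ : ℝ => p (ρ * z)) (Icc 0 1) :=
          hp.continuousOn.comp (by fun_prop) hmemR
        exact h2.mul (h1.mul continuousOn_const)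
    rw [intervalIntegral.integral_of_le zero_le_one, integral_Ioc_eq_integral_Ioo] at h1
    rw [h1]
    simp [hG0]
  -- the double integral
  set s : Set ℝ := Ioo θ (θ + 2 * Real.pi) with hs
  set t : Set ℝ := Ioo (0 : ℝ) 1 with ht
  set f : ℝ → ℝ → ℂ := fun α ρ =>
    (Complex.exp (α * I) + ρ * z) / (Complex.exp (α * I) - ρ * z) * (deriv F (ρ * z) * z)
      * ((p (Complex.exp (α * I))).re : ℂ) with hf
  obtain ⟨C₁, hC₁⟩ : ∃ C, ∀ ρ ∈ Icc (0 : ℝ) 1, ‖deriv F (ρ * z) * z‖ ≤ C := by
    have h1 : ContinuousOn (fun ρ : ℝ => deriv F (ρ * z) * z) (Icc 0 1) :=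
      (hdF.comp (by fun_prop) hmemR).mul continuousOn_const
    exact isCompact_Icc.exists_bound_of_continuousOn h1
  obtain ⟨C₂, hC₂⟩ : ∃ C, ∀ α ∈ Icc θ (θ + 2 * Real.pi), ‖((p (Complex.exp (α * I))).re : ℂ)‖ ≤ C := by
    have h1 : Continuous (fun α : ℝ => ((p (Complex.exp (α * I))).re : ℂ)) :=
      Complex.continuous_ofReal.comp (Complex.continuous_re.comp hpc)
    exact isCompact_Icc.exists_bound_of_continuousOn h1.continuousOn
  set A : ℝ → ℝ := fun α => 2 * Real.sqrt Real.pi *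
    ((α - θ) ^ (-(1 / 2) : ℝ) + (θ + 2 * Real.pi - α) ^ (-(1 / 2) : ℝ)) * (C₁ * C₂) with hA
  set B : ℝ → ℝ := fun ρ => (1 - ρ) ^ (-(1 / 2) : ℝ) with hB
  have hAint : Integrable A (volume.restrict s) := by
    have h1 : IntervalIntegrable (fun α : ℝ => (α - θ) ^ (-(1 / 2) : ℝ)) volume θ
        (θ + 2 * Real.pi) := by
      have := (intervalIntegral.intervalIntegrable_rpow' (a := 0) (b := 2 * Real.pi)
        (r := -(1 / 2)) (by norm_num)).comp_sub_right θ
      simpa [add_comm] using this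
    have h2 : IntervalIntegrable (fun α : ℝ => (θ + 2 * Real.pi - α) ^ (-(1 / 2) : ℝ)) volume θ
        (θ + 2 * Real.pi) := by
      have := (intervalIntegral.intervalIntegrable_rpow' (a := 2 * Real.pi) (b := 0)
        (r := -(1 / 2)) (by norm_num)).comp_sub_left (θ + 2 * Real.pi)
      simpa using this
    have h3 := ((h1.add h2).const_mul (2 * Real.sqrt Real.pi)).mul_const (C₁ * C₂)
    rw [intervalIntegrable_iff_integrableOn_Ioo_of_le (by linarith)] at h3
    exact h3
  have hBint : Integrable B (volume.restrict t) := by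
    have h1 : IntervalIntegrable (fun ρ : ℝ => (1 - ρ) ^ (-(1 / 2) : ℝ)) volume 0 1 := by
      have := (intervalIntegral.intervalIntegrable_rpow' (a := 1) (b := 0)
        (r := -(1 / 2)) (by norm_num)).comp_sub_left 1
      simpa using this
    rw [intervalIntegrable_iff_integrableOn_Ioo_of_le zero_le_one] at h1
    exact h1
  have hmeas : AEStronglyMeasurable (Function.uncurry f)
      ((volume.restrict s).prod (volume.restrict t)) := by
    have hm1 : Measurable (deriv F) := measurable_deriv F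
    have hm2 : Measurable (fun y : ℝ × ℝ => deriv F ((y.2 : ℂ) * z)) :=
      hm1.comp (by fun_prop)
    have hm3 : Measurable (fun y : ℝ × ℝ => ((p (Complex.exp (y.1 * I))).re : ℂ)) := by
      have : Continuous (fun y : ℝ × ℝ => ((p (Complex.exp (y.1 * I))).re : ℂ)) :=
        Complex.continuous_ofReal.comp (Complex.continuous_re.comp (hpc.comp continuous_fst))
      exact this.measurable
    have hm4 : Measurable (fun y : ℝ × ℝ =>
        (Complex.exp (y.1 * I) + y.2 * z) / (Complex.exp (y.1 * I) - y.2 * z)) := by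
      apply Measurable.div
      · exact (by fun_prop : Continuous fun y : ℝ × ℝ => Complex.exp (y.1 * I) + y.2 * z).measurable
      · exact (by fun_prop : Continuous fun y : ℝ × ℝ => Complex.exp (y.1 * I) - y.2 * z).measurable
    exact ((hm4.mul (hm2.mul_const z)).mul hm3).aestronglyMeasurable
  have hbound : ∀ α ∈ s, ∀ ρ ∈ t, ‖f α ρ‖ ≤ A α * B ρ := by
    intro α hα ρ hρ
    have hk := kernel_bound hα hρ
    have h1 := hC₁ ρ ⟨hρ.1.le, hρ.2.le⟩
    have h2 := hC₂ α ⟨hα.1.le, hα.2.le⟩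
    have hC₁0 : 0 ≤ C₁ := (norm_nonneg _).trans h1
    simp only [hf]
    rw [norm_mul, norm_mul]
    have e1 : 0 ≤ (α - θ) ^ (-(1 / 2) : ℝ) := Real.rpow_nonneg (by linarith [hα.1]) _
    have e2 : 0 ≤ (θ + 2 * Real.pi - α) ^ (-(1 / 2) : ℝ) := Real.rpow_nonneg (by linarith [hα.2]) _
    have e3 : 0 ≤ (1 - ρ) ^ (-(1 / 2) : ℝ) := Real.rpow_nonneg (by linarith [hρ.2]) _
    calc ‖(Complex.exp (α * I) + ρ * z) / (Complex.exp (α * I) - ρ * z)‖ * ‖deriv F (ρ * z) * z‖
          * ‖((p (Complex.exp (α * I))).re : ℂ)‖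
        ≤ ((2 * Real.sqrt Real.pi *
          ((α - θ) ^ (-(1 / 2) : ℝ) + (θ + 2 * Real.pi - α) ^ (-(1 / 2) : ℝ)))
            * (1 - ρ) ^ (-(1 / 2) : ℝ)) * C₁ * C₂ := by
          gcongr
      _ = A α * B ρ := by simp only [hA, hB]; ring
  have hfint : Integrable (Function.uncurry f)
      ((volume.restrict s).prod (volume.restrict t)) := by
    refine Integrable.mono' (hAint.mul_prod hBint) hmeas ?_
    rw [Measure.prod_restrict, ae_restrict_iff' (measurableSet_Ioo.prod measurableSet_Ioo)]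
    exact Filter.Eventually.of_forall fun y hy => hbound y.1 hy.1 y.2 hy.2
  have hswap := integral_integral_swap hfint
  have hR1 : ∫ ρ in t, ∫ α in s, f α ρ = (2 * Real.pi : ℂ) * G z := by
    rw [hGval, ← integral_const_mul]
    apply setIntegral_congr_fun measurableSet_Ioo
    intro ρ hρ
    have h1 := herglotz_interval hR hp (by rw [hp0]; simp) (hmem1 ρ hρ) θ
    simp only [hf]
    have e : ∀ α : ℝ, (Complex.exp (α * I) + ρ * z) / (Complex.exp (α * I) - ρ * z)
        * (deriv F (ρ * z) * z) * ((p (Complex.exp (α * I))).re : ℂ)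
        = ((Complex.exp (α * I) + ρ * z) / (Complex.exp (α * I) - ρ * z)
        * ((p (Complex.exp (α * I))).re : ℂ)) * (deriv F (ρ * z) * z) := by
      intro α; ring
    simp_rw [e]
    rw [integral_mul_const, h1]
    ring
  have hL1 : ∀ α ∈ s, ∫ ρ in t, f α ρ
      = ray F z (Complex.exp (α * I)) * ((p (Complex.exp (α * I))).re : ℂ) := by
    intro α _
    simp only [hf]
    rw [integral_mul_const]
    congr 1
    rw [ray, intervalIntegral.integral_of_le zero_le_one, integral_Ioc_eq_integral_Ioo]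
  have hL2 : ∫ α in s, ∫ ρ in t, f α ρ
      = ∫ α in s, ray F z (Complex.exp (α * I)) * ((p (Complex.exp (α * I))).re : ℂ) :=
    setIntegral_congr_fun measurableSet_Ioo hL1
  have hLint : Integrable (fun α : ℝ =>
      ray F z (Complex.exp (α * I)) * ((p (Complex.exp (α * I))).re : ℂ)) (volume.restrict s) := by
    have h1 : Integrable (fun α => ∫ ρ in t, f α ρ) (volume.restrict s) := hfint.integral_prod_left
    refine h1.congr ?_
    rw [Filter.EventuallyEq, ae_restrict_iff' measurableSet_Ioo]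
    exact Filter.Eventually.of_forall fun α hα => hL1 α hα
  have hkey : (2 * Real.pi : ℂ) * G z
      = ∫ α in s, ray F z (Complex.exp (α * I)) * ((p (Complex.exp (α * I))).re : ℂ) := by
    rw [← hR1, ← hswap, hL2]
  have hre : 2 * Real.pi * (G z).re
      = ∫ α in s, (ray F z (Complex.exp (α * I))).re * (p (Complex.exp (α * I))).re := by
    have h1 : ((2 * Real.pi : ℂ) * G z).re = 2 * Real.pi * (G z).re := by
      have : (2 * Real.pi : ℂ) = ((2 * Real.pi : ℝ) : ℂ) := by push_cast; ring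
      rw [this, Complex.re_ofReal_mul]
    rw [← h1, hkey]
    have h2 := integral_re hLint
    simp only [RCLike.re_to_complex] at h2
    rw [← h2]
    apply integral_congr_ae
    exact Filter.Eventually.of_forall fun α => by simp
  have hpint : ∫ α in s, (p (Complex.exp (α * I))).re = 2 * Real.pi := by
    have h1 := herglotz_interval hR hp (by rw [hp0]; simp) (mem_ball_self one_pos) θ
    have e : ∀ α : ℝ, (Complex.exp (α * I) + 0) / (Complex.exp (α * I) - 0)
        * ((p (Complex.exp (α * I))).re : ℂ) = ((p (Complex.exp (α * I))).re : ℂ) := by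
      intro α
      rw [add_zero, sub_zero, div_self (Complex.exp_ne_zero _), one_mul]
    simp_rw [e] at h1
    rw [integral_complex_ofReal, hp0, mul_one] at h1
    exact_mod_cast h1
  have hfin : 2 * Real.pi * (G z).re ≤ x * (2 * Real.pi) := by
    rw [hre, ← hpint, ← integral_const_mul]
    apply setIntegral_mono_on
    · have := hLint.re
      refine this.congr ?_
      exact Filter.Eventually.of_forall fun α => by simp
    · have : Continuous (fun α : ℝ => x * (p (Complex.exp (α * I))).re) :=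
        continuous_const.mul (Complex.continuous_re.comp hpc)
      exact (this.integrableOn_Icc).mono_set Ioo_subset_Icc_self
    · exact measurableSet_Ioo
    · intro α hα
      have h1 := hray α hα
      have h2 := hpos _ (hcirc α)
      gcongr
  nlinarith

end Pool.Agent.Lib.MP4cd976
end

section
/-!
# Claim G (n = 4) for sums over transversals

Proof by helper52 (Lorentzian form on compatible families of quadratic polynomials, induction on the
number of pairs), in the simplified form `v = κ(n) w - κ(w) n`.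

* `lemmaA`: the form `∑ s, wt x ω s * B (w s) (w s)` is `≤ 0` on compatible families `w`
  orthogonal to a null family.
* `lemmaB`: the step `E₂[H] ≤ E₁[H] + l(∞)`.
* `claimG4`: `E₄[H] ≤ (1/2) ∑ h + 2 l(∞)`.
-/
set_option autoImplicit false

namespace Pool.Agent.Lib.MP4cd976.G4

open Finset

/-- Real quadratic polynomials `q₀ x² + 2 q₁ x + q₂`. -/
abbrev V := ℝ × ℝ × ℝ

/-- The Lorentzian form (minus the discriminant, polarised). -/
def B (p q : V) : ℝ := p.1 * q.2.2 + p.2.2 * q.1 - 2 * (p.2.1 * q.2.1)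

/-- Evaluation at `t`. -/
def ev (t : ℝ) (p : V) : ℝ := p.1 * t ^ 2 + 2 * p.2.1 * t + p.2.2

/-- The null vector `(x - t)²`. -/
def nul (t : ℝ) : V := (1, -t, t ^ 2)

lemma B_nul (p : V) (t : ℝ) : B p (nul t) = ev t p := by
  simp only [B, nul, ev]; ring

lemma ev_nul (x t : ℝ) : ev x (nul t) = (x - t) ^ 2 := by
  simp only [ev, nul]; ring

lemma B_comb (α β : ℝ) (p q : V) :
    B (α • p - β • q) (α • p - β • q) = α ^ 2 * B p p - 2 * α * β * B p q + β ^ 2 * B q q := by
  simp only [B, Prod.fst_sub, Prod.snd_sub, Prod.smul_fst, Prod.smul_snd, smul_eq_mul]; ring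

lemma ev_comb (t α β : ℝ) (p q : V) :
    ev t (α • p - β • q) = α * ev t p - β * ev t q := by
  simp only [ev, Prod.fst_sub, Prod.snd_sub, Prod.smul_fst, Prod.smul_snd, smul_eq_mul]; ring

lemma B_smul_right (α : ℝ) (p q : V) : B p (α • q) = α * B p q := by
  simp only [B, Prod.smul_fst, Prod.smul_snd, smul_eq_mul]; ring

lemma B_smul_left (α : ℝ) (p q : V) : B (α • p) q = α * B p q := by
  simp only [B, Prod.smul_fst, Prod.smul_snd, smul_eq_mul]; ring

lemma ev_smul (t α : ℝ) (p : V) : ev t (α • p) = α * ev t p := by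
  simp only [ev, Prod.smul_fst, Prod.smul_snd, smul_eq_mul]; ring

/-- A vector orthogonal to a nonzero null vector is not timelike. -/
lemma base (w ν : V) (hν : ν ≠ 0) (h0 : B ν ν = 0) (h : B w ν = 0) : B w w ≤ 0 := by
  obtain ⟨a, b, c⟩ := ν
  obtain ⟨p, q, r⟩ := w
  simp only [B] at h0 h ⊢
  have hac : a * c = b ^ 2 := by nlinarith
  by_cases ha : a = 0
  · subst ha
    have hb : b = 0 := by
      have : b ^ 2 = 0 := by rw [← hac]; ring
      exact pow_eq_zero_iff (two_ne_zero) |>.1 this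
    subst hb
    have hc : c ≠ 0 := by
      rintro rfl
      exact hν rfl
    have hp : p = 0 := by
      have : p * c = 0 := by nlinarith
      rcases mul_eq_zero.1 this with h1 | h1
      · exact h1
      · exact absurd h1 hc
    subst hp
    nlinarith [sq_nonneg q]
  · have hr : r * a = 2 * (q * b) - p * c := by linarith
    have key : a ^ 2 * (p * r + r * p - 2 * (q * q)) = -2 * (p * b - q * a) ^ 2 := by
      have : a ^ 2 * (p * r + r * p - 2 * (q * q)) = 2 * a * p * (r * a) - 2 * a ^ 2 * q ^ 2 := by ring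
      rw [this, hr]
      have h3 : 2 * a * p * (2 * (q * b) - p * c) - 2 * a ^ 2 * q ^ 2
          = 4 * a * p * q * b - 2 * p ^ 2 * (a * c) - 2 * a ^ 2 * q ^ 2 := by ring
      rw [h3, hac]; ring
    have ha2 : 0 < a ^ 2 := by positivity
    by_contra hcon
    push Not at hcon
    have := mul_pos ha2 hcon
    rw [key] at this
    nlinarith [sq_nonneg (p * b - q * a)]

section weights

variable {ι : Type*} [Fintype ι] [DecidableEq ι]

/-- Squared Vandermonde product of a transversal. -/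
def van (x : ι → Bool → ℝ) (s : ι → Bool) : ℝ :=
  ∏ i, ∏ j, if i = j then 1 else |x i (s i) - x j (s j)|

/-- The weight `V(S)² ∏ ω`. -/
def wt (x ω : ι → Bool → ℝ) (s : ι → Bool) : ℝ := (∏ i, ω i (s i)) * van x s

/-- All `2k` nodes are distinct. -/
def Dist (x : ι → Bool → ℝ) : Prop := ∀ i j σ τ, (i ≠ j ∨ σ ≠ τ) → x i σ ≠ x j τ

/-- Compatible families (the value at the opposite end of a pair is symmetric). -/
def Compat (x : ι → Bool → ℝ) (w : (ι → Bool) → V) : Prop :=
  ∀ s i, ev (x i (!(s i))) (w s) = ev (x i (s i)) (w (Function.update s i (!(s i))))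

omit [Fintype ι] in
lemma Compat.comb {x : ι → Bool → ℝ} {w v : (ι → Bool) → V} (hw : Compat x w) (hv : Compat x v)
    (α β : ℝ) : Compat x (fun s => α • w s - β • v s) := by
  intro s i
  simp only [ev_comb, hw s i, hv s i]

lemma prod_update (f : ι → Bool → ℝ) (s : ι → Bool) (i : ι) (τ : Bool) :
    (∏ j, f j (s j)) * f i τ = (∏ j, f j (Function.update s i τ j)) * f i (s i) := by
  rw [← Finset.mul_prod_erase univ (fun j => f j (s j)) (mem_univ i),
    ← Finset.mul_prod_erase univ (fun j => f j (Function.update s i τ j)) (mem_univ i)]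
  have : ∏ j ∈ univ.erase i, f j (Function.update s i τ j) = ∏ j ∈ univ.erase i, f j (s j) := by
    refine Finset.prod_congr rfl fun j hj => ?_
    rw [Function.update_of_ne (Finset.ne_of_mem_erase hj)]
  rw [this, Function.update_self]
  ring

lemma Compat.null (x : ι → Bool → ℝ) (ν : V) :
    Compat x (fun s => (∏ i, ev (x i (s i)) ν) • ν) := by
  intro s i
  simp only [ev_smul]
  exact prod_update (fun j σ => ev (x j σ) ν) s i (!(s i))

lemma van_pos {x : ι → Bool → ℝ} (hx : Dist x) (s : ι → Bool) : 0 < van x s := by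
  refine Finset.prod_pos fun i _ => Finset.prod_pos fun j _ => ?_
  split_ifs with h
  · exact one_pos
  · exact abs_pos.2 (sub_ne_zero.2 (hx i j _ _ (Or.inl h)))

lemma wt_pos {x ω : ι → Bool → ℝ} (hx : Dist x) (hω : ∀ i σ, 0 < ω i σ) (s : ι → Bool) :
    0 < wt x ω s :=
  mul_pos (Finset.prod_pos fun i _ => hω i _) (van_pos hx s)

end weights

/-- Splitting a sum over `Fin (k+1) → Bool`. -/
lemma sum_cons {k : ℕ} (F : (Fin (k + 1) → Bool) → ℝ) :
    ∑ s, F s = ∑ s : Fin k → Bool, F (Fin.cons true s) + ∑ s : Fin k → Bool, F (Fin.cons false s) := by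
  rw [← (Fin.consEquiv (fun _ : Fin (k + 1) => Bool)).sum_comp, Fintype.sum_prod_type]
  simp [Fin.consEquiv]

lemma van_cons {k : ℕ} (x : Fin (k + 1) → Bool → ℝ) (σ : Bool) (s : Fin k → Bool) :
    van x (Fin.cons σ s : Fin (k + 1) → Bool)
      = (∏ i, (x (Fin.succ i) (s i) - x 0 σ) ^ 2) * van (fun i => x (Fin.succ i)) s := by
  unfold van
  rw [Fin.prod_univ_succ]
  simp only [Fin.prod_univ_succ (n := k), Fin.cons_zero, Fin.cons_succ, if_true, one_mul,
    Fin.succ_ne_zero, if_false, Fin.succ_inj, Finset.prod_mul_distrib]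
  have h0 : ∀ j : Fin k, ((0 : Fin (k + 1)) = Fin.succ j) = False := fun j => by
    simp [(Fin.succ_ne_zero j).symm]
  simp only [h0, if_false]
  rw [← mul_assoc, ← Finset.prod_mul_distrib]
  congr 1
  refine Finset.prod_congr rfl fun i _ => ?_
  rw [abs_sub_comm, ← sq, sq_abs]

lemma wt_cons {k : ℕ} (x ω : Fin (k + 1) → Bool → ℝ) (σ : Bool) (s : Fin k → Bool) :
    wt x ω (Fin.cons σ s : Fin (k + 1) → Bool)
      = ω 0 σ * wt (fun i => x (Fin.succ i))
          (fun i τ => ω (Fin.succ i) τ * (x (Fin.succ i) τ - x 0 σ) ^ 2) s := by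
  unfold wt
  rw [van_cons, Fin.prod_univ_succ]
  simp only [Fin.cons_zero, Fin.cons_succ, Finset.prod_mul_distrib]
  ring

/-- **Lemma A.** -/
theorem lemmaA : ∀ (k : ℕ) (x ω : Fin k → Bool → ℝ) (ν : V) (w : (Fin k → Bool) → V),
    (∀ i σ, 0 < ω i σ) → Dist x → ν ≠ 0 → B ν ν = 0 → (∀ i σ, 0 < ev (x i σ) ν) →
    Compat x w → ∑ s, wt x ω s * ((∏ i, ev (x i (s i)) ν) * B (w s) ν) = 0 →
    ∑ s, wt x ω s * B (w s) (w s) ≤ 0 := by
  intro k
  induction k with
  | zero =>
    intro x ω ν w hω hx hν h0 hpos hw h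
    rw [Finset.univ_unique, Finset.sum_singleton] at h ⊢
    have hp := wt_pos hx hω
    simp only [Finset.univ_eq_empty, Finset.prod_empty, one_mul] at h
    rcases mul_eq_zero.1 h with h1 | h1
    · exact absurd h1 (hp _).ne'
    · exact mul_nonpos_of_nonneg_of_nonpos (hp _).le (base _ ν hν h0 h1)
  | succ k ih =>
    intro x ω ν w hω hx hν h0 hpos hw h
    set xs : Fin k → Bool → ℝ := fun i => x (Fin.succ i) with hxs
    set om : Bool → Fin k → Bool → ℝ :=
      fun σ i τ => ω (Fin.succ i) τ * (x (Fin.succ i) τ - x 0 σ) ^ 2 with hom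
    have hdist : Dist xs := by
      intro i j σ τ hij
      exact hx _ _ _ _ (hij.imp (fun h => by simpa [Fin.succ_inj] using h) id)
    have hompos : ∀ σ i τ, 0 < om σ i τ := by
      intro σ i τ
      have : x (Fin.succ i) τ - x 0 σ ≠ 0 :=
        sub_ne_zero.2 (hx _ _ _ _ (Or.inl (Fin.succ_ne_zero i)))
      simp only [hom]
      exact mul_pos (hω _ _) (by positivity)
    -- the functional κ
    set K : Bool → ((Fin (k + 1) → Bool) → V) → ℝ := fun σ v =>
      ∑ s : Fin k → Bool, wt xs (om σ) s *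
        ((∏ i, ev (xs i (s i)) (nul (x 0 (!σ)))) *
          B (v (Fin.cons σ s : Fin (k + 1) → Bool)) (nul (x 0 (!σ)))) with hKdef
    have hKsymm : ∀ v, Compat x v → K false v = K true v := by
      intro v hv
      simp only [hKdef]
      refine Finset.sum_congr rfl fun s _ => ?_
      have hc := hv (Fin.cons true s : Fin (k + 1) → Bool) 0
      simp only [Fin.cons_zero, Bool.not_true, Fin.update_cons_zero] at hc
      simp only [B_nul, ev_nul, Bool.not_true, Bool.not_false]
      rw [hc]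
      have e1 : wt xs (om true) s * ∏ i, (xs i (s i) - x 0 false) ^ 2
          = wt xs (om false) s * ∏ i, (xs i (s i) - x 0 true) ^ 2 := by
        simp only [wt, hom, hxs, Finset.prod_mul_distrib]
        ring
      rw [← mul_assoc, ← mul_assoc, e1]
    have hKcomb : ∀ σ v v' α β, K σ (fun s => α • v s - β • v' s) = α * K σ v - β * K σ v' := by
      intro σ v v' α β
      simp only [hKdef, B_nul, ev_comb]
      rw [Finset.mul_sum, Finset.mul_sum, ← Finset.sum_sub_distrib]
      refine Finset.sum_congr rfl fun s _ => ?_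
      ring
    -- splitting of the form
    have hsplit : ∀ v : (Fin (k + 1) → Bool) → V, ∑ s, wt x ω s * B (v s) (v s)
        = ω 0 true * (∑ s : Fin k → Bool, wt xs (om true) s *
            B (v (Fin.cons true s : Fin (k + 1) → Bool)) (v (Fin.cons true s : Fin (k + 1) → Bool)))
        + ω 0 false * (∑ s : Fin k → Bool, wt xs (om false) s *
            B (v (Fin.cons false s : Fin (k + 1) → Bool))
              (v (Fin.cons false s : Fin (k + 1) → Bool))) := by
      intro v
      rw [sum_cons, Finset.mul_sum, Finset.mul_sum]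
      congr 1 <;>
      · refine Finset.sum_congr rfl fun s _ => ?_
        rw [wt_cons, mul_assoc]
    -- the null family
    set n : (Fin (k + 1) → Bool) → V := fun s => (∏ i, ev (x i (s i)) ν) • ν with hn
    have hncompat : Compat x n := Compat.null x ν
    have hκn : 0 < K true n := by
      simp only [hKdef, B_nul, ev_nul, hn, ev_smul, Bool.not_true]
      refine Finset.sum_pos (fun s _ => ?_) Finset.univ_nonempty
      refine mul_pos (wt_pos hdist (hompos true) s) (mul_pos (Finset.prod_pos fun i _ => ?_)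
        (mul_pos (Finset.prod_pos fun i _ => hpos _ _) (hpos _ _)))
      have : xs i (s i) - x 0 false ≠ 0 :=
        sub_ne_zero.2 (hx _ _ _ _ (Or.inl (Fin.succ_ne_zero i)))
      positivity
    set α := K true n with hα
    set β := K true w with hβ
    set v : (Fin (k + 1) → Bool) → V := fun s => α • w s - β • n s with hv
    have hvcompat : Compat x v := hw.comb hncompat α β
    have hKv : ∀ σ, K σ v = 0 := by
      intro σ
      cases σ with
      | false =>
        rw [hv, hKcomb, hKsymm w hw, hKsymm n hncompat]; ring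
      | true =>
        rw [hv, hKcomb]; ring
    have hpart : ∀ σ, ∑ s : Fin k → Bool, wt xs (om σ) s *
        B (v (Fin.cons σ s : Fin (k + 1) → Bool)) (v (Fin.cons σ s : Fin (k + 1) → Bool)) ≤ 0 := by
      intro σ
      refine ih xs (om σ) (nul (x 0 (!σ))) (fun s => v (Fin.cons σ s : Fin (k + 1) → Bool))
        (hompos σ) hdist ?_ ?_ ?_ ?_ ?_
      · intro h1
        have : (nul (x 0 (!σ))).1 = (0 : V).1 := by rw [h1]
        simp [nul] at this
      · simp only [B, nul]; ring
      · intro i τ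
        rw [ev_nul]
        have : xs i τ - x 0 (!σ) ≠ 0 :=
          sub_ne_zero.2 (hx _ _ _ _ (Or.inl (Fin.succ_ne_zero i)))
        positivity
      · intro s i
        have h1 := hvcompat (Fin.cons σ s : Fin (k + 1) → Bool) (Fin.succ i)
        simp only [Fin.cons_succ] at h1
        rw [← Fin.cons_update] at h1
        exact h1
      · exact hKv σ
    have hle : ∑ s, wt x ω s * B (v s) (v s) ≤ 0 := by
      rw [hsplit v]
      have h1 := mul_nonpos_of_nonneg_of_nonpos (hω 0 true).le (hpart true)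
      have h2 := mul_nonpos_of_nonneg_of_nonpos (hω 0 false).le (hpart false)
      linarith
    have hexp : ∑ s, wt x ω s * B (v s) (v s) = α ^ 2 * ∑ s, wt x ω s * B (w s) (w s) := by
      have e : ∀ s, wt x ω s * B (v s) (v s) = α ^ 2 * (wt x ω s * B (w s) (w s))
          - 2 * α * β * (wt x ω s * ((∏ i, ev (x i (s i)) ν) * B (w s) ν)) := by
        intro s
        simp only [hv, B_comb, hn, B_smul_right, B_smul_left, h0]
        ring
      simp only [e]
      rw [Finset.sum_sub_distrib, ← Finset.mul_sum, ← Finset.mul_sum, h]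
      ring
    rw [hexp] at hle
    by_contra hcon
    push Not at hcon
    have := mul_pos (pow_pos hκn 2) hcon
    linarith

section transfer

variable {ι : Type*} [Fintype ι] [DecidableEq ι]

/-- Lemma A for a general finite index type. -/
theorem lemmaA' (x ω : ι → Bool → ℝ) (ν : V) (w : (ι → Bool) → V)
    (hω : ∀ i σ, 0 < ω i σ) (hx : Dist x) (hν : ν ≠ 0) (h0 : B ν ν = 0)
    (hpos : ∀ i σ, 0 < ev (x i σ) ν) (hw : Compat x w)
    (h : ∑ s, wt x ω s * ((∏ i, ev (x i (s i)) ν) * B (w s) ν) = 0) :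
    ∑ s, wt x ω s * B (w s) (w s) ≤ 0 := by
  classical
  obtain ⟨e⟩ : Nonempty (ι ≃ Fin (Fintype.card ι)) := ⟨Fintype.equivFin ι⟩
  set E : (ι → Bool) ≃ (Fin (Fintype.card ι) → Bool) := Equiv.arrowCongr e (Equiv.refl Bool) with hE
  have hEs : ∀ (s : Fin (Fintype.card ι) → Bool) (i : ι), E.symm s i = s (e i) := by
    intro s i; simp [hE, Equiv.arrowCongr]
  set x' : Fin (Fintype.card ι) → Bool → ℝ := fun i => x (e.symm i) with hx'
  set ω' : Fin (Fintype.card ι) → Bool → ℝ := fun i => ω (e.symm i) with hω'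
  have hwt : ∀ s, wt x' ω' s = wt x ω (E.symm s) := by
    intro s
    simp only [wt, van, hx', hω', hEs]
    congr 1
    · rw [← e.prod_comp]; simp
    · rw [← e.prod_comp]
      refine Finset.prod_congr rfl fun i _ => ?_
      rw [← e.prod_comp]
      refine Finset.prod_congr rfl fun j _ => ?_
      simp [e.injective.eq_iff]
  have key := lemmaA (Fintype.card ι) x' ω' ν (fun s => w (E.symm s)) (fun i σ => hω _ _)
    (fun i j σ τ hij => hx _ _ _ _ (hij.imp (fun h1 h2 => h1 (e.symm.injective h2)) id))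
    hν h0 (fun i σ => hpos _ _) ?_ ?_
  · rw [← E.symm.sum_comp]
    simpa only [hwt] using key
  · intro s i
    have h1 := hw (E.symm s) (e.symm i)
    simp only [hEs, Equiv.apply_symm_apply] at h1
    have h2 : Function.update (E.symm s) (e.symm i) (!(s i)) = E.symm (Function.update s i (!(s i))) := by
      funext j
      rw [hEs]
      by_cases hj : j = e.symm i
      · subst hj; simp
      · rw [Function.update_of_ne hj, Function.update_of_ne, hEs]
        intro h3; exact hj (by rw [← h3]; simp)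
    rw [h2] at h1
    exact h1
  · rw [← E.symm.sum_comp] at h
    rw [← h]
    refine Finset.sum_congr rfl fun s _ => ?_
    rw [hwt]
    congr 2
    rw [← e.prod_comp]
    simp [hx', hEs]

/-- `Q(x) = |x - z|²` for `z = u + i y`. -/
def Qz (u y : ℝ) : V := (1, -u, u ^ 2 + y ^ 2)

lemma ev_Qz (u y x : ℝ) : ev x (Qz u y) = (x - u) ^ 2 + y ^ 2 := by
  simp only [ev, Qz]; ring

lemma ev_Qz_pos {u y : ℝ} (hy : 0 < y) (x : ℝ) : 0 < ev x (Qz u y) := by
  rw [ev_Qz]; positivity

/-- The value `h(x) = l(x)/Q(x)`. -/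
noncomputable def hh (u y : ℝ) (l : V) (x : ℝ) : ℝ := ev x l / ev x (Qz u y)

/-- `H_s = ∑ h` over the transversal. -/
noncomputable def HH (u y : ℝ) (l : V) (x : ι → Bool → ℝ) (s : ι → Bool) : ℝ :=
  ∑ i, hh u y l (x i (s i))

/-- `Q_s = ∏ Q` over the transversal. -/
noncomputable def QQ (u y : ℝ) (x : ι → Bool → ℝ) (s : ι → Bool) : ℝ :=
  ∏ i, ev (x i (s i)) (Qz u y)

omit [DecidableEq ι] in
lemma QQ_pos {u y : ℝ} (hy : 0 < y) (x : ι → Bool → ℝ) (s : ι → Bool) : 0 < QQ u y x s :=
  Finset.prod_pos fun _ _ => ev_Qz_pos hy _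

lemma sum_update (f : ι → Bool → ℝ) (s : ι → Bool) (i : ι) (τ : Bool) :
    (∑ j, f j (s j)) + f i τ = (∑ j, f j (Function.update s i τ j)) + f i (s i) := by
  rw [← Finset.add_sum_erase univ (fun j => f j (s j)) (mem_univ i),
    ← Finset.add_sum_erase univ (fun j => f j (Function.update s i τ j)) (mem_univ i)]
  have : ∑ j ∈ univ.erase i, f j (Function.update s i τ j) = ∑ j ∈ univ.erase i, f j (s j) := by
    refine Finset.sum_congr rfl fun j hj => ?_
    rw [Function.update_of_ne (Finset.ne_of_mem_erase hj)]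
  rw [this, Function.update_self]
  ring

/-- **Lemma B** (the step). -/
theorem lemmaB (x ω : ι → Bool → ℝ) (hω : ∀ i σ, 0 < ω i σ) (hx : Dist x) {u y : ℝ} (hy : 0 < y)
    (l : V) (hl : B l l = 0) (hBl : 0 < B (Qz u y) l) (lam : ℝ)
    (hlam : ∑ s, wt x ω s * QQ u y x s * (HH u y l x s - lam + l.1) = 0) :
    ∑ s, wt x ω s * QQ u y x s ^ 2 * (HH u y l x s - lam) ≤ 0 := by
  set w : (ι → Bool) → V := fun s =>
    (QQ u y x s * (HH u y l x s - lam)) • Qz u y - (-QQ u y x s) • l with hw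
  have hev : ∀ s t, ev t (w s) = QQ u y x s * ev t (Qz u y) * (HH u y l x s - lam + hh u y l t) := by
    intro s t
    rw [hw]
    simp only [ev_comb]
    have := (ev_Qz_pos (u := u) hy t).ne'
    unfold hh
    field_simp
    ring
  have hcompat : Compat x w := by
    intro s i
    rw [hev, hev]
    have e1 := prod_update (fun j σ => ev (x j σ) (Qz u y)) s i (!(s i))
    have e2 := sum_update (fun j σ => hh u y l (x j σ)) s i (!(s i))
    have e1' : QQ u y x s * ev (x i (!(s i))) (Qz u y)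
        = QQ u y x (Function.update s i (!(s i))) * ev (x i (s i)) (Qz u y) := e1
    have e2' : HH u y l x s + hh u y l (x i (!(s i)))
        = HH u y l x (Function.update s i (!(s i))) + hh u y l (x i (s i)) := e2
    rw [e1']
    have e3 : HH u y l x s - lam + hh u y l (x i (!(s i)))
        = HH u y l x (Function.update s i (!(s i))) - lam + hh u y l (x i (s i)) := by linarith
    rw [e3]
  have hnu : ((0, 0, 1) : V) ≠ 0 := by
    intro h
    have : ((0, 0, 1) : V).2.2 = (0 : V).2.2 := by rw [h]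
    simp at this
  have hA := lemmaA' x ω (0, 0, 1) w hω hx hnu (by simp [B]) (by intro i σ; simp [ev]) hcompat ?_
  · have hBB : ∀ s, wt x ω s * B (w s) (w s) =
        2 * B (Qz u y) l * (wt x ω s * QQ u y x s ^ 2 * (HH u y l x s - lam))
        + 2 * y ^ 2 * (wt x ω s * QQ u y x s ^ 2 * (HH u y l x s - lam) ^ 2) := by
      intro s
      have hQQ : B (Qz u y) (Qz u y) = 2 * y ^ 2 := by simp only [B, Qz]; ring
      simp only [hw, B_comb, hl, hQQ]
      ring
    simp only [hBB] at hA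
    rw [Finset.sum_add_distrib, ← Finset.mul_sum, ← Finset.mul_sum] at hA
    have hnn : 0 ≤ ∑ s, wt x ω s * QQ u y x s ^ 2 * (HH u y l x s - lam) ^ 2 :=
      Finset.sum_nonneg fun s _ => by
        have := (wt_pos hx hω s).le
        positivity
    by_contra hcon
    push Not at hcon
    have h1 := mul_pos (mul_pos two_pos hBl) hcon
    have h2 := mul_nonneg (by positivity : (0 : ℝ) ≤ 2 * y ^ 2) hnn
    linarith
  · refine Eq.trans (Finset.sum_congr rfl fun s _ => ?_) hlam
    have h1 : B (w s) (0, 0, 1) = QQ u y x s * (HH u y l x s - lam + l.1) := by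
      simp only [hw, B, Qz, Prod.fst_sub, Prod.snd_sub, Prod.smul_fst, Prod.smul_snd, smul_eq_mul]
      ring
    have h2 : (∏ i, ev (x i (s i)) ((0, 0, 1) : V)) = 1 :=
      Finset.prod_eq_one fun i _ => by simp [ev]
    rw [h1, h2]
    ring

/-- **Claim G for `n = 4`.**  The weights `ω` are such that `ω_i(σ) ∏_{j ≠ i} |x_i(σ) - x_j(⊤)| |x_i(σ) - x_j(⊥)|`
does not depend on `σ`. -/
theorem claimG4 (x ω : ι → Bool → ℝ) (hω : ∀ i σ, 0 < ω i σ) (hx : Dist x) (r : ι → ℝ)
    (hr : ∀ i σ, ω i σ * (∏ j, if i = j then 1 else |x i σ - x j true| * |x i σ - x j false|) = r i)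
    {u y : ℝ} (hy : 0 < y) (l : V) (hl : B l l = 0) (hBl : 0 < B (Qz u y) l) :
    ∑ s, wt x ω s * QQ u y x s ^ 2 *
      (HH u y l x s - (1 / 2) * (∑ i, (hh u y l (x i true) + hh u y l (x i false))) - 2 * l.1) ≤ 0 := by
  classical
  have hZ1 : 0 < ∑ s, wt x ω s * QQ u y x s :=
    Finset.sum_pos (fun s _ => mul_pos (wt_pos hx hω s) (QQ_pos hy x s)) Finset.univ_nonempty
  have hZ0 : 0 < ∑ s, wt x ω s :=
    Finset.sum_pos (fun s _ => wt_pos hx hω s) Finset.univ_nonempty
  set Sg := ∑ i, (hh u y l (x i true) + hh u y l (x i false)) with hSg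
  -- symmetry under the complement
  have hcomp : ∀ s : ι → Bool, wt x ω (fun i => !(s i)) = wt x ω s := by
    intro s
    have hform : ∀ s : ι → Bool, wt x ω s * (∏ i, ∏ j, if i = j then 1 else |x i (s i) - x j (!(s j))|)
        = ∏ i, r i := by
      intro s
      rw [wt, mul_assoc, van, ← Finset.prod_mul_distrib, ← Finset.prod_mul_distrib]
      refine Finset.prod_congr rfl fun i _ => ?_
      rw [← hr i (s i), ← Finset.prod_mul_distrib]
      congr 1
      refine Finset.prod_congr rfl fun j _ => ?_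
      by_cases hij : i = j
      · simp [hij]
      · simp only [hij, if_false]
        cases s j
        · simp [mul_comm]
        · simp
    have h1 := hform s
    have h2 := hform (fun i => !(s i))
    have h3 : (∏ i, ∏ j, if i = j then 1 else |x i (!(s i)) - x j (!(!(s j)))|)
        = ∏ i, ∏ j, if i = j then 1 else |x i (s i) - x j (!(s j))| := by
      rw [Finset.prod_comm]
      refine Finset.prod_congr rfl fun i _ => Finset.prod_congr rfl fun j _ => ?_
      by_cases hij : i = j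
      · simp [hij]
      · have hji : ¬ (j = i) := fun h => hij h.symm
        simp only [hij, hji, if_false, Bool.not_not]
        rw [abs_sub_comm]
    have hpos : 0 < ∏ i, ∏ j, if i = j then (1 : ℝ) else |x i (s i) - x j (!(s j))| := by
      refine Finset.prod_pos fun i _ => Finset.prod_pos fun j _ => ?_
      split_ifs with h
      · exact one_pos
      · exact abs_pos.2 (sub_ne_zero.2 (hx i j _ _ (Or.inl h)))
    rw [h3] at h2
    exact mul_right_cancel₀ hpos.ne' (h2.trans h1.symm)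
  have hsum0 : ∑ s, wt x ω s * (HH u y l x s - (1 / 2) * Sg) = 0 := by
    have hinv : ∑ s, wt x ω s * (HH u y l x s - (1 / 2) * Sg)
        = ∑ s, wt x ω s * (HH u y l x (fun i => !(s i)) - (1 / 2) * Sg) := by
      have hbij : Function.Bijective (fun s : ι → Bool => fun i => !(s i)) := by
        refine Function.Involutive.bijective fun s => ?_
        funext i; simp
      rw [← hbij.sum_comp]
      refine Finset.sum_congr rfl fun s _ => ?_
      rw [hcomp s]
    have hadd : ∀ s : ι → Bool, HH u y l x s + HH u y l x (fun i => !(s i)) = Sg := by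
      intro s
      rw [HH, HH, ← Finset.sum_add_distrib, hSg]
      refine Finset.sum_congr rfl fun i _ => ?_
      cases s i <;> simp [add_comm]
    have h2 : ∑ s, wt x ω s * (HH u y l x s - (1 / 2) * Sg)
        + ∑ s, wt x ω s * (HH u y l x (fun i => !(s i)) - (1 / 2) * Sg) = 0 := by
      rw [← Finset.sum_add_distrib]
      refine Finset.sum_eq_zero fun s _ => ?_
      have := hadd s
      rw [← mul_add]
      have : HH u y l x s - 1 / 2 * Sg + (HH u y l x (fun i => !(s i)) - 1 / 2 * Sg) = 0 := by linarith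
      rw [this, mul_zero]
    linarith
  -- first application of Lemma B, weights ω/Q
  set om' : ι → Bool → ℝ := fun i σ => ω i σ / ev (x i σ) (Qz u y) with hom'
  have hom'pos : ∀ i σ, 0 < om' i σ := fun i σ => div_pos (hω i σ) (ev_Qz_pos hy _)
  have hwt' : ∀ s, wt x om' s * QQ u y x s = wt x ω s := by
    intro s
    have hq := (QQ_pos (u := u) hy x s).ne'
    simp only [wt, hom', Finset.prod_div_distrib]
    have : (∏ i, ev (x i (s i)) (Qz u y)) = QQ u y x s := rfl
    rw [this]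
    field_simp
  have hB0 := lemmaB x om' hom'pos hx hy l hl hBl ((1 / 2) * Sg + l.1) (by
    rw [← hsum0]
    refine Finset.sum_congr rfl fun s _ => ?_
    rw [hwt']; ring)
  have hB0' : ∑ s, wt x ω s * QQ u y x s * (HH u y l x s - ((1 / 2) * Sg + l.1)) ≤ 0 := by
    refine le_of_eq_of_le (Finset.sum_congr rfl fun s _ => ?_) hB0
    rw [← hwt' s]; ring
  -- the multiplier
  set Z1 := ∑ s, wt x ω s * QQ u y x s with hZ1def
  set A1 := ∑ s, wt x ω s * QQ u y x s * HH u y l x s with hA1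
  have hA1le : A1 / Z1 ≤ (1 / 2) * Sg + l.1 := by
    rw [div_le_iff₀ hZ1]
    have : ∑ s, wt x ω s * QQ u y x s * (HH u y l x s - ((1 / 2) * Sg + l.1))
        = A1 - ((1 / 2) * Sg + l.1) * Z1 := by
      have e : ∀ s, wt x ω s * QQ u y x s * (HH u y l x s - ((1 / 2) * Sg + l.1))
          = wt x ω s * QQ u y x s * HH u y l x s
            - ((1 / 2) * Sg + l.1) * (wt x ω s * QQ u y x s) := by
        intro s; ring
      simp only [e]
      rw [Finset.sum_sub_distrib, ← Finset.mul_sum]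
    linarith
  have hB1 := lemmaB x ω hω hx hy l hl hBl (A1 / Z1 + l.1) (by
    have : ∀ s, wt x ω s * QQ u y x s * (HH u y l x s - (A1 / Z1 + l.1) + l.1)
        = wt x ω s * QQ u y x s * HH u y l x s - (A1 / Z1) * (wt x ω s * QQ u y x s) := by
      intro s; ring
    simp only [this]
    rw [Finset.sum_sub_distrib, ← Finset.mul_sum, ← hA1, ← hZ1def]
    field_simp
    ring)
  refine le_trans (Finset.sum_le_sum fun s _ => ?_) hB1
  refine mul_le_mul_of_nonneg_left ?_ ?_
  · linarith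
  · exact mul_nonneg (wt_pos hx hω s).le (by positivity)

end transfer

end Pool.Agent.Lib.MP4cd976.G4
end

section
/-!
# Claim C from Claim D (MP_4cd976_an)

`p i s` (`s : Bool`) are the two points of the pair `i`; `e : ι → Bool` is a transversal.
-/
set_option autoImplicit false
set_option linter.unusedSectionVars false

open Finset

namespace Pool.Agent.MP_4cd976_an.Sixth

variable {ι : Type} [Fintype ι] [DecidableEq ι]

/-- `∏_{i ≠ j} |x_i(e) - x_j(¬ e)|⁻¹` -/
noncomputable def cw (p : ι → Bool → ℝ) (e : ι → Bool) : ℝ :=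
  ∏ i, ∏ j, if i = j then 1 else |p i (e i) - p j (! e j)|⁻¹

/-- `∏_{i ≠ j} |x_i(e) - x_j(e)|` -/
noncomputable def V2 (p : ι → Bool → ℝ) (e : ι → Bool) : ℝ :=
  ∏ i, ∏ j, if i = j then 1 else |p i (e i) - p j (e j)|

/-- `∏_{i ≠ j} |x_j(s) - a_i| |x_j(s) - b_i|` -/
noncomputable def DD (p : ι → Bool → ℝ) (j : ι) (s : Bool) : ℝ :=
  ∏ i, if j = i then 1 else |p j s - p i true| * |p j s - p i false|

/-- the difference field of a transversal -/
noncomputable def JJ (p : ι → Bool → ℝ) (z : ℂ) (e : ι → Bool) : ℂ :=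
  ∑ j, ((z - p j (e j))⁻¹ - (z - p j (! e j))⁻¹)

/-- Claim D for one configuration. -/
def ClaimD (p : ι → Bool → ℝ) (z : ℂ) : Prop :=
  ‖∑ e : ι → Bool, ((cw p e * ∏ j, ‖z - p j (e j)‖ ^ 4 : ℝ) : ℂ) *
      (2 + Complex.I * z.im * JJ p z e)‖ ≤
    2 * ∑ e : ι → Bool, cw p e * ∏ j, ‖z - p j (e j)‖ ^ 4

section split

variable (p : ι → Bool → ℝ) (d : ι → Bool)

abbrev TT : Type := {j : ι // d j = false}
abbrev NN : Type := {j : ι // ¬ d j = false}

/-- the transversal with values `t` on `T` and `u` outside -/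
def mk (t : TT d → Bool) (u : NN d → Bool) : ι → Bool :=
  fun j => if h : d j = false then t ⟨j, h⟩ else u ⟨j, h⟩

lemma mk_T (t : TT d → Bool) (u : NN d → Bool) (j : TT d) : mk d t u j.1 = t j := by
  simp [mk, j.2]

lemma mk_N (t : TT d → Bool) (u : NN d → Bool) (j : NN d) : mk d t u j.1 = u j := by
  simp only [mk]
  rw [dif_neg j.2]

lemma dT (j : TT d) : d j.1 = false := j.2

lemma dN (j : NN d) : d j.1 = true := by
  have h := j.2
  simpa using h

lemma prod_TN {M : Type} [CommMonoid M] (f : ι → M) :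
    ∏ i, f i = (∏ i : TT d, f i.1) * ∏ i : NN d, f i.1 :=
  (Fintype.prod_subtype_mul_prod_subtype (fun j => d j = false) f).symm

lemma sum_TN {M : Type} [AddCommMonoid M] (f : ι → M) :
    ∑ i, f i = (∑ i : TT d, f i.1) + ∑ i : NN d, f i.1 :=
  (Fintype.sum_subtype_add_sum_subtype (fun j => d j = false) f).symm

lemma prod2_TN {M : Type} [CommMonoid M] (f : ι → ι → M) :
    ∏ i, ∏ j, f i j =
      ((∏ i : TT d, ∏ j : TT d, f i.1 j.1) * ∏ i : TT d, ∏ j : NN d, (f i.1 j.1 * f j.1 i.1)) *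
        ∏ i : NN d, ∏ j : NN d, f i.1 j.1 := by
  have h1 : ∀ i, ∏ j, f i j = (∏ j : TT d, f i j.1) * ∏ j : NN d, f i j.1 := fun i => prod_TN d _
  simp only [h1]
  rw [prod_TN d]
  simp only [Finset.prod_mul_distrib]
  have h2 : (∏ i : NN d, ∏ j : TT d, f i.1 j.1) = ∏ i : TT d, ∏ j : NN d, f j.1 i.1 :=
    Finset.prod_comm
  rw [h2]
  ac_rfl

/-- the part of the weight which only depends on `u` -/
noncomputable def UU (F G : ι → Bool → ℝ) (ν : ι → ℝ) (u : NN d → Bool) : ℝ :=
  Real.sqrt (∏ i : NN d, ∏ j : NN d, if i.1 = j.1 then 1 else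
      |p i.1 (u i) - p j.1 (u j)| * |p i.1 (! u i) - p j.1 (! u j)|) *
    ((∏ j : TT d, (ν j.1)⁻¹) * ∏ j : NN d, (F j.1 (u j) * G j.1 (! u j))⁻¹)

lemma V2_nonneg (e : ι → Bool) : 0 ≤ V2 p e := by
  refine Finset.prod_nonneg fun i _ => Finset.prod_nonneg fun j _ => ?_
  split_ifs
  · exact zero_le_one
  · exact abs_nonneg _

lemma abs_two (x : ℝ) (f : Bool → ℝ) (s : Bool) :
    |x - f s| * |x - f (! s)| = |x - f true| * |x - f false| := by
  cases s <;> simp [mul_comm]

lemma V2_split (t : TT d → Bool) (u : NN d → Bool) :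
    V2 p (mk d t u) * V2 p (fun j => xor (mk d t u j) (d j)) =
      ((∏ i : TT d, ∏ j : TT d, if i = j then 1 else |p i.1 (t i) - p j.1 (t j)|) *
        ∏ i : TT d, ∏ j : NN d, (|p i.1 (t i) - p j.1 true| * |p i.1 (t i) - p j.1 false|)) ^ 2 *
      ∏ i : NN d, ∏ j : NN d, if i.1 = j.1 then 1 else
        |p i.1 (u i) - p j.1 (u j)| * |p i.1 (! u i) - p j.1 (! u j)| := by
  have h0 : V2 p (mk d t u) * V2 p (fun j => xor (mk d t u j) (d j)) =
      ∏ i, ∏ j, ((if i = j then 1 else |p i (mk d t u i) - p j (mk d t u j)|) *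
        (if i = j then 1 else |p i (xor (mk d t u i) (d i)) - p j (xor (mk d t u j) (d j))|)) := by
    simp only [V2, Finset.prod_mul_distrib]
  rw [h0, prod2_TN d]
  simp only [dT, dN, Bool.xor_false, Bool.xor_true, mk_T, mk_N]
  congr 1
  · rw [mul_pow]
    congr 1
    · rw [← Finset.prod_pow]
      refine Finset.prod_congr rfl fun i _ => ?_
      rw [← Finset.prod_pow]
      refine Finset.prod_congr rfl fun j _ => ?_
      by_cases h : i = j
      · subst h; simp
      · have h' : ¬ i.1 = j.1 := fun h' => h (Subtype.ext h')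
        simp only [h, h', if_false]
        ring
    · rw [← Finset.prod_pow]
      refine Finset.prod_congr rfl fun i _ => ?_
      rw [← Finset.prod_pow]
      refine Finset.prod_congr rfl fun j _ => ?_
      have h1 : ¬ i.1 = j.1 := fun h => j.2 (h ▸ i.2)
      have h2 : ¬ j.1 = i.1 := fun h => h1 h.symm
      simp only [h1, h2, if_false]
      rw [abs_two, abs_sub_comm (p j.1 (u j)), abs_sub_comm (p j.1 (! u j)), abs_two]
      ring
  · refine Finset.prod_congr rfl fun i _ => ?_
    refine Finset.prod_congr rfl fun j _ => ?_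
    by_cases h : i.1 = j.1
    · simp [h]
    · simp only [h, if_false]

lemma weight_split (hp : ∀ i j, i ≠ j → ∀ s t, p i s ≠ p j t) (F G : ι → Bool → ℝ) (ν : ι → ℝ)
    (hFG : ∀ j s, F j s * G j s = ν j * DD p j s)
    (t : TT d → Bool) (u : NN d → Bool) :
    (Real.sqrt (V2 p (mk d t u)) * ∏ j, (F j (mk d t u j))⁻¹) *
      (Real.sqrt (V2 p (fun j => xor (mk d t u j) (d j))) *
        ∏ j, (G j (xor (mk d t u j) (d j)))⁻¹) =
      cw (fun i : TT d => p i.1) t * UU p d F G ν u := by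
  have h1 : Real.sqrt (V2 p (mk d t u)) * Real.sqrt (V2 p (fun j => xor (mk d t u j) (d j))) =
      ((∏ i : TT d, ∏ j : TT d, if i = j then 1 else |p i.1 (t i) - p j.1 (t j)|) *
        ∏ i : TT d, ∏ j : NN d, (|p i.1 (t i) - p j.1 true| * |p i.1 (t i) - p j.1 false|)) *
      Real.sqrt (∏ i : NN d, ∏ j : NN d, if i.1 = j.1 then 1 else
        |p i.1 (u i) - p j.1 (u j)| * |p i.1 (! u i) - p j.1 (! u j)|) := by
    rw [← Real.sqrt_mul (V2_nonneg p _), V2_split, Real.sqrt_mul (sq_nonneg _), Real.sqrt_sq]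
    refine mul_nonneg ?_ ?_
    · refine Finset.prod_nonneg fun i _ => Finset.prod_nonneg fun j _ => ?_
      split_ifs
      · exact zero_le_one
      · exact abs_nonneg _
    · exact Finset.prod_nonneg fun i _ => Finset.prod_nonneg fun j _ =>
        mul_nonneg (abs_nonneg _) (abs_nonneg _)
  have h2 : (∏ j, (F j (mk d t u j))⁻¹) * (∏ j, (G j (xor (mk d t u j) (d j)))⁻¹) =
      (∏ j : TT d, (ν j.1 * DD p j.1 (t j))⁻¹) * ∏ j : NN d, (F j.1 (u j) * G j.1 (! u j))⁻¹ := by
    rw [← Finset.prod_mul_distrib, prod_TN d]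
    simp only [dT, dN, Bool.xor_false, Bool.xor_true, mk_T, mk_N]
    congr 1
    · refine Finset.prod_congr rfl fun j _ => ?_
      rw [← hFG, mul_inv]
    · refine Finset.prod_congr rfl fun j _ => ?_
      rw [mul_inv]
  have h3 : ∀ j : TT d, DD p j.1 (t j) =
      (∏ i : TT d, if j = i then 1 else |p j.1 (t j) - p i.1 true| * |p j.1 (t j) - p i.1 false|) *
      ∏ i : NN d, (|p j.1 (t j) - p i.1 true| * |p j.1 (t j) - p i.1 false|) := by
    intro j
    rw [DD, prod_TN d]
    congr 1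
    · refine Finset.prod_congr rfl fun i _ => ?_
      by_cases h : j = i
      · subst h; simp
      · have h' : ¬ j.1 = i.1 := fun h' => h (Subtype.ext h')
        simp only [h, h', if_false]
    · refine Finset.prod_congr rfl fun i _ => ?_
      have h1 : ¬ j.1 = i.1 := fun h => i.2 (h ▸ j.2)
      simp only [h1, if_false]
  have h4 : (∏ i : TT d, ∏ j : TT d, if i = j then 1 else |p i.1 (t i) - p j.1 (t j)|) *
      (∏ j : TT d, (∏ i : TT d, if j = i then 1 else
        |p j.1 (t j) - p i.1 true| * |p j.1 (t j) - p i.1 false|)⁻¹) =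
      cw (fun i : TT d => p i.1) t := by
    rw [← Finset.prod_mul_distrib, cw]
    refine Finset.prod_congr rfl fun i _ => ?_
    rw [← Finset.prod_inv_distrib, ← Finset.prod_mul_distrib]
    refine Finset.prod_congr rfl fun j _ => ?_
    by_cases h : i = j
    · simp [h]
    · simp only [h, if_false]
      have h' : i.1 ≠ j.1 := fun h' => h (Subtype.ext h')
      have h5 : |p i.1 (t i) - p j.1 (t j)| ≠ 0 :=
        abs_ne_zero.mpr (sub_ne_zero.mpr (hp _ _ h' _ _))
      rw [← abs_two _ _ (t j), mul_inv, ← mul_assoc, mul_inv_cancel₀ h5, one_mul]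
  have h5 : (∏ i : TT d, ∏ j : NN d,
        (|p i.1 (t i) - p j.1 true| * |p i.1 (t i) - p j.1 false|)) *
      (∏ i : TT d, (∏ j : NN d,
        (|p i.1 (t i) - p j.1 true| * |p i.1 (t i) - p j.1 false|))⁻¹) = 1 := by
    rw [← Finset.prod_mul_distrib]
    refine Finset.prod_eq_one fun i _ => ?_
    refine mul_inv_cancel₀ (Finset.prod_ne_zero_iff.mpr fun j _ => ?_)
    have h' : i.1 ≠ j.1 := fun h => j.2 (h ▸ i.2)
    exact mul_ne_zero (abs_ne_zero.mpr (sub_ne_zero.mpr (hp _ _ h' _ _)))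
      (abs_ne_zero.mpr (sub_ne_zero.mpr (hp _ _ h' _ _)))
  have h6 : ∏ j : TT d, (ν j.1 * DD p j.1 (t j))⁻¹ = (∏ j : TT d, (ν j.1)⁻¹) *
      ((∏ j : TT d, (∏ i : TT d, if j = i then 1 else
        |p j.1 (t j) - p i.1 true| * |p j.1 (t j) - p i.1 false|)⁻¹) *
      (∏ i : TT d, (∏ j : NN d,
        (|p i.1 (t i) - p j.1 true| * |p i.1 (t i) - p j.1 false|))⁻¹)) := by
    rw [← Finset.prod_mul_distrib, ← Finset.prod_mul_distrib]
    refine Finset.prod_congr rfl fun j _ => ?_
    rw [h3, mul_inv, mul_inv]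
  rw [UU, ← h4]
  calc _ = (Real.sqrt (V2 p (mk d t u)) * Real.sqrt (V2 p (fun j => xor (mk d t u j) (d j)))) *
        ((∏ j, (F j (mk d t u j))⁻¹) * (∏ j, (G j (xor (mk d t u j) (d j)))⁻¹)) := by ring
    _ = _ := by
        rw [h1, h2, h6]
        generalize (∏ i : TT d, (∏ j : NN d,
          (|p i.1 (t i) - p j.1 true| * |p i.1 (t i) - p j.1 false|))⁻¹) = C at h5 ⊢
        generalize (∏ i : TT d, ∏ j : NN d,
          (|p i.1 (t i) - p j.1 true| * |p i.1 (t i) - p j.1 false|)) = M at h5 ⊢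
        generalize (∏ i : TT d, ∏ j : TT d,
          if i = j then (1:ℝ) else |p i.1 (t i) - p j.1 (t j)|) = A
        generalize (∏ j : TT d, (∏ i : TT d, if j = i then (1:ℝ) else
          |p j.1 (t j) - p i.1 true| * |p j.1 (t j) - p i.1 false|)⁻¹) = B
        generalize (∏ j : TT d, (ν j.1)⁻¹) = N
        generalize (∏ j : NN d, (F j.1 (u j) * G j.1 (! u j))⁻¹) = K
        generalize Real.sqrt _ = R
        linear_combination A * R * N * B * K * h5

lemma norm_split (z : ℂ) (t : TT d → Bool) (u : NN d → Bool) :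
    (∏ j, ‖z - p j (mk d t u j)‖ ^ 2) * ∏ j, ‖z - p j (xor (mk d t u j) (d j))‖ ^ 2 =
      (∏ j : TT d, ‖z - p j.1 (t j)‖ ^ 4) *
        ∏ j : NN d, (‖z - p j.1 (u j)‖ ^ 2 * ‖z - p j.1 (! u j)‖ ^ 2) := by
  rw [← Finset.prod_mul_distrib, prod_TN d]
  simp only [dT, dN, Bool.xor_false, Bool.xor_true, mk_T, mk_N]
  congr 1
  refine Finset.prod_congr rfl fun j _ => ?_
  ring

lemma JJ_split (z : ℂ) (t : TT d → Bool) (u : NN d → Bool) :
    JJ p z (mk d t u) + JJ p z (fun j => xor (mk d t u j) (d j)) =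
      2 * JJ (fun i : TT d => p i.1) z t := by
  simp only [JJ]
  rw [← Finset.sum_add_distrib, sum_TN d]
  simp only [dT, dN, Bool.xor_false, Bool.xor_true, mk_T, mk_N, Bool.not_not]
  rw [Finset.mul_sum]
  have : ∑ i : NN d, ((z - (p i.1 (u i) : ℂ))⁻¹ - (z - (p i.1 (! u i) : ℂ))⁻¹ +
      ((z - (p i.1 (! u i) : ℂ))⁻¹ - (z - (p i.1 (u i) : ℂ))⁻¹)) = 0 :=
    Finset.sum_eq_zero fun i _ => by ring
  rw [this, add_zero]
  refine Finset.sum_congr rfl fun j _ => ?_
  ring

end split

/-- the equivalence `e' = e xor d` -/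
def xorEquiv (e : ι → Bool) : (ι → Bool) ≃ (ι → Bool) where
  toFun d := fun j => xor (e j) (d j)
  invFun d := fun j => xor (e j) (d j)
  left_inv d := by funext j; simp
  right_inv d := by funext j; simp

lemma sum_pairs {M : Type} [AddCommMonoid M] (Φ : (ι → Bool) → (ι → Bool) → M) :
    ∑ e, ∑ e', Φ e e' = ∑ d : ι → Bool, ∑ u : NN d → Bool, ∑ t : TT d → Bool,
      Φ (mk d t u) (fun j => xor (mk d t u j) (d j)) := by
  have h1 : ∀ e : ι → Bool, ∑ e', Φ e e' = ∑ d : ι → Bool, Φ e (fun j => xor (e j) (d j)) :=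
    fun e => ((xorEquiv e).sum_comp (fun e' => Φ e e')).symm
  simp only [h1]
  rw [Finset.sum_comm]
  refine Finset.sum_congr rfl fun d _ => ?_
  rw [← (Equiv.piEquivPiSubtypeProd (fun j => d j = false) (fun _ => Bool)).symm.sum_comp,
    Fintype.sum_prod_type, Finset.sum_comm]
  rfl

/-- the weight of a transversal -/
noncomputable def CC (p : ι → Bool → ℝ) (F : ι → Bool → ℝ) (z : ℂ) (e : ι → Bool) : ℝ :=
  Real.sqrt (V2 p e) * (∏ j, (F j (e j))⁻¹) * ∏ j, ‖z - p j (e j)‖ ^ 2

theorem claimC (p : ι → Bool → ℝ) (z : ℂ) (hp : ∀ i j, i ≠ j → ∀ s t, p i s ≠ p j t)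
    (hD : ∀ d : ι → Bool, ClaimD (fun i : TT d => p i.1) z)
    (F G : ι → Bool → ℝ) (ν : ι → ℝ) (hF : ∀ j s, 0 < F j s) (hG : ∀ j s, 0 < G j s)
    (hν : ∀ j, 0 < ν j) (hFG : ∀ j s, F j s * G j s = ν j * DD p j s) :
    ‖∑ e, ∑ e', ((CC p F z e * CC p G z e' : ℝ) : ℂ) *
        (4 + Complex.I * z.im * (JJ p z e + JJ p z e'))‖ ≤
      4 * ∑ e, ∑ e', CC p F z e * CC p G z e' := by
  rw [sum_pairs, sum_pairs, Finset.mul_sum]
  refine (norm_sum_le _ _).trans (Finset.sum_le_sum fun d _ => ?_)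
  rw [Finset.mul_sum]
  refine (norm_sum_le _ _).trans (Finset.sum_le_sum fun u _ => ?_)
  set N : ℝ := ∏ j : NN d, (‖z - p j.1 (u j)‖ ^ 2 * ‖z - p j.1 (! u j)‖ ^ 2) with hN
  have hN0 : 0 ≤ N := Finset.prod_nonneg fun j _ => by positivity
  have hU0 : 0 ≤ UU p d F G ν u := by
    refine mul_nonneg (Real.sqrt_nonneg _) (mul_nonneg ?_ ?_)
    · exact Finset.prod_nonneg fun j _ => (inv_pos.mpr (hν _)).le
    · exact Finset.prod_nonneg fun j _ => (inv_pos.mpr (mul_pos (hF _ _) (hG _ _))).le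
  have h1 : ∀ t : TT d → Bool, CC p F z (mk d t u) *
      CC p G z (fun j => xor (mk d t u j) (d j)) =
      (UU p d F G ν u * N) * (cw (fun i : TT d => p i.1) t * ∏ j : TT d, ‖z - p j.1 (t j)‖ ^ 4) := by
    intro t
    have h2 := weight_split p d hp F G ν hFG t u
    have h3 := norm_split p d z t u
    simp only [CC]
    calc _ = ((Real.sqrt (V2 p (mk d t u)) * ∏ j, (F j (mk d t u j))⁻¹) *
      (Real.sqrt (V2 p (fun j => xor (mk d t u j) (d j))) *
        ∏ j, (G j (xor (mk d t u j) (d j)))⁻¹)) *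
        ((∏ j, ‖z - p j (mk d t u j)‖ ^ 2) * ∏ j, ‖z - p j (xor (mk d t u j) (d j))‖ ^ 2) := by
          ring
      _ = _ := by rw [h2, h3]; ring
  have h2 : ∀ t : TT d → Bool, ((CC p F z (mk d t u) *
      CC p G z (fun j => xor (mk d t u j) (d j)) : ℝ) : ℂ) *
        (4 + Complex.I * z.im * (JJ p z (mk d t u) +
          JJ p z (fun j => xor (mk d t u j) (d j)))) =
      ((2 * (UU p d F G ν u * N) : ℝ) : ℂ) *
        (((cw (fun i : TT d => p i.1) t * ∏ j : TT d, ‖z - p j.1 (t j)‖ ^ 4 : ℝ) : ℂ) *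
          (2 + Complex.I * z.im * JJ (fun i : TT d => p i.1) z t)) := by
    intro t
    rw [JJ_split, h1]
    push_cast
    ring
  rw [Finset.sum_congr rfl fun t _ => h2 t, Finset.sum_congr rfl fun t _ => h1 t]
  rw [← Finset.mul_sum, ← Finset.mul_sum, norm_mul, Complex.norm_real, Real.norm_eq_abs,
    abs_of_nonneg (by positivity)]
  have h3 := hD d
  unfold ClaimD at h3
  calc _ ≤ 2 * (UU p d F G ν u * N) * (2 * ∑ e : TT d → Bool,
        cw (fun i : TT d => p i.1) e * ∏ j : TT d, ‖z - p j.1 (e j)‖ ^ 4) :=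
        mul_le_mul_of_nonneg_left h3 (by positivity)
    _ = _ := by ring

end Pool.Agent.MP_4cd976_an.Sixth
end

section
/-!
# The kernel identity (MP_4cd976_an)
-/
set_option autoImplicit false
set_option linter.unusedSectionVars false

open Finset Polynomial

namespace Pool.Agent.MP_4cd976_an.Sixth

section interp

variable {ι : Type} [Fintype ι] [DecidableEq ι]

lemma natDegree_PJX (s : ι → ℂ) (j : ι) :
    (∏ i, if i = j then (1 : ℂ[X]) else (X - C (s i))).natDegree + 1 ≤ Fintype.card ι := by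
  have h1 : (∏ i, if i = j then (1 : ℂ[X]) else (X - C (s i))).natDegree ≤
      ∑ i : ι, if i = j then 0 else 1 := by
    refine (natDegree_prod_le _ _).trans (Finset.sum_le_sum fun i _ => ?_)
    split_ifs
    · simp
    · exact natDegree_X_sub_C_le _
  have h2 : (∑ i : ι, if i = j then 0 else 1) + 1 = Fintype.card ι := by
    have : (∑ i : ι, if i = j then 0 else 1) + (∑ i : ι, if i = j then 1 else 0) =
        Fintype.card ι := by
      rw [← Finset.sum_add_distrib, Finset.sum_congr rfl (g := fun _ => 1)]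
      · simp
      · intro i _
        split_ifs <;> rfl
    simpa using this
  omega

lemma natDegree_PX (s : ι → ℂ) :
    (∏ i, (X - C (s i)) : ℂ[X]).natDegree ≤ Fintype.card ι := by
  refine (natDegree_prod_le _ _).trans ?_
  calc _ ≤ ∑ i : ι, 1 := Finset.sum_le_sum fun i _ => natDegree_X_sub_C_le _
    _ = _ := by simp

lemma interp (f : ℂ[X]) (hf : f.natDegree ≤ Fintype.card ι + 1) (s : ι → ℂ)
    (hs : Function.Injective s) (z w : ℂ) (hzw : z ≠ w) (hz : ∀ j, z ≠ s j) (hw : ∀ j, w ≠ s j)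
    (x : ℂ) :
    f.eval x * (z - w) * ((∏ j, (z - s j)) * ∏ j, (w - s j)) =
      f.eval z * (x - w) * ((∏ j, (x - s j)) * ∏ j, (w - s j)) -
      f.eval w * (x - z) * ((∏ j, (x - s j)) * ∏ j, (z - s j)) +
      (z - w) * (x - z) * (x - w) * ∑ j, f.eval (s j) * (∏ i, if i = j then 1 else (x - s i)) *
        (∏ i, if i = j then 1 else (z - s i)) * (∏ i, if i = j then 1 else (w - s i)) /
        (∏ i, if i = j then 1 else (s j - s i)) := by
  classical
  set D : ℂ[X] := C ((z - w) * ((∏ j, (z - s j)) * ∏ j, (w - s j))) * f -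
    C (f.eval z * ∏ j, (w - s j)) * ((X - C w) * ∏ j, (X - C (s j))) +
    C (f.eval w * ∏ j, (z - s j)) * ((X - C z) * ∏ j, (X - C (s j))) -
    C (z - w) * ((X - C z) * (X - C w) * ∑ j, C (f.eval (s j) *
        (∏ i, if i = j then 1 else (z - s i)) * (∏ i, if i = j then 1 else (w - s i)) /
        (∏ i, if i = j then 1 else (s j - s i))) *
          (∏ i, if i = j then (1 : ℂ[X]) else (X - C (s i)))) with hD
  have hev : ∀ y : ℂ, D.eval y = (z - w) * ((∏ j, (z - s j)) * ∏ j, (w - s j)) * f.eval y -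
      (f.eval z * ∏ j, (w - s j)) * ((y - w) * ∏ j, (y - s j)) +
      (f.eval w * ∏ j, (z - s j)) * ((y - z) * ∏ j, (y - s j)) -
      (z - w) * ((y - z) * (y - w) * ∑ j, (f.eval (s j) *
        (∏ i, if i = j then 1 else (z - s i)) * (∏ i, if i = j then 1 else (w - s i)) /
        (∏ i, if i = j then 1 else (s j - s i))) *
          (∏ i, if i = j then 1 else (y - s i))) := by
    intro y
    have h1 : ∀ j, (∏ i, if i = j then (1 : ℂ[X]) else (X - C (s i))).eval y =
        ∏ i, if i = j then 1 else (y - s i) := by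
      intro j
      rw [eval_prod]
      refine Finset.prod_congr rfl fun i _ => ?_
      split_ifs <;> simp
    simp only [hD, eval_sub, eval_add, eval_mul, eval_C, eval_X, eval_prod, eval_finsetSum, h1]
  have hdeg : D.natDegree ≤ Fintype.card ι + 1 := by
    have h1 : ∀ c : ℂ, ((X - C c) * ∏ j, (X - C (s j)) : ℂ[X]).natDegree ≤
        Fintype.card ι + 1 := by
      intro c
      refine natDegree_mul_le.trans ?_
      have := natDegree_PX s
      have := natDegree_X_sub_C_le c
      omega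
    have h2 : ((X - C z) * (X - C w) * ∑ j, C (f.eval (s j) *
        (∏ i, if i = j then 1 else (z - s i)) * (∏ i, if i = j then 1 else (w - s i)) /
        (∏ i, if i = j then 1 else (s j - s i))) *
          (∏ i, if i = j then (1 : ℂ[X]) else (X - C (s i))) : ℂ[X]).natDegree ≤
        Fintype.card ι + 1 := by
      rw [Finset.mul_sum]
      refine natDegree_sum_le_of_forall_le _ _ fun j _ => ?_
      refine natDegree_mul_le.trans ?_
      have h3 : ((X - C z) * (X - C w) : ℂ[X]).natDegree ≤ 2 := by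
        refine natDegree_mul_le.trans ?_
        have := natDegree_X_sub_C_le z
        have := natDegree_X_sub_C_le w
        omega
      have h4 := natDegree_PJX s j
      have h5 := natDegree_C_mul_le (f.eval (s j) *
        (∏ i, if i = j then 1 else (z - s i)) * (∏ i, if i = j then 1 else (w - s i)) /
        (∏ i, if i = j then 1 else (s j - s i)))
          (∏ i, if i = j then (1 : ℂ[X]) else (X - C (s i)))
      omega
    rw [hD]
    refine (natDegree_sub_le _ _).trans (max_le ?_ ((natDegree_C_mul_le _ _).trans h2))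
    refine natDegree_add_le_of_degree_le ?_ ((natDegree_C_mul_le _ _).trans (h1 z))
    exact (natDegree_sub_le _ _).trans (max_le ((natDegree_C_mul_le _ _).trans hf)
      ((natDegree_C_mul_le _ _).trans (h1 w)))
  have hprod : ∀ (y : ℂ) (j : ι), ∏ i, (y - s i) =
      (y - s j) * ∏ i, if i = j then 1 else (y - s i) := by
    intro y j
    have : ∀ i, (y - s i) = (if i = j then (y - s i) else 1) * (if i = j then 1 else (y - s i)) := by
      intro i; split_ifs <;> simp
    rw [Finset.prod_congr rfl fun i _ => this i, Finset.prod_mul_distrib]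
    simp
  have hzero : D = 0 := by
    refine eq_zero_of_natDegree_lt_card_of_eval_eq_zero D
      (f := fun o : Option (Option ι) => match o with
        | none => z
        | some none => w
        | some (some j) => s j) ?_ ?_ ?_
    · rintro (_ | _ | i) (_ | _ | j) h
      · rfl
      · exact absurd h hzw
      · exact absurd h (hz _)
      · exact absurd h.symm hzw
      · rfl
      · exact absurd h (hw _)
      · exact absurd h.symm (hz _)
      · exact absurd h.symm (hw _)
      · exact congrArg _ (congrArg _ (hs h))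
    · rintro (_ | _ | j)
      · show D.eval z = 0
        rw [hev]; ring
      · show D.eval w = 0
        rw [hev]; ring
      · show D.eval (s j) = 0
        rw [hev]
        have h0 : ∏ i, (s j - s i) = 0 := by rw [hprod _ j]; simp
        have h1 : ∑ l, (f.eval (s l) *
            (∏ i, if i = l then 1 else (z - s i)) * (∏ i, if i = l then 1 else (w - s i)) /
            (∏ i, if i = l then 1 else (s l - s i))) *
            (∏ i, if i = l then 1 else (s j - s i)) =
            f.eval (s j) * (∏ i, if i = j then 1 else (z - s i)) *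
              (∏ i, if i = j then 1 else (w - s i)) := by
          rw [Finset.sum_eq_single j]
          · refine div_mul_cancel₀ _ (Finset.prod_ne_zero_iff.mpr fun i _ => ?_)
            split_ifs with h
            · exact one_ne_zero
            · exact sub_ne_zero.mpr fun h' => h (hs h').symm
          · intro l _ hl
            have : ∏ i, (if i = l then 1 else (s j - s i)) = 0 := by
              refine Finset.prod_eq_zero (Finset.mem_univ j) ?_
              rw [if_neg (Ne.symm hl), sub_self]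
            rw [this, mul_zero]
          · intro h; exact absurd (Finset.mem_univ _) h
        rw [h0, h1, hprod z j, hprod w j]
        ring
    · rw [Fintype.card_option, Fintype.card_option]; omega
  have h := hev x
  rw [hzero, eval_zero] at h
  have h2 : ∑ j, (f.eval (s j) *
        (∏ i, if i = j then 1 else (z - s i)) * (∏ i, if i = j then 1 else (w - s i)) /
        (∏ i, if i = j then 1 else (s j - s i))) *
          (∏ i, if i = j then 1 else (x - s i)) =
      ∑ j, f.eval (s j) * (∏ i, if i = j then 1 else (x - s i)) *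
        (∏ i, if i = j then 1 else (z - s i)) * (∏ i, if i = j then 1 else (w - s i)) /
        (∏ i, if i = j then 1 else (s j - s i)) :=
    Finset.sum_congr rfl fun j _ => by ring
  rw [h2] at h
  linear_combination -h

end interp

section kernel

variable {ι : Type} [Fintype ι] [DecidableEq ι]

/-- change the point of the pair `j` -/
def flip (j : ι) (e : ι → Bool) : ι → Bool := Function.update e j (! e j)

lemma flip_same (j : ι) (e : ι → Bool) : flip j e j = ! e j := by simp [flip]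

lemma flip_ne (j : ι) (e : ι → Bool) {i : ι} (h : i ≠ j) : flip j e i = e i := by simp [flip, h]

lemma flip_flip (j : ι) (e : ι → Bool) : flip j (flip j e) = e := by
  funext i
  by_cases h : i = j
  · subst h; simp [flip]
  · simp [flip, h]

lemma flip_ne_self (j : ι) (e : ι → Bool) : flip j e ≠ e := by
  intro h
  have := congrFun h j
  rw [flip_same] at this
  cases h2 : e j <;> simp [h2] at this

/-- the node polynomial of a transversal -/
noncomputable def PP (p : ι → Bool → ℝ) (e : ι → Bool) (x : ℂ) : ℂ := ∏ j, (x - p j (e j))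

/-- the node polynomial without the pair `j` -/
noncomputable def PJ (p : ι → Bool → ℝ) (e : ι → Bool) (j : ι) (x : ℂ) : ℂ :=
  ∏ i, if i = j then 1 else (x - p i (e i))

/-- real version -/
noncomputable def PR (p : ι → Bool → ℝ) (e : ι → Bool) (j : ι) (x : ℝ) : ℝ :=
  ∏ i, if i = j then 1 else (x - p i (e i))

lemma PJ_ofReal (p : ι → Bool → ℝ) (e : ι → Bool) (j : ι) (x : ℝ) :
    PJ p e j (x : ℂ) = (PR p e j x : ℂ) := by
  rw [PJ, PR]
  push_cast
  refine Finset.prod_congr rfl fun i _ => ?_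
  split_ifs <;> simp

lemma PR_flip (p : ι → Bool → ℝ) (e : ι → Bool) (j : ι) (x : ℝ) :
    PR p (flip j e) j x = PR p e j x := by
  refine Finset.prod_congr rfl fun i _ => ?_
  by_cases h : i = j
  · simp [h]
  · simp [h, flip_ne j e h]

lemma PJ_flip (p : ι → Bool → ℝ) (e : ι → Bool) (j : ι) (x : ℂ) :
    PJ p (flip j e) j x = PJ p e j x := by
  refine Finset.prod_congr rfl fun i _ => ?_
  by_cases h : i = j
  · simp [h]
  · simp [h, flip_ne j e h]

lemma PR_ne_zero (p : ι → Bool → ℝ) (hp : ∀ i j, i ≠ j → ∀ s t, p i s ≠ p j t)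
    (e : ι → Bool) (j : ι) (s : Bool) : PR p e j (p j s) ≠ 0 := by
  refine Finset.prod_ne_zero_iff.mpr fun i _ => ?_
  split_ifs with h
  · exact one_ne_zero
  · exact sub_ne_zero.mpr (hp _ _ (Ne.symm h) _ _)

/-- the kernel -/
noncomputable def BK (p : ι → Bool → ℝ) (c : (ι → Bool) → ℝ) (x z : ℂ) : ℂ :=
  ∑ e, (c e : ℂ) * (PP p e x * PP p e z)

/-- **The kernel identity.** -/
theorem kernel_identity (p : ι → Bool → ℝ) (hp : ∀ i j, i ≠ j → ∀ s t, p i s ≠ p j t)
    (c : (ι → Bool) → ℝ) (f : ℂ[X]) (hf : f.natDegree ≤ Fintype.card ι + 1)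
    (htie : ∀ e j, (c e : ℂ) * f.eval (p j (e j) : ℂ) * PR p e j (p j (! e j)) +
      (c (flip j e) : ℂ) * f.eval (p j (! e j) : ℂ) * PR p e j (p j (e j)) = 0)
    (z w : ℂ) (hzw : z ≠ w) (hz : z.im ≠ 0) (hw : w.im ≠ 0) (x : ℂ) :
    f.eval x * (z - w) * BK p c z w =
      f.eval z * (x - w) * BK p c x w - f.eval w * (x - z) * BK p c x z := by
  have hzs : ∀ r : ℝ, z ≠ r := fun r h => hz (by rw [h]; simp)
  have hws : ∀ r : ℝ, w ≠ r := fun r h => hw (by rw [h]; simp)
  have h1 : ∀ e : ι → Bool, (c e : ℂ) * (f.eval x * (z - w) * (PP p e z * PP p e w)) =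
      (c e : ℂ) * (f.eval z * (x - w) * (PP p e x * PP p e w) -
        f.eval w * (x - z) * (PP p e x * PP p e z)) +
      (z - w) * (x - z) * (x - w) * ∑ j, (c e : ℂ) * (f.eval (p j (e j) : ℂ) * PJ p e j x *
        PJ p e j z * PJ p e j w / PR p e j (p j (e j))) := by
    intro e
    have h := interp f hf (fun j => ((p j (e j) : ℝ) : ℂ)) (fun i j h => by
      by_contra hij
      exact hp i j hij (e i) (e j) (Complex.ofReal_injective h)) z w hzw
      (fun j => hzs _) (fun j => hws _) x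
    have h2 : ∀ j, (∏ i, if i = j then (1 : ℂ) else (((p j (e j) : ℝ) : ℂ) - (p i (e i) : ℝ))) =
        PR p e j (p j (e j)) := by
      intro j
      rw [← PJ_ofReal, PJ]
    simp only [h2] at h
    rw [show PP p e z * PP p e w = (∏ j, (z - (p j (e j) : ℝ))) * ∏ j, (w - (p j (e j) : ℝ)) from rfl,
      h, ← Finset.mul_sum]
    simp only [PP, PJ]
    ring
  have h2 : ∑ e : ι → Bool, ∑ j, (c e : ℂ) * (f.eval (p j (e j) : ℂ) * PJ p e j x *
        PJ p e j z * PJ p e j w / PR p e j (p j (e j))) = 0 := by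
    rw [Finset.sum_comm]
    refine Finset.sum_eq_zero fun j _ => ?_
    refine Finset.sum_involution (fun e _ => flip j e) ?_ ?_ ?_ ?_
    · intro e _
      rw [PJ_flip, PJ_flip, PJ_flip, PR_flip, flip_same]
      have h3 : (PR p e j (p j (e j)) : ℂ) ≠ 0 :=
        Complex.ofReal_ne_zero.mpr (PR_ne_zero p hp e j (e j))
      have h4 : (PR p e j (p j (! e j)) : ℂ) ≠ 0 :=
        Complex.ofReal_ne_zero.mpr (PR_ne_zero p hp e j (! e j))
      have h5 := htie e j
      field_simp
      linear_combination (PJ p e j x * PJ p e j z * PJ p e j w) * h5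
    · intro e _ _
      exact flip_ne_self j e
    · intro e _
      exact Finset.mem_univ _
    · intro e _
      exact flip_flip j e
  have h3 := Finset.sum_congr (rfl : (Finset.univ : Finset (ι → Bool)) = Finset.univ)
    (fun e _ => h1 e)
  rw [Finset.sum_add_distrib, ← Finset.mul_sum, h2, mul_zero, add_zero] at h3
  calc f.eval x * (z - w) * BK p c z w =
      ∑ e : ι → Bool, (c e : ℂ) * (f.eval x * (z - w) * (PP p e z * PP p e w)) := by
        rw [BK, Finset.mul_sum]
        refine Finset.sum_congr rfl fun e _ => by ring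
    _ = _ := by
        rw [h3, BK, BK, Finset.mul_sum, Finset.mul_sum, ← Finset.sum_sub_distrib]
        refine Finset.sum_congr rfl fun e _ => by ring

end kernel

end Pool.Agent.MP_4cd976_an.Sixth
end

section
/-!
# The circle and the bound `|A_2| ≤ 3` for tied products (MP_4cd976_an)
-/
set_option autoImplicit false
set_option linter.unusedSectionVars false

open Finset Polynomial

namespace Pool.Agent.MP_4cd976_an.Sixth

variable {ι : Type} [Fintype ι] [DecidableEq ι]

lemma sign_cancel (A B P Q : ℝ) (h : A * B * P * Q < 0) :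
    |P| * |A|⁻¹ * A * Q + |Q| * |B|⁻¹ * B * P = 0 := by
  have hA : A ≠ 0 := by rintro rfl; simp at h
  have hB : B ≠ 0 := by rintro rfl; simp at h
  have hP : P ≠ 0 := by rintro rfl; simp at h
  have hQ : Q ≠ 0 := by rintro rfl; simp at h
  have hA' : 0 < |A| := abs_pos.mpr hA
  have hB' : 0 < |B| := abs_pos.mpr hB
  have hP' : 0 < |P| := abs_pos.mpr hP
  have hQ' : 0 < |Q| := abs_pos.mpr hQ
  set t1 := |P| * |A|⁻¹ * A * Q with ht1
  set t2 := |Q| * |B|⁻¹ * B * P with ht2
  have h1 : t1 ^ 2 = t2 ^ 2 := by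
    have e1 : t1 ^ 2 = (|P| ^ 2) * ((|A| ^ 2)⁻¹ * A ^ 2) * Q ^ 2 := by rw [ht1]; ring
    have e2 : t2 ^ 2 = (|Q| ^ 2) * ((|B| ^ 2)⁻¹ * B ^ 2) * P ^ 2 := by rw [ht2]; ring
    rw [e1, e2, sq_abs, sq_abs, sq_abs, sq_abs, inv_mul_cancel₀ (pow_ne_zero 2 hA),
      inv_mul_cancel₀ (pow_ne_zero 2 hB)]
    ring
  have h2 : t1 * t2 < 0 := by
    have e : t1 * t2 = (|P| * |A|⁻¹ * |Q| * |B|⁻¹) * (A * B * P * Q) := by
      rw [ht1, ht2]; ring
    rw [e]
    exact mul_neg_of_pos_of_neg (by positivity) h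
  rcases sq_eq_sq_iff_eq_or_eq_neg.mp h1 with h3 | h3
  · rw [h3] at h2
    nlinarith [mul_self_nonneg t2]
  · rw [h3]; ring

/-- `∏ |x_i - x_l|` over the pairs different from `j` -/
noncomputable def VR (p : ι → Bool → ℝ) (e : ι → Bool) (j : ι) : ℝ :=
  ∏ i, ∏ l, if i = l ∨ i = j ∨ l = j then 1 else |p i (e i) - p l (e l)|

lemma VR_flip (p : ι → Bool → ℝ) (e : ι → Bool) (j : ι) : VR p (flip j e) j = VR p e j := by
  refine Finset.prod_congr rfl fun i _ => Finset.prod_congr rfl fun l _ => ?_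
  by_cases h : i = l ∨ i = j ∨ l = j
  · simp only [if_pos h]
  · simp only [if_neg h]
    push Not at h
    rw [flip_ne j e h.2.1, flip_ne j e h.2.2]

lemma abs_PR (p : ι → Bool → ℝ) (e : ι → Bool) (j : ι) (x : ℝ) :
    |PR p e j x| = ∏ i, if i = j then 1 else |x - p i (e i)| := by
  rw [PR, Finset.abs_prod]
  refine Finset.prod_congr rfl fun i _ => ?_
  split_ifs <;> simp

lemma V2_eq (p : ι → Bool → ℝ) (e : ι → Bool) (j : ι) :
    V2 p e = VR p e j * |PR p e j (p j (e j))| ^ 2 := by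
  have h1 : ∀ i l, (if i = l then (1 : ℝ) else |p i (e i) - p l (e l)|) =
      ((if i = l ∨ i = j ∨ l = j then 1 else |p i (e i) - p l (e l)|) *
        (if l = j then (if i = j then 1 else |p j (e j) - p i (e i)|) else 1)) *
        (if i = j then (if l = j then 1 else |p j (e j) - p l (e l)|) else 1) := by
    intro i l
    by_cases hi : i = j
    · subst hi
      by_cases hl : l = i
      · subst hl; simp
      · have hl' : ¬ i = l := fun h => hl h.symm
        simp [hl, hl']
    · by_cases hl : l = j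
      · subst hl
        simp [hi, abs_sub_comm]
      · simp [hi, hl]
  rw [V2, Finset.prod_congr rfl fun i _ => Finset.prod_congr rfl fun l _ => h1 i l]
  simp only [Finset.prod_mul_distrib]
  rw [abs_PR, VR, pow_two]
  have h2 : ∏ i, ∏ l, (if l = j then (if i = j then (1 : ℝ) else |p j (e j) - p i (e i)|) else 1) =
      ∏ i, if i = j then 1 else |p j (e j) - p i (e i)| := by
    refine Finset.prod_congr rfl fun i _ => ?_
    simp
  have h3 : ∏ i, ∏ l, (if i = j then (if l = j then (1 : ℝ) else |p j (e j) - p l (e l)|) else 1) =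
      ∏ i, if i = j then 1 else |p j (e j) - p i (e i)| := by
    rw [Finset.prod_comm]
    refine Finset.prod_congr rfl fun i _ => ?_
    simp
  rw [h2, h3]
  ring

/-- the weight attached to a real polynomial -/
noncomputable def cF (p : ι → Bool → ℝ) (f : ℝ[X]) (e : ι → Bool) : ℝ :=
  Real.sqrt (V2 p e) * ∏ j, |f.eval (p j (e j))|⁻¹

lemma VR_nonneg (p : ι → Bool → ℝ) (e : ι → Bool) (j : ι) : 0 ≤ VR p e j := by
  refine Finset.prod_nonneg fun i _ => Finset.prod_nonneg fun l _ => ?_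
  split_ifs
  · exact zero_le_one
  · exact abs_nonneg _

lemma cF_eq (p : ι → Bool → ℝ) (f : ℝ[X]) (e : ι → Bool) (j : ι) :
    cF p f e = (Real.sqrt (VR p e j) * ∏ i, if i = j then 1 else |f.eval (p i (e i))|⁻¹) *
      (|PR p e j (p j (e j))| * |f.eval (p j (e j))|⁻¹) := by
  have h1 : ∏ i, |f.eval (p i (e i))|⁻¹ = |f.eval (p j (e j))|⁻¹ *
      ∏ i, if i = j then 1 else |f.eval (p i (e i))|⁻¹ := by
    have : ∀ i, |f.eval (p i (e i))|⁻¹ = (if i = j then |f.eval (p i (e i))|⁻¹ else 1) *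
        (if i = j then 1 else |f.eval (p i (e i))|⁻¹) := by
      intro i; split_ifs <;> simp
    rw [Finset.prod_congr rfl fun i _ => this i, Finset.prod_mul_distrib]
    simp
  rw [cF, h1, V2_eq p e j, Real.sqrt_mul (VR_nonneg p e j), Real.sqrt_sq (abs_nonneg _)]
  ring

lemma tie_real (p : ι → Bool → ℝ) (f : ℝ[X])
    (hsgn : ∀ e j, f.eval (p j (e j)) * f.eval (p j (! e j)) * PR p e j (p j (e j)) *
      PR p e j (p j (! e j)) < 0) (e : ι → Bool) (j : ι) :
    cF p f e * f.eval (p j (e j)) * PR p e j (p j (! e j)) +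
      cF p f (flip j e) * f.eval (p j (! e j)) * PR p e j (p j (e j)) = 0 := by
  rw [cF_eq p f e j, cF_eq p f (flip j e) j, VR_flip, PR_flip, flip_same]
  have h1 : (∏ i, if i = j then (1 : ℝ) else |f.eval (p i (flip j e i))|⁻¹) =
      ∏ i, if i = j then 1 else |f.eval (p i (e i))|⁻¹ := by
    refine Finset.prod_congr rfl fun i _ => ?_
    by_cases h : i = j
    · simp [h]
    · simp [h, flip_ne j e h]
  rw [h1]
  have h2 := sign_cancel _ _ _ _ (hsgn e j)
  linear_combination (Real.sqrt (VR p e j) *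
    ∏ i, if i = j then 1 else |f.eval (p i (e i))|⁻¹) * h2

/-- `∑ 1/(z - x)` over the transversal -/
noncomputable def ZG (p : ι → Bool → ℝ) (z : ℂ) (e : ι → Bool) : ℂ := ∑ j, (z - p j (e j))⁻¹

lemma PP_deriv (p : ι → Bool → ℝ) (e : ι → Bool) (z : ℂ) (hz : z.im ≠ 0) :
    HasDerivAt (PP p e) (PP p e z * ZG p z e) z := by
  have hzs : ∀ r : ℝ, z - r ≠ 0 := fun r h => hz (by rw [sub_eq_zero.mp h]; simp)
  have h := HasDerivAt.fun_finsetProd (u := (Finset.univ : Finset ι))
    (f := fun j (x : ℂ) => x - (p j (e j) : ℂ)) (f' := fun _ => 1) (x := z)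
    (fun i _ => (hasDerivAt_id z).sub_const _)
  refine (h.congr_deriv ?_)
  rw [ZG, Finset.mul_sum]
  refine Finset.sum_congr rfl fun j _ => ?_
  rw [PP, ← Finset.mul_prod_erase _ _ (Finset.mem_univ j), smul_eq_mul, mul_one,
    mul_comm (z - (p j (e j) : ℂ)), mul_assoc, mul_inv_cancel₀ (hzs _), mul_one]

lemma PP_conj (p : ι → Bool → ℝ) (e : ι → Bool) (z : ℂ) :
    PP p e (starRingEnd ℂ z) = starRingEnd ℂ (PP p e z) := by
  rw [PP, PP, map_prod]
  refine Finset.prod_congr rfl fun j _ => ?_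
  simp

/-- the weights of Claim C in terms of `cF` -/
lemma CC_eq (p : ι → Bool → ℝ) (f : ℝ[X]) (z : ℂ) (e : ι → Bool) :
    CC p (fun j s => |f.eval (p j s)|) z e = cF p f e * ‖PP p e z‖ ^ 2 := by
  rw [CC, cF, PP, norm_prod, Finset.prod_pow]

lemma cF_nonneg (p : ι → Bool → ℝ) (f : ℝ[X]) (e : ι → Bool) : 0 ≤ cF p f e :=
  mul_nonneg (Real.sqrt_nonneg _) (Finset.prod_nonneg fun _ _ => inv_nonneg.mpr (abs_nonneg _))

theorem circle (p : ι → Bool → ℝ) (hp : ∀ i j, i ≠ j → ∀ s t, p i s ≠ p j t)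
    (f : ℝ[X]) (hf : f.natDegree ≤ Fintype.card ι + 1)
    (hsgn : ∀ e j, f.eval (p j (e j)) * f.eval (p j (! e j)) * PR p e j (p j (e j)) *
      PR p e j (p j (! e j)) < 0) (z : ℂ) (hz : z.im ≠ 0) :
    ‖2 * Complex.I * z.im * aeval z (derivative f) *
        ((∑ e, CC p (fun j s => |f.eval (p j s)|) z e : ℝ) : ℂ) -
      aeval z f * (((∑ e, CC p (fun j s => |f.eval (p j s)|) z e : ℝ) : ℂ) +
        2 * Complex.I * z.im *
          ∑ e, (CC p (fun j s => |f.eval (p j s)|) z e : ℂ) * ZG p z e)‖ ≤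
      ‖aeval z f‖ * ∑ e, CC p (fun j s => |f.eval (p j s)|) z e := by
  set fc : ℂ[X] := f.map (algebraMap ℝ ℂ) with hfc
  have hev : ∀ x : ℂ, fc.eval x = aeval x f := fun x => by
    rw [hfc, eval_map_algebraMap]
  have hevd : ∀ x : ℂ, fc.derivative.eval x = aeval x (derivative f) := fun x => by
    rw [hfc, derivative_map, eval_map_algebraMap]
  have hevr : ∀ r : ℝ, fc.eval (r : ℂ) = ((f.eval r : ℝ) : ℂ) := fun r => by
    rw [hev]
    exact aeval_algebraMap_apply_eq_algebraMap_eval r f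
  set w : ℂ := starRingEnd ℂ z with hw
  have hzw : z ≠ w := by
    intro h
    have := congrArg Complex.im h
    rw [hw, Complex.conj_im] at this
    exact hz (by linarith)
  have hw0 : w.im ≠ 0 := by rw [hw, Complex.conj_im]; exact neg_ne_zero.mpr hz
  have hK := kernel_identity p hp (cF p f) fc
    ((natDegree_map_le).trans hf) (fun e j => by
      rw [hevr, hevr]
      have := tie_real p f hsgn e j
      exact_mod_cast congrArg (fun r : ℝ => (r : ℂ)) this) z w hzw hz hw0
  have hzw2 : z - w = 2 * Complex.I * z.im := by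
    rw [hw, Complex.sub_conj]; push_cast; ring
  -- the value of the kernel at `(z, conj z)`
  have hB : BK p (cF p f) z w = ((∑ e, CC p (fun j s => |f.eval (p j s)|) z e : ℝ) : ℂ) := by
    rw [BK]
    push_cast
    refine Finset.sum_congr rfl fun e _ => ?_
    rw [CC_eq, hw, PP_conj, Complex.mul_conj, Complex.normSq_eq_norm_sq]
    push_cast
    ring
  -- derivative of the identity
  have hd1 : HasDerivAt (fun x => fc.eval x * (z - w) * BK p (cF p f) z w)
      (aeval z (derivative f) * (z - w) * BK p (cF p f) z w) z := by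
    have := fc.hasDerivAt z
    rw [hevd] at this
    exact (this.mul_const _).mul_const _
  have hBd : ∀ v : ℂ, HasDerivAt (fun x => BK p (cF p f) x v)
      (∑ e, (cF p f e : ℂ) * (PP p e z * ZG p z e * PP p e v)) z := by
    intro v
    unfold BK
    refine HasDerivAt.fun_sum fun e _ => ?_
    exact ((PP_deriv p e z hz).mul_const _).const_mul _
  have hd2 : HasDerivAt (fun x => fc.eval z * (x - w) * BK p (cF p f) x w -
        fc.eval w * (x - z) * BK p (cF p f) x z)
      ((fc.eval z * 1 * BK p (cF p f) z w + fc.eval z * (z - w) *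
        (∑ e, (cF p f e : ℂ) * (PP p e z * ZG p z e * PP p e w))) -
       (fc.eval w * 1 * BK p (cF p f) z z + fc.eval w * (z - z) *
        (∑ e, (cF p f e : ℂ) * (PP p e z * ZG p z e * PP p e z)))) z := by
    have hid : ∀ c : ℂ, HasDerivAt (fun x : ℂ => x - c) 1 z := fun c =>
      (hasDerivAt_id z).sub_const c
    exact (((hid w).const_mul _).mul (hBd w)).sub (((hid z).const_mul _).mul (hBd z))
  have heq := (hd1.congr_of_eventuallyEq
    (Filter.Eventually.of_forall fun x => (hK x).symm)).unique hd2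
  have hS1 : ∑ e, (cF p f e : ℂ) * (PP p e z * ZG p z e * PP p e w) =
      ∑ e, (CC p (fun j s => |f.eval (p j s)|) z e : ℂ) * ZG p z e := by
    refine Finset.sum_congr rfl fun e _ => ?_
    rw [CC_eq, hw, PP_conj]
    have : (PP p e z) * starRingEnd ℂ (PP p e z) = ((‖PP p e z‖ ^ 2 : ℝ) : ℂ) := by
      rw [Complex.mul_conj, Complex.normSq_eq_norm_sq]
    push_cast at this ⊢
    linear_combination ((cF p f e : ℂ) * ZG p z e) * this
  have hBzz : ‖BK p (cF p f) z z‖ ≤ ∑ e, CC p (fun j s => |f.eval (p j s)|) z e := by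
    rw [BK]
    refine (norm_sum_le _ _).trans (Finset.sum_le_sum fun e _ => ?_)
    rw [CC_eq, norm_mul, Complex.norm_real, Real.norm_eq_abs, abs_of_nonneg (cF_nonneg p f e),
      norm_mul, pow_two]
  rw [hB, hS1, hzw2, hev, hev] at heq
  have hconj : ‖aeval w f‖ = ‖aeval z f‖ := by
    rw [hw, Polynomial.aeval_conj]
    exact RCLike.norm_conj _
  have hfin : 2 * Complex.I * z.im * aeval z (derivative f) *
        ((∑ e, CC p (fun j s => |f.eval (p j s)|) z e : ℝ) : ℂ) -
      aeval z f * (((∑ e, CC p (fun j s => |f.eval (p j s)|) z e : ℝ) : ℂ) +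
        2 * Complex.I * z.im *
          ∑ e, (CC p (fun j s => |f.eval (p j s)|) z e : ℂ) * ZG p z e) =
      - (aeval w f * BK p (cF p f) z z) := by
    linear_combination heq
  rw [hfin, norm_neg, norm_mul, hconj]
  exact mul_le_mul_of_nonneg_left hBzz (norm_nonneg _)

/-- logarithmic derivative of the product over all nodes -/
noncomputable def Gall (p : ι → Bool → ℝ) (z : ℂ) : ℂ :=
  ∑ j, ((z - p j true)⁻¹ + (z - p j false)⁻¹)

lemma JJ_eq (p : ι → Bool → ℝ) (z : ℂ) (e : ι → Bool) :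
    JJ p z e = 2 * ZG p z e - Gall p z := by
  rw [JJ, ZG, Gall, Finset.mul_sum, ← Finset.sum_sub_distrib]
  refine Finset.sum_congr rfl fun j _ => ?_
  cases e j <;> simp <;> ring

lemma cF_pos (p : ι → Bool → ℝ) (hp : ∀ i j, i ≠ j → ∀ s t, p i s ≠ p j t) (f : ℝ[X])
    (hf : ∀ j s, f.eval (p j s) ≠ 0) (e : ι → Bool) : 0 < cF p f e := by
  refine mul_pos (Real.sqrt_pos.mpr ?_) (Finset.prod_pos fun j _ =>
    inv_pos.mpr (abs_pos.mpr (hf _ _)))
  refine Finset.prod_pos fun i _ => Finset.prod_pos fun j _ => ?_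
  split_ifs with h
  · exact one_pos
  · exact abs_pos.mpr (sub_ne_zero.mpr (hp i j h _ _))

lemma CC_pos (p : ι → Bool → ℝ) (hp : ∀ i j, i ≠ j → ∀ s t, p i s ≠ p j t) (f : ℝ[X])
    (hf : ∀ j s, f.eval (p j s) ≠ 0) (z : ℂ) (hz : z.im ≠ 0) (e : ι → Bool) :
    0 < CC p (fun j s => |f.eval (p j s)|) z e := by
  rw [CC_eq]
  have h1 : PP p e z ≠ 0 := by
    refine Finset.prod_ne_zero_iff.mpr fun j _ => ?_
    intro h
    exact hz (by rw [sub_eq_zero.mp h]; simp)
  have h2 := cF_pos p hp f hf e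
  have h3 := norm_pos_iff.mpr h1
  positivity

lemma three_of_parts (A B S T G : ℂ) (y : ℝ)
    (h1 : ‖2 * Complex.I * y * A - 1 - 2 * Complex.I * y * S‖ ≤ 1)
    (h2 : ‖2 * Complex.I * y * B - 1 - 2 * Complex.I * y * T‖ ≤ 1)
    (h3 : ‖2 + Complex.I * y * (S + T - G)‖ ≤ 2) :
    ‖1 + Complex.I * y * (A + B - G)‖ ≤ 3 := by
  have h : 1 + Complex.I * y * (A + B - G) =
      (1 / 2 : ℂ) * (2 * Complex.I * y * A - 1 - 2 * Complex.I * y * S) +
      (1 / 2 : ℂ) * (2 * Complex.I * y * B - 1 - 2 * Complex.I * y * T) +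
      (2 + Complex.I * y * (S + T - G)) := by ring
  rw [h]
  refine (norm_add₃_le).trans ?_
  rw [norm_mul, norm_mul]
  have h4 : ‖(1 / 2 : ℂ)‖ = 1 / 2 := by norm_num
  rw [h4]
  linarith

/-- **(**), general form.** -/
theorem tied_general (p : ι → Bool → ℝ) (hp : ∀ i j, i ≠ j → ∀ s t, p i s ≠ p j t)
    (z : ℂ) (hz : 0 < z.im) (hD : ∀ d : ι → Bool, ClaimD (fun i : TT d => p i.1) z)
    (f q : ℝ[X]) (hf : f.natDegree ≤ Fintype.card ι + 1) (hq : q.natDegree ≤ Fintype.card ι + 1)
    (hfs : ∀ e j, f.eval (p j (e j)) * f.eval (p j (! e j)) * PR p e j (p j (e j)) *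
      PR p e j (p j (! e j)) < 0)
    (hqs : ∀ e j, q.eval (p j (e j)) * q.eval (p j (! e j)) * PR p e j (p j (e j)) *
      PR p e j (p j (! e j)) < 0)
    (ν : ι → ℝ) (hν : ∀ j, 0 < ν j)
    (htie : ∀ j s, |f.eval (p j s)| * |q.eval (p j s)| = ν j * DD p j s)
    (hfz : aeval z f ≠ 0) (hqz : aeval z q ≠ 0) :
    ‖1 + Complex.I * z.im * (aeval z (derivative f) / aeval z f +
      aeval z (derivative q) / aeval z q - Gall p z)‖ ≤ 3 := by
  have hzn : z.im ≠ 0 := hz.ne'
  have nz : ∀ (g : ℝ[X]), (∀ e j, g.eval (p j (e j)) * g.eval (p j (! e j)) *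
      PR p e j (p j (e j)) * PR p e j (p j (! e j)) < 0) → ∀ j s, g.eval (p j s) ≠ 0 := by
    intro g hg j s h
    have := hg (fun _ => s) j
    simp [h] at this
  have hf0 := nz f hfs
  have hq0 := nz q hqs
  set S0 : ℝ := ∑ e, CC p (fun j s => |f.eval (p j s)|) z e with hS0
  set T0 : ℝ := ∑ e, CC p (fun j s => |q.eval (p j s)|) z e with hT0
  set S1 : ℂ := ∑ e, (CC p (fun j s => |f.eval (p j s)|) z e : ℂ) * ZG p z e with hS1
  set T1 : ℂ := ∑ e, (CC p (fun j s => |q.eval (p j s)|) z e : ℂ) * ZG p z e with hT1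
  have hS0p : 0 < S0 := Finset.sum_pos (fun e _ => CC_pos p hp f hf0 z hzn e) Finset.univ_nonempty
  have hT0p : 0 < T0 := Finset.sum_pos (fun e _ => CC_pos p hp q hq0 z hzn e) Finset.univ_nonempty
  have hS0c : (S0 : ℂ) ≠ 0 := Complex.ofReal_ne_zero.mpr hS0p.ne'
  have hT0c : (T0 : ℂ) ≠ 0 := Complex.ofReal_ne_zero.mpr hT0p.ne'
  have key : ∀ (A F S : ℂ) (s : ℝ), 0 < s → F ≠ 0 →
      ‖2 * Complex.I * z.im * A * s - F * (s + 2 * Complex.I * z.im * S)‖ ≤ ‖F‖ * s →
      ‖2 * Complex.I * z.im * (A / F) - 1 - 2 * Complex.I * z.im * (S / s)‖ ≤ 1 := by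
    intro A F S s hs hF h
    have hsc : (s : ℂ) ≠ 0 := Complex.ofReal_ne_zero.mpr hs.ne'
    have h1 : 2 * Complex.I * z.im * A * s - F * (s + 2 * Complex.I * z.im * S) =
        (F * s) * (2 * Complex.I * z.im * (A / F) - 1 - 2 * Complex.I * z.im * (S / s)) := by
      field_simp
      ring
    rw [h1, norm_mul, norm_mul, Complex.norm_real, Real.norm_eq_abs, abs_of_pos hs] at h
    have h2 : 0 < ‖F‖ * s := mul_pos (norm_pos_iff.mpr hF) hs
    nlinarith
  have h1 := key _ _ _ _ hS0p hfz (circle p hp f hf hfs z hzn)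
  have h2 := key _ _ _ _ hT0p hqz (circle p hp q hq hqs z hzn)
  have h3 : ‖2 + Complex.I * z.im * (S1 / S0 + T1 / T0 - Gall p z)‖ ≤ 2 := by
    have hC := claimC p z hp hD (fun j s => |f.eval (p j s)|) (fun j s => |q.eval (p j s)|) ν
      (fun j s => abs_pos.mpr (hf0 j s)) (fun j s => abs_pos.mpr (hq0 j s)) hν htie
    have e1 : ∑ e, ∑ e', CC p (fun j s => |f.eval (p j s)|) z e *
        CC p (fun j s => |q.eval (p j s)|) z e' = S0 * T0 := by
      rw [hS0, hT0, Finset.sum_mul_sum]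
    have e2 : ∑ e, ∑ e', ((CC p (fun j s => |f.eval (p j s)|) z e *
        CC p (fun j s => |q.eval (p j s)|) z e' : ℝ) : ℂ) *
        (4 + Complex.I * z.im * (JJ p z e + JJ p z e')) =
        (2 * S0 * T0) * (2 + Complex.I * z.im * (S1 / S0 + T1 / T0 - Gall p z)) := by
      have e3 : ∀ e e', ((CC p (fun j s => |f.eval (p j s)|) z e *
          CC p (fun j s => |q.eval (p j s)|) z e' : ℝ) : ℂ) *
          (4 + Complex.I * z.im * (JJ p z e + JJ p z e')) =
          (4 - 2 * Complex.I * z.im * Gall p z) *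
            ((CC p (fun j s => |f.eval (p j s)|) z e : ℂ) *
              (CC p (fun j s => |q.eval (p j s)|) z e' : ℂ)) +
          2 * Complex.I * z.im * (((CC p (fun j s => |f.eval (p j s)|) z e : ℂ) * ZG p z e) *
              (CC p (fun j s => |q.eval (p j s)|) z e' : ℂ)) +
          2 * Complex.I * z.im * ((CC p (fun j s => |f.eval (p j s)|) z e : ℂ) *
              ((CC p (fun j s => |q.eval (p j s)|) z e' : ℂ) * ZG p z e')) := by
        intro e e'
        rw [JJ_eq, JJ_eq]
        push_cast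
        ring
      simp only [e3, Finset.sum_add_distrib, ← Finset.mul_sum, ← Finset.sum_mul]
      have e4 : ∑ e, (CC p (fun j s => |f.eval (p j s)|) z e : ℂ) = (S0 : ℂ) := by
        rw [hS0]; push_cast; rfl
      have e5 : ∑ e, (CC p (fun j s => |q.eval (p j s)|) z e : ℂ) = (T0 : ℂ) := by
        rw [hT0]; push_cast; rfl
      rw [e4, e5, ← hS1, ← hT1]
      field_simp
      ring
    rw [e1, e2, norm_mul] at hC
    have e6 : ‖(2 * (S0 : ℂ) * T0)‖ = 2 * S0 * T0 := by
      rw [norm_mul, norm_mul, Complex.norm_real, Complex.norm_real, Real.norm_eq_abs,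
        Real.norm_eq_abs, abs_of_pos hS0p, abs_of_pos hT0p]
      norm_num
    rw [e6] at hC
    have : 0 < S0 * T0 := mul_pos hS0p hT0p
    nlinarith
  exact three_of_parts _ _ _ _ _ _ h1 h2 h3

end Pool.Agent.MP_4cd976_an.Sixth
end

section
/-!
# MP_4cd976_an, block D: the radial stretch

`Vf n` is a `C¹` function on `(0, ∞)` which vanishes on `[1, ∞)`, with `2 x Vf' > -1`;
`sg n u₁ z = exp (Vf n (|z|²/u₁)) z` is a radial map which is the identity for `|z|² ≥ u₁`,
has positive Jacobian, and maps the circle `|z|² = c u₁` to the unit circle if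
`u₁ = exp ((1 - c^n)/n)`.
-/
open Set Filter Metric Topology Complex ComplexConjugate

namespace Pool.Agent.Lib.MP4cd976.DN

noncomputable section

/-- the basic function -/
def Wf (n : ℕ) (x : ℝ) : ℝ := (-Real.log x + (x ^ n - 1) / n) / 2

/-- its `C¹` truncation at `1` -/
def Vf (n : ℕ) (x : ℝ) : ℝ := Wf n (min x 1)

/-- derivative of `Vf` -/
def Vd (n : ℕ) (x : ℝ) : ℝ := (-(min x 1)⁻¹ + (min x 1) ^ (n - 1)) / 2

lemma hasDerivAt_Wf {n : ℕ} (hn : 1 ≤ n) {x : ℝ} (hx : 0 < x) :
    HasDerivAt (Wf n) ((-x⁻¹ + x ^ (n - 1)) / 2) x := by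
  have hn' : (n : ℝ) ≠ 0 := by positivity
  have h1 := (Real.hasDerivAt_log hx.ne').neg
  have h2 := ((hasDerivAt_pow n x).sub_const 1).div_const (n : ℝ)
  have h3 := (h1.add h2).div_const 2
  refine (h3.congr_deriv ?_)
  field_simp

lemma Wf_one (n : ℕ) : Wf n 1 = 0 := by simp [Wf]

lemma Vf_of_one_le {n : ℕ} {x : ℝ} (hx : 1 ≤ x) : Vf n x = 0 := by
  rw [Vf, min_eq_right hx, Wf_one]

lemma Vf_of_le_one {n : ℕ} {x : ℝ} (hx : x ≤ 1) : Vf n x = Wf n x := by
  rw [Vf, min_eq_left hx]

lemma Vd_of_one_le {n : ℕ} {x : ℝ} (hx : 1 ≤ x) : Vd n x = 0 := by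
  rw [Vd, min_eq_right hx]; simp

lemma Vd_of_le_one {n : ℕ} {x : ℝ} (hx : x ≤ 1) :
    Vd n x = (-x⁻¹ + x ^ (n - 1)) / 2 := by
  rw [Vd, min_eq_left hx]

lemma hasDerivAt_Vf {n : ℕ} (hn : 1 ≤ n) {x : ℝ} (hx : 0 < x) :
    HasDerivAt (Vf n) (Vd n x) x := by
  rcases lt_trichotomy x 1 with h | h | h
  · rw [Vd_of_le_one h.le]
    refine (hasDerivAt_Wf hn hx).congr_of_eventuallyEq ?_
    filter_upwards [gt_mem_nhds h] with y hy
    exact Vf_of_le_one hy.le
  · subst h
    have h0 : Vd n 1 = 0 := Vd_of_one_le le_rfl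
    have hW := hasDerivAt_Wf hn (zero_lt_one)
    have h1 : ((-(1:ℝ)⁻¹ + 1 ^ (n - 1)) / 2) = 0 := by simp
    rw [h1] at hW
    rw [h0]
    have hl : HasDerivWithinAt (Vf n) 0 (Iic 1) 1 :=
      hW.hasDerivWithinAt.congr (fun y hy => Vf_of_le_one hy) (Vf_of_le_one le_rfl)
    have hr : HasDerivWithinAt (Vf n) 0 (Ici 1) 1 :=
      (hasDerivWithinAt_const 1 (Ici 1) (0:ℝ)).congr (fun y hy => Vf_of_one_le hy)
        (Vf_of_one_le le_rfl)
    have := hl.union hr
    rw [Iic_union_Ici] at this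
    exact hasDerivWithinAt_univ.1 this
  · rw [Vd_of_one_le h.le]
    refine (hasDerivAt_const x (0:ℝ)).congr_of_eventuallyEq ?_
    filter_upwards [lt_mem_nhds h] with y hy
    exact Vf_of_one_le hy.le

lemma continuousAt_Vd {n : ℕ} {x : ℝ} (hx : 0 < x) : ContinuousAt (Vd n) x := by
  have h1 : ContinuousAt (fun y : ℝ => min y 1) x := by fun_prop
  have h2 : min x 1 ≠ 0 := (lt_min hx one_pos).ne'
  exact (((h1.inv₀ h2).neg).add (h1.pow _)).div_const 2

lemma hasStrictDerivAt_Vf {n : ℕ} (hn : 1 ≤ n) {x : ℝ} (hx : 0 < x) :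
    HasStrictDerivAt (Vf n) (Vd n x) x := by
  refine hasStrictDerivAt_of_hasDerivAt_of_continuousAt ?_ (continuousAt_Vd hx)
  filter_upwards [lt_mem_nhds hx] with y hy
  exact hasDerivAt_Vf hn hy

lemma Vd_bound {n : ℕ} (hn : 1 ≤ n) {x : ℝ} (hx : 0 < x) : 0 < 1 + 2 * x * Vd n x := by
  rcases le_total x 1 with h | h
  · rw [Vd_of_le_one h]
    have : 1 + 2 * x * ((-x⁻¹ + x ^ (n - 1)) / 2) = x ^ n := by
      obtain ⟨m, rfl⟩ : ∃ m, n = m + 1 := ⟨n - 1, by omega⟩
      simp only [Nat.add_sub_cancel]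
      field_simp
      ring
    rw [this]
    positivity
  · rw [Vd_of_one_le h]; simp

/-- the radial map -/
def sg (n : ℕ) (u₁ : ℝ) (z : ℂ) : ℂ := (Real.exp (Vf n (Complex.normSq z / u₁)) : ℝ) • z

lemma sg_of_le {n : ℕ} {u₁ : ℝ} (hu : 0 < u₁) {z : ℂ} (hz : u₁ ≤ Complex.normSq z) :
    sg n u₁ z = z := by
  rw [sg, Vf_of_one_le ((one_le_div hu).2 hz)]; simp

lemma normSq_sg {n : ℕ} {u₁ : ℝ} (z : ℂ) :
    Complex.normSq (sg n u₁ z) =
      Real.exp (2 * Vf n (Complex.normSq z / u₁)) * Complex.normSq z := by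
  rw [sg, real_smul, Complex.normSq_mul, Complex.normSq_ofReal, ← Real.exp_add, ← two_mul]

lemma normSq_sg_le {n : ℕ} {u₁ : ℝ} (hu : 0 < u₁) {z : ℂ}
    (hz : Complex.normSq z ≤ u₁) : Complex.normSq (sg n u₁ z) ≤ u₁ := by
  rcases eq_or_ne z 0 with rfl | h0
  · simp [sg, hu.le]
  have hp : 0 < Complex.normSq z := Complex.normSq_pos.2 h0
  have hx : Complex.normSq z / u₁ ≤ 1 := (div_le_one hu).2 hz
  have hx0 : 0 < Complex.normSq z / u₁ := by positivity
  rw [normSq_sg, Vf_of_le_one hx, Wf]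
  have e1 : 2 * ((-Real.log (normSq z / u₁) + ((normSq z / u₁) ^ n - 1) / n) / 2) =
      -Real.log (normSq z / u₁) + ((normSq z / u₁) ^ n - 1) / n := by ring
  rw [e1, Real.exp_add, Real.exp_neg, Real.exp_log hx0]
  have h2 : Real.exp (((normSq z / u₁) ^ n - 1) / n) ≤ 1 := by
    rw [Real.exp_le_one_iff]
    apply div_nonpos_of_nonpos_of_nonneg _ (Nat.cast_nonneg n)
    have := pow_le_one₀ (n := n) hx0.le hx
    linarith
  calc _ = u₁ * Real.exp (((normSq z / u₁) ^ n - 1) / n) := by field_simp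
    _ ≤ u₁ * 1 := by gcongr
    _ = u₁ := mul_one _

/-- the circle `|z|² = c u₁` is mapped to the unit circle -/
lemma normSq_sg_circle {n : ℕ} {c : ℝ} (hc : 0 < c) (hc1 : c ≤ 1) {u₁ : ℝ}
    (hu : u₁ = Real.exp ((1 - c ^ n) / n)) {z : ℂ} (hz : Complex.normSq z = c * u₁) :
    Complex.normSq (sg n u₁ z) = 1 := by
  have hu0 : 0 < u₁ := by rw [hu]; exact Real.exp_pos _
  have e0 : normSq z / u₁ = c := by rw [hz]; field_simp
  rw [normSq_sg, e0, Vf_of_le_one hc1, Wf, hz, hu]
  have e1 : 2 * ((-Real.log c + (c ^ n - 1) / n) / 2) =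
      -Real.log c + (c ^ n - 1) / n := by ring
  rw [e1, Real.exp_add, Real.exp_neg, Real.exp_log hc]
  have e2 : c⁻¹ * Real.exp ((c ^ n - 1) / ↑n) * (c * Real.exp ((1 - c ^ n) / ↑n)) =
      Real.exp ((c ^ n - 1) / ↑n) * Real.exp ((1 - c ^ n) / ↑n) := by field_simp
  rw [e2, ← Real.exp_add]
  have : (c ^ n - 1) / (n:ℝ) + (1 - c ^ n) / n = 0 := by ring
  rw [this, Real.exp_zero]

/-- orientation preserving real linear maps of `ℂ` -/
def OrPos (T : ℂ →L[ℝ] ℂ) : Prop :=
  ∀ a b : ℂ, 0 < (conj a * b).im → 0 < (conj (T a) * T b).im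

lemma OrPos.comp {S T : ℂ →L[ℝ] ℂ} (hS : OrPos S) (hT : OrPos T) : OrPos (S.comp T) :=
  fun a b hab => hS _ _ (hT a b hab)

lemma OrPos.id : OrPos (ContinuousLinearMap.id ℝ ℂ) := fun _ _ h => h

/-- the derivative of the radial map -/
lemma hasStrictFDerivAt_sg {n : ℕ} (hn : 1 ≤ n) {u₁ : ℝ} (hu : 0 < u₁) {z : ℂ} (hz : z ≠ 0) :
    ∃ T : ℂ →L[ℝ] ℂ, HasStrictFDerivAt (sg n u₁) T z ∧ OrPos T := by
  have hp : 0 < Complex.normSq z := Complex.normSq_pos.2 hz
  set x := Complex.normSq z / u₁ with hx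
  have hx0 : 0 < x := by positivity
  -- derivative of normSq
  have h1 : HasStrictFDerivAt (fun w : ℂ => Complex.normSq w)
      (2 • innerSL ℝ z) z := by
    simp only [Complex.normSq_eq_norm_sq]
    exact hasStrictFDerivAt_norm_sq z
  have h2 : HasStrictFDerivAt (fun w : ℂ => Complex.normSq w / u₁)
      ((u₁⁻¹) • (2 • innerSL ℝ z)) z := by
    simpa only [div_eq_inv_mul] using h1.const_mul (u₁⁻¹)
  have h3 := ((hasStrictDerivAt_Vf hn hx0).comp_hasStrictFDerivAt z h2).exp
  have h4 := h3.smul (hasStrictFDerivAt_id (𝕜 := ℝ) z)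
  refine ⟨_, h4, ?_⟩
  intro a b hab
  have hV := Vd_bound hn hx0
  set E := Real.exp (Vf n x) with hE
  have hE0 : 0 < E := Real.exp_pos _
  have key : ∀ v : ℂ, (Real.exp ((Vf n ∘ fun w => normSq w / u₁) z) •
      ContinuousLinearMap.id ℝ ℂ + ContinuousLinearMap.smulRight
      (Real.exp ((Vf n ∘ fun w => normSq w / u₁) z) • Vd n x • (u₁⁻¹) • (2 • innerSL ℝ z))
        (_root_.id z) : ℂ →L[ℝ] ℂ) v =
      (E : ℂ) * v + ((E * (Vd n x * (u₁⁻¹ * (2 * (z.re * v.re + z.im * v.im)))) : ℝ) : ℂ) * z := by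
    intro v
    simp only [add_apply, smul_apply, nsmul_eq_mul, Nat.cast_ofNat,
      ContinuousLinearMap.id_apply, ContinuousLinearMap.smulRight_apply, innerSL_apply_apply,
      smul_eq_mul, real_smul, Complex.inner, Function.comp_apply, hE, hx, _root_.id]
    congr 3
    simp only [Complex.mul_re, Complex.conj_re, Complex.conj_im]
    ring
  rw [key, key]
  have e2 : (conj ((E : ℂ) * a + ((E * (Vd n x * (u₁⁻¹ * (2 * (z.re * a.re + z.im * a.im)))) : ℝ)
      : ℂ) * z) * ((E : ℂ) * b +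
      ((E * (Vd n x * (u₁⁻¹ * (2 * (z.re * b.re + z.im * b.im)))) : ℝ) : ℂ) * z)).im =
      E ^ 2 * (1 + 2 * x * Vd n x) * (conj a * b).im := by
    rw [hx, Complex.normSq_apply]
    simp only [map_add, map_mul, Complex.add_im, Complex.mul_im, Complex.add_re, Complex.mul_re,
      Complex.conj_re, Complex.conj_im, Complex.ofReal_re, Complex.ofReal_im, Complex.conj_ofReal]
    field_simp
    ring
  rw [e2]
  positivity

end

end Pool.Agent.Lib.MP4cd976.DN
end
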