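import Mathlib
import Pool.Agent.Lib.MP_4cd976_an.DN.Defs
import Pool.Agent.Lib.MP_4cd976_an.E.Defs
import Pool.Agent.Lib.MP_4cd976_an.E.Cover
import Pool.Agent.Lib.MP_4cd976_an.K.Final
import Pool.Agent.Lib.MP_4cd976_an.DN.IND
import Pool.Agent.Lib.MP_4cd976_an.DN.SPL
import Pool.Agent.Lib.MP_4cd976_an.DN.Spec
import Pool.Agent.Lib.MP_4cd976_an.DN.RTF

section
/-!
# MP_4cd976_an, block D, top (helper14): from approximation by tied functions to `NiceBound`.
-/
open Complex Filter Topology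

namespace Pool.Agent.Lib.MP4cd976.D

/-- The derivative of `HC`. -/
noncomputable def HC' (K : ℕ) (κ : ℂ) (a b : ℕ → ℝ) (r : ℕ → ℂ) (X : ℂ) : ℂ :=
  2 * κ * (X + I) - ∑ i ∈ Finset.range K, r i * (1 / (X - a i) ^ 2 - 1 / (X - b i) ^ 2)

/-- The reflected function `conj (HC (conj X))`. -/
noncomputable def HS (K : ℕ) (κ : ℂ) (a b : ℕ → ℝ) (r : ℕ → ℂ) (X : ℂ) : ℂ :=
  starRingEnd ℂ κ * (X - I) ^ 2 +
    ∑ i ∈ Finset.range K, starRingEnd ℂ (r i) * (1 / (X - a i) - 1 / (X - b i))

/-- The derivative of `HS`. -/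
noncomputable def HS' (K : ℕ) (κ : ℂ) (a b : ℕ → ℝ) (r : ℕ → ℂ) (X : ℂ) : ℂ :=
  2 * starRingEnd ℂ κ * (X - I) -
    ∑ i ∈ Finset.range K, starRingEnd ℂ (r i) * (1 / (X - a i) ^ 2 - 1 / (X - b i) ^ 2)

theorem HU_eq (K : ℕ) (κ : ℂ) (a b : ℕ → ℝ) (r : ℕ → ℂ) (u X : ℂ) :
    HU K κ a b r u X = HC K κ a b r X + u * HS K κ a b r X := by
  unfold HU HC HS
  have : ∑ i ∈ Finset.range K, (r i + u * starRingEnd ℂ (r i)) * (1 / (X - a i) - 1 / (X - b i)) =
      ∑ i ∈ Finset.range K, r i * (1 / (X - a i) - 1 / (X - b i)) +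
      u * ∑ i ∈ Finset.range K, starRingEnd ℂ (r i) * (1 / (X - a i) - 1 / (X - b i)) := by
    rw [Finset.mul_sum, ← Finset.sum_add_distrib]
    exact Finset.sum_congr rfl fun i _ => by ring
  rw [this]; ring

theorem HU'_eq (K : ℕ) (κ : ℂ) (a b : ℕ → ℝ) (r : ℕ → ℂ) (u X : ℂ) :
    HU' K κ a b r u X = HC' K κ a b r X + u * HS' K κ a b r X := by
  unfold HU' HC' HS'
  have : ∑ i ∈ Finset.range K, (r i + u * starRingEnd ℂ (r i)) *
      (1 / (X - a i) ^ 2 - 1 / (X - b i) ^ 2) =
      ∑ i ∈ Finset.range K, r i * (1 / (X - a i) ^ 2 - 1 / (X - b i) ^ 2) +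
      u * ∑ i ∈ Finset.range K, starRingEnd ℂ (r i) *
        (1 / (X - a i) ^ 2 - 1 / (X - b i) ^ 2) := by
    rw [Finset.mul_sum, ← Finset.sum_add_distrib]
    exact Finset.sum_congr rfl fun i _ => by ring
  rw [this]; ring

/-- Approximation of the 2-jet of `(h, g)` at `0` by tied functions. -/
def Apx (h g : ℂ → ℂ) : Prop :=
  ∀ δ : ℝ, 0 < δ → ∃ (K : ℕ) (κ : ℂ) (a b : ℕ → ℝ) (r : ℕ → ℂ), Tied K κ a b r ∧
    ∃ z l : ℂ, 0 < z.im ∧ ‖l * HC K κ a b r z - deriv h 0‖ < δ ∧
      ‖l * (HC K κ a b r z + I * z.im * HC' K κ a b r z) - deriv (deriv h) 0 / 2‖ < δ ∧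
      ‖l * HS K κ a b r z - deriv g 0‖ < δ ∧
      ‖l * (HS K κ a b r z + I * z.im * HS' K κ a b r z) - deriv (deriv g) 0 / 2‖ < δ

/-- The bound for nice maps. -/
def NiceBound : Prop :=
  ∀ (ρ : ℝ) (h g : ℂ → ℂ), Nice ρ h g → ∀ u : ℂ, ‖u‖ = 1 →
    ‖deriv (deriv h) 0 + u * deriv (deriv g) 0‖ ≤ 6 * ‖deriv h 0 + u * deriv g 0‖

/-- Any closed homogeneous condition passes to the limit; here the bound `|A_2| ≤ 3`. -/
theorem niceBound_of_apx (hT : TiedBound) (hA : ∀ (ρ : ℝ) (h g : ℂ → ℂ), Nice ρ h g → Apx h g) :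
    NiceBound := by
  intro ρ h g hn u hu
  refine le_of_forall_pos_le_add fun ε hε => ?_
  obtain ⟨K, κ, a, b, r, ht, z, l, hz, h1, h2, h3, h4⟩ := hA ρ h g hn (ε / 16) (by positivity)
  have hb := hT K κ a b r ht u hu z hz
  rw [HU_eq, HU'_eq] at hb
  set A := HC K κ a b r z
  set B := HC' K κ a b r z
  set C := HS K κ a b r z
  set D := HS' K κ a b r z
  have e1 : l * (A + u * C + I * z.im * (B + u * D)) =
      l * (A + I * z.im * B) + u * (l * (C + I * z.im * D)) := by ring
  have e2 : l * (A + u * C) = l * A + u * (l * C) := by ring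
  have hb' : ‖l * (A + I * z.im * B) + u * (l * (C + I * z.im * D))‖ ≤
      3 * ‖l * A + u * (l * C)‖ := by
    rw [← e1, ← e2, norm_mul, norm_mul]
    have := mul_le_mul_of_nonneg_left hb (norm_nonneg l)
    linarith [this]
  have t1 : ‖deriv (deriv h) 0 / 2 + u * (deriv (deriv g) 0 / 2)‖ ≤
      ‖l * (A + I * z.im * B) + u * (l * (C + I * z.im * D))‖ + 2 * (ε / 16) := by
    have e : deriv (deriv h) 0 / 2 + u * (deriv (deriv g) 0 / 2) =
        (l * (A + I * z.im * B) + u * (l * (C + I * z.im * D))) -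
        (l * (A + I * z.im * B) - deriv (deriv h) 0 / 2) -
        u * (l * (C + I * z.im * D) - deriv (deriv g) 0 / 2) := by ring
    rw [e]
    refine (norm_sub_le _ _).trans ?_
    have := norm_sub_le (l * (A + I * z.im * B) + u * (l * (C + I * z.im * D)))
      (l * (A + I * z.im * B) - deriv (deriv h) 0 / 2)
    rw [norm_mul u, hu, one_mul]
    linarith
  have t2 : ‖l * A + u * (l * C)‖ ≤ ‖deriv h 0 + u * deriv g 0‖ + 2 * (ε / 16) := by
    have e : l * A + u * (l * C) = (deriv h 0 + u * deriv g 0) +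
        (l * A - deriv h 0) + u * (l * C - deriv g 0) := by ring
    rw [e]
    refine (norm_add_le _ _).trans ?_
    have := norm_add_le (deriv h 0 + u * deriv g 0) (l * A - deriv h 0)
    rw [norm_mul u, hu, one_mul]
    linarith
  have t3 : ‖deriv (deriv h) 0 + u * deriv (deriv g) 0‖ =
      2 * ‖deriv (deriv h) 0 / 2 + u * (deriv (deriv g) 0 / 2)‖ := by
    have e : deriv (deriv h) 0 + u * deriv (deriv g) 0 =
        2 * (deriv (deriv h) 0 / 2 + u * (deriv (deriv g) 0 / 2)) := by ring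
    rw [e, norm_mul]; norm_num
  rw [t3]
  linarith

end Pool.Agent.Lib.MP4cd976.D
end

section
/-!
# MP_4cd976_an, block D (helper14): `NiceBound → A2Norm` (dilation only).
-/
open Complex Filter Topology Metric

namespace Pool.Agent.Lib.MP4cd976.D

theorem a2Norm_of_niceBound (H : NiceBound) : E.A2Norm := by
  intro h g hhg h0 h1 g0 g1 u hu
  have key : ∀ r : ℝ, 0 < r → r < 1 →
      r * ‖deriv (deriv h) 0 + u * deriv (deriv g) 0‖ ≤ 6 := by
    intro r r0 r1
    have rc : (r : ℂ) ≠ 0 := by exact_mod_cast r0.ne'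
    have dcomp : ∀ f : ℂ → ℂ, deriv (fun z => f ((r : ℂ) * z) / r) =
        fun z => deriv f ((r : ℂ) * z) := by
      intro f; funext z
      rw [deriv_div_const, deriv_comp_mul_left (r : ℂ) f z]
      field_simp
      simp [smul_eq_mul]
    have dcomp2 : ∀ f : ℂ → ℂ, deriv (deriv (fun z => f ((r : ℂ) * z) / r)) 0 =
        r * deriv (deriv f) 0 := by
      intro f
      rw [dcomp f, deriv_comp_mul_left (r : ℂ) (deriv f) 0]
      simp [smul_eq_mul]
    have mem : ∀ z : ℂ, z ∈ ball (0 : ℂ) (1 / r) → (r : ℂ) * z ∈ ball (0 : ℂ) 1 := by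
      intro z hz
      rw [mem_ball_zero_iff] at hz ⊢
      rw [norm_mul, Complex.norm_real, Real.norm_eq_abs, abs_of_pos r0]
      calc r * ‖z‖ < r * (1 / r) := by gcongr
        _ = 1 := by field_simp
    have hn : Nice (1 / r) (fun z => h ((r : ℂ) * z) / r) (fun z => g ((r : ℂ) * z) / r) := by
      refine ⟨?_, ?_, ?_, ?_, ?_, ?_, ?_, ?_, ?_⟩
      · rw [lt_div_iff₀ r0]; linarith
      · have : DifferentiableOn ℂ (fun z => h ((r : ℂ) * z)) (ball 0 (1 / r)) :=
          hhg.hd.comp (by fun_prop) (fun z hz => mem z hz)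
        exact this.div_const _
      · have : DifferentiableOn ℂ (fun z => g ((r : ℂ) * z)) (ball 0 (1 / r)) :=
          hhg.gd.comp (by fun_prop) (fun z hz => mem z hz)
        exact this.div_const _
      · simp [h0]
      · simp [g0]
      · rw [dcomp]; simp [h1]
      · rw [dcomp]; simp [g1]
      · intro z hz
        rw [dcomp, dcomp]
        exact hhg.sp _ (mem z hz)
      · intro z hz w hw e
        have e' : h ((r : ℂ) * z) + starRingEnd ℂ (g ((r : ℂ) * z)) =
            h ((r : ℂ) * w) + starRingEnd ℂ (g ((r : ℂ) * w)) := by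
          have e2 : h ((r : ℂ) * z) / r + starRingEnd ℂ (g ((r : ℂ) * z) / r) =
            h ((r : ℂ) * w) / r + starRingEnd ℂ (g ((r : ℂ) * w) / r) := e
          rw [map_div₀, map_div₀, Complex.conj_ofReal, ← add_div, ← add_div] at e2
          field_simp at e2
          exact e2
        have := hhg.inj (mem z hz) (mem w hw) e'
        exact mul_left_cancel₀ rc this
    have := H (1 / r) _ _ hn u hu
    rw [dcomp2, dcomp2, dcomp, dcomp] at this
    simp only [mul_zero, h1, g1, add_zero, norm_one, mul_one] at this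
    have e : (r : ℂ) * deriv (deriv h) 0 + u * (r * deriv (deriv g) 0) =
        r * (deriv (deriv h) 0 + u * deriv (deriv g) 0) := by ring
    rw [e, norm_mul, Complex.norm_real, Real.norm_eq_abs, abs_of_pos r0] at this
    exact this
  have ht : Tendsto (fun r : ℝ => r * ‖deriv (deriv h) 0 + u * deriv (deriv g) 0‖)
      (𝓝[<] 1) (𝓝 (1 * ‖deriv (deriv h) 0 + u * deriv (deriv g) 0‖)) := by
    apply Tendsto.mul_const
    exact tendsto_nhdsWithin_of_tendsto_nhds tendsto_id
  rw [one_mul] at ht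
  refine le_of_tendsto ht ?_
  have : Set.Ioo (0 : ℝ) 1 ∈ 𝓝[<] (1 : ℝ) := Ioo_mem_nhdsLT (by norm_num)
  filter_upwards [this] with r hr
  exact key r hr.1 hr.2

end Pool.Agent.Lib.MP4cd976.D
end

section
/-!
# MP_4cd976_an: the chain K + D + E (everything except the approximation `Apx` of block D)
-/
set_option autoImplicit false

namespace Pool.Agent.Lib.MP4cd976

/-- The covering theorem with radius `1/6`, given the approximation of nice maps by tied
functions. -/
theorem sixth_of_apx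
    (hA : ∀ (ρ : ℝ) (h g : ℂ → ℂ), D.Nice ρ h g → D.Apx h g) :
    ∀ h g : ℂ → ℂ,
      DifferentiableOn ℂ h (Metric.ball (0 : ℂ) 1) →
      DifferentiableOn ℂ g (Metric.ball (0 : ℂ) 1) →
      h 0 = 0 → deriv h 0 = 1 → g 0 = 0 → deriv g 0 = 0 →
      (∀ z ∈ Metric.ball (0 : ℂ) 1, ‖deriv g z‖ < ‖deriv h z‖) →
      Set.InjOn (fun z => h z + starRingEnd ℂ (g z)) (Metric.ball (0 : ℂ) 1) →
      Metric.ball (0 : ℂ) (1 / 6) ⊆
        (fun z => h z + starRingEnd ℂ (g z)) '' Metric.ball (0 : ℂ) 1 :=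
  E.endgame (D.a2Norm_of_niceBound (D.niceBound_of_apx K.tiedBound hA))

end Pool.Agent.Lib.MP4cd976
end

section
/-!
# MP_4cd976_an, block D (helper14): the assembly `Nice → Apx`.
-/
set_option autoImplicit false

open Complex Filter Topology

namespace Pool.Agent.Lib.MP4cd976.D

open Glu

/-- The vertices on the boundary of the root. -/
noncomputable def Wr (h g : ℂ → ℂ) (N n : ℕ) : ℂ := Fm h g (ex (-(2 * Real.pi * n / N)))

/-- Output of the root modules: `M` is the list of the root piece, `l` the scaling factor. -/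
def RootProp (h g : ℂ → ℂ) : Prop :=
  ∀ δ : ℝ, 0 < δ → ∀ᶠ N : ℕ in atTop, ∃ (M : List (ℝ × ℂ)) (l : ℂ), SL M ∧
    (∀ X : ℂ, 0 ≤ X.im → Glu.N M X ≠ 0) ∧
    M.map Prod.snd = (List.range (N - 1)).reverse.map (fun n => Wr h g N n - Wr h g N (n + 1)) ∧
    ‖l * R M I - deriv h 0‖ < δ ∧ ‖l * (R M I + I * R' M I) - deriv (deriv h) 0 / 2‖ < δ ∧
    ‖l * R (cj M) I - deriv g 0‖ < δ ∧
    ‖l * (R (cj M) I + I * R' (cj M) I) - deriv (deriv g) 0 / 2‖ < δ

/-- Conversion of a palindromic list into `Tied`. -/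
def ListTied : Prop :=
  ∀ (K : ℕ) (W : ℕ → ℂ) (κ : ℂ) (L : List (ℝ × ℂ)), κ ≠ 0 →
    L.map Prod.snd = Lf W K 0 ++ Rt W K 0 → SL L →
    (∀ X : ℂ, 0 ≤ X.im → F (Pe κ) L X ≠ 0) →
    ∃ (a b : ℕ → ℝ) (r : ℕ → ℂ), Tied K κ a b r ∧ ∀ X : ℂ,
      HC K κ a b r X = Pe κ X + R L X ∧ HC' K κ a b r X = Pe' κ X + R' L X ∧
      HS K κ a b r X = Pm κ X + R (cj L) X ∧ HS' K κ a b r X = Pm' κ X + R' (cj L) X

theorem cr_eq (u v : ℂ) : cr u v = ((starRingEnd ℂ) u * v).im := by
  simp [cr, Complex.mul_im]; ring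

theorem sum_telescope (W : ℕ → ℂ) (n : ℕ) :
    ((List.range n).reverse.map fun i => W i - W (i + 1)).sum = W 0 - W n := by
  induction n with
  | zero => simp
  | succ n ih =>
    rw [List.range_succ, List.reverse_append, List.map_append, List.sum_append, ih]
    simp

theorem Lf_split (W : ℕ → ℂ) (K n : ℕ) (hn : n ≤ K) :
    Lf W K n ++ ((List.range n).reverse.map fun i => W i - W (i + 1)) = Lf W K 0 := by
  induction n with
  | zero => simp
  | succ n ih =>
    rw [← ih (by omega), Lf_step (W := W) (K := K) (i := n) (by omega), List.range_succ,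
      List.reverse_append, List.map_append]
    simp

theorem apx_of (hLT : ListTied) (hR : ∀ (ρ : ℝ) (h g : ℂ → ℂ), Nice ρ h g → RootProp h g) :
    ∀ (ρ : ℝ) (h g : ℂ → ℂ), Nice ρ h g → Apx h g := by
  intro ρ h g hn δ hδ
  obtain ⟨ℓ, hsp⟩ := DN.nice_spiral hn
  obtain ⟨N, ⟨W, hW⟩, ⟨M, l, hSL, hNM, hMj, r1, r2, r3, r4⟩, hN3⟩ :=
    (hsp.and ((hR ρ h g hn (δ / 2) (by positivity)).and (eventually_ge_atTop 3))).exists
  set K := N * N + N - 1 with hK
  have hNN : N ≤ N * N := Nat.le_mul_self N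
  -- the gate word
  have hword : GE (Lf W K (N - 1) ++ (W 0 - W (N - 1)) :: Rt W K 0) := by
    refine spiral_word (N := N) (by omega) (by omega) hW.L0 ?_ ?_
    · intro n hn1 hn2
      obtain ⟨m, rfl⟩ : ∃ m, n = N * N + m := ⟨n - N * N, by omega⟩
      have hm : m < N := by omega
      rw [hW.outer m hm]
      congr 1
      unfold ex ee
      have hN0 : (N : ℂ) ≠ 0 := by
        have : N ≠ 0 := by omega
        exact_mod_cast this
      have e : -(2 * (Real.pi : ℂ) * ((N * N + m : ℕ) : ℂ) / (N : ℂ)) * I =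
          ((-(2 * Real.pi * m / N) : ℝ) : ℂ) * I - (N : ℂ) * (2 * Real.pi * I) := by
        push_cast
        field_simp
        ring
      rw [e, Complex.exp_sub]
      have : Complex.exp ((N : ℂ) * (2 * Real.pi * I)) = 1 := by
        rw [Complex.exp_eq_one_iff]; exact ⟨N, by push_cast; ring⟩
      rw [this, div_one]
    · intro j hj1 hj2
      have t1 := hW.tri1 j hj1 (by omega)
      have t2 := hW.tri2 j hj1 (by omega)
      rw [cr_eq] at t1 t2
      exact ⟨t1, t2⟩
  have hWr : ∀ n, n < N → Wr h g N n = W n := by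
    intro n hn'
    rw [hW.inner n hn', Wr]
  have hMj' : M.map Prod.snd = (List.range (N - 1)).reverse.map (fun n => W n - W (n + 1)) := by
    rw [hMj]
    apply List.map_congr_left
    intro i hi
    rw [List.mem_reverse, List.mem_range] at hi
    rw [hWr i (by omega), hWr (i + 1) (by omega)]
  have hS : S M = W 0 - W (N - 1) := by
    unfold S
    rw [hMj', sum_telescope]
  set δ' : ℝ := δ / (8 * (‖l‖ + 1)) with hδ'
  have hl1 : 0 < ‖l‖ + 1 := by positivity
  have hδ'0 : 0 < δ' := by positivity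
  have hlδ : ‖l‖ * δ' ≤ δ / 8 := by
    rw [hδ']
    have : ‖l‖ * (δ / (8 * (‖l‖ + 1))) = δ / 8 * (‖l‖ / (‖l‖ + 1)) := by field_simp
    rw [this]
    have h1 : ‖l‖ / (‖l‖ + 1) ≤ 1 := by rw [div_le_one hl1]; linarith
    nlinarith
  obtain ⟨κ, hκ, L, hLj, hLS, hLF, τ, ε, hε, z1, z2, z3, z4⟩ :=
    glue_zoom hword hSL hNM hS I hδ'0
  have hLj' : L.map Prod.snd = Lf W K 0 ++ Rt W K 0 := by
    rw [hLj, hMj', Lf_split W K (N - 1) (by omega)]
  obtain ⟨a, b, r, ht, hX⟩ := hLT K W κ L hκ hLj' hLS hLF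
  refine ⟨K, κ, a, b, r, ht, τ + ε * I, l * ε, ?_, ?_, ?_, ?_, ?_⟩
  · simp [hε]
  · rw [(hX _).1]
    have e : l * ε * (Pe κ (τ + ε * I) + R L (τ + ε * I)) - deriv h 0 =
        l * (ε * (Pe κ (τ + ε * I) + R L (τ + ε * I)) - R M I) + (l * R M I - deriv h 0) := by ring
    rw [e]
    refine (norm_add_le _ _).trans_lt ?_
    rw [norm_mul]
    have := mul_le_mul_of_nonneg_left z1.le (norm_nonneg l)
    linarith
  · rw [(hX _).1, (hX _).2.1]
    have him : (((τ : ℂ) + ε * I).im : ℂ) = ε := by simp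
    rw [him]
    have e : l * ε * (Pe κ (τ + ε * I) + R L (τ + ε * I) +
          I * ε * (Pe' κ (τ + ε * I) + R' L (τ + ε * I))) - deriv (deriv h) 0 / 2 =
        l * (ε * (Pe κ (τ + ε * I) + R L (τ + ε * I)) - R M I) +
        l * I * (ε ^ 2 * (Pe' κ (τ + ε * I) + R' L (τ + ε * I)) - R' M I) +
        (l * (R M I + I * R' M I) - deriv (deriv h) 0 / 2) := by ring
    rw [e]
    refine (norm_add₃_le).trans_lt ?_
    rw [norm_mul, norm_mul, norm_mul, Complex.norm_I, mul_one]
    have h1 := mul_le_mul_of_nonneg_left z1.le (norm_nonneg l)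
    have h2 := mul_le_mul_of_nonneg_left z2.le (norm_nonneg l)
    linarith
  · rw [(hX _).2.2.1]
    have e : l * ε * (Pm κ (τ + ε * I) + R (cj L) (τ + ε * I)) - deriv g 0 =
        l * (ε * (Pm κ (τ + ε * I) + R (cj L) (τ + ε * I)) - R (cj M) I) +
        (l * R (cj M) I - deriv g 0) := by ring
    rw [e]
    refine (norm_add_le _ _).trans_lt ?_
    rw [norm_mul]
    have := mul_le_mul_of_nonneg_left z3.le (norm_nonneg l)
    linarith
  · rw [(hX _).2.2.1, (hX _).2.2.2]
    have him : (((τ : ℂ) + ε * I).im : ℂ) = ε := by simp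
    rw [him]
    have e : l * ε * (Pm κ (τ + ε * I) + R (cj L) (τ + ε * I) +
          I * ε * (Pm' κ (τ + ε * I) + R' (cj L) (τ + ε * I))) - deriv (deriv g) 0 / 2 =
        l * (ε * (Pm κ (τ + ε * I) + R (cj L) (τ + ε * I)) - R (cj M) I) +
        l * I * (ε ^ 2 * (Pm' κ (τ + ε * I) + R' (cj L) (τ + ε * I)) - R' (cj M) I) +
        (l * (R (cj M) I + I * R' (cj M) I) - deriv (deriv g) 0 / 2) := by ring
    rw [e]
    refine (norm_add₃_le).trans_lt ?_
    rw [norm_mul, norm_mul, norm_mul, Complex.norm_I, mul_one]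
    have h1 := mul_le_mul_of_nonneg_left z3.le (norm_nonneg l)
    have h2 := mul_le_mul_of_nonneg_left z4.le (norm_nonneg l)
    linarith

end Pool.Agent.Lib.MP4cd976.D
end

section
/-!
# The final gluing: root piece at the gate `W (N-1) | W 0` (MP_4cd976_an, block D)
-/
set_option autoImplicit false

open Complex Filter Topology

namespace Pool.Agent.Lib.MP4cd976.Glu

theorem exists_pos {K : ℕ} {f : ℕ → ℂ} {L : List (ℝ × ℂ)}
    (h : L.map Prod.snd = (List.range K).map f) :
    ∃ x : ℕ → ℝ, L = (List.range K).map fun i => (x i, f i) := by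
  have hlen : L.length = K := by
    have := congrArg List.length h
    simpa using this
  refine ⟨fun i => (L.getD i (0, 0)).1, ?_⟩
  apply List.ext_getElem
  · simp [hlen]
  · intro i h1 h2
    have h3 : (L.map Prod.snd)[i]'(by simpa using h1) = ((List.range K).map f)[i]'(by
        simpa using (hlen ▸ h1)) := by
      simp only [h]
    simp only [List.getElem_map, List.getElem_range] at h3
    simp only [List.getElem_map, List.getElem_range, List.getD_eq_getElem?_getD,
      List.getElem?_eq_getElem h1, Option.getD_some]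
    rw [← h3]

theorem sum_map_range (K : ℕ) (f : ℕ → ℂ) :
    ((List.range K).map f).sum = ∑ i ∈ Finset.range K, f i := by
  induction K with
  | zero => simp
  | succ n ih => rw [List.range_succ, Finset.sum_range_succ]; simp [ih]

theorem R_range (K : ℕ) (x : ℕ → ℝ) (c : ℕ → ℂ) (X : ℂ) :
    R ((List.range K).map fun i => (x i, c i)) X = ∑ i ∈ Finset.range K, c i / (X - x i) := by
  rw [R, List.map_map, ← sum_map_range]
  rfl

theorem R'_range (K : ℕ) (x : ℕ → ℝ) (c : ℕ → ℂ) (X : ℂ) :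
    R' ((List.range K).map fun i => (x i, c i)) X
      = ∑ i ∈ Finset.range K, -c i / (X - x i) ^ 2 := by
  rw [R', List.map_map, ← sum_map_range]
  rfl

theorem R_reverse (L : List (ℝ × ℂ)) (X : ℂ) : R L.reverse X = R L X := by
  simp only [R, List.map_reverse, List.sum_reverse]

theorem R'_reverse (L : List (ℝ × ℂ)) (X : ℂ) : R' L.reverse X = R' L X := by
  simp only [R', List.map_reverse, List.sum_reverse]

theorem cj_range (K : ℕ) (x : ℕ → ℝ) (c : ℕ → ℂ) :
    cj ((List.range K).map fun i => (x i, c i))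
      = (List.range K).map fun i => (x i, (starRingEnd ℂ) (c i)) := by
  simp [cj]

theorem cj_reverse (L : List (ℝ × ℂ)) : cj L.reverse = (cj L).reverse := by
  simp [cj]

theorem jump_ne_zero {P : ℂ → ℂ} {L : List (ℝ × ℂ)}
    (h : ∀ X : ℂ, 0 ≤ X.im → F P L X ≠ 0) {p : ℝ × ℂ} (hp : p ∈ L) : p.2 ≠ 0 := by
  obtain ⟨A, B, rfl⟩ := List.append_of_mem hp
  intro h0
  apply h p.1 (by simp)
  have : F P (A ++ p :: B) (p.1 : ℂ) = F P (A ++ (p.1, p.2) :: B) (p.1 : ℂ) := rfl
  rw [this, F_orig, h0]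
  simp

theorem Lf_zero {W : ℕ → ℂ} {K i : ℕ} (h : i ≤ K) :
    Lf W K i ++ ((List.range i).reverse).map (fun n => W n - W (n + 1)) = Lf W K 0 := by
  induction i with
  | zero => simp
  | succ i ih =>
    rw [List.range_succ, List.reverse_append, List.reverse_singleton, List.map_append,
      List.map_singleton, ← List.append_assoc, ← Lf_step (W := W) (K := K) (i := i) (by omega)]
    exact ih (by omega)

/-- Conversion of a good list with the palindromic jump word into tied data. -/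
theorem tied_of_list {W : ℕ → ℂ} {K : ℕ} {κ : ℂ} (hκ : κ ≠ 0) {L : List (ℝ × ℂ)}
    (hL : L.map Prod.snd = Lf W K 0 ++ Rt W K 0) (hsl : SL L)
    (hnz : ∀ X : ℂ, 0 ≤ X.im → F (Pe κ) L X ≠ 0) :
    ∃ a b : ℕ → ℝ, D.Tied K κ a b (fun i => W i - W (i + 1)) ∧
      (∀ X, Pe κ X + R L X = D.HC K κ a b (fun i => W i - W (i + 1)) X) ∧
      (∀ X, Pe' κ X + R' L X = D.HC' K κ a b (fun i => W i - W (i + 1)) X) ∧
      (∀ X, Pm κ X + R (cj L) X = D.HS K κ a b (fun i => W i - W (i + 1)) X) ∧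
      (∀ X, Pm' κ X + R' (cj L) X = D.HS' K κ a b (fun i => W i - W (i + 1)) X) := by
  rw [List.map_eq_append_iff] at hL
  obtain ⟨L₁, L₂, rfl, h1, h2⟩ := hL
  have h1' : L₁.reverse.map Prod.snd = (List.range K).map fun n => W n - W (n + 1) := by
    rw [List.map_reverse, h1, Lf, ← List.map_reverse, List.reverse_reverse, Nat.sub_zero,
      ← List.range_eq_range']
  have h2' : L₂.map Prod.snd = (List.range K).map fun n => W (n + 1) - W n := by
    rw [h2, Rt, Nat.sub_zero, ← List.range_eq_range']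
  obtain ⟨a, ha⟩ := exists_pos h1'
  obtain ⟨b, hb⟩ := exists_pos h2'
  have hL1 : L₁ = ((List.range K).map fun i => (a i, W i - W (i + 1))).reverse := by
    rw [← ha, List.reverse_reverse]
  have hR : ∀ X, R (L₁ ++ L₂) X = ∑ i ∈ Finset.range K,
      (W i - W (i + 1)) * (1 / (X - a i) - 1 / (X - b i)) := by
    intro X
    rw [R_append, hL1, R_reverse, hb, R_range, R_range, ← Finset.sum_add_distrib]
    exact Finset.sum_congr rfl fun i _ => by ring
  have hR' : ∀ X, R' (L₁ ++ L₂) X = -∑ i ∈ Finset.range K,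
      (W i - W (i + 1)) * (1 / (X - a i) ^ 2 - 1 / (X - b i) ^ 2) := by
    intro X
    rw [R'_append, hL1, R'_reverse, hb, R'_range, R'_range, ← Finset.sum_add_distrib,
      ← Finset.sum_neg_distrib]
    exact Finset.sum_congr rfl fun i _ => by ring
  have hcR : ∀ X, R (cj (L₁ ++ L₂)) X = ∑ i ∈ Finset.range K,
      (starRingEnd ℂ) (W i - W (i + 1)) * (1 / (X - a i) - 1 / (X - b i)) := by
    intro X
    rw [cj_append, R_append, hL1, cj_reverse, R_reverse, hb, cj_range, cj_range, R_range, R_range,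
      ← Finset.sum_add_distrib]
    refine Finset.sum_congr rfl fun i _ => ?_
    rw [map_sub, map_sub]; ring
  have hcR' : ∀ X, R' (cj (L₁ ++ L₂)) X = -∑ i ∈ Finset.range K,
      (starRingEnd ℂ) (W i - W (i + 1)) * (1 / (X - a i) ^ 2 - 1 / (X - b i) ^ 2) := by
    intro X
    rw [cj_append, R'_append, hL1, cj_reverse, R'_reverse, hb, cj_range, cj_range, R'_range,
      R'_range, ← Finset.sum_add_distrib, ← Finset.sum_neg_distrib]
    refine Finset.sum_congr rfl fun i _ => ?_
    rw [map_sub, map_sub]; ring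
  have hHC : ∀ X, Pe κ X + R (L₁ ++ L₂) X
      = D.HC K κ a b (fun i => W i - W (i + 1)) X := by
    intro X; rw [hR]; simp only [Pe, D.HC]
  have hmem1 : ∀ i < K, (a i, W i - W (i + 1)) ∈ L₁ := by
    intro i hi
    rw [hL1, List.mem_reverse, List.mem_map]
    exact ⟨i, List.mem_range.2 hi, rfl⟩
  have hmem2 : ∀ i < K, (b i, W (i + 1) - W i) ∈ L₂ := by
    intro i hi
    rw [hb, List.mem_map]
    exact ⟨i, List.mem_range.2 hi, rfl⟩
  unfold SL at hsl
  rw [List.pairwise_append] at hsl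
  obtain ⟨s1, s2, s3⟩ := hsl
  have hanti : ∀ i j, i < j → j < K → a j < a i := by
    intro i j hij hj
    rw [← List.pairwise_reverse, ha, List.pairwise_map, List.pairwise_iff_getElem] at s1
    have := s1 i j (by simpa using (hij.trans hj)) (by simpa using hj) hij
    simpa using this
  have hmono : ∀ i j, i < j → j < K → b i < b j := by
    intro i j hij hj
    rw [hb, List.pairwise_map, List.pairwise_iff_getElem] at s2
    have := s2 i j (by simpa using (hij.trans hj)) (by simpa using hj) hij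
    simpa using this
  refine ⟨a, b, ⟨hκ, hanti, hmono, ?_, ?_, ?_⟩, hHC, ?_, ?_, ?_⟩
  · intro i j hi hj
    exact s3 _ (hmem1 i hi) _ (hmem2 j hj)
  · intro i hi
    exact jump_ne_zero hnz (p := (a i, W i - W (i + 1))) (List.mem_append_left _ (hmem1 i hi))
  · intro X hX hne
    rw [← hHC]
    have hpole : ∀ p ∈ L₁ ++ L₂, X ≠ p.1 := by
      intro p hp
      rw [List.mem_append] at hp
      rcases hp with hp | hp
      · rw [hL1, List.mem_reverse, List.mem_map] at hp
        obtain ⟨i, hi, rfl⟩ := hp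
        exact (hne i (List.mem_range.1 hi)).1
      · rw [hb, List.mem_map] at hp
        obtain ⟨i, hi, rfl⟩ := hp
        exact (hne i (List.mem_range.1 hi)).2
    intro h0
    apply hnz X hX
    rw [R_eq hpole] at h0
    have hD := D_ne_zero hpole
    simp only [F]
    field_simp at h0
    linear_combination h0
  · intro X; rw [hR']; simp only [Pe', D.HC']; ring
  · intro X; rw [hcR]; simp only [Pm, D.HS]
  · intro X; rw [hcR']; simp only [Pm', D.HS']; ring

theorem dn_anti {N : ℕ} {i j : ℕ} (hij : i < j) (hj : j < N - 1) : D.dn N j < D.dn N i := by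
  have hN : (0 : ℝ) < N := by
    have : 0 < N := by omega
    exact_mod_cast this
  have hpos : ∀ k : ℕ, 0 < Real.pi * ((k : ℝ) + 1) / N := fun k => by positivity
  have hlt : ∀ k : ℕ, k < N - 1 → Real.pi * ((k : ℝ) + 1) / N < Real.pi := by
    intro k hk
    have : (k : ℝ) + 1 < N := by
      have : k + 1 < N := by omega
      exact_mod_cast this
    rw [div_lt_iff₀ hN]
    exact mul_lt_mul_of_pos_left this Real.pi_pos
  have hs : ∀ k : ℕ, k < N - 1 → 0 < Real.sin (Real.pi * ((k : ℝ) + 1) / N) := fun k hk =>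
    Real.sin_pos_of_pos_of_lt_pi (hpos k) (hlt k hk)
  simp only [D.dn]
  rw [div_lt_div_iff₀ (hs j hj) (hs i (hij.trans hj))]
  have h1 : 0 < Real.sin (Real.pi * ((j : ℝ) + 1) / N - Real.pi * ((i : ℝ) + 1) / N) := by
    apply Real.sin_pos_of_pos_of_lt_pi
    · have : (i : ℝ) < j := by exact_mod_cast hij
      have : Real.pi * ((i : ℝ) + 1) / N < Real.pi * ((j : ℝ) + 1) / N := by
        apply div_lt_div_of_pos_right _ hN
        nlinarith [Real.pi_pos]
      linarith
    · linarith [hpos i, hlt j hj]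
  rw [Real.sin_sub] at h1
  linarith

/-- **FIN**, approximation form. -/
theorem fin_apx {N : ℕ} (hN : 3 ≤ N) {Fd : ℂ → ℂ} {ℓ : ℝ} {W : ℕ → ℂ} (hS : D.Spiral N Fd ℓ W)
    (hroot : ∀ ξ : ℂ, 0 ≤ ξ.im → (∀ i, i < N - 1 → ξ ≠ (D.dn N i : ℂ)) →
      ∑ i ∈ Finset.range (N - 1), (W i - W (i + 1)) / (ξ - D.dn N i) ≠ 0)
    {δ : ℝ} (hδ : 0 < δ) :
    ∃ (κ : ℂ) (a b : ℕ → ℝ), D.Tied (N * N + N - 1) κ a b (fun i => W i - W (i + 1)) ∧
      ∃ (z : ℂ) (ε : ℝ), 0 < z.im ∧ 0 < ε ∧
        ‖(ε : ℂ) * D.HC (N * N + N - 1) κ a b (fun i => W i - W (i + 1)) z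
          - ∑ i ∈ Finset.range (N - 1), (W i - W (i + 1)) / (I - D.dn N i)‖ < δ ∧
        ‖(ε : ℂ) * (D.HC (N * N + N - 1) κ a b (fun i => W i - W (i + 1)) z
            + I * z.im * D.HC' (N * N + N - 1) κ a b (fun i => W i - W (i + 1)) z)
          - (∑ i ∈ Finset.range (N - 1), (W i - W (i + 1)) / (I - D.dn N i)
            - I * ∑ i ∈ Finset.range (N - 1), (W i - W (i + 1)) / (I - D.dn N i) ^ 2)‖ < δ ∧
        ‖(ε : ℂ) * D.HS (N * N + N - 1) κ a b (fun i => W i - W (i + 1)) z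
          - ∑ i ∈ Finset.range (N - 1),
            (starRingEnd ℂ) (W i - W (i + 1)) / (I - D.dn N i)‖ < δ ∧
        ‖(ε : ℂ) * (D.HS (N * N + N - 1) κ a b (fun i => W i - W (i + 1)) z
            + I * z.im * D.HS' (N * N + N - 1) κ a b (fun i => W i - W (i + 1)) z)
          - (∑ i ∈ Finset.range (N - 1), (starRingEnd ℂ) (W i - W (i + 1)) / (I - D.dn N i)
            - I * ∑ i ∈ Finset.range (N - 1),
              (starRingEnd ℂ) (W i - W (i + 1)) / (I - D.dn N i) ^ 2)‖ < δ := by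
  set K := N * N + N - 1 with hK
  have hNN : N ≤ N * N := Nat.le_mul_self N
  -- the word
  have hN0 : (N : ℂ) ≠ 0 := by
    have : 0 < N := by omega
    exact_mod_cast this.ne'
  have hW : ∀ n, K + 1 ≤ n + N → n ≤ K → W n = ℓ * ee N n := by
    intro n h1 h2
    obtain ⟨m, rfl⟩ : ∃ m, n = N * N + m := ⟨n - N * N, by omega⟩
    rw [hS.outer m (by omega)]
    congr 1
    simp only [D.ex, ee]
    have : -(2 * (Real.pi : ℂ) * ((N * N + m : ℕ) : ℂ) / N) * I
        = ((-(2 * Real.pi * m / N) : ℝ) : ℂ) * I - (N : ℕ) * (2 * Real.pi * I) := by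
      push_cast
      field_simp
      ring
    rw [this, Complex.exp_sub, Complex.exp_nat_mul, Complex.exp_two_pi_mul_I, one_pow, div_one]
  have hcr : ∀ u v : ℂ, ((starRingEnd ℂ) u * v).im = D.cr u v := by
    intro u v
    simp only [D.cr, Complex.mul_im, Complex.conj_re, Complex.conj_im]
    ring
  have hword := spiral_word (W := W) (K := K) (N := N) (by omega) (by omega) hS.L0 hW (by
    intro j h1 h2
    rw [hcr, hcr]
    exact ⟨hS.tri1 j h1 (by omega), hS.tri2 j h1 (by omega)⟩)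
  -- the root list
  set M : List (ℝ × ℂ) :=
    ((List.range (N - 1)).map fun n => (D.dn N n, W n - W (n + 1))).reverse with hM
  have hMsl : SL M := by
    unfold SL
    rw [hM, List.pairwise_reverse, List.pairwise_map]
    refine (List.pairwise_lt_range (n := N - 1)).imp_of_mem ?_
    intro i j _ hj hij
    exact dn_anti hij (List.mem_range.1 hj)
  have hMmap : M.map Prod.snd
      = ((List.range (N - 1)).reverse).map fun n => W n - W (n + 1) := by
    rw [hM, List.map_reverse, List.map_map, List.map_reverse]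
    rfl
  have hne : ∀ i, i < N - 1 → W i - W (i + 1) ≠ 0 := by
    intro i hi h0
    have h1 := hS.tri1 (i + 1) (by omega) (by omega)
    have h2 : W (i + 1) = W i := (sub_eq_zero.1 h0).symm
    simp only [Nat.add_sub_cancel, h2, D.cr] at h1
    linarith
  have hMS : S M = W 0 - W (N - 1) := by
    rw [S, hMmap, List.map_reverse, List.sum_reverse, sum_map_range, Finset.sum_range_sub']
  have hMR : ∀ X, R M X = ∑ i ∈ Finset.range (N - 1), (W i - W (i + 1)) / (X - D.dn N i) := by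
    intro X; rw [hM, R_reverse, R_range]
  have hMN : ∀ X : ℂ, 0 ≤ X.im → Pool.Agent.Lib.MP4cd976.Glu.N M X ≠ 0 := by
    intro X hX
    by_cases hp : ∀ p ∈ M, X ≠ p.1
    · intro h0
      apply hroot X hX
      · intro i hi
        refine hp (D.dn N i, W i - W (i + 1)) ?_
        rw [hM, List.mem_reverse, List.mem_map]
        exact ⟨i, List.mem_range.2 hi, rfl⟩
      · rw [← hMR, R_eq hp, h0, zero_div]
    · push Not at hp
      obtain ⟨p, hpM, hpX⟩ := hp
      have hp2 : p.2 ≠ 0 := by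
        rw [hM, List.mem_reverse, List.mem_map] at hpM
        obtain ⟨i, hi, rfl⟩ := hpM
        exact hne i (List.mem_range.1 hi)
      obtain ⟨A, B, hAB⟩ := List.append_of_mem hpM
      have hsl' := hMsl
      unfold SL at hsl'
      rw [hAB, List.pairwise_append, List.pairwise_cons] at hsl'
      have hA : D A X ≠ 0 := by
        apply D_ne_zero
        intro q hq h
        have h1 := hsl'.2.2 q hq p (by simp)
        rw [hpX] at h
        have h2 : p.1 = q.1 := by exact_mod_cast h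
        linarith
      have hB : D B X ≠ 0 := by
        apply D_ne_zero
        intro q hq h
        have h1 := hsl'.2.1.1 q hq
        rw [hpX] at h
        have h2 : p.1 = q.1 := by exact_mod_cast h
        linarith
      rw [hAB, N_append]
      simp only [Pool.Agent.Lib.MP4cd976.Glu.N, Pool.Agent.Lib.MP4cd976.Glu.D, hpX, sub_self,
        zero_mul, mul_zero, zero_add, add_zero]
      rw [hpX] at hA hB
      exact mul_ne_zero hA (mul_ne_zero hp2 hB)
  obtain ⟨κ, hκ, L, hL, hsl, hnz, τ, ε, hε, e1, e2, e3, e4⟩ :=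
    glue_zoom hword hMsl hMN hMS I (half_pos hδ)
  rw [hMmap, Lf_zero (W := W) (K := K) (i := N - 1) (by omega)] at hL
  obtain ⟨a, b, hT, q1, q2, q3, q4⟩ := tied_of_list hκ hL hsl hnz
  have hMR' : R' M I = -∑ i ∈ Finset.range (N - 1), (W i - W (i + 1)) / (I - D.dn N i) ^ 2 := by
    rw [hM, R'_reverse, R'_range, ← Finset.sum_neg_distrib]
    exact Finset.sum_congr rfl fun i _ => by ring
  have hcMR : R (cj M) I = ∑ i ∈ Finset.range (N - 1),
      (starRingEnd ℂ) (W i - W (i + 1)) / (I - D.dn N i) := by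
    rw [hM, cj_reverse, cj_range, R_reverse, R_range]
  have hcMR' : R' (cj M) I = -∑ i ∈ Finset.range (N - 1),
      (starRingEnd ℂ) (W i - W (i + 1)) / (I - D.dn N i) ^ 2 := by
    rw [hM, cj_reverse, cj_range, R'_reverse, R'_range, ← Finset.sum_neg_distrib]
    exact Finset.sum_congr rfl fun i _ => by ring
  rw [q1, hMR] at e1
  rw [q2, hMR'] at e2
  rw [q3, hcMR] at e3
  rw [q4, hcMR'] at e4
  have him : ((τ : ℂ) + ε * I).im = ε := by simp
  have key : ∀ x y s t : ℂ, ‖(ε : ℂ) * x - s‖ < δ / 2 → ‖(ε : ℂ) ^ 2 * y - -t‖ < δ / 2 →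
      ‖(ε : ℂ) * (x + I * ε * y) - (s - I * t)‖ < δ := by
    intro x y s t h1 h2
    have e : (ε : ℂ) * (x + I * ε * y) - (s - I * t)
        = ((ε : ℂ) * x - s) + I * ((ε : ℂ) ^ 2 * y - -t) := by ring
    rw [e]
    refine (norm_add_le _ _).trans_lt ?_
    rw [norm_mul, Complex.norm_I, one_mul]
    linarith
  refine ⟨κ, a, b, hT, (τ : ℂ) + ε * I, ε, by rw [him]; exact hε, hε, ?_, ?_, ?_, ?_⟩
  · exact e1.trans (half_lt_self hδ)
  · rw [him]; exact key _ _ _ _ e1 e2
  · exact e3.trans (half_lt_self hδ)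
  · rw [him]; exact key _ _ _ _ e3 e4

end Pool.Agent.Lib.MP4cd976.Glu
end

section
/-!
# MP_4cd976_an, block D (helper14): `Nice → Apx`, final.
-/
set_option autoImplicit false

open Complex Filter Topology

namespace Pool.Agent.Lib.MP4cd976.D

theorem listTied' : ListTied := by
  intro K W κ L hκ hL hsl hnz
  obtain ⟨a, b, ht, h1, h2, h3, h4⟩ := Glu.tied_of_list hκ hL hsl hnz
  exact ⟨a, b, _, ht, fun X => ⟨(h1 X).symm, (h2 X).symm, (h3 X).symm, (h4 X).symm⟩⟩

theorem rootProp (ρ : ℝ) (h g : ℂ → ℂ) (hn : Nice ρ h g) : RootProp h g := by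
  intro δ hδ
  obtain ⟨hev, l1, l2, l3, l4⟩ := RT.root hn.ρ1 hn.dh hn.dg hn.sp
  have hpi : (Real.pi : ℂ) ≠ 0 := by exact_mod_cast Real.pi_ne_zero
  set l : ℂ := -1 / Real.pi with hl
  have near : ∀ {f : ℕ → ℂ} {c : ℂ}, Tendsto f atTop (𝓝 (-Real.pi * c)) →
      ∀ᶠ N in atTop, ‖l * f N - c‖ < δ := by
    intro f c hf
    have h1 := hf.const_mul l
    have e : l * (-Real.pi * c) = c := by rw [hl]; field_simp
    rw [e] at h1
    have := (Metric.tendsto_nhds.1 h1) δ hδ
    filter_upwards [this] with N hN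
    rwa [dist_eq_norm] at hN
  filter_upwards [hev, near l1, near l2, near l3, near l4] with N hN n1 n2 n3 n4
  refine ⟨RT.RL N (RT.WR h g N), l, hN.1, hN.2.1, ?_, n1, n2, n3, n4⟩
  simp only [RT.RL, List.map_map]
  rfl

/-- **Block D**: every nice map is approximated by tied path maps. -/
theorem apx : ∀ (ρ : ℝ) (h g : ℂ → ℂ), Nice ρ h g → Apx h g := apx_of listTied' rootProp

end Pool.Agent.Lib.MP4cd976.D
end
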